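import Mathlib

/-! Truncated exponential and logarithm in an algebra over a ring in which small integers are
invertible. -/

set_option autoImplicit false

namespace Pool.Agent.Lib.MP_95ba65_al.LP

open Finset Polynomial

/-- All integers `1, ..., T` are invertible in `R`. -/
def Un (R : Type*) [CommRing R] (T : ℕ) : Prop := ∀ k : ℕ, 0 < k → k ≤ T → IsUnit (k : R)

theorem Un.mono {R : Type*} [CommRing R] {T T' : ℕ} (h : Un R T) (hT : T' ≤ T) : Un R T' :=
  fun k h0 hk => h k h0 (hk.trans hT)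

/-- Inverse factorial. -/
noncomputable def fi (R : Type*) [CommRing R] (i : ℕ) : R := Ring.inverse ((i.factorial : ℕ) : R)

section
variable {R : Type*} [CommRing R]

theorem Un.fact {T : ℕ} (h : Un R T) {i : ℕ} (hi : i ≤ T) : IsUnit ((i.factorial : ℕ) : R) := by
  induction i with
  | zero => simp
  | succ i ih =>
    rw [Nat.factorial_succ, Nat.cast_mul]
    exact (h (i + 1) (Nat.succ_pos i) hi).mul (ih (by omega))

theorem fi_zero : fi R 0 = 1 := by simp [fi]

theorem fi_one : fi R 1 = 1 := by simp [fi]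

theorem fi_mul {T : ℕ} (h : Un R T) {i : ℕ} (hi : i ≤ T) :
    fi R i * ((i.factorial : ℕ) : R) = 1 := Ring.inverse_mul_cancel _ (h.fact hi)

theorem fi_choose {T : ℕ} (h : Un R T) {i j : ℕ} (hij : i + j ≤ T) :
    fi R (i + j) * ((i + j).choose i : ℕ) = fi R i * fi R j := by
  have h1 := fi_mul h hij
  have h2 := fi_mul h (show i ≤ T by omega)
  have h3 := fi_mul h (show j ≤ T by omega)
  have h4 : (((i + j).choose i : ℕ) : R) * (i.factorial : ℕ) * (j.factorial : ℕ)
      = ((i + j).factorial : ℕ) := by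
    rw [← Nat.cast_mul, ← Nat.cast_mul]
    congr 1
    have := Nat.add_choose_mul_factorial_mul_factorial j i
    rw [add_comm j i] at this
    rw [← this]; ring
  calc fi R (i + j) * ((i + j).choose i : ℕ)
      = fi R (i + j) * ((i + j).choose i : ℕ) * (fi R i * (i.factorial : ℕ))
          * (fi R j * (j.factorial : ℕ)) := by rw [h2, h3]; ring
    _ = fi R (i + j) * ((((i + j).choose i : ℕ) : R) * (i.factorial : ℕ) * (j.factorial : ℕ))
          * (fi R i * fi R j) := by ring
    _ = fi R i * fi R j := by rw [h4, h1, one_mul]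

theorem fi_succ {T : ℕ} (h : Un R T) {i : ℕ} (hi : i + 1 ≤ T) :
    fi R (i + 1) * ((i + 1 : ℕ) : R) = fi R i := by
  have := fi_choose h hi
  rw [Nat.choose_succ_self_right, fi_one, mul_one] at this
  exact this

end

theorem sum_square_eq {M : Type*} [AddCommMonoid M] (T : ℕ) (f : ℕ → ℕ → M)
    (hf : ∀ i j, T ≤ i + j → f i j = 0) :
    ∑ i ∈ range T, ∑ j ∈ range T, f i j
      = ∑ k ∈ range T, ∑ p ∈ antidiagonal k, f p.1 p.2 := by
  have h1 : ∀ k, ∑ p ∈ antidiagonal k, f p.1 p.2 = ∑ i ∈ range (k + 1), f i (k - i) :=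
    fun k => Finset.Nat.sum_antidiagonal_eq_sum_range_succ f k
  simp_rw [h1]
  rw [Finset.sum_range_diag_flip]
  refine sum_congr rfl fun i hi => ?_
  symm
  apply sum_subset
  · intro j hj
    simp only [mem_range] at hj ⊢
    omega
  · intro j _ hj
    simp only [mem_range] at hj
    exact hf i j (by omega)

variable (R : Type*) [CommRing R] {A : Type*} [Ring A] [Algebra R A]

/-- Truncated exponential. -/
noncomputable def ex (T : ℕ) (x : A) : A := ∑ i ∈ range T, fi R i • x ^ i

variable {R}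

theorem map_ex {B : Type*} [Ring B] [Algebra R B] (f : A →ₐ[R] B) (T : ℕ) (x : A) :
    f (ex R T x) = ex R T (f x) := by
  simp [ex, map_sum]

theorem ex_add {T : ℕ} (h : Un R T) {a b : A} (hab : Commute a b)
    (hz : ∀ i j, T ≤ i + j → a ^ i * b ^ j = 0) :
    ex R T (a + b) = ex R T a * ex R T b := by
  unfold ex
  rw [sum_mul_sum]
  have h1 : ∀ i j, (fi R i • a ^ i) * (fi R j • b ^ j) = (fi R i * fi R j) • (a ^ i * b ^ j) := by
    intro i j
    rw [smul_mul_smul_comm]
  simp_rw [h1]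
  rw [sum_square_eq T (fun i j => (fi R i * fi R j) • (a ^ i * b ^ j))
    (fun i j hij => by rw [hz i j hij, smul_zero])]
  refine sum_congr rfl fun k hk => ?_
  rw [hab.add_pow', smul_sum]
  refine sum_congr rfl fun p hp => ?_
  have hk' : p.1 + p.2 = k := mem_antidiagonal.1 hp
  have hkT : p.1 + p.2 ≤ T := by rw [hk']; exact (mem_range.1 hk).le
  rw [← fi_choose h hkT, hk', ← Nat.cast_smul_eq_nsmul R, smul_smul]

theorem ex_zero {T : ℕ} (hT : 0 < T) : ex R T (0 : A) = 1 := by
  obtain ⟨T, rfl⟩ : ∃ T', T = T' + 1 := ⟨T - 1, by omega⟩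
  simp [ex, sum_range_succ', fi_zero]

theorem ex_eq_two (T : ℕ) (x : A) :
    ex R (T + 2) x = 1 + x + ∑ i ∈ range T, fi R (i + 2) • x ^ (i + 2) := by
  unfold ex
  rw [sum_range_succ', sum_range_succ', fi_zero, fi_one]
  simp only [zero_add, pow_one, one_smul, pow_zero]
  abel

theorem commute_ex {T : ℕ} {a x : A} (h : Commute a x) : Commute a (ex R T x) := by
  unfold ex
  exact Commute.sum_right _ _ _ fun i _ => (h.pow_right i).smul_right _

theorem pow_neg_zero {a : A} {T : ℕ} (h : a ^ T = 0) :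
    ∀ i j, T ≤ i + j → a ^ i * (-a) ^ j = 0 := by
  intro i j hij
  rw [neg_pow, ← mul_assoc, ((Commute.neg_one_right (a ^ i)).pow_right j).eq, mul_assoc,
    ← pow_add, pow_eq_zero_of_le hij h, mul_zero]

theorem ex_mul_neg {T : ℕ} (h : Un R T) (hT : 0 < T) {a : A} (ha : a ^ T = 0) :
    ex R T a * ex R T (-a) = 1 := by
  rw [← ex_add h (Commute.refl a).neg_right (pow_neg_zero ha), add_neg_cancel, ex_zero hT]

theorem ex_neg_mul {T : ℕ} (h : Un R T) (hT : 0 < T) {a : A} (ha : a ^ T = 0) :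
    ex R T (-a) * ex R T a = 1 := by
  have h1 : (-a) ^ T = 0 := by rw [neg_pow, ha, mul_zero]
  have := ex_mul_neg h hT h1
  rwa [neg_neg] at this

/-- `ex x - 1` is `x` times something commuting with `x`. -/
theorem ex_sub_one {T : ℕ} (hT : 0 < T) (x : A) :
    ∃ y : A, Commute x y ∧ ex R T x - 1 = x * y := by
  obtain ⟨T, rfl⟩ : ∃ T', T = T' + 1 := ⟨T - 1, by omega⟩
  refine ⟨∑ i ∈ range T, fi R (i + 1) • x ^ i, ?_, ?_⟩
  · exact Commute.sum_right _ _ _ fun i _ => ((Commute.refl x).pow_right i).smul_right _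
  · unfold ex
    rw [sum_range_succ', fi_zero, mul_sum]
    simp only [pow_zero, one_smul, add_sub_cancel_right]
    refine sum_congr rfl fun i _ => ?_
    rw [mul_smul_comm, pow_succ']

theorem eq_zero_of_ex_eq_one {T : ℕ} {d : A} (hd : d ^ (T + 2) = 0)
    (h1 : ex R (T + 2) d = 1) : d = 0 := by
  rw [ex_eq_two] at h1
  set y : A := ∑ i ∈ range T, fi R (i + 2) • d ^ i with hy
  have hc : Commute d y :=
    Commute.sum_right _ _ _ fun i _ => ((Commute.refl d).pow_right i).smul_right _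
  have h2 : ∑ i ∈ range T, fi R (i + 2) • d ^ (i + 2) = d * (d * y) := by
    rw [hy, mul_sum, mul_sum]
    refine sum_congr rfl fun i _ => ?_
    rw [mul_smul_comm, mul_smul_comm, pow_succ', pow_succ']
  rw [h2] at h1
  have h3 : d * (1 + d * y) = 0 := by
    rw [mul_add, mul_one]
    have : d + d * (d * y) = (1 + d + d * (d * y)) - 1 := by abel
    rw [this, h1, sub_self]
  have hn : IsNilpotent (d * y) := hc.isNilpotent_mul_right ⟨_, hd⟩
  exact (hn.isUnit_one_add.mul_left_eq_zero).1 h3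

theorem exists_lam {T : ℕ} (j : ℕ) :
    ∃ l : R[X], X ∣ l ∧ X ^ (j + 1) ∣ ex R (T + 2) l - (1 + X) := by
  induction j with
  | zero =>
    refine ⟨0, dvd_zero _, ?_⟩
    rw [ex_zero (by omega)]
    simp
  | succ j ih =>
    obtain ⟨l, hl, q, hq⟩ := ih
    set d : R[X] := -(X ^ (j + 1) * q) with hd
    have hXd : X ∣ d := by
      rw [hd, dvd_neg, pow_succ']
      exact (dvd_mul_right _ _).mul_right _
    refine ⟨l + d, dvd_add hl hXd, ?_⟩
    have h1 : ex R (T + 2) (l + d) - (1 + X)
        = ∑ i ∈ range T, fi R (i + 2) • ((l + d) ^ (i + 2) - l ^ (i + 2)) := by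
      have h2 : ex R (T + 2) l = 1 + X - d := by
        rw [hd, ← hq]; ring
      rw [ex_eq_two] at h2
      rw [ex_eq_two]
      simp_rw [smul_sub]
      rw [sum_sub_distrib]
      linear_combination h2
    rw [h1]
    refine dvd_sum fun i _ => ?_
    rw [smul_eq_C_mul]
    refine Dvd.dvd.mul_left ?_ _
    rw [← Commute.mul_geom_sum₂ (Commute.all (l + d) l), add_sub_cancel_left, pow_succ]
    refine mul_dvd_mul ?_ ?_
    · rw [hd, dvd_neg]; exact dvd_mul_right _ _
    · refine dvd_sum fun k hk => ?_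
      rcases Nat.eq_zero_or_pos k with rfl | hk0
      · exact Dvd.dvd.mul_left (dvd_pow hl (by omega)) _
      · exact Dvd.dvd.mul_right (dvd_pow (dvd_add hl hXd) hk0.ne') _

variable (R) in
/-- The logarithm polynomial. -/
noncomputable def lam (T : ℕ) : R[X] := (exists_lam (R := R) (T := T) (T + 1)).choose

theorem lam_spec (T : ℕ) :
    X ∣ lam R T ∧ X ^ (T + 2) ∣ ex R (T + 2) (lam R T) - (1 + X) :=
  (exists_lam (R := R) (T := T) (T + 1)).choose_spec

variable (R) in
/-- Truncated logarithm (inverse to `ex R (T + 2)`). -/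
noncomputable def lg (T : ℕ) (g : A) : A := aeval (g - 1) (lam R T)

theorem map_lg {B : Type*} [Ring B] [Algebra R B] (f : A →ₐ[R] B) (T : ℕ) (g : A) :
    f (lg R T g) = lg R T (f g) := by
  unfold lg
  rw [← aeval_algHom_apply, map_sub, map_one]

theorem ex_lg {T : ℕ} {g : A} (hg : (g - 1) ^ (T + 2) = 0) : ex R (T + 2) (lg R T g) = g := by
  obtain ⟨q, hq⟩ := (lam_spec (R := R) T).2
  have := congrArg (aeval (g - 1)) hq
  rw [map_sub, map_ex, map_mul, map_pow, aeval_X, hg, zero_mul, map_add, map_one, aeval_X,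
    sub_eq_zero] at this
  rw [lg, this]; abel

theorem commute_aeval {a x : A} (h : Commute a x) (p : R[X]) : Commute a (aeval x p) := by
  rw [aeval_eq_sum_range]
  exact Commute.sum_right _ _ _ fun i _ => (h.pow_right i).smul_right _

theorem lg_eq_mul (T : ℕ) (g : A) :
    ∃ p : R[X], lg R T g = (g - 1) * aeval (g - 1) p := by
  obtain ⟨p, hp⟩ := (lam_spec (R := R) T).1
  exact ⟨p, by rw [lg, hp, map_mul, aeval_X]⟩

theorem lg_one (T : ℕ) : lg R T (1 : A) = 0 := by
  obtain ⟨p, hp⟩ := lg_eq_mul (R := R) T (1 : A)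
  rw [hp, sub_self, zero_mul]

theorem lg_ex {T : ℕ} (h : Un R (T + 2)) {z : A} (hz : z ^ (T + 2) = 0) :
    lg R T (ex R (T + 2) z) = z := by
  obtain ⟨y, hy, hy'⟩ := ex_sub_one (R := R) (T := T + 2) (by omega) z
  obtain ⟨p, hp⟩ := lg_eq_mul (R := R) T (ex R (T + 2) z)
  set w := lg R T (ex R (T + 2) z) with hw
  have hnil : (ex R (T + 2) z - 1) ^ (T + 2) = 0 := by
    rw [hy', hy.mul_pow, hz, zero_mul]
  have hew : ex R (T + 2) w = ex R (T + 2) z := ex_lg hnil
  rw [hy'] at hp
  set y' := y * aeval (z * y) p with hy''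
  have hc : Commute z y' :=
    hy.mul_right (commute_aeval ((Commute.refl z).mul_right hy) p)
  have hw' : w = z * y' := by rw [hp, hy'', mul_assoc]
  have hwz : Commute w (-z) := by
    rw [hw']; exact ((Commute.refl z).mul_left hc.symm).neg_right
  have hvan : ∀ i j, T + 2 ≤ i + j → w ^ i * (-z) ^ j = 0 := by
    intro i j hij
    rw [hw', hc.mul_pow, ((hc.pow_pow i i).eq), mul_assoc, pow_neg_zero hz i j hij, mul_zero]
  have h1 : ex R (T + 2) (w + -z) = 1 := by
    rw [ex_add h hwz hvan, hew, ex_mul_neg h (by omega) hz]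
  have h2 : (w + -z) ^ (T + 2) = 0 := by
    rw [hwz.add_pow']
    refine sum_eq_zero fun q hq => ?_
    rw [hvan q.1 q.2 (mem_antidiagonal.1 hq).ge, smul_zero]
  have := eq_zero_of_ex_eq_one h2 h1
  rwa [← sub_eq_add_neg, sub_eq_zero] at this

/-- The adjoint operator `x ↦ a x - x a`. -/
noncomputable def adj (R : Type*) [CommRing R] {A : Type*} [Ring A] [Algebra R A] (a : A) :
    Module.End R A := LinearMap.mulLeft R a - LinearMap.mulRight R a

theorem adj_apply (a x : A) : adj R a x = a * x - x * a := rfl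

theorem ex_mulLeft (T : ℕ) (a : A) :
    ex R T (LinearMap.mulLeft R a : Module.End R A) = LinearMap.mulLeft R (ex R T a) := by
  ext x
  simp [ex, LinearMap.pow_mulLeft, sum_mul]

theorem ex_mulRight (T : ℕ) (a : A) :
    ex R T (LinearMap.mulRight R a : Module.End R A) = LinearMap.mulRight R (ex R T a) := by
  ext x
  simp [ex, LinearMap.pow_mulRight, mul_sum]

theorem adj_van {c T : ℕ} {a : A} (ha : a ^ c = 0) (hc : 2 * c ≤ T) (i j : ℕ) (hij : T ≤ i + j) :
    (LinearMap.mulLeft R a : Module.End R A) ^ i * (LinearMap.mulRight R (-a)) ^ j = 0 := by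
  rw [LinearMap.pow_mulLeft, LinearMap.pow_mulRight]
  rcases le_or_gt c i with hi | hi
  · rw [pow_eq_zero_of_le hi ha, LinearMap.mulLeft_zero_eq_zero, zero_mul]
  · have : (-a) ^ j = 0 := by
      rw [neg_pow, pow_eq_zero_of_le (show c ≤ j by omega) ha, mul_zero]
    rw [this, LinearMap.mulRight_zero_eq_zero, mul_zero]

theorem adj_eq_add (a : A) :
    adj R a = LinearMap.mulLeft R a + LinearMap.mulRight R (-a) := by
  ext x
  simp [adj_apply, sub_eq_add_neg]

theorem commute_left_right (a b : A) :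
    Commute (LinearMap.mulLeft R a : Module.End R A) (LinearMap.mulRight R b) := by
  ext x
  simp [mul_assoc]

theorem adj_pow_zero {c T : ℕ} {a : A} (ha : a ^ c = 0) (hc : 2 * c ≤ T) :
    (adj R a) ^ T = 0 := by
  rw [adj_eq_add, (commute_left_right a (-a)).add_pow']
  refine sum_eq_zero fun q hq => ?_
  rw [adj_van ha hc q.1 q.2 (mem_antidiagonal.1 hq).ge, smul_zero]

theorem ex_adj {c T : ℕ} (h : Un R T) {a : A} (ha : a ^ c = 0) (hc : 2 * c ≤ T) (x : A) :
    ex R T (adj R a) x = ex R T a * x * ex R T (-a) := by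
  rw [adj_eq_add, ex_add h (commute_left_right a (-a)) (adj_van ha hc), ex_mulLeft, ex_mulRight]
  simp [mul_assoc]

end Pool.Agent.Lib.MP_95ba65_al.LP
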