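import Mathlib
import Pool.Agent.Lib.MP_95ba65_al.LPExp

/-! Filtrations and a Baker-Campbell-Hausdorff statement for the truncated logarithm. -/

set_option autoImplicit false

namespace Pool.Agent.Lib.MP_95ba65_al.LP

open Finset Polynomial

variable {R : Type*} [CommRing R] {A : Type*} [Ring A] [Algebra R A]

/-- A decreasing multiplicative filtration. -/
structure Filt (F : ℕ → Submodule R A) : Prop where
  one : (1 : A) ∈ F 0
  mul : ∀ {i j : ℕ} {x y : A}, x ∈ F i → y ∈ F j → x * y ∈ F (i + j)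
  anti : Antitone F

namespace Filt
variable {F : ℕ → Submodule R A}

theorem mul' (hF : Filt F) {i j k : ℕ} {x y : A} (hx : x ∈ F i) (hy : y ∈ F j) (hk : k ≤ i + j) :
    x * y ∈ F k := hF.anti hk (hF.mul hx hy)

theorem pow (hF : Filt F) {k : ℕ} {x : A} (hx : x ∈ F k) (i : ℕ) : x ^ i ∈ F (k * i) := by
  induction i with
  | zero => simpa using hF.one
  | succ i ih => rw [pow_succ, Nat.mul_succ]; exact hF.mul ih hx

theorem pow_one (hF : Filt F) {x : A} (hx : x ∈ F 1) (i : ℕ) : x ^ i ∈ F i := by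
  simpa using hF.pow hx i

theorem pow_zero (hF : Filt F) {x : A} (hx : x ∈ F 0) (i : ℕ) : x ^ i ∈ F 0 := by
  simpa using hF.pow hx i

theorem eq_zero (hF : Filt F) {c k : ℕ} (hc : F c = ⊥) (hk : c ≤ k) {x : A} (hx : x ∈ F k) :
    x = 0 := by
  have := hF.anti hk hx
  rwa [hc, Submodule.mem_bot] at this

theorem pow_eq_zero (hF : Filt F) {c k : ℕ} (hc : F c = ⊥) (hk : c ≤ k) {x : A} (hx : x ∈ F 1) :
    x ^ k = 0 := hF.eq_zero hc hk (hF.pow_one hx k)

theorem aeval_mem (hF : Filt F) {x : A} (hx : x ∈ F 0) (p : R[X]) : aeval x p ∈ F 0 := by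
  rw [aeval_eq_sum_range]
  exact Submodule.sum_mem _ fun i _ => Submodule.smul_mem _ _ (hF.pow_zero hx i)

theorem ex_mem (hF : Filt F) {x : A} (hx : x ∈ F 0) (T : ℕ) : ex R T x ∈ F 0 :=
  Submodule.sum_mem _ fun i _ => Submodule.smul_mem _ _ (hF.pow_zero hx i)

theorem ex_sub_one_mem (hF : Filt F) {x : A} (hx : x ∈ F 1) (T : ℕ) :
    ex R (T + 2) x - 1 ∈ F 1 := by
  rw [ex_eq_two, add_assoc, add_sub_cancel_left]
  exact Submodule.add_mem _ hx (Submodule.sum_mem _ fun i _ => Submodule.smul_mem _ _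
    (hF.anti (by omega) (hF.pow_one hx (i + 2))))

theorem lg_mem (hF : Filt F) {g : A} (hg : g - 1 ∈ F 1) (T : ℕ) : lg R T g ∈ F 1 := by
  obtain ⟨p, hp⟩ := lg_eq_mul (R := R) T g
  rw [hp]
  exact hF.mul hg (hF.aeval_mem (hF.anti (by omega) hg) p)

theorem mul_sub_one (hF : Filt F) {a b : A} (ha : a - 1 ∈ F 1) (hb : b - 1 ∈ F 1) :
    a * b - 1 ∈ F 1 := by
  have : a * b - 1 = (a - 1) * (b - 1) + (a - 1) + (b - 1) := by noncomm_ring
  rw [this]
  exact Submodule.add_mem _ (Submodule.add_mem _ (hF.mul' ha hb (by omega)) ha) hb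

end Filt

/-- Polynomials whose `i`-th coefficient lies in `S i`. -/
def coefS (S : ℕ → Submodule R A) : Submodule R A[X] where
  carrier := {f | ∀ i, f.coeff i ∈ S i}
  add_mem' := fun {f g} hf hg i => by rw [coeff_add]; exact Submodule.add_mem _ (hf i) (hg i)
  zero_mem' := fun i => by rw [coeff_zero]; exact Submodule.zero_mem _
  smul_mem' := fun r f hf i => by rw [coeff_smul]; exact Submodule.smul_mem _ _ (hf i)

theorem mem_coefS {S : ℕ → Submodule R A} {f : A[X]} : f ∈ coefS S ↔ ∀ i, f.coeff i ∈ S i :=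
  Iff.rfl

theorem Filt.poly {F : ℕ → Submodule R A} (hF : Filt F) (e : ℕ) :
    Filt (fun k => coefS (fun i => F (k + e * i))) where
  one := by
    intro i
    rw [coeff_one]
    split_ifs with h
    · subst h; simpa using hF.one
    · exact Submodule.zero_mem _
  mul := by
    intro k l f g hf hg i
    rw [coeff_mul]
    refine Submodule.sum_mem _ fun p hp => ?_
    have := mem_antidiagonal.1 hp
    refine hF.mul' (hf p.1) (hg p.2) ?_
    rw [← this, mul_add]; omega
  anti := by
    intro k l hkl f hf i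
    exact hF.anti (by omega) (hf i)

theorem monomial_mem_coefS {S : ℕ → Submodule R A} {k : ℕ} {a : A} (ha : a ∈ S k) :
    monomial k a ∈ coefS S := by
  intro i
  rw [coeff_monomial]
  split_ifs with h
  · subst h; exact ha
  · exact Submodule.zero_mem _

theorem bracket_mem_coefS {E N : Submodule R A}
    (h : ∀ x ∈ E, ∀ y ∈ E, x * y - y * x ∈ N) {f g : A[X]}
    (hf : f ∈ coefS (fun _ => E)) (hg : g ∈ coefS (fun _ => E)) :
    f * g - g * f ∈ coefS (fun _ => N) := by
  intro i
  rw [coeff_sub, coeff_mul, coeff_mul, ← Finset.Nat.sum_antidiagonal_swap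
    (f := fun p => g.coeff p.1 * f.coeff p.2), ← sum_sub_distrib]
  exact Submodule.sum_mem _ fun p _ => h _ (hf p.1) _ (hg p.2)

theorem mul_natCast_mem {E : Submodule R A} {x : A} (hx : x ∈ E) (k : ℕ) : x * (k : A) ∈ E := by
  rw [← nsmul_eq_mul', ← Nat.cast_smul_eq_nsmul R]
  exact Submodule.smul_mem _ _ hx

theorem mem_of_mul_natCast {E : Submodule R A} {x : A} {k : ℕ} (hk : IsUnit (k : R))
    (hx : x * (k : A) ∈ E) : x ∈ E := by
  rw [← nsmul_eq_mul', ← Nat.cast_smul_eq_nsmul R] at hx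
  exact (E.smul_mem_iff_of_isUnit hk).1 hx

theorem derivative_mem_coefS {E : Submodule R A} {f : A[X]} (hf : f ∈ coefS (fun _ => E)) :
    derivative f ∈ coefS (fun _ => E) := by
  intro i
  rw [coeff_derivative]
  have := mul_natCast_mem (hf (i + 1)) (i + 1)
  rwa [Nat.cast_succ] at this

/-- The auxiliary sums in the derivative of the exponential. -/
noncomputable def Gs (Z : A[X]) (k : ℕ) : A[X] :=
  ∑ p ∈ antidiagonal k, k.choose p.1 • ((-Z) ^ p.1 * derivative (Z ^ p.2))

theorem Gs_zero (Z : A[X]) : Gs Z 0 = 0 := by simp [Gs]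

theorem Gs_succ (Z : A[X]) (k : ℕ) :
    Gs Z (k + 1) = (Gs Z k * Z - Z * Gs Z k) + (0 : A[X]) ^ k * derivative Z := by
  unfold Gs
  rw [Finset.sum_antidiagonal_choose_succ_nsmul
    (fun i j => (-Z) ^ i * derivative (Z ^ j)) k]
  have h0 : (0 : A[X]) ^ k = ∑ p ∈ antidiagonal k, k.choose p.1 • ((-Z) ^ p.1 * Z ^ p.2) := by
    rw [← (Commute.refl Z).neg_left.add_pow', neg_add_cancel]
  rw [h0, sum_mul, mul_sum, sum_mul, ← sum_sub_distrib, ← sum_add_distrib, ← sum_add_distrib]
  refine sum_congr rfl fun p hp => ?_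
  have hk : p.1 + p.2 = k := mem_antidiagonal.1 hp
  have hc : k.choose p.2 = k.choose p.1 := by rw [← hk]; exact (Nat.choose_symm_add).symm
  rw [hc, pow_succ Z, derivative_mul, pow_succ' (-Z)]
  simp only [smul_mul_assoc, mul_smul_comm, mul_add, smul_add, neg_mul, smul_neg, mul_assoc]
  abel

theorem ex_neg_mul_derivative {F : ℕ → Submodule R A} (hF : Filt F) {c T : ℕ} (hc : F c = ⊥)
    (hcT : c ≤ T) (h : Un R T) {Z : A[X]} (hZ : Z ∈ coefS (fun _ => F 1)) :
    ex R T (-Z) * derivative (ex R T Z) = ∑ k ∈ range T, fi R k • Gs Z k := by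
  have hP := hF.poly 0
  have hZ' : Z ∈ coefS (fun i => F (1 + 0 * i)) := by simpa using hZ
  unfold ex
  rw [derivative_sum, sum_mul_sum]
  have h1 : ∀ i j, (fi R i • (-Z) ^ i) * derivative (fi R j • Z ^ j)
      = (fi R i * fi R j) • ((-Z) ^ i * derivative (Z ^ j)) := by
    intro i j
    rw [derivative_smul, smul_mul_smul_comm]
  simp_rw [h1]
  rw [sum_square_eq T (fun i j => (fi R i * fi R j) • ((-Z) ^ i * derivative (Z ^ j)))]
  · refine sum_congr rfl fun k hk => ?_
    rw [Gs, smul_sum]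
    refine sum_congr rfl fun p hp => ?_
    have hk' : p.1 + p.2 = k := mem_antidiagonal.1 hp
    have hkT : p.1 + p.2 ≤ T := by rw [hk']; exact (mem_range.1 hk).le
    rw [← fi_choose h hkT, hk', ← Nat.cast_smul_eq_nsmul R, smul_smul]
  · intro i j hij
    have h2 : (-Z) ^ i ∈ coefS (fun l => F (i + 0 * l)) :=
      hP.pow_one (Submodule.neg_mem _ hZ') i
    have h3 : derivative (Z ^ j) ∈ coefS (fun l => F (j + 0 * l)) := by
      have := hP.pow_one hZ' j
      simp only [zero_mul, add_zero] at this ⊢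
      exact derivative_mem_coefS this
    have h4 := hP.mul h2 h3
    have h5 : (-Z) ^ i * derivative (Z ^ j) = 0 := by
      ext l
      exact hF.eq_zero hc (by omega) (h4 l)
    rw [h5, smul_zero]

theorem derivative_ex_lin {T : ℕ} (h : Un R (T + 2)) {w : A} (hw : w ^ (T + 2) = 0) :
    derivative (ex R (T + 2) (C w * X : A[X])) = ex R (T + 2) (C w * X) * C w := by
  have hc : Commute (C w * X : A[X]) (C w) := (Commute.refl _).mul_left (commute_X _)
  have h1 : ∀ i : ℕ, derivative ((C w * X : A[X]) ^ (i + 1))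
      = (i + 1) • ((C w * X) ^ i * C w) := by
    intro i
    induction i with
    | zero => simp
    | succ i ih =>
      rw [pow_succ, derivative_mul, ih, derivative_C_mul_X, smul_mul_assoc, mul_assoc,
        ← hc.eq, ← mul_assoc, ← pow_succ, succ_nsmul _ (i + 1)]
  have h2 : (C w * X : A[X]) ^ (T + 1) * C w = 0 := by
    rw [((commute_X (C w)).symm).mul_pow, mul_assoc, ((commute_X (C w)).pow_left _).eq,
      ← mul_assoc, ← C_pow, ← C_mul, ← pow_succ, hw, C_0, zero_mul]
  unfold ex
  rw [derivative_sum, sum_range_succ', sum_range_succ _ (T + 1), add_mul, smul_mul_assoc, h2,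
    smul_zero, add_zero, sum_mul]
  simp only [pow_zero, derivative_smul, derivative_one, smul_zero, add_zero]
  refine sum_congr rfl fun i hi => ?_
  rw [h1, ← Nat.cast_smul_eq_nsmul R, smul_smul, fi_succ h (by have := mem_range.1 hi; omega),
    smul_mul_assoc]

theorem bracket_E {F : ℕ → Submodule R A} (hF : Filt F) {u w : A} (hu : u ∈ F 1) (hw : w ∈ F 1)
    {I : Submodule R A} (hI : I ≤ F 1) (huw : u * w - w * u ∈ I)
    (hu' : ∀ x ∈ I, u * x - x * u ∈ I) (hw' : ∀ x ∈ I, w * x - x * w ∈ I)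
    (hII : ∀ x ∈ I, ∀ y ∈ I, x * y - y * x ∈ I) {j : ℕ} (hj : 1 ≤ j) :
    ∀ x ∈ (Submodule.span R {u, w} ⊔ I) ⊔ F j, ∀ y ∈ (Submodule.span R {u, w} ⊔ I) ⊔ F j,
      x * y - y * x ∈ I ⊔ F (j + 1) := by
  have hE : Submodule.span R {u, w} ⊔ I ≤ F 1 := by
    refine sup_le (Submodule.span_le.2 ?_) hI
    rintro x (rfl | rfl)
    · exact hu
    · exact hw
  intro x hx y hy
  obtain ⟨x1, hx1, e, he, rfl⟩ := Submodule.mem_sup.1 hx
  obtain ⟨y1, hy1, e', he', rfl⟩ := Submodule.mem_sup.1 hy
  have h1 : x1 * y1 - y1 * x1 ∈ I := by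
    obtain ⟨x2, hx2, i, hi, rfl⟩ := Submodule.mem_sup.1 hx1
    obtain ⟨y2, hy2, i', hi', rfl⟩ := Submodule.mem_sup.1 hy1
    obtain ⟨a, b, rfl⟩ := Submodule.mem_span_pair.1 hx2
    obtain ⟨a', b', rfl⟩ := Submodule.mem_span_pair.1 hy2
    have : (a • u + b • w + i) * (a' • u + b' • w + i') - (a' • u + b' • w + i') * (a • u + b • w + i)
        = (a * b' - b * a') • (u * w - w * u) + a • (u * i' - i' * u) + b • (w * i' - i' * w)
          - a' • (u * i - i * u) - b' • (w * i - i * w) + (i * i' - i' * i) := by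
      simp only [mul_add, add_mul, smul_mul_assoc, mul_smul_comm]
      module
    rw [this]
    refine I.add_mem (I.sub_mem (I.sub_mem (I.add_mem (I.add_mem (I.smul_mem _ huw)
      (I.smul_mem _ (hu' _ hi'))) (I.smul_mem _ (hw' _ hi'))) (I.smul_mem _ (hu' _ hi)))
      (I.smul_mem _ (hw' _ hi))) (hII _ hi _ hi')
  have h2 : (x1 + e) * (y1 + e') - (y1 + e') * (x1 + e)
      = (x1 * y1 - y1 * x1) + (x1 * e' + e * y1 + e * e' - y1 * e - e' * x1 - e' * e) := by
    noncomm_ring
  rw [h2]
  refine Submodule.add_mem_sup h1 ?_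
  have a1 := hE hx1
  have a2 := hE hy1
  refine Submodule.sub_mem _ (Submodule.sub_mem _ (Submodule.sub_mem _ (Submodule.add_mem _
    (Submodule.add_mem _ (hF.mul' a1 he' (by omega)) (hF.mul' he a2 (by omega)))
    (hF.mul' he he' (by omega))) (hF.mul' a2 he (by omega))) (hF.mul' he' a1 (by omega)))
    (hF.mul' he' he (by omega))

/-- Baker-Campbell-Hausdorff modulo a bracket-closed submodule containing `[u, w]`. -/
theorem bch {F : ℕ → Submodule R A} (hF : Filt F) {c T : ℕ} (hc : F c = ⊥) (hcT : c ≤ T + 2)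
    (h : Un R (T + 2)) {u w : A} (hu : u ∈ F 1) (hw : w ∈ F 1)
    {I : Submodule R A} (hI : I ≤ F 1) (huw : u * w - w * u ∈ I)
    (hu' : ∀ x ∈ I, u * x - x * u ∈ I) (hw' : ∀ x ∈ I, w * x - x * w ∈ I)
    (hII : ∀ x ∈ I, ∀ y ∈ I, x * y - y * x ∈ I) :
    lg R T (ex R (T + 2) u * ex R (T + 2) w) - u - w ∈ I := by
  have hP := hF.poly 0
  have hP' := hF.poly 1
  set W : A[X] := C w * X with hW
  have hWm : W = monomial 1 w := by rw [hW, C_mul_X_eq_monomial]
  have hCu : (C u : A[X]) = monomial 0 u := by rw [monomial_zero_left]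
  have hWP : W ∈ coefS (fun i => F (1 + 0 * i)) := by
    rw [hWm]; exact monomial_mem_coefS (by simpa using hw)
  have hUP : (C u : A[X]) ∈ coefS (fun i => F (1 + 0 * i)) := by
    rw [hCu]; exact monomial_mem_coefS (by simpa using hu)
  have hWP' : W ∈ coefS (fun i => F (0 + 1 * i)) := by
    rw [hWm]; exact monomial_mem_coefS (by simpa using hw)
  have hUP' : (C u : A[X]) ∈ coefS (fun i => F (0 + 1 * i)) := by
    rw [hCu]; exact monomial_mem_coefS (by simpa using hF.anti (by omega) hu)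
  set g : A[X] := ex R (T + 2) (C u) * ex R (T + 2) W with hg
  have hg1 : g - 1 ∈ coefS (fun i => F (1 + 0 * i)) :=
    hP.mul_sub_one (hP.ex_sub_one_mem hUP T) (hP.ex_sub_one_mem hWP T)
  have hPc : coefS (fun i => F (c + 0 * i)) = ⊥ := by
    rw [eq_bot_iff]
    intro f hf
    rw [Submodule.mem_bot]
    ext i
    exact hF.eq_zero hc (by omega) (hf i)
  set Z : A[X] := lg R T g with hZ
  have hZP : Z ∈ coefS (fun i => F (1 + 0 * i)) := hP.lg_mem hg1 T
  have hZP1 : Z ∈ coefS (fun _ => F 1) := by simpa using hZP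
  have hZP' : Z ∈ coefS (fun i => F (0 + 1 * i)) := by
    have : g - 1 ∈ coefS (fun i => F (0 + 1 * i)) :=
      Submodule.sub_mem _ (hP'.mul (hP'.ex_mem hUP' _) (hP'.ex_mem hWP' _)) hP'.one
    exact hP'.aeval_mem this _
  have hexZ : ex R (T + 2) Z = g := ex_lg (hP.pow_eq_zero hPc hcT hg1)
  have hCex : ex R (T + 2) (C u : A[X]) = C (ex R (T + 2) u) :=
    (map_ex (Polynomial.CAlgHom : A →ₐ[R] A[X]) (T + 2) u).symm
  have hDg : derivative g = g * C w := by
    rw [hg, derivative_mul, hCex, derivative_C, zero_mul, zero_add, hW,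
      derivative_ex_lin h (hF.pow_eq_zero hc hcT hw), mul_assoc]
  have hmain : ∑ k ∈ range (T + 2), fi R k • Gs Z k = C w := by
    rw [← ex_neg_mul_derivative hF hc hcT h hZP1, hexZ, hDg, ← mul_assoc, ← hexZ,
      ex_neg_mul h (by omega) (hP.pow_eq_zero hPc hcT hZP), one_mul]
  have hG1 : Gs Z 1 = derivative Z := by
    rw [Gs_succ, Gs_zero]; simp
  have hDZ : derivative Z - C w = -∑ k ∈ range T, fi R (k + 2) • Gs Z (k + 2) := by
    rw [← hmain, sum_range_succ', sum_range_succ', Gs_zero, zero_add, hG1, fi_one, one_smul,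
      smul_zero]
    abel
  have hZ0 : Z.coeff 0 = u := by
    let ev : A[X] →ₐ[R] A := eval₂AlgHom (AlgHom.id R A) 0 (fun a => Commute.zero_right _)
    have hev : ∀ f : A[X], ev f = f.coeff 0 := fun f => by
      simp [ev, eval₂AlgHom, eval₂RingHom', eval₂_at_zero]
    rw [← hev, hZ, map_lg, hg, map_mul, map_ex, map_ex, hev, hev, hW]
    simp only [coeff_C_zero, mul_coeff_zero, coeff_X_zero, mul_zero]
    rw [ex_zero (by omega), mul_one, lg_ex h (hF.pow_eq_zero hc hcT hu)]
  have key : ∀ j, 1 ≤ j → Z - (C u + W) ∈ coefS (fun _ => I ⊔ F j) := by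
    intro j hj
    induction j, hj using Nat.le_induction with
    | base =>
      intro i
      have := (Submodule.sub_mem _ hZP (Submodule.add_mem _ hUP hWP)) i
      exact Submodule.mem_sup_right (by simpa using this)
    | succ j hj ih =>
      set E : Submodule R A := (Submodule.span R {u, w} ⊔ I) ⊔ F j with hE
      have hbr := bracket_E hF hu hw hI huw hu' hw' hII hj
      have hQE : I ⊔ F j ≤ E := sup_le_sup_right le_sup_right _
      have hQE' : I ⊔ F (j + 1) ≤ E := (sup_le_sup_left (hF.anti (by omega)) _).trans hQE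
      have huE : u ∈ E := Submodule.mem_sup_left (Submodule.mem_sup_left
        (Submodule.subset_span (by simp)))
      have hwE : w ∈ E := Submodule.mem_sup_left (Submodule.mem_sup_left
        (Submodule.subset_span (by simp)))
      have hZE : Z ∈ coefS (fun _ => E) := by
        have h1 : Z = (Z - (C u + W)) + (C u + W) := by abel
        rw [h1]
        refine Submodule.add_mem _ (fun i => hQE (ih i)) (Submodule.add_mem _ ?_ ?_)
        · rw [hCu]; exact monomial_mem_coefS huE
        · rw [hWm]; exact monomial_mem_coefS hwE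
      have hG : ∀ k, Gs Z (k + 2) ∈ coefS (fun _ => I ⊔ F (j + 1)) := by
        intro k
        induction k with
        | zero =>
          rw [Gs_succ, hG1, pow_one, zero_mul, add_zero]
          exact bracket_mem_coefS hbr (derivative_mem_coefS hZE) hZE
        | succ k ihk =>
          rw [Gs_succ, pow_succ, mul_zero, zero_mul, add_zero]
          exact bracket_mem_coefS hbr (fun i => hQE' (ihk i)) hZE
      have hD : derivative (Z - (C u + W)) ∈ coefS (fun _ => I ⊔ F (j + 1)) := by
        rw [derivative_sub, derivative_add, derivative_C, zero_add, hW, derivative_C_mul_X, hDZ]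
        exact Submodule.neg_mem _ (Submodule.sum_mem _ fun k _ =>
          Submodule.smul_mem _ _ (hG k))
      intro i
      rcases i with _ | i
      · rw [coeff_sub, coeff_add, hZ0, hW]
        simp
      · rcases le_or_gt (i + 1) (T + 2) with hi | hi
        · have := hD i
          rw [coeff_derivative, ← Nat.cast_succ] at this
          exact mem_of_mul_natCast (h (i + 1) (by omega) hi) this
        · have h1 : Z.coeff (i + 1) = 0 := hF.eq_zero hc (by omega) (hZP' (i + 1))
          have h2 : (C u + W).coeff (i + 1) = 0 := by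
            rw [coeff_add, coeff_C_succ, hWm, coeff_monomial, if_neg (by omega), add_zero]
          rw [coeff_sub, h1, h2, sub_zero]
          exact Submodule.zero_mem _
  have hfin := key (c + 1) (by omega)
  have hbot : F (c + 1) = ⊥ := eq_bot_iff.2 (hc ▸ hF.anti (by omega))
  rw [hbot, sup_bot_eq] at hfin
  let ev : A[X] →ₐ[R] A := eval₂AlgHom (AlgHom.id R A) 1 (fun a => Commute.one_right _)
  have hevC : ∀ a : A, ev (C a) = a := fun a => by simp [ev, eval₂AlgHom, eval₂RingHom']
  have hevX : ev X = 1 := by simp [ev, eval₂AlgHom, eval₂RingHom']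
  have hevI : ∀ f : A[X], f ∈ coefS (fun _ => I) → ev f ∈ I := by
    intro f hf
    rw [f.as_sum_range, map_sum]
    refine Submodule.sum_mem _ fun i _ => ?_
    rw [← C_mul_X_pow_eq_monomial, map_mul, map_pow, hevX, one_pow, mul_one, hevC]
    exact hf i
  have := hevI _ hfin
  rw [map_sub, map_add, hZ, map_lg, hg, map_mul, map_ex, map_ex, hW, map_mul, hevC, hevC, hevX,
    mul_one, ← sub_sub] at this
  exact this

end Pool.Agent.Lib.MP_95ba65_al.LP
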