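import Mathlib

/-!
Eigen-projections for an endomorphism of finite order of a commutative group whose exponent
ring contains a primitive root of unity of that order.
-/

set_option autoImplicit false

namespace Pool.Agent.Lib.MP_95ba65_al

open Finset

/-- Numerical data: `w` is an `n`-th root of unity modulo `E` all of whose proper powers differ
from `1` by a unit, and `v` is an inverse of `n` modulo `E`. -/
structure Num (n E w v : ℕ) : Prop where
  npos : 0 < n
  pow_n : (w : ZMod E) ^ n = 1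
  unit : ∀ i, 0 < i → i < n → IsUnit ((w : ZMod E) ^ i - 1)
  inv : (v : ZMod E) * n = 1

theorem pow_eq_of_cast {G : Type*} [Group G] {E : ℕ} {x : G} (hx : x ^ E = 1) {a b : ℕ}
    (h : (a : ZMod E) = (b : ZMod E)) : x ^ a = x ^ b :=
  pow_eq_pow_of_modEq ((ZMod.natCast_eq_natCast_iff a b E).1 h) hx

namespace Num

variable {n E w v : ℕ} (h : Num n E w v)
include h

theorem w_unit : IsUnit (w : ZMod E) :=
  IsUnit.of_pow_eq_one h.pow_n h.npos.ne'

theorem unit_sub {i j : ℕ} (hi : i < n) (hj : j < n) (hij : i ≠ j) :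
    IsUnit ((w : ZMod E) ^ i - (w : ZMod E) ^ j) := by
  wlog hlt : j < i generalizing i j
  · have := this hj hi hij.symm (by omega)
    rw [← neg_sub]
    exact this.neg
  obtain ⟨d, rfl⟩ := Nat.exists_eq_add_of_lt hlt
  have h1 := h.unit (d + 1) (by omega) (by omega)
  have : (w : ZMod E) ^ (j + d + 1) - (w : ZMod E) ^ j
      = (w : ZMod E) ^ j * ((w : ZMod E) ^ (d + 1) - 1) := by ring
  rw [this]
  exact (h.w_unit.pow j).mul h1

theorem pow_mod (a : ℕ) : (w : ZMod E) ^ (a % n) = (w : ZMod E) ^ a :=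
  (pow_eq_pow_mod a h.pow_n).symm

theorem sum_ne {i j : ℕ} (hi : i < n) (hj : j < n) (hij : i ≠ j) :
    ∑ t ∈ range n, ((w : ZMod E) ^ j) ^ t * ((w : ZMod E) ^ i) ^ (n - t) = 0 := by
  have hu := h.unit_sub hj hi hij.symm
  have key := Commute.geom_sum₂_mul (Commute.all ((w : ZMod E) ^ j) ((w : ZMod E) ^ i)) n
  have hz : ((w : ZMod E) ^ j) ^ n - ((w : ZMod E) ^ i) ^ n = 0 := by
    rw [← pow_mul, ← pow_mul, mul_comm j, mul_comm i, pow_mul, pow_mul, h.pow_n]; simp
  rw [hz] at key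
  have h0 := hu.mul_left_eq_zero.1 key
  have : ∑ t ∈ range n, ((w : ZMod E) ^ j) ^ t * ((w : ZMod E) ^ i) ^ (n - t)
      = (∑ t ∈ range n, ((w : ZMod E) ^ j) ^ t * ((w : ZMod E) ^ i) ^ (n - 1 - t))
        * (w : ZMod E) ^ i := by
    rw [sum_mul]
    refine sum_congr rfl fun t ht => ?_
    have ht' : n - t = (n - 1 - t) + 1 := by have := mem_range.1 ht; omega
    rw [ht', pow_succ, mul_assoc]
  rw [this, h0, zero_mul]

theorem sum_lab {t : ℕ} (ht0 : 0 < t) (ht : t < n) :
    ∑ i ∈ range n, ((w : ZMod E) ^ i) ^ (n - t) = 0 := by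
  have hu := h.unit (n - t) (by omega) (by omega)
  have key := geom_sum_mul ((w : ZMod E) ^ (n - t)) n
  have hz : ((w : ZMod E) ^ (n - t)) ^ n - 1 = 0 := by
    rw [← pow_mul, mul_comm, pow_mul, h.pow_n]; simp
  rw [hz] at key
  have h0 := hu.mul_left_eq_zero.1 key
  rw [← h0]
  refine sum_congr rfl fun i _ => ?_
  rw [← pow_mul, ← pow_mul, mul_comm]

/-- two different eigenvalues force triviality -/
theorem eq_one_of_two {G : Type*} [Group G] {x : G} (hx : x ^ E = 1) {i j : ℕ} (hi : i < n)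
    (hj : j < n) (hij : i ≠ j) (he : x ^ (w ^ i) = x ^ (w ^ j)) : x = 1 := by
  obtain ⟨u, hu⟩ := (h.unit_sub hi hj hij).exists_left_inv
  by_cases hE : E = 0
  · subst hE
    obtain ⟨u', hu'⟩ : ∃ u' : ℤ, u' * ((w : ℤ) ^ i - (w : ℤ) ^ j) = 1 := ⟨u, hu⟩
    have h1 : x ^ ((w : ℤ) ^ i - (w : ℤ) ^ j) = 1 := by
      rw [zpow_sub]
      have e1 : x ^ ((w : ℤ) ^ i) = x ^ (w ^ i) := by rw [← zpow_natCast]; push_cast; rfl
      have e2 : x ^ ((w : ℤ) ^ j) = x ^ (w ^ j) := by rw [← zpow_natCast]; push_cast; rfl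
      rw [e1, e2, he, mul_inv_cancel]
    have : x ^ (u' * ((w : ℤ) ^ i - (w : ℤ) ^ j)) = 1 := by
      rw [mul_comm, zpow_mul, h1, one_zpow]
    rwa [hu', zpow_one] at this
  have : NeZero E := ⟨hE⟩
  have h1 : x ^ (w ^ i * u.val) = x ^ (w ^ j * u.val + 1) := by
    apply pow_eq_of_cast hx
    push_cast
    rw [ZMod.natCast_zmod_val]
    linear_combination hu
  rw [pow_succ, pow_mul, pow_mul, he] at h1
  simpa using h1

end Num

section Comm

variable {A : Type*} [CommGroup A]

/-- the projection onto the `i`-th eigenspace -/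
def proj (n w v : ℕ) (f : A →* A) (i : ℕ) (a : A) : A :=
  (∏ t ∈ range n, (f^[t] a) ^ ((w ^ i) ^ (n - t))) ^ v

theorem iter_mul (f : A →* A) (t : ℕ) (a b : A) : f^[t] (a * b) = f^[t] a * f^[t] b :=
  iterate_map_mul f t a b

theorem iter_one (f : A →* A) (t : ℕ) : f^[t] (1 : A) = 1 := iterate_map_one f t

theorem proj_mul (n w v : ℕ) (f : A →* A) (i : ℕ) (a b : A) :
    proj n w v f i (a * b) = proj n w v f i a * proj n w v f i b := by
  simp only [proj, iter_mul, mul_pow, prod_mul_distrib]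

theorem proj_one (n w v : ℕ) (f : A →* A) (i : ℕ) : proj n w v f i 1 = 1 := by
  simp [proj]

/-- the projection as a homomorphism -/
def projHom (n w v : ℕ) (f : A →* A) (i : ℕ) : A →* A where
  toFun := proj n w v f i
  map_one' := proj_one n w v f i
  map_mul' := proj_mul n w v f i

theorem iter_mem {f : A →* A} {B : Subgroup A} (hB : ∀ x ∈ B, f x ∈ B) (t : ℕ) {a : A}
    (ha : a ∈ B) : f^[t] a ∈ B := by
  induction t with
  | zero => exact ha
  | succ t ih => rw [Function.iterate_succ_apply']; exact hB _ ih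

theorem proj_mem (n w v : ℕ) {f : A →* A} {B : Subgroup A} (hB : ∀ x ∈ B, f x ∈ B) (i : ℕ)
    {a : A} (ha : a ∈ B) : proj n w v f i a ∈ B :=
  B.pow_mem (B.prod_mem fun t _ => B.pow_mem (iter_mem hB t ha) _) _

variable {n E w v : ℕ} (h : Num n E w v) (hE : ∀ x : A, x ^ E = 1) {f : A →* A}
  (hf : ∀ x, f^[n] x = x)
include h hE hf

theorem proj_eig (i : ℕ) (a : A) : f (proj n w v f i a) = (proj n w v f i a) ^ (w ^ i) := by
  unfold proj
  rw [map_pow, ← pow_mul, mul_comm v, pow_mul]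
  congr 1
  rw [map_prod, ← prod_pow]
  obtain ⟨m, rfl⟩ : ∃ m, n = m + 1 := ⟨n - 1, by have := h.npos; omega⟩
  rw [prod_range_succ, prod_range_succ']
  congr 1
  · refine prod_congr rfl fun t ht => ?_
    have ht' := mem_range.1 ht
    rw [map_pow, ← pow_mul (f^[t + 1] a), ← pow_succ, ← Function.iterate_succ_apply' f t a]
    congr 2
    omega
  · rw [map_pow, ← Function.iterate_succ_apply' f m a, hf]
    simp only [Function.iterate_zero, id_eq]
    rw [← pow_mul a]
    apply pow_eq_of_cast (hE a)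
    push_cast
    have h1 : ((w : ZMod E) ^ i) ^ (m + 1) = 1 := by
      rw [← pow_mul, mul_comm, pow_mul, h.pow_n, one_pow]
    simp [h1]

omit hf in
theorem proj_sub {B : Subgroup A} (hB : ∀ x ∈ B, f x ∈ B) (i : ℕ) {a : A}
    (ha : f a * (a ^ (w ^ i))⁻¹ ∈ B) : a⁻¹ * proj n w v f i a ∈ B := by
  have h1 : ∀ t, f^[t] a * (a ^ ((w ^ i) ^ t))⁻¹ ∈ B := by
    intro t
    induction t with
    | zero => simp
    | succ t ih =>
      have h2 := hB _ ih
      have h3 := B.pow_mem ha ((w ^ i) ^ t)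
      have h4 := B.mul_mem h2 h3
      rw [Function.iterate_succ_apply']
      convert h4 using 1
      rw [map_mul, map_inv, map_pow, mul_pow, inv_pow, ← pow_mul a, ← pow_succ']
      simp
  have h2 : ∏ t ∈ range n, (f^[t] a * (a ^ ((w ^ i) ^ t))⁻¹) ^ ((w ^ i) ^ (n - t)) ∈ B :=
    B.prod_mem fun t _ => B.pow_mem (h1 t) _
  have h3 := B.pow_mem h2 v
  convert h3 using 1
  simp only [mul_pow, prod_mul_distrib, proj]
  rw [mul_comm]
  congr 1
  simp only [inv_pow, ← pow_mul, prod_inv_distrib, prod_pow_eq_pow_sum]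
  congr 1
  conv_lhs => rw [← pow_one a]
  apply pow_eq_of_cast (hE a)
  push_cast
  have : ∑ t ∈ range n, (w : ZMod E) ^ (i * t) * (w : ZMod E) ^ (i * (n - t)) = n := by
    rw [sum_congr rfl (g := fun _ => (1 : ZMod E))]
    · simp
    · intro t ht
      have ht' := mem_range.1 ht
      rw [← pow_add, ← mul_add, Nat.add_sub_cancel' ht'.le, mul_comm, pow_mul, h.pow_n, one_pow]
  rw [this, mul_comm, h.inv]

omit hf in
theorem proj_fix (i : ℕ) {a : A} (ha : f a = a ^ (w ^ i)) : proj n w v f i a = a := by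
  have := proj_sub h hE (B := ⊥) (f := f) (by simp) i (a := a) (by simp [ha])
  rw [Subgroup.mem_bot, inv_mul_eq_one] at this
  exact this.symm

omit hf in
theorem proj_kill {i j : ℕ} (hi : i < n) (hj : j < n) (hij : i ≠ j) {a : A}
    (ha : f a = a ^ (w ^ j)) : proj n w v f i a = 1 := by
  have h1 : ∀ t, f^[t] a = a ^ ((w ^ j) ^ t) := by
    intro t
    induction t with
    | zero => simp
    | succ t ih =>
      rw [Function.iterate_succ_apply', ih, map_pow, ha, ← pow_mul, ← pow_succ']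
  unfold proj
  simp only [h1]
  simp only [← pow_mul a, prod_pow_eq_pow_sum]
  rw [← pow_zero a]
  apply pow_eq_of_cast (hE a)
  push_cast
  rw [h.sum_ne hi hj hij, zero_mul]

omit hf in
theorem prod_proj (a : A) : ∏ i ∈ range n, proj n w v f i a = a := by
  unfold proj
  rw [prod_pow, prod_comm]
  simp only [prod_pow_eq_pow_sum]
  obtain ⟨m, rfl⟩ : ∃ m, n = m + 1 := ⟨n - 1, by have := h.npos; omega⟩
  rw [prod_range_succ']
  rw [prod_eq_one, one_mul]
  · simp only [Function.iterate_zero, id_eq, ← pow_mul a]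
    conv_rhs => rw [← pow_one a]
    apply pow_eq_of_cast (hE a)
    push_cast
    have : ∑ i ∈ range (m + 1), ((w : ZMod E) ^ i) ^ (m + 1) = ((m + 1 : ℕ) : ZMod E) := by
      rw [sum_congr rfl (g := fun _ => (1 : ZMod E))]
      · simp
      · intro i _
        rw [← pow_mul, mul_comm, pow_mul, h.pow_n, one_pow]
    rw [this, mul_comm]
    simpa using h.inv
  · intro t ht
    have ht' := mem_range.1 ht
    rw [← pow_zero (f^[t + 1] a)]
    apply pow_eq_of_cast (hE _)
    push_cast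
    simpa using h.sum_lab (t := t + 1) (by omega) (by omega)

end Comm

end Pool.Agent.Lib.MP_95ba65_al
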