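import Mathlib
import Pool.Agent.Lib.MP_95ba65_al.Proj

/-!
Lifting of eigen-elements in nilpotent groups, and generation by eigen-elements.
-/

set_option autoImplicit false

namespace Pool.Agent.Lib.MP_95ba65_al

open Finset
open scoped commutatorElement

variable {G : Type*} [Group G]

/-- exponent divides `E`, and `f` has order dividing `n` -/
structure Act (n E : ℕ) (f : G →* G) : Prop where
  expo : ∀ x : G, x ^ E = 1
  iter : ∀ x, f^[n] x = x

/-- invariant subgroup -/
def Inv (f : G →* G) (B : Subgroup G) : Prop := ∀ x ∈ B, f x ∈ B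

/-- eigen-element with label `i` -/
def Eig (f : G →* G) (w i : ℕ) (x : G) : Prop := f x = x ^ (w ^ i)

/-- restriction to an invariant subgroup -/
def res (f : G →* G) (B : Subgroup G) (hB : Inv f B) : B →* B :=
  (f.comp B.subtype).codRestrict B (fun x => hB x x.2)

@[simp] theorem res_coe (f : G →* G) (B : Subgroup G) (hB : Inv f B) (x : B) :
    (res f B hB x : G) = f x := rfl

theorem res_iter (f : G →* G) (B : Subgroup G) (hB : Inv f B) (t : ℕ) (x : B) :
    ((res f B hB)^[t] x : G) = f^[t] x := by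
  induction t with
  | zero => rfl
  | succ t ih => rw [Function.iterate_succ_apply', Function.iterate_succ_apply', res_coe, ih]

theorem Act.res {n E : ℕ} {f : G →* G} (h : Act n E f) (B : Subgroup G) (hB : Inv f B) :
    Act n E (res f B hB) where
  expo x := Subtype.ext (by simpa using h.expo x)
  iter x := Subtype.ext (by rw [res_iter, h.iter])

theorem eig_res {f : G →* G} {B : Subgroup G} {hB : Inv f B} {w i : ℕ} {x : B} :
    Eig (res f B hB) w i x ↔ Eig f w i (x : G) := by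
  unfold Eig
  rw [Subtype.ext_iff]
  simp

/-- induced map on a quotient -/
def quo (f : G →* G) (N : Subgroup G) [N.Normal] (hN : Inv f N) : G ⧸ N →* G ⧸ N :=
  QuotientGroup.map N N f hN

@[simp] theorem quo_mk (f : G →* G) (N : Subgroup G) [N.Normal] (hN : Inv f N) (x : G) :
    quo f N hN (x : G ⧸ N) = (f x : G ⧸ N) := rfl

theorem quo_iter (f : G →* G) (N : Subgroup G) [N.Normal] (hN : Inv f N) (t : ℕ) (x : G) :
    (quo f N hN)^[t] (x : G ⧸ N) = (f^[t] x : G ⧸ N) := by
  induction t with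
  | zero => rfl
  | succ t ih => rw [Function.iterate_succ_apply', Function.iterate_succ_apply', ih, quo_mk]

theorem Act.quo {n E : ℕ} {f : G →* G} (h : Act n E f) (N : Subgroup G) [N.Normal]
    (hN : Inv f N) : Act n E (quo f N hN) where
  expo x := by
    induction x using QuotientGroup.induction_on with
    | H x => rw [← QuotientGroup.mk_pow, h.expo, QuotientGroup.mk_one]
  iter x := by
    induction x using QuotientGroup.induction_on with
    | H x => rw [quo_iter, h.iter]

theorem eig_quo {f : G →* G} {N : Subgroup G} [N.Normal] {hN : Inv f N} {w i : ℕ} {x : G} :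
    Eig (quo f N hN) w i (x : G ⧸ N) ↔ f x * (x ^ (w ^ i))⁻¹ ∈ N := by
  unfold Eig
  rw [quo_mk, ← QuotientGroup.mk_pow, QuotientGroup.eq_iff_div_mem, div_eq_mul_inv]

theorem Eig.quo {f : G →* G} {N : Subgroup G} [N.Normal] {hN : Inv f N} {w i : ℕ} {x : G}
    (hx : Eig f w i x) : Eig (quo f N hN) w i (x : G ⧸ N) := by
  rw [eig_quo, hx, mul_inv_cancel]
  exact N.one_mem

theorem Inv.inf {f : G →* G} {A B : Subgroup G} (hA : Inv f A) (hB : Inv f B) :
    Inv f (A ⊓ B) := fun x hx => ⟨hA x hx.1, hB x hx.2⟩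

theorem inv_closure {f : G →* G} {s : Set G} (hs : ∀ x ∈ s, f x ∈ Subgroup.closure s) :
    Inv f (Subgroup.closure s) := by
  have : Subgroup.closure s ≤ (Subgroup.closure s).comap f := (Subgroup.closure_le _).2 hs
  exact fun x hx => this hx

theorem Inv.commutator {f : G →* G} {A B : Subgroup G} (hA : Inv f A) (hB : Inv f B) :
    Inv f ⁅A, B⁆ := by
  have : ⁅A, B⁆ ≤ (⁅A, B⁆ : Subgroup G).comap f := by
    rw [Subgroup.commutator_le]
    intro a ha b hb
    rw [Subgroup.mem_comap, map_commutatorElement]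
    exact Subgroup.commutator_mem_commutator (hA a ha) (hB b hb)
  exact fun x hx => this hx

theorem inv_top (f : G →* G) : Inv f ⊤ := fun _ _ => Subgroup.mem_top _

theorem Inv.map_quo {f : G →* G} {N : Subgroup G} [N.Normal] (hN : Inv f N) {B : Subgroup G}
    (hB : Inv f B) : Inv (quo f N hN) (B.map (QuotientGroup.mk' N)) := by
  rintro _ ⟨x, hx, rfl⟩
  exact ⟨f x, hB x hx, rfl⟩

/-- lower central series of the whole group -/
abbrev Gam (G : Type*) [Group G] (r : ℕ) : Subgroup G := (⊤ : Subgroup G).lowerCentralSeries r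

theorem inv_Gam (f : G →* G) (r : ℕ) : Inv f (Gam G r) := by
  induction r with
  | zero => exact inv_top f
  | succ r ih => exact ih.commutator (inv_top f)

theorem Gam_anti {r s : ℕ} (h : r ≤ s) : Gam G s ≤ Gam G r :=
  Subgroup.lowerCentralSeries_antitone _ h

theorem Gam_central {r : ℕ} {g : G} (hg : g ∈ Gam G r) :
    (g : G ⧸ Gam G (r + 1)) ∈ Subgroup.center (G ⧸ Gam G (r + 1)) := by
  rw [Subgroup.mem_center_iff]
  intro x
  induction x using QuotientGroup.induction_on with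
  | H x =>
    symm
    rw [← commutatorElement_eq_one_iff_mul_comm]
    have : ((⁅g, x⁆ : G) : G ⧸ Gam G (r + 1)) = 1 := by
      rw [QuotientGroup.eq_one_iff]
      exact Subgroup.commutator_mem_commutator hg (Subgroup.mem_top x)
    rw [← this]
    exact (map_commutatorElement (QuotientGroup.mk' (Gam G (r + 1))) g x).symm

theorem desc_ind {P : ℕ → Prop} (c : ℕ) (hc : ∀ r, c ≤ r → P r) (step : ∀ r, P (r + 1) → P r)
    (r : ℕ) : P r := by
  have : ∀ m r, c ≤ r + m → P r := by
    intro m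
    induction m with
    | zero => intro r hr; exact hc r hr
    | succ m ih => intro r hr; exact step r (ih (r + 1) (by omega))
  exact this c r (by omega)

theorem exists_Gam_bot [Group.IsNilpotent G] : ∃ c, ∀ r, c ≤ r → Gam G r = ⊥ := by
  obtain ⟨c, hc⟩ := (Subgroup.nilpotent_iff_lowerCentralSeries (G := G)).1 inferInstance
  exact ⟨c, fun r hr => le_bot_iff.1 (hc ▸ Gam_anti hr)⟩

section

variable {n E w v : ℕ} (h : Num n E w v) {f : G →* G} (hf : Act n E f)
include h hf

theorem comm_lift {C B : Subgroup G} (hC : ∀ x ∈ C, ∀ y ∈ C, x * y = y * x) (hCi : Inv f C)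
    (hBi : Inv f B) {i : ℕ} {y : G} (hy : y ∈ C) (hz : f y * (y ^ (w ^ i))⁻¹ ∈ B) :
    ∃ y' : G, Eig f w i y' ∧ y⁻¹ * y' ∈ B := by
  let : CommGroup C :=
    { (inferInstance : Group C) with mul_comm := fun a b => Subtype.ext (hC _ a.2 _ b.2) }
  have hr := hf.res C hCi
  refine ⟨(proj n w v (res f C hCi) i ⟨y, hy⟩ : C), ?_, ?_⟩
  · exact eig_res.1 (proj_eig h hr.expo hr.iter i _)
  · have := proj_sub h hr.expo (f := res f C hCi) (B := B.subgroupOf C)
      (fun x hx => hBi _ hx) i (a := ⟨y, hy⟩) (by simpa [Subgroup.mem_subgroupOf] using hz)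
    simpa [Subgroup.mem_subgroupOf] using this

theorem comm_closure {C : Subgroup G} (hC : ∀ x ∈ C, ∀ y ∈ C, x * y = y * x) (hCi : Inv f C)
    (X : ℕ → Set G) (hX : ∀ j, j < n → ∀ x ∈ X j, x ∈ C ∧ Eig f w j x) {k : ℕ} (hk : k < n)
    {g : G} (hg : g ∈ Subgroup.closure {x | ∃ j, j < n ∧ x ∈ X j}) (he : Eig f w k g) :
    g ∈ Subgroup.closure (X k) := by
  let : CommGroup C :=
    { (inferInstance : Group C) with mul_comm := fun a b => Subtype.ext (hC _ a.2 _ b.2) }
  have hr := hf.res C hCi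
  have key : ∀ g ∈ Subgroup.closure {x | ∃ j, j < n ∧ x ∈ X j}, ∃ hg : g ∈ C,
      ((projHom n w v (res f C hCi) k ⟨g, hg⟩ : C) : G) ∈ Subgroup.closure (X k) := by
    intro g hg
    induction hg using Subgroup.closure_induction with
    | mem x hx =>
      obtain ⟨j, hj, hx⟩ := hx
      obtain ⟨hxC, hxe⟩ := hX j hj x hx
      refine ⟨hxC, ?_⟩
      by_cases hjk : k = j
      · subst hjk
        have : projHom n w v (res f C hCi) k ⟨x, hxC⟩ = ⟨x, hxC⟩ :=
          proj_fix h hr.expo k (eig_res.2 hxe)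
        rw [this]
        exact Subgroup.subset_closure hx
      · have : projHom n w v (res f C hCi) k ⟨x, hxC⟩ = 1 :=
          proj_kill h hr.expo hk hj hjk (eig_res.2 hxe)
        rw [this]
        exact Subgroup.one_mem _
    | one =>
      refine ⟨C.one_mem, ?_⟩
      have : (⟨1, C.one_mem⟩ : C) = 1 := rfl
      rw [this, map_one]
      exact Subgroup.one_mem _
    | mul x y _ _ hx hy =>
      obtain ⟨hxC, hx⟩ := hx
      obtain ⟨hyC, hy⟩ := hy
      refine ⟨C.mul_mem hxC hyC, ?_⟩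
      have : (⟨x * y, C.mul_mem hxC hyC⟩ : C) = ⟨x, hxC⟩ * ⟨y, hyC⟩ := rfl
      rw [this, map_mul]
      exact Subgroup.mul_mem _ hx hy
    | inv x _ hx =>
      obtain ⟨hxC, hx⟩ := hx
      refine ⟨C.inv_mem hxC, ?_⟩
      have : (⟨x⁻¹, C.inv_mem hxC⟩ : C) = (⟨x, hxC⟩ : C)⁻¹ := rfl
      rw [this, map_inv]
      exact Subgroup.inv_mem _ hx
  obtain ⟨hgC, hg'⟩ := key g hg
  have : projHom n w v (res f C hCi) k ⟨g, hgC⟩ = ⟨g, hgC⟩ :=
    proj_fix h hr.expo k (eig_res.2 he)
  rwa [this] at hg'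

theorem comm_gen {C : Subgroup G} (hC : ∀ x ∈ C, ∀ y ∈ C, x * y = y * x) (hCi : Inv f C) :
    C ≤ Subgroup.closure {x | x ∈ C ∧ ∃ j, j < n ∧ Eig f w j x} := by
  let : CommGroup C :=
    { (inferInstance : Group C) with mul_comm := fun a b => Subtype.ext (hC _ a.2 _ b.2) }
  have hr := hf.res C hCi
  intro g hg
  have h1 := prod_proj h hr.expo (f := res f C hCi) ⟨g, hg⟩
  have h2 : (⟨g, hg⟩ : C) ∈
      (Subgroup.closure {x | x ∈ C ∧ ∃ j, j < n ∧ Eig f w j x}).subgroupOf C := by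
    rw [← h1]
    refine Subgroup.prod_mem _ fun i hi => ?_
    rw [Subgroup.mem_subgroupOf]
    exact Subgroup.subset_closure ⟨Subtype.prop _, i, mem_range.1 hi,
      eig_res.1 (proj_eig h hr.expo hr.iter i _)⟩
  exact h2

theorem central_lift {B : Subgroup G} (hB : B ≤ Subgroup.center G) (hBi : Inv f B) {i : ℕ}
    {y : G} (hz : f y * (y ^ (w ^ i))⁻¹ ∈ B) : ∃ b ∈ B, Eig f w i (y * b) := by
  let s : Set G := insert y (B : Set G)
  have hs : ∀ a ∈ s, ∀ b ∈ s, a * b = b * a := by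
    rintro a (rfl | ha) b (rfl | hb)
    · rfl
    · exact Subgroup.mem_center_iff.1 (hB hb) a
    · exact (Subgroup.mem_center_iff.1 (hB ha) b).symm
    · exact Subgroup.mem_center_iff.1 (hB hb) a
  have hyC : y ∈ Subgroup.closure s := Subgroup.subset_closure (Set.mem_insert _ _)
  have hBC : B ≤ Subgroup.closure s := fun b hb =>
    Subgroup.subset_closure (Set.mem_insert_of_mem _ hb)
  have hC : ∀ x ∈ Subgroup.closure s, ∀ y ∈ Subgroup.closure s, x * y = y * x := by
    have := Subgroup.isMulCommutative_closure hs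
    intro a ha b hb
    exact congrArg Subtype.val (this.is_comm.comm (⟨a, ha⟩ : Subgroup.closure s) ⟨b, hb⟩)
  have hCi : Inv f (Subgroup.closure s) := by
    apply inv_closure
    rintro a (rfl | ha)
    · have : f a = (f a * (a ^ (w ^ i))⁻¹) * a ^ (w ^ i) := by simp
      rw [this]
      exact Subgroup.mul_mem _ (hBC hz) (Subgroup.pow_mem _ hyC _)
    · exact hBC (hBi a ha)
  obtain ⟨y', he, hy'⟩ := comm_lift h hf hC hCi hBi hyC hz
  exact ⟨y⁻¹ * y', hy', by simpa using he⟩

/-- lifting of eigen-elements modulo a term of the lower central series -/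
theorem lift_eig [Group.IsNilpotent G] {K : Subgroup G} (hK : Inv f K) {i r : ℕ} {x : G}
    (hx : x ∈ K) (hz : f x * (x ^ (w ^ i))⁻¹ ∈ Gam G r) :
    ∃ y ∈ K, Eig f w i y ∧ x⁻¹ * y ∈ Gam G r := by
  have key : ∀ s, ∃ y ∈ K, x⁻¹ * y ∈ Gam G r ∧ f y * (y ^ (w ^ i))⁻¹ ∈ Gam G (r + s) := by
    intro s
    induction s with
    | zero => exact ⟨x, hx, by simp, hz⟩
    | succ s ih =>
      obtain ⟨y, hyK, hxy, hy⟩ := ih
      have hN := inv_Gam f (r + s + 1)
      have hq := hf.quo (Gam G (r + s + 1)) hN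
      have hB : (K ⊓ Gam G (r + s)).map (QuotientGroup.mk' (Gam G (r + s + 1))) ≤
          Subgroup.center _ := by
        rintro _ ⟨g, hg, rfl⟩
        exact Gam_central hg.2
      have hBi := Inv.map_quo hN (hK.inf (inv_Gam f (r + s)))
      obtain ⟨_, ⟨b, hb, rfl⟩, he⟩ := central_lift h hq hB hBi (i := i)
        (y := (y : G ⧸ Gam G (r + s + 1)))
        ⟨f y * (y ^ (w ^ i))⁻¹, ⟨K.mul_mem (hK y hyK) (K.inv_mem (K.pow_mem hyK _)), hy⟩,
          by rw [map_mul, map_inv, map_pow]; rfl⟩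
      refine ⟨y * b, K.mul_mem hyK hb.1, ?_, ?_⟩
      · rw [← mul_assoc]
        exact Subgroup.mul_mem _ hxy (Gam_anti (by omega) hb.2)
      · exact eig_quo.1 he
  obtain ⟨c, hc⟩ := exists_Gam_bot (G := G)
  obtain ⟨y, hyK, hxy, hy⟩ := key c
  rw [hc (r + c) (by omega), Subgroup.mem_bot, mul_inv_eq_one] at hy
  exact ⟨y, hyK, hy, hxy⟩

end

/-- subgroup generated by the eigen-elements of `X` with label in `[k, n)` -/
def gen (f : G →* G) (n w k : ℕ) (X : Subgroup G) : Subgroup G :=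
  Subgroup.closure {x | x ∈ X ∧ ∃ j, k ≤ j ∧ j < n ∧ Eig f w j x}

theorem gen_le (f : G →* G) (n w k : ℕ) (X : Subgroup G) : gen f n w k X ≤ X :=
  (Subgroup.closure_le _).2 fun _ hx => hx.1

theorem mem_gen {f : G →* G} {n w k j : ℕ} {X : Subgroup G} {x : G} (hx : x ∈ X) (hkj : k ≤ j)
    (hj : j < n) (he : Eig f w j x) : x ∈ gen f n w k X :=
  Subgroup.subset_closure ⟨hx, j, hkj, hj, he⟩

theorem inv_gen (f : G →* G) (n w k : ℕ) (X : Subgroup G) : Inv f (gen f n w k X) := by
  apply inv_closure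
  rintro x ⟨hx, j, hkj, hj, he⟩
  rw [he]
  exact Subgroup.pow_mem _ (mem_gen hx hkj hj he) _

theorem gen_mono (f : G →* G) (n w k : ℕ) {X Y : Subgroup G} (hXY : X ≤ Y) :
    gen f n w k X ≤ gen f n w k Y :=
  Subgroup.closure_mono fun _ hx => ⟨hXY hx.1, hx.2⟩

theorem gen_gen (f : G →* G) (n w k : ℕ) (X : Subgroup G) :
    gen f n w k X ≤ gen f n w k (gen f n w k X) :=
  Subgroup.closure_mono fun _ hx => ⟨Subgroup.subset_closure hx, hx.2⟩

/-- an invariant subgroup is generated by its eigen-elements -/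
theorem le_gen_zero {n E w v : ℕ} (h : Num n E w v) {f : G →* G} (hf : Act n E f)
    [Group.IsNilpotent G] {S : Subgroup G} (hS : Inv f S) : S ≤ gen f n w 0 S := by
  obtain ⟨c, hc⟩ := exists_Gam_bot (G := G)
  have key : ∀ r, S ⊓ Gam G r ≤ gen f n w 0 S := by
    refine desc_ind c (fun r hr => by rw [hc r hr]; simp) fun r ih => ?_
    have hN := inv_Gam f (r + 1)
    have hq := hf.quo (Gam G (r + 1)) hN
    have hSr := hS.inf (inv_Gam f r)
    have hB : (S ⊓ Gam G r).map (QuotientGroup.mk' (Gam G (r + 1))) ≤ Subgroup.center _ := by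
      rintro _ ⟨g, hg, rfl⟩
      exact Gam_central hg.2
    have h1 := comm_gen h hq (C := (S ⊓ Gam G r).map (QuotientGroup.mk' (Gam G (r + 1))))
      (fun x hx y _ => (Subgroup.mem_center_iff.1 (hB hx) y).symm) (Inv.map_quo hN hSr)
    have h2 : (S ⊓ Gam G r).map (QuotientGroup.mk' (Gam G (r + 1))) ≤
        (gen f n w 0 S).map (QuotientGroup.mk' (Gam G (r + 1))) := by
      refine h1.trans ((Subgroup.closure_le _).2 ?_)
      rintro _ ⟨⟨x, hx, rfl⟩, j, hj, he⟩
      obtain ⟨y, hy, hye, hxy⟩ := lift_eig h hf hSr hx (eig_quo.1 he)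
      exact ⟨y, mem_gen hy.1 (Nat.zero_le j) hj hye, (QuotientGroup.eq.2 hxy).symm⟩
    intro s hs
    obtain ⟨a, ha, has⟩ := h2 ⟨s, hs, rfl⟩
    have h3 : a⁻¹ * s ∈ Gam G (r + 1) := QuotientGroup.eq.1 has
    have h4 : a⁻¹ * s ∈ S := S.mul_mem (S.inv_mem (gen_le f n w 0 S ha)) hs.1
    have : s = a * (a⁻¹ * s) := by simp
    rw [this]
    exact Subgroup.mul_mem _ ha (ih ⟨h4, h3⟩)
  simpa using key 0

end Pool.Agent.Lib.MP_95ba65_al
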