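import Mathlib
import Pool.Agent.Lib.MP_95ba65_al.Lift

/-!
The group version of the Kreknin argument, run with eigen-elements.
-/

set_option autoImplicit false

namespace Pool.Agent.Lib.MP_95ba65_al

open Finset
open scoped commutatorElement

universe u

variable {G : Type u} [Group G]

/-- the derived subgroup of a finite nilpotent group is non-generating -/
theorem top_of_sup_commutator [Finite G] [Group.IsNilpotent G] {A : Subgroup G}
    (hA : A ⊔ commutator G = ⊤) : A = ⊤ := by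
  by_contra hne
  obtain ⟨M, hM, hAM⟩ := (eq_top_or_exists_le_coatom A).resolve_left hne
  have hMn : M.Normal :=
    Subgroup.NormalizerCondition.normal_of_coatom M Group.normalizerCondition_of_isNilpotent hM
  have hnt : Nontrivial (G ⧸ M) := by
    rw [QuotientGroup.nontrivial_iff]
    exact hM.1
  have hlt := Group.IsSolvable.commutator_lt_top_of_nontrivial (G ⧸ M)
  apply hlt.ne
  have hs : Function.Surjective (QuotientGroup.mk' M) := QuotientGroup.mk'_surjective M
  have h1 := congrArg (Subgroup.map (QuotientGroup.mk' M)) hA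
  rw [Subgroup.map_sup, Subgroup.map_top_of_surjective _ hs, map_commutator_eq,
    MonoidHom.range_eq_top.2 hs] at h1
  have h2 : A.map (QuotientGroup.mk' M) = ⊥ := by
    rw [Subgroup.map_eq_bot_iff, QuotientGroup.ker_mk']
    exact hAM
  rw [h2, bot_sup_eq] at h1
  exact h1

theorem le_of_le_sup_commutator [Finite G] [Group.IsNilpotent G] {A T : Subgroup G}
    (hAT : A ≤ T) (hT : T ≤ A ⊔ ⁅T, T⁆) : T ≤ A := by
  have h1 : A.subgroupOf T ⊔ commutator T = ⊤ := by
    apply Subgroup.map_injective T.subtype_injective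
    rw [Subgroup.map_sup, Subgroup.subgroupOf_map_subtype, Subgroup.map_subtype_commutator,
      ← MonoidHom.range_eq_map, Subgroup.range_subtype, inf_eq_left.2 hAT]
    exact le_antisymm (sup_le hAT (Subgroup.commutator_le_self T)) hT
  exact Subgroup.subgroupOf_eq_top.1 (top_of_sup_commutator h1)

/-- in a subgroup generated by elements of label `k`, other labels occur only in the
derived subgroup -/
theorem mem_commutator_of_ne {n E w v : ℕ} (h : Num n E w v) {f : G →* G} (hf : Act n E f)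
    {s : Set G} {k j : ℕ} (hk : k < n) (hj : j < n) (hjk : j ≠ k) (hs : ∀ x ∈ s, Eig f w k x)
    {t : G} (ht : t ∈ Subgroup.closure s) (he : Eig f w j t) :
    t ∈ ⁅Subgroup.closure s, Subgroup.closure s⁆ := by
  set T := Subgroup.closure s with hT
  have hTi : Inv f T := by
    apply inv_closure
    intro x hx
    rw [hs x hx]
    exact Subgroup.pow_mem _ (Subgroup.subset_closure hx) _
  have key : ∀ t (ht : t ∈ Subgroup.closure s),
      Abelianization.of (res f T hTi ⟨t, ht⟩) = (Abelianization.of (⟨t, ht⟩ : T)) ^ (w ^ k) := by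
    intro t ht
    induction ht using Subgroup.closure_induction with
    | mem x hx =>
      rw [← map_pow]
      congr 1
      exact eig_res.2 (hs x hx)
    | one =>
      have : (⟨1, T.one_mem⟩ : T) = 1 := rfl
      rw [this]
      simp
    | mul x y hx hy ihx ihy =>
      have : (⟨x * y, T.mul_mem hx hy⟩ : T) = ⟨x, hx⟩ * ⟨y, hy⟩ := rfl
      rw [this, map_mul, map_mul, map_mul, ihx, ihy, mul_pow]
    | inv x hx ihx =>
      have : (⟨x⁻¹, T.inv_mem hx⟩ : T) = (⟨x, hx⟩ : T)⁻¹ := rfl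
      rw [this, map_inv, map_inv, map_inv, ihx, inv_pow]
  have h1 := key t ht
  have h2 : res f T hTi ⟨t, ht⟩ = (⟨t, ht⟩ : T) ^ (w ^ j) := eig_res.2 he
  rw [h2, map_pow] at h1
  have h3 : (Abelianization.of (⟨t, ht⟩ : T)) ^ E = 1 := by
    rw [← map_pow, (hf.res T hTi).expo, map_one]
  have h4 := h.eq_one_of_two h3 hj hk hjk h1
  have h5 : (⟨t, ht⟩ : T) ∈ commutator T := by
    rw [← Abelianization.ker_of]
    exact h4
  rw [← Subgroup.map_subtype_commutator]
  exact ⟨_, h5, rfl⟩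

section Bilin

variable {Q : Type u} [Group Q]

theorem comm_mul_right {a b c : Q} (hc : ⁅a, c⁆ ∈ Subgroup.center Q) :
    ⁅a, b * c⁆ = ⁅a, b⁆ * ⁅a, c⁆ := by
  have h1 : ⁅a, b * c⁆ = ⁅a, b⁆ * (b * ⁅a, c⁆ * b⁻¹) := by
    simp only [commutatorElement_def]; group
  rw [h1, Subgroup.mem_center_iff.1 hc b]
  simp

theorem comm_mul_left {a b c : Q} (hc : ⁅b, c⁆ ∈ Subgroup.center Q) :
    ⁅a * b, c⁆ = ⁅b, c⁆ * ⁅a, c⁆ := by
  have h1 : ⁅a * b, c⁆ = (a * ⁅b, c⁆ * a⁻¹) * ⁅a, c⁆ := by
    simp only [commutatorElement_def]; group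
  rw [h1, Subgroup.mem_center_iff.1 hc a]
  simp

theorem comm_pow_right {a b : Q} (hc : ⁅a, b⁆ ∈ Subgroup.center Q) (m : ℕ) :
    ⁅a, b ^ m⁆ = ⁅a, b⁆ ^ m := by
  induction m with
  | zero => simp
  | succ m ih => rw [pow_succ, comm_mul_right hc, ih, pow_succ]

theorem comm_pow_left {a b : Q} (hc : ⁅a, b⁆ ∈ Subgroup.center Q) (m : ℕ) :
    ⁅a ^ m, b⁆ = ⁅a, b⁆ ^ m := by
  induction m with
  | zero => simp
  | succ m ih => rw [pow_succ, comm_mul_left hc, ih, pow_succ']

theorem comm_pow_pow {a b : Q} (hc : ⁅a, b⁆ ∈ Subgroup.center Q) (m l : ℕ) :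
    ⁅a ^ m, b ^ l⁆ = ⁅a, b⁆ ^ (m * l) := by
  have h1 := comm_pow_left hc m
  rw [comm_pow_right (h1 ▸ Subgroup.pow_mem _ hc m), h1, pow_mul]

/-- bilinearity: a commutator subgroup of central type is generated by commutators of
generators -/
theorem commutator_le_closure {s t : Set Q}
    (hc : ∀ a ∈ Subgroup.closure s, ∀ b, ⁅a, b⁆ ∈ Subgroup.center Q) :
    ⁅Subgroup.closure s, Subgroup.closure t⁆ ≤
      Subgroup.closure {c | ∃ a ∈ s, ∃ b ∈ t, c = ⁅a, b⁆} := by
  rw [Subgroup.commutator_le]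
  intro a ha b hb
  induction hb using Subgroup.closure_induction with
  | mem y hy =>
    induction ha using Subgroup.closure_induction with
    | mem x hx => exact Subgroup.subset_closure ⟨x, hx, y, hy, rfl⟩
    | one => simp
    | mul x z _ hz h1 h2 =>
      rw [comm_mul_left (hc z hz y)]
      exact Subgroup.mul_mem _ h2 h1
    | inv x hx h1 =>
      have h2 := comm_mul_left (a := x⁻¹) (hc x hx y)
      rw [inv_mul_cancel, commutatorElement_one_left] at h2
      rw [eq_inv_of_mul_eq_one_right h2.symm]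
      exact Subgroup.inv_mem _ h1
  | one => simp
  | mul y z _ _ h1 h2 =>
    rw [comm_mul_right (hc a ha z)]
    exact Subgroup.mul_mem _ h1 h2
  | inv y _ h1 =>
    have h2 := comm_mul_right (b := y⁻¹) (hc a ha y)
    rw [inv_mul_cancel, commutatorElement_one_right] at h2
    rw [eq_inv_of_mul_eq_one_left h2.symm]
    exact Subgroup.inv_mem _ h1

end Bilin

section Main

variable {n E w v : ℕ} (h : Num n E w v) {f : G →* G} (hf : Act n E f)
include h hf

/-- one layer of the main lemma -/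
theorem layer [Group.IsNilpotent G] (hfpf : ∀ x, f x = x → x = 1) {k : ℕ} (hk : k < n)
    (hgen : gen f n w k ⊤ = ⊤) {r : ℕ} {g : G} (hg : g ∈ Gam G (r + 1)) (he : Eig f w k g) :
    ∃ t ∈ gen f n w (k + 1) ⊤, Eig f w k t ∧ g⁻¹ * t ∈ Gam G (r + 2) := by
  set H := gen f n w (k + 1) ⊤ with hH
  have hHi : Inv f H := inv_gen f n w (k + 1) ⊤
  have hN := inv_Gam f (r + 2)
  have hq := hf.quo (Gam G (r + 2)) hN
  set π := QuotientGroup.mk' (Gam G (r + 2)) with hπ
  let s : Set G := {x | x ∈ Gam G r ∧ ∃ j, 0 ≤ j ∧ j < n ∧ Eig f w j x}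
  let t : Set G := {x | x ∈ (⊤ : Subgroup G) ∧ ∃ j, k ≤ j ∧ j < n ∧ Eig f w j x}
  have hs : Subgroup.closure s = Gam G r :=
    le_antisymm (gen_le f n w 0 _) (le_gen_zero h hf (inv_Gam f r))
  have ht : Subgroup.closure t = ⊤ := hgen
  have hcen : ∀ a ∈ Gam G r, ∀ b : G, ⁅π a, π b⁆ ∈ Subgroup.center (G ⧸ Gam G (r + 2)) := by
    intro a ha b
    rw [← map_commutatorElement]
    exact Gam_central (r := r + 1) (Subgroup.commutator_mem_commutator ha (Subgroup.mem_top b))
  have h1 : π g ∈ Subgroup.closure {c | ∃ a ∈ π '' s, ∃ b ∈ π '' t, c = ⁅a, b⁆} := by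
    apply commutator_le_closure
    · intro a ha b
      rw [← MonoidHom.map_closure, hs] at ha
      obtain ⟨a, ha, rfl⟩ := ha
      obtain ⟨b, rfl⟩ := QuotientGroup.mk'_surjective _ b
      exact hcen a ha b
    · rw [← MonoidHom.map_closure, ← MonoidHom.map_closure, hs, ht, ← Subgroup.map_commutator]
      exact ⟨g, hg, rfl⟩
  let X : ℕ → Set (G ⧸ Gam G (r + 2)) := fun m =>
    {c | ∃ a ∈ Gam G r, ∃ b : G, ∃ i j, i < n ∧ k ≤ j ∧ j < n ∧ Eig f w i a ∧ Eig f w j b ∧
      (i + j) % n = m ∧ c = ⁅π a, π b⁆}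
  have hC : (Gam G (r + 1)).map π ≤ Subgroup.center _ := by
    rintro _ ⟨x, hx, rfl⟩
    exact Gam_central hx
  have h2 : π g ∈ Subgroup.closure (X k) := by
    refine comm_closure h hq (C := (Gam G (r + 1)).map π)
      (fun x hx y _ => (Subgroup.mem_center_iff.1 (hC hx) y).symm)
      (Inv.map_quo hN (inv_Gam f (r + 1))) X ?_ hk ?_ he.quo
    · rintro m - _ ⟨a, ha, b, i, j, hi, hkj, hj, hea, heb, rfl, rfl⟩
      refine ⟨⟨⁅a, b⁆, Subgroup.commutator_mem_commutator ha (Subgroup.mem_top b),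
        map_commutatorElement _ _ _⟩, ?_⟩
      unfold Eig
      rw [map_commutatorElement]
      have e1 : quo f _ hN (π a) = (π a) ^ (w ^ i) := hea.quo
      have e2 : quo f _ hN (π b) = (π b) ^ (w ^ j) := heb.quo
      rw [e1, e2, comm_pow_pow (hcen a ha b)]
      apply pow_eq_of_cast (hq.expo _)
      push_cast
      rw [h.pow_mod, pow_add]
    · refine Subgroup.closure_mono ?_ h1
      rintro _ ⟨_, ⟨a, ⟨ha, i, -, hi, hea⟩, rfl⟩, _, ⟨b, ⟨-, j, hkj, hj, heb⟩, rfl⟩, rfl⟩
      exact ⟨(i + j) % n, Nat.mod_lt _ h.npos, a, ha, b, i, j, hi, hkj, hj, hea, heb, rfl, rfl⟩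
  have h3 : Subgroup.closure (X k) ≤ H.map π := by
    rw [Subgroup.closure_le]
    rintro _ ⟨a, ha, b, i, j, hi, hkj, hj, hea, heb, hm, rfl⟩
    by_cases hi0 : i = 0
    · subst hi0
      have : a = 1 := hfpf a (by simpa [Eig] using hea)
      subst this
      rw [map_one, commutatorElement_one_left]
      exact Subgroup.one_mem _
    · have hij : i + j = k + n := by
        by_cases hlt : i + j < n
        · rw [Nat.mod_eq_of_lt hlt] at hm
          omega
        · rw [Nat.mod_eq_sub_mod (by omega), Nat.mod_eq_of_lt (by omega)] at hm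
          omega
      have haH : a ∈ H := mem_gen (Subgroup.mem_top a) (by omega) hi hea
      have hbH : b ∈ H := mem_gen (Subgroup.mem_top b) (by omega) hj heb
      refine ⟨⁅a, b⁆, ?_, map_commutatorElement _ _ _⟩
      rw [commutatorElement_def]
      exact H.mul_mem (H.mul_mem (H.mul_mem haH hbH) (H.inv_mem haH)) (H.inv_mem hbH)
  obtain ⟨t0, ht0, hπt⟩ := h3 h2
  have he0 : Eig (quo f _ hN) w k (t0 : G ⧸ Gam G (r + 2)) := by
    have : (t0 : G ⧸ Gam G (r + 2)) = g := hπt
    rw [this]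
    exact he.quo
  obtain ⟨y, hyH, hye, hy⟩ := lift_eig h hf hHi ht0 (eig_quo.1 he0)
  refine ⟨y, hyH, hye, ?_⟩
  have h4 : g⁻¹ * t0 ∈ Gam G (r + 2) := QuotientGroup.eq.1 hπt.symm
  have : g⁻¹ * y = (g⁻¹ * t0) * (t0⁻¹ * y) := by group
  rw [this]
  exact Subgroup.mul_mem _ h4 hy

/-- main lemma, whole-group form -/
theorem main_top [Finite G] [Group.IsNilpotent G] (hfpf : ∀ x, f x = x → x = 1) {k : ℕ}
    (hk : k < n) (hgen : gen f n w k ⊤ = ⊤) {g : G} (hg : g ∈ Gam G 1) (he : Eig f w k g) :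
    g ∈ gen f n w (k + 1) ⊤ := by
  set H := gen f n w (k + 1) ⊤ with hH
  let s : Set G := {x | x ∈ Gam G 1 ∧ Eig f w k x}
  set T := Subgroup.closure s with hT
  have hTi : Inv f T := by
    apply inv_closure
    intro x hx
    rw [hx.2]
    exact Subgroup.pow_mem _ (Subgroup.subset_closure hx) _
  have hT1 : T ≤ Gam G 1 := (Subgroup.closure_le _).2 fun x hx => hx.1
  obtain ⟨c, hc⟩ := exists_Gam_bot (G := G)
  have key : ∀ r, T ⊓ Gam G (r + 1) ≤ (T ⊓ H) ⊔ ⁅T, T⁆ := by
    refine desc_ind c (fun r hr => by rw [hc (r + 1) (by omega)]; simp) fun r ih => ?_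
    refine (le_gen_zero h hf (hTi.inf (inv_Gam f (r + 1)))).trans ((Subgroup.closure_le _).2 ?_)
    rintro x ⟨hx, j, -, hj, hxe⟩
    by_cases hjk : j = k
    · subst hjk
      obtain ⟨t, htH, hte, hxt⟩ := layer h hf hfpf hk hgen hx.2 hxe
      have ht1 : t ∈ Gam G 1 := by
        have : t = x * (x⁻¹ * t) := by simp
        rw [this]
        exact Subgroup.mul_mem _ (hT1 hx.1) (Gam_anti (by omega) hxt)
      have htT : t ∈ T := Subgroup.subset_closure ⟨ht1, hte⟩
      have h1 : x⁻¹ * t ∈ (T ⊓ H) ⊔ ⁅T, T⁆ := ih ⟨T.mul_mem (T.inv_mem hx.1) htT, hxt⟩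
      have h2 : t ∈ (T ⊓ H) ⊔ ⁅T, T⁆ := Subgroup.mem_sup_left ⟨htT, htH⟩
      have : x = t * (x⁻¹ * t)⁻¹ := by group
      rw [this]
      exact Subgroup.mul_mem _ h2 (Subgroup.inv_mem _ h1)
    · exact Subgroup.mem_sup_right
        (mem_commutator_of_ne h hf hk hj hjk (fun x hx => hx.2) hx.1 hxe)
  have h1 : T ≤ T ⊓ H :=
    le_of_le_sup_commutator inf_le_left ((le_inf le_rfl hT1).trans (key 0))
  exact (h1 (Subgroup.subset_closure ⟨hg, he⟩)).2

omit h hf in
theorem map_gen_res {Y : Subgroup G} (hY : Inv f Y) (k : ℕ) :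
    (gen (res f Y hY) n w k ⊤).map Y.subtype = gen f n w k Y := by
  unfold gen
  rw [MonoidHom.map_closure]
  congr 1
  ext x
  constructor
  · rintro ⟨y, ⟨-, j, hkj, hj, he⟩, rfl⟩
    exact ⟨y.2, j, hkj, hj, eig_res.1 he⟩
  · rintro ⟨hx, j, hkj, hj, he⟩
    exact ⟨⟨x, hx⟩, ⟨Subgroup.mem_top _, j, hkj, hj, eig_res.2 he⟩, rfl⟩

/-- main lemma, subgroup form -/
theorem main_sub [Finite G] [Group.IsNilpotent G] (hfpf : ∀ x, f x = x → x = 1) {k : ℕ}
    (hk : k < n) {Y : Subgroup G} (hY : Inv f Y) (hgen : Y ≤ gen f n w k Y) {g : G}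
    (hg : g ∈ ⁅Y, Y⁆) (he : Eig f w k g) : g ∈ gen f n w (k + 1) Y := by
  rw [← Subgroup.map_subtype_commutator] at hg
  obtain ⟨y, hy, rfl⟩ := hg
  rw [← map_gen_res hY]
  refine ⟨y, ?_, rfl⟩
  refine main_top h (hf.res Y hY) ?_ hk ?_ hy (eig_res.2 he)
  · intro x hx
    exact Subtype.ext (hfpf _ (congrArg Subtype.val hx))
  · apply Subgroup.map_injective Y.subtype_injective
    rw [map_gen_res hY, ← MonoidHom.range_eq_map, Subgroup.range_subtype]
    exact le_antisymm (gen_le f n w k Y) hgen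

end Main

/-- derived subgroup operator -/
def Der (X : Subgroup G) : Subgroup G := ⁅X, X⁆

theorem Der_iter_mono (m : ℕ) {X Y : Subgroup G} (hXY : X ≤ Y) : Der^[m] X ≤ Der^[m] Y := by
  induction m with
  | zero => exact hXY
  | succ m ih =>
    rw [Function.iterate_succ_apply', Function.iterate_succ_apply']
    exact Subgroup.commutator_mono ih ih

theorem derivedSeries_eq (m : ℕ) : derivedSeries G m = Der^[m] ⊤ := by
  induction m with
  | zero => rfl
  | succ m ih => rw [Function.iterate_succ_apply', derivedSeries_succ, ih]; rfl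

theorem kreknin_step {n E w v : ℕ} (h : Num n E w v) {f : G →* G} (hf : Act n E f) [Finite G]
    [Group.IsNilpotent G] (hfpf : ∀ x, f x = x → x = 1) (k : ℕ) (hk : k < n) :
    ∀ X : Subgroup G, Inv f X → Der^[2 ^ k - 1] X ≤ gen f n w (k + 1) X := by
  induction k with
  | zero =>
    intro X hX
    refine (le_gen_zero h hf hX).trans ((Subgroup.closure_le _).2 ?_)
    rintro x ⟨hx, j, -, hj, he⟩
    by_cases hj0 : j = 0
    · subst hj0
      have : x = 1 := hfpf x (by simpa [Eig] using he)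
      subst this
      exact Subgroup.one_mem _
    · exact mem_gen hx (by omega) hj he
  | succ k ih =>
    intro X hX
    have ih := ih (by omega)
    have hsplit : 2 ^ (k + 1) - 1 = (2 ^ k - 1) + (1 + (2 ^ k - 1)) := by
      have : 0 < 2 ^ k := by positivity
      omega
    rw [hsplit, Function.iterate_add_apply, Function.iterate_add_apply, Function.iterate_one]
    set Y := gen f n w (k + 1) X with hY
    have hYi : Inv f Y := inv_gen f n w (k + 1) X
    have hYX : Y ≤ X := gen_le f n w (k + 1) X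
    have h1 : Der (Der^[2 ^ k - 1] X) ≤ ⁅Y, Y⁆ := Subgroup.commutator_mono (ih X hX) (ih X hX)
    refine (Der_iter_mono _ h1).trans ((ih _ (hYi.commutator hYi)).trans ?_)
    refine (Subgroup.closure_le _).2 ?_
    rintro x ⟨hx, j, hkj, hj, he⟩
    by_cases hjk : j = k + 1
    · subst hjk
      exact gen_mono f n w _ hYX (main_sub h hf hfpf hk hYi (gen_gen f n w _ X) hx he)
    · exact mem_gen (hYX (Subgroup.commutator_le_self Y hx)) (by omega) hj he

theorem kreknin_group {n E w v : ℕ} (h : Num n E w v) {f : G →* G} (hf : Act n E f) [Finite G]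
    [Group.IsNilpotent G] (hfpf : ∀ x, f x = x → x = 1) :
    derivedSeries G (2 ^ (n - 1) - 1) = ⊥ := by
  have hn := h.npos
  rw [derivedSeries_eq, eq_bot_iff]
  refine (kreknin_step h hf hfpf (n - 1) (by omega) ⊤ (inv_top f)).trans ?_
  refine (Subgroup.closure_le _).2 ?_
  rintro x ⟨-, j, h1, h2, -⟩
  omega

end Pool.Agent.Lib.MP_95ba65_al
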