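import Mathlib
import Pool.Agent.Lib.MP_95ba65_al.LPBch

/-! Nilpotency of the associative envelope of finitely many nilpotent elements generating a
nilpotent Lie algebra, and the filtered version. -/

set_option autoImplicit false

namespace Pool.Agent.Lib.MP_95ba65_al.LP

open Finset Polynomial

/-- Right-normed commutators in a family of elements. -/
def rc {A ι : Type*} [Ring A] (Y : ι → A) (i : ι) : List ι → A
  | [] => Y i
  | j :: l => Y j * rc Y i l - rc Y i l * Y j

theorem map_rc {R A B ι : Type*} [CommRing R] [Ring A] [Ring B] [Algebra R A] [Algebra R B]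
    (f : A →ₐ[R] B) (Y : ι → A) (i : ι) (l : List ι) :
    f (rc Y i l) = rc (fun j => f (Y j)) i l := by
  induction l with
  | nil => rfl
  | cons j l ih => simp [rc, ih]

/-- The bound in the envelope lemma. -/
def nilB (m N : ℕ) : ℕ → ℕ
  | 0 => 1
  | c + 1 => nilB m N c * (m ^ (c + 1) * N + 1)

theorem nilB_pos (m N c : ℕ) : 0 < nilB m N c := by
  induction c with
  | zero => exact Nat.one_pos
  | succ c ih => exact Nat.mul_pos ih (Nat.succ_pos _)

section
variable {R : Type*} [CommRing R] {A : Type*} [Ring A] [Algebra R A]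

theorem central_comm_pow {N : ℕ} (h : Un R N) {y w : A} (hy : y ^ N = 0)
    (h1 : Commute (y * w - w * y) y) (h2 : Commute (y * w - w * y) w) :
    (y * w - w * y) ^ N = 0 := by
  set z := y * w - w * y with hz
  have e1 : ∀ k : ℕ, y ^ (k + 1) * w - w * y ^ (k + 1) = (k + 1) • (y ^ k * z) := by
    intro k
    induction k with
    | zero => simp [hz]
    | succ k ih =>
      have : y ^ (k + 1 + 1) * w - w * y ^ (k + 1 + 1)
          = y * (y ^ (k + 1) * w - w * y ^ (k + 1)) + z * y ^ (k + 1) := by
        rw [hz, pow_succ' y (k + 1)]; noncomm_ring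
      rw [this, ih, (h1.pow_right (k + 1)).eq, mul_smul_comm, ← mul_assoc, ← pow_succ',
        succ_nsmul _ (k + 1)]
  have e2 : ∀ r k : ℕ, r + k = N → y ^ k * z ^ r = 0 := by
    intro r
    induction r with
    | zero => intro k hk; rw [zero_add] at hk; rw [hk, hy, zero_mul]
    | succ r ih =>
      intro k hk
      have h3 := ih (k + 1) (by omega)
      have h4 : (y ^ (k + 1) * w - w * y ^ (k + 1)) * z ^ r = 0 := by
        rw [sub_mul, mul_assoc, ← (h2.pow_left r).eq, ← mul_assoc, h3, mul_assoc, h3]
        simp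
      rw [e1, smul_mul_assoc, mul_assoc, ← pow_succ', ← Nat.cast_smul_eq_nsmul R] at h4
      exact ((h (k + 1) (by omega) (by omega)).smul_eq_zero).1 h4
  simpa using e2 N 0 (by omega)

theorem top_mul_span_pow {z : A} (hz : ∀ a, Commute z a) (k : ℕ) :
    ((⊤ : Submodule R A) * Submodule.span R {z}) ^ (k + 1) ≤ ⊤ * Submodule.span R {z ^ (k + 1)} := by
  induction k with
  | zero => simp
  | succ k ih =>
    rw [pow_succ]
    refine (mul_le_mul' ih le_rfl).trans ?_
    refine Submodule.mul_le.2 fun x hx y hy => ?_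
    obtain ⟨a, -, rfl⟩ := Submodule.mem_mul_span_singleton.1 hx
    obtain ⟨b, -, rfl⟩ := Submodule.mem_mul_span_singleton.1 hy
    refine Submodule.mem_mul_span_singleton.2 ⟨a * b, trivial, ?_⟩
    rw [pow_succ z (k + 1), mul_assoc a (z ^ (k + 1)), ← mul_assoc (z ^ (k + 1)),
      ((hz b).pow_left (k + 1)).eq]
    simp only [mul_assoc]

theorem commute_top_mul_span {z : A} (hz : ∀ a, Commute z a) (S : Submodule R A)
    (hS : ⊤ * S ≤ S) (hS' : S * ⊤ ≤ S) :
    Commute ((⊤ : Submodule R A) * Submodule.span R {z}) S := by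
  have h1 : (⊤ : Submodule R A) * Submodule.span R {z} * S = S * Submodule.span R {z} := by
    apply le_antisymm
    · refine Submodule.mul_le.2 fun x hx y hy => ?_
      obtain ⟨a, -, rfl⟩ := Submodule.mem_mul_span_singleton.1 hx
      refine Submodule.mem_mul_span_singleton.2
        ⟨a * y, hS (Submodule.mul_mem_mul trivial hy), ?_⟩
      rw [mul_assoc, mul_assoc, (hz y).eq]
    · refine Submodule.mul_le.2 fun x hx y hy => ?_
      obtain ⟨r, rfl⟩ := Submodule.mem_span_singleton.1 hy
      have : x * r • z = (r • (1 * z)) * x := by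
        rw [one_mul, smul_mul_assoc, mul_smul_comm, (hz x).eq]
      rw [this]
      exact Submodule.mul_mem_mul (Submodule.smul_mem _ _ (Submodule.mul_mem_mul trivial
        (Submodule.mem_span_singleton_self z))) hx
  have h2 : S * ((⊤ : Submodule R A) * Submodule.span R {z}) = S * Submodule.span R {z} := by
    rw [← mul_assoc]
    congr 1
    apply le_antisymm hS'
    intro x hx
    rw [← mul_one x]
    exact Submodule.mul_mem_mul hx trivial
  exact h1.trans h2.symm

theorem central_sum_pow {ι : Type*} (z : ι → A) (hz : ∀ i a, Commute (z i) a) {N : ℕ}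
    (hN : ∀ i, z i ^ N = 0) (s : Finset ι) :
    (∑ i ∈ s, (⊤ : Submodule R A) * Submodule.span R {z i}) ^ (s.card * N + 1) = 0 ∧
    ⊤ * (∑ i ∈ s, (⊤ : Submodule R A) * Submodule.span R {z i})
      ≤ ∑ i ∈ s, (⊤ : Submodule R A) * Submodule.span R {z i} ∧
    (∑ i ∈ s, (⊤ : Submodule R A) * Submodule.span R {z i}) * ⊤
      ≤ ∑ i ∈ s, (⊤ : Submodule R A) * Submodule.span R {z i} := by
  classical
  induction s using Finset.induction_on with
  | empty => simp
  | insert i s hi ih =>
    obtain ⟨h1, h2, h3⟩ := ih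
    rw [sum_insert hi, card_insert_of_notMem hi]
    have ht : (⊤ : Submodule R A) * ⊤ ≤ ⊤ := le_top
    refine ⟨?_, ?_, ?_⟩
    · have hz0 : ((⊤ : Submodule R A) * Submodule.span R {z i}) ^ (N + 1) = 0 := by
        rw [Submodule.zero_eq_bot, eq_bot_iff]
        refine (top_mul_span_pow (hz i) N).trans ?_
        rw [pow_succ, hN, zero_mul]
        simp
      exact (commute_top_mul_span (hz i) _ h2 h3).add_pow_eq_zero_of_add_le_succ_of_pow_eq_zero
        hz0 h1 (by rw [add_mul]; omega)
    · rw [mul_add, ← mul_assoc]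
      exact add_le_add (mul_le_mul' ht le_rfl) h2
    · rw [add_mul]
      refine add_le_add ?_ h3
      rw [(commute_top_mul_span (hz i) ⊤ ht ht).eq, ← mul_assoc]
      exact mul_le_mul' ht le_rfl

end

theorem env_nil {R : Type} [CommRing R] {ι : Type} [Fintype ι] {N : ℕ} (h : Un R N) (c : ℕ) :
    ∀ (A : Type) [Ring A] [Algebra R A] (Y : ι → A), (∀ i, Y i ^ N = 0) →
      (∀ i l, l.length = c → rc Y i l = 0) →
      (Submodule.span R (Set.range Y)) ^ (nilB (Fintype.card ι) N c) = ⊥ := by
  induction c with
  | zero =>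
    intro A _ _ Y _ hc
    have : Set.range Y ⊆ {0} := by
      rintro _ ⟨i, rfl⟩
      exact hc i [] rfl
    rw [nilB, pow_one, Submodule.span_eq_bot]
    exact fun x hx => this hx
  | succ c ih =>
    intro A _ _ Y hN hc
    -- pass to the subalgebra generated by the family
    set S : Subalgebra R A := Algebra.adjoin R (Set.range Y) with hS
    let Y' : ι → S := fun i => ⟨Y i, Algebra.subset_adjoin ⟨i, rfl⟩⟩
    have hval : ∀ i l, (S.val (rc Y' i l)) = rc Y i l := fun i l => map_rc S.val Y' i l
    have hN' : ∀ i, Y' i ^ N = 0 := fun i => Subtype.ext (by simpa using hN i)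
    let z : ι × (Fin c → ι) → S := fun p => rc Y' p.1 (List.ofFn p.2)
    have hzY : ∀ i l, l.length = c → ∀ a : S, Commute (rc Y' i l) a := by
      intro i l hl a
      have h1 : ∀ j, Commute (rc Y i l) (Y j) := by
        intro j
        have := hc i (j :: l) (by simp [hl])
        rw [rc, sub_eq_zero] at this
        exact this.symm
      have h2 : Commute (rc Y i l) (a : A) := by
        refine Algebra.commute_of_mem_adjoin_of_forall_mem_commute a.2 ?_
        rintro _ ⟨j, rfl⟩
        exact h1 j
      apply Subtype.ext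
      have h3 : ((rc Y' i l : S) : A) = rc Y i l := hval i l
      simp only [MulMemClass.coe_mul, h3]
      exact h2.eq
    have hz : ∀ p a, Commute (z p) a := fun p a => hzY p.1 _ (by simp) a
    have hzN : ∀ p, z p ^ N = 0 := by
      rintro ⟨i, f⟩
      have h1 := hzY i (List.ofFn f) (by simp)
      change rc Y' i (List.ofFn f) ^ N = 0
      generalize List.ofFn f = l at h1
      rcases l with _ | ⟨j, l⟩
      · exact hN' i
      · exact central_comm_pow h (hN' j) (h1 _) (h1 _)
    obtain ⟨k1, k2, k3⟩ := central_sum_pow (R := R) z hz hzN univ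
    set W : Submodule R S := ∑ p ∈ univ, (⊤ : Submodule R S) * Submodule.span R {z p} with hW
    let I : Ideal S :=
      { carrier := W
        add_mem' := W.add_mem
        zero_mem' := W.zero_mem
        smul_mem' := fun a x hx => k2 (Submodule.mul_mem_mul trivial hx) }
    have : I.IsTwoSided := ⟨fun b hx => k3 (Submodule.mul_mem_mul hx trivial)⟩
    let π : S →ₐ[R] S ⧸ I := Ideal.Quotient.mkₐ R I
    have hq := ih (S ⧸ I) (fun i => π (Y' i)) (fun i => by rw [← map_pow, hN', map_zero]) (by
      intro i l hl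
      rw [← map_rc]
      refine Ideal.Quotient.eq_zero_iff_mem.2 ?_
      subst hl
      have h1 : rc Y' i l = z (i, l.get) := by simp [z]
      rw [h1]
      change z (i, l.get) ∈ W
      have h2 : (⊤ : Submodule R S) * Submodule.span R {z (i, l.get)} ≤ W :=
        single_le_sum (f := fun p => (⊤ : Submodule R S) * Submodule.span R {z p})
          (fun _ _ => bot_le) (mem_univ _)
      apply h2
      exact Submodule.mem_mul_span_singleton.2 ⟨1, trivial, one_mul _⟩)
    have hmap : Submodule.span R (Set.range fun i => π (Y' i))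
        = (Submodule.span R (Set.range Y')).map π.toLinearMap := by
      rw [Submodule.map_span, ← Set.range_comp]; rfl
    rw [hmap, ← Submodule.map_pow] at hq
    have hle : (Submodule.span R (Set.range Y')) ^ nilB (Fintype.card ι) N c ≤ W := by
      intro x hx
      have : π x ∈ (⊥ : Submodule R (S ⧸ I)) := hq ▸ Submodule.mem_map_of_mem hx
      exact Ideal.Quotient.eq_zero_iff_mem.1 this
    have hfin : (Submodule.span R (Set.range Y')) ^ nilB (Fintype.card ι) N (c + 1) = ⊥ := by
      rw [nilB, pow_mul, eq_bot_iff]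
      refine (pow_le_pow_left' hle _).trans ?_
      have hcard : (univ : Finset (ι × (Fin c → ι))).card = Fintype.card ι ^ (c + 1) := by
        simp [pow_succ']
      rw [hcard] at k1
      rw [k1]
      exact le_rfl
    have hmap' : Submodule.span R (Set.range Y)
        = (Submodule.span R (Set.range Y')).map S.val.toLinearMap := by
      rw [Submodule.map_span, ← Set.range_comp]; rfl
    rw [hmap', ← Submodule.map_pow, hfin, Submodule.map_bot]

theorem Filt.rc_mem {R A ι : Type*} [CommRing R] [Ring A] [Algebra R A] {F : ℕ → Submodule R A}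
    (hF : Filt F) {Y : ι → A} (hY : ∀ i, Y i ∈ F 1) (i : ι) (l : List ι) :
    rc Y i l ∈ F (l.length + 1) := by
  induction l with
  | nil => exact hY i
  | cons j l ih =>
    exact Submodule.sub_mem _ (hF.mul' (hY j) ih (by simp)) (hF.mul' ih (hY j) (by simp))

theorem rc_monomial {A ι : Type*} [Ring A] (Y : ι → A) (i : ι) (l : List ι) :
    rc (fun j => (monomial 1 (Y j) : A[X])) i l = monomial (l.length + 1) (rc Y i l) := by
  induction l with
  | nil => rfl
  | cons j l ih =>
    simp only [rc, ih, monomial_mul_monomial, List.length_cons, map_sub]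
    rw [add_comm 1 (l.length + 1)]

/-- Filtered version of the envelope lemma. -/
theorem env_nil_filt {R : Type} [CommRing R] {ι : Type} [Fintype ι] {N : ℕ} (h : Un R N) (c : ℕ)
    {A : Type} [Ring A] [Algebra R A] {F : ℕ → Submodule R A} (hF : Filt F) (Y : ι → A)
    (hY : ∀ i, Y i ∈ F 1) (hN : ∀ i, Y i ^ N = 0)
    (hc : ∀ i l, l.length = c → rc Y i l ∈ F (c + 2)) :
    (Submodule.span R (Set.range Y)) ^ (nilB (Fintype.card ι) N c)
      ≤ F (nilB (Fintype.card ι) N c + 1) := by
  have hP := hF.poly 1
  let S : Subalgebra R A[X] := (coefS (fun i => F (0 + 1 * i))).toSubalgebra hP.one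
    (fun x y hx hy => hP.mul hx hy)
  let I : Ideal S :=
    { carrier := {f | (f : A[X]) ∈ coefS (fun i => F (1 + 1 * i))}
      add_mem' := fun hf hg => (coefS (fun i => F (1 + 1 * i))).add_mem hf hg
      zero_mem' := (coefS (fun i => F (1 + 1 * i))).zero_mem
      smul_mem' := fun a x hx => hP.mul (i := 0) (j := 1) a.2 hx }
  have : I.IsTwoSided := ⟨fun b hx => hP.mul (i := 1) (j := 0) hx b.2⟩
  let π : S →ₐ[R] S ⧸ I := Ideal.Quotient.mkₐ R I
  let Y' : ι → S := fun i => ⟨monomial 1 (Y i), monomial_mem_coefS (by simpa using hY i)⟩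
  have hq := env_nil h c (S ⧸ I) (fun i => π (Y' i)) (fun i => by
      rw [← map_pow]
      have : Y' i ^ N = 0 := Subtype.ext (by simp [Y', monomial_pow, hN])
      rw [this, map_zero]) (by
      intro i l hl
      rw [← map_rc]
      refine Ideal.Quotient.eq_zero_iff_mem.2 ?_
      change (S.val (rc Y' i l)) ∈ coefS (fun i => F (1 + 1 * i))
      rw [map_rc]
      change rc (fun j => (monomial 1 (Y j) : A[X])) i l ∈ _
      rw [rc_monomial]
      refine monomial_mem_coefS ?_
      rw [hl]
      exact hF.anti (by omega) (hc i l hl))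
  have hmap : Submodule.span R (Set.range fun i => π (Y' i))
      = (Submodule.span R (Set.range Y')).map π.toLinearMap := by
    rw [Submodule.map_span, ← Set.range_comp]; rfl
  rw [hmap, ← Submodule.map_pow] at hq
  have hlift1 : ∀ x ∈ Submodule.span R (Set.range Y),
      ∃ x' ∈ Submodule.span R (Set.range Y'), (x' : A[X]) = monomial 1 x := by
    intro x hx
    induction hx using Submodule.span_induction with
    | mem x hx =>
      obtain ⟨i, rfl⟩ := hx
      exact ⟨Y' i, Submodule.subset_span ⟨i, rfl⟩, rfl⟩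
    | zero => exact ⟨0, Submodule.zero_mem _, by simp⟩
    | add x y _ _ hx hy =>
      obtain ⟨x', hx', ex'⟩ := hx
      obtain ⟨y', hy', ey'⟩ := hy
      exact ⟨x' + y', Submodule.add_mem _ hx' hy', by simp [ex', ey']⟩
    | smul r x _ hx =>
      obtain ⟨x', hx', ex'⟩ := hx
      exact ⟨r • x', Submodule.smul_mem _ _ hx', by
        rw [Subalgebra.coe_smul, ex', smul_monomial]⟩
  have hlift : ∀ k, ∀ x ∈ Submodule.span R (Set.range Y) ^ k,
      ∃ x' ∈ Submodule.span R (Set.range Y') ^ k, (x' : A[X]) = monomial k x := by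
    intro k
    induction k with
    | zero =>
      intro x hx
      rw [pow_zero] at hx ⊢
      obtain ⟨r, rfl⟩ := Submodule.mem_one.1 hx
      exact ⟨algebraMap R S r, Submodule.mem_one.2 ⟨r, rfl⟩, by
        simp [Polynomial.algebraMap_apply]⟩
    | succ k ihk =>
      intro x hx
      rw [pow_succ] at hx ⊢
      refine Submodule.mul_induction_on hx ?_ ?_
      · intro a ha b hb
        obtain ⟨a', ha', ea⟩ := ihk a ha
        obtain ⟨b', hb', eb⟩ := hlift1 b hb
        exact ⟨a' * b', Submodule.mul_mem_mul ha' hb', by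
          simp [ea, eb, monomial_mul_monomial]⟩
      · rintro a b ⟨a', ha', ea⟩ ⟨b', hb', eb⟩
        exact ⟨a' + b', Submodule.add_mem _ ha' hb', by simp [ea, eb]⟩
  intro x hx
  obtain ⟨x', hx', ex'⟩ := hlift _ x hx
  have h1 : π x' ∈ (⊥ : Submodule R (S ⧸ I)) := hq ▸ Submodule.mem_map_of_mem hx'
  have h2 : x' ∈ I := Ideal.Quotient.eq_zero_iff_mem.1 h1
  have h3 := h2 (nilB (Fintype.card ι) N c)
  rw [ex', coeff_monomial_same] at h3
  exact hF.anti (by omega) h3

end Pool.Agent.Lib.MP_95ba65_al.LP
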