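import Mathlib

/-! Kreknin's theorem for graded Lie subalgebras of an associative algebra. -/

set_option autoImplicit false

namespace Pool.Agent.Lib.MP_95ba65_al.LP

open Finset

variable {R : Type*} [CommRing R] {A : Type*} [Ring A] [Algebra R A]

/-- Span of the brackets. -/
def br (H K : Submodule R A) : Submodule R A :=
  Submodule.span R {z | ∃ x ∈ H, ∃ y ∈ K, z = x * y - y * x}

theorem br_mem {H K : Submodule R A} {x y : A} (hx : x ∈ H) (hy : y ∈ K) :
    x * y - y * x ∈ br H K := Submodule.subset_span ⟨x, hx, y, hy, rfl⟩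

theorem br_le {H K S : Submodule R A} :
    br H K ≤ S ↔ ∀ x ∈ H, ∀ y ∈ K, x * y - y * x ∈ S := by
  constructor
  · exact fun h x hx y hy => h (br_mem hx hy)
  · intro h
    refine Submodule.span_le.2 ?_
    rintro _ ⟨x, hx, y, hy, rfl⟩
    exact h x hx y hy

theorem br_mono {H K H' K' : Submodule R A} (h1 : H ≤ H') (h2 : K ≤ K') : br H K ≤ br H' K' :=
  br_le.2 fun _ hx _ hy => br_mem (h1 hx) (h2 hy)

theorem br_sup_le {H K L S : Submodule R A} (h1 : br H K ≤ S) (h2 : br H L ≤ S) :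
    br H (K ⊔ L) ≤ S := by
  refine br_le.2 fun x hx y hy => ?_
  obtain ⟨a, ha, b, hb, rfl⟩ := Submodule.mem_sup.1 hy
  have : x * (a + b) - (a + b) * x = (x * a - a * x) + (x * b - b * x) := by noncomm_ring
  rw [this]
  exact S.add_mem (h1 (br_mem hx ha)) (h2 (br_mem hx hb))

theorem br_comm (H K : Submodule R A) : br H K = br K H := by
  have : ∀ H K : Submodule R A, br H K ≤ br K H := fun H K => br_le.2 fun x hx y hy => by
    rw [← neg_sub]; exact Submodule.neg_mem _ (br_mem hy hx)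
  exact le_antisymm (this _ _) (this _ _)

/-- The elements of `H` whose bracket with `K` lies in `S`. -/
def cent (H K S : Submodule R A) : Submodule R A where
  carrier := {y | y ∈ H ∧ ∀ x ∈ K, x * y - y * x ∈ S}
  add_mem' := by
    rintro a b ⟨ha, ha'⟩ ⟨hb, hb'⟩
    refine ⟨H.add_mem ha hb, fun x hx => ?_⟩
    have : x * (a + b) - (a + b) * x = (x * a - a * x) + (x * b - b * x) := by noncomm_ring
    rw [this]
    exact S.add_mem (ha' x hx) (hb' x hx)
  zero_mem' := ⟨H.zero_mem, fun x _ => by simp⟩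
  smul_mem' := by
    rintro r a ⟨ha, ha'⟩
    refine ⟨H.smul_mem r ha, fun x hx => ?_⟩
    rw [mul_smul_comm, smul_mul_assoc, ← smul_sub]
    exact S.smul_mem r (ha' x hx)

theorem mem_cent {H K S : Submodule R A} {y : A} :
    y ∈ cent H K S ↔ y ∈ H ∧ ∀ x ∈ K, x * y - y * x ∈ S := Iff.rfl

theorem br_span_le {H S : Submodule R A} {s : Set A}
    (h : ∀ x ∈ H, ∀ y ∈ s, x * y - y * x ∈ S) : br H (Submodule.span R s) ≤ S := by
  have : Submodule.span R s ≤ cent ⊤ H S :=
    Submodule.span_le.2 fun y hy => ⟨trivial, fun x hx => h x hx y hy⟩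
  exact br_le.2 fun x hx y hy => (this hy).2 x hx

/-- Jacobi: the bracket of two ideals is an ideal. -/
theorem br_br_le {H K L : Submodule R A} (hK : br H K ≤ K) (hL : br H L ≤ L) :
    br H (br K L) ≤ br K L := by
  refine br_span_le ?_
  rintro h hh _ ⟨x, hx, y, hy, rfl⟩
  have : h * (x * y - y * x) - (x * y - y * x) * h
      = ((h * x - x * h) * y - y * (h * x - x * h)) + (x * (h * y - y * h) - (h * y - y * h) * x) := by
    noncomm_ring
  rw [this]
  exact Submodule.add_mem _ (br_mem (hK (br_mem hh hx)) hy) (br_mem hx (hL (br_mem hh hy)))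

/-- Derived subalgebra. -/
def Dr (H : Submodule R A) : Submodule R A := br H H

theorem Dr_iter_mono (m : ℕ) {H K : Submodule R A} (h : H ≤ K) : Dr^[m] H ≤ Dr^[m] K := by
  induction m with
  | zero => exact h
  | succ m ih =>
    rw [Function.iterate_succ_apply', Function.iterate_succ_apply']
    exact br_mono ih ih

theorem br_Dr_iter {H : Submodule R A} (hH : br H H ≤ H) (m : ℕ) :
    br H (Dr^[m] H) ≤ Dr^[m] H ∧ Dr^[m] H ≤ H := by
  induction m with
  | zero => exact ⟨hH, le_rfl⟩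
  | succ m ih =>
    rw [Function.iterate_succ_apply']
    exact ⟨br_br_le ih.1 ih.1, (br_mono ih.2 ih.2).trans hH⟩

theorem Dr_iter_succ_le {H : Submodule R A} (hH : br H H ≤ H) (m : ℕ) :
    Dr^[m + 1] H ≤ Dr^[m] H := by
  rw [Function.iterate_succ_apply']
  exact (br_mono (br_Dr_iter hH m).2 le_rfl).trans (br_Dr_iter hH m).1

theorem Dr_iter_anti {H : Submodule R A} (hH : br H H ≤ H) : Antitone fun m => Dr^[m] H :=
  antitone_nat_of_succ_le (Dr_iter_succ_le hH)

variable {n : ℕ} [NeZero n]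

/-- A grading by `ZMod n` given by projections. -/
structure Grad (Lab : ZMod n → Submodule R A) (π : ZMod n → A →ₗ[R] A) : Prop where
  mul : ∀ {a b : ZMod n} {x y : A}, x ∈ Lab a → y ∈ Lab b → x * y ∈ Lab (a + b)
  mem : ∀ a x, π a x ∈ Lab a
  same : ∀ {a : ZMod n} {x : A}, x ∈ Lab a → π a x = x
  ne : ∀ {a b : ZMod n} {x : A}, x ∈ Lab b → a ≠ b → π a x = 0
  sum : ∀ x, ∑ a, π a x = x

/-- The Lie subalgebra generated by the components of `H` with label at least `k`. -/
def genK (Lab : ZMod n → Submodule R A) (k : ℕ) (H : Submodule R A) : Submodule R A :=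
  sInf {S | br S S ≤ S ∧ ∀ a : ZMod n, k ≤ a.val → H ⊓ Lab a ≤ S}

section
variable {Lab : ZMod n → Submodule R A} {π : ZMod n → A →ₗ[R] A}

omit [NeZero n] in
theorem genK_le {k : ℕ} {H S : Submodule R A} (h1 : br S S ≤ S)
    (h2 : ∀ a : ZMod n, k ≤ a.val → H ⊓ Lab a ≤ S) : genK Lab k H ≤ S := sInf_le ⟨h1, h2⟩

omit [NeZero n] in
theorem le_genK {k : ℕ} (H : Submodule R A) {a : ZMod n} (ha : k ≤ a.val) :
    H ⊓ Lab a ≤ genK Lab k H := le_sInf fun _ hS => hS.2 a ha

omit [NeZero n] in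
theorem br_genK (k : ℕ) (H : Submodule R A) :
    br (genK Lab k H) (genK Lab k H) ≤ genK Lab k H :=
  le_sInf fun _ hS => (br_mono (sInf_le hS) (sInf_le hS)).trans hS.1

theorem Grad.proj_br (hG : Grad Lab π) (k : ZMod n) (h : A) {a : ZMod n} {x : A}
    (hx : x ∈ Lab a) : π k (h * x - x * h) = π (k - a) h * x - x * π (k - a) h := by
  have hb : ∀ b, π b h * x - x * π b h ∈ Lab (b + a) := fun b =>
    Submodule.sub_mem _ (hG.mul (hG.mem b h) hx) (add_comm a b ▸ hG.mul hx (hG.mem b h))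
  conv_lhs => rw [← hG.sum h, sum_mul, mul_sum, ← sum_sub_distrib, map_sum]
  rw [sum_eq_single (k - a)]
  · exact hG.same (by simpa using hb (k - a))
  · intro b _ hbk
    exact hG.ne (hb b) fun e => hbk (by rw [e]; ring)
  · intro h; exact absurd (mem_univ _) h

theorem Grad.br_graded (hG : Grad Lab π) {H K : Submodule R A} (hH : ∀ a, ∀ x ∈ H, π a x ∈ H)
    (hK : ∀ a, ∀ x ∈ K, π a x ∈ K) : ∀ a, ∀ x ∈ br H K, π a x ∈ br H K := by
  intro k
  have : br H K ≤ (br H K).comap (π k) := by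
    refine br_le.2 fun h hh x hx => ?_
    rw [Submodule.mem_comap, ← hG.sum x, mul_sum, sum_mul, ← sum_sub_distrib, map_sum]
    refine Submodule.sum_mem _ fun a _ => ?_
    rw [hG.proj_br k h (hG.mem a x)]
    exact br_mem (hH _ _ hh) (hK _ _ hx)
  exact fun x hx => this hx

theorem Grad.Dr_graded (hG : Grad Lab π) {H : Submodule R A} (hH : ∀ a, ∀ x ∈ H, π a x ∈ H)
    (m : ℕ) : ∀ a, ∀ x ∈ Dr^[m] H, π a x ∈ Dr^[m] H := by
  induction m with
  | zero => exact hH
  | succ m ih => rw [Function.iterate_succ_apply']; exact hG.br_graded ih ih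

theorem Grad.key (hG : Grad Lab π) {H : Submodule R A} (hH : ∀ a, ∀ x ∈ H, π a x ∈ H)
    (hL : br H H ≤ H) (h0 : H ⊓ Lab 0 = ⊥) (k : ZMod n) :
    br H (genK Lab k.val H) ⊓ Lab k ≤ genK Lab (k.val + 1) H := by
  let W : Submodule R A := (genK Lab (k.val + 1) H).comap (π k)
  have hgen : ∀ a : ZMod n, k.val ≤ a.val → ∀ h ∈ H, ∀ x ∈ H ⊓ Lab a, h * x - x * h ∈ W := by
    intro a ha h hh x hx
    change π k _ ∈ genK Lab (k.val + 1) H
    rw [hG.proj_br k h hx.2]
    rcases ha.eq_or_lt with e | e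
    · have : a = k := ZMod.val_injective n e.symm
      subst this
      have h1 : π (a - a) h ∈ H ⊓ Lab 0 := ⟨hH _ _ hh, by simpa using hG.mem (a - a) h⟩
      rw [h0, Submodule.mem_bot] at h1
      rw [h1]; simp
    · have hv : k.val + 1 ≤ (k - a).val := by
        have h1 : (k - a) + a = k := by ring
        have h2 := ZMod.val_add (k - a) a
        rw [h1] at h2
        have h3 := ZMod.val_lt (k - a)
        have h4 := ZMod.val_lt a
        by_contra h5
        rcases lt_or_ge ((k - a).val + a.val) n with h6 | h6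
        · rw [Nat.mod_eq_of_lt h6] at h2; omega
        · rw [Nat.mod_eq_sub_mod h6, Nat.mod_eq_of_lt (by omega)] at h2; omega
      exact br_genK _ _ (br_mem (le_genK H hv ⟨hH _ _ hh, hG.mem _ _⟩) (le_genK H e hx))
  have hc : genK Lab k.val H ≤ cent H H W := by
    refine genK_le ?_ fun a ha x hx => ⟨hx.1, fun h hh => hgen a ha h hh x hx⟩
    refine br_le.2 fun s hs t ht => ⟨hL (br_mem hs.1 ht.1), fun h hh => ?_⟩
    have : h * (s * t - t * s) - (s * t - t * s) * h
        = ((h * s - s * h) * t - t * (h * s - s * h))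
          - ((h * t - t * h) * s - s * (h * t - t * h)) := by noncomm_ring
    rw [this]
    exact W.sub_mem (ht.2 _ (hL (br_mem hh hs.1))) (hs.2 _ (hL (br_mem hh ht.1)))
  intro z hz
  have h1 : z ∈ W := (br_le.2 fun h hh s hs => (hc hs).2 h hh) hz.1
  have h2 : π k z = z := hG.same hz.2
  rw [← h2]
  exact h1

theorem Grad.kreknin_aux (hG : Grad Lab π) (k : ℕ) (hk : k < n) :
    ∀ H : Submodule R A, (∀ a, ∀ x ∈ H, π a x ∈ H) → br H H ≤ H → H ⊓ Lab 0 = ⊥ →
      Dr^[2 ^ k - 1] H ≤ genK Lab (k + 1) H := by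
  induction k with
  | zero =>
    intro H hH _ h0 x hx
    rw [← hG.sum x]
    refine Submodule.sum_mem _ fun a _ => ?_
    by_cases ha : a = 0
    · subst ha
      have h1 : π 0 x ∈ H ⊓ Lab 0 := ⟨hH _ _ hx, hG.mem _ _⟩
      rw [h0, Submodule.mem_bot] at h1
      rw [h1]; exact Submodule.zero_mem _
    · refine le_genK H ?_ ⟨hH _ _ hx, hG.mem _ _⟩
      have : a.val ≠ 0 := fun e => ha ((ZMod.val_eq_zero a).1 e)
      omega
  | succ k ih =>
    intro H hH hL h0
    have ih' := ih (by omega)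
    set e := 2 ^ k - 1 with he
    set M := Dr^[e + 1] H with hM
    have hMH : M ≤ H := (br_Dr_iter hL _).2
    have hML : br M M ≤ M := (br_mono hMH le_rfl).trans (br_Dr_iter hL _).1
    have hM0 : M ⊓ Lab 0 = ⊥ := eq_bot_iff.2 (h0 ▸ inf_le_inf_right _ hMH)
    have hval : ((k + 1 : ℕ) : ZMod n).val = k + 1 := ZMod.val_cast_of_lt hk
    have h1 : M ≤ br H (genK Lab (k + 1) H) := by
      rw [hM, Function.iterate_succ_apply']
      exact br_mono (br_Dr_iter hL _).2 (ih' H hH hL h0)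
    have h2 := hG.key hH hL h0 ((k + 1 : ℕ) : ZMod n)
    rw [hval] at h2
    have h3 : genK Lab (k + 1) M ≤ genK Lab (k + 1 + 1) H := by
      refine genK_le (br_genK _ _) fun a ha => ?_
      rcases ha.eq_or_lt with e1 | e1
      · have : a = ((k + 1 : ℕ) : ZMod n) := ZMod.val_injective n (by rw [hval, e1])
        subst this
        exact (inf_le_inf_right _ h1).trans h2
      · exact (inf_le_inf_right _ hMH).trans (le_genK H e1)
    have h4 : 2 ^ (k + 1) - 1 = e + (e + 1) := by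
      have : 0 < 2 ^ k := by positivity
      rw [he, pow_succ]; omega
    rw [h4, Function.iterate_add_apply]
    exact (ih' M (hG.Dr_graded hH _) hML hM0).trans h3

/-- Kreknin's theorem. -/
theorem Grad.kreknin (hG : Grad Lab π) {H : Submodule R A} (hH : ∀ a, ∀ x ∈ H, π a x ∈ H)
    (hL : br H H ≤ H) (h0 : H ⊓ Lab 0 = ⊥) : Dr^[2 ^ (n - 1) - 1] H = ⊥ := by
  have hn : 0 < n := Nat.pos_of_ne_zero (NeZero.ne n)
  refine eq_bot_iff.2 ((hG.kreknin_aux (n - 1) (by omega) H hH hL h0).trans ?_)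
  refine genK_le (br_le.2 fun x hx y _ => ?_) fun a ha => ?_
  · rw [Submodule.mem_bot] at hx
    rw [hx]; simp
  · have := ZMod.val_lt a
    omega

end

end Pool.Agent.Lib.MP_95ba65_al.LP
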