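import Mathlib
import Pool.Agent.Lib.MP_95ba65_al.LPExp
import Pool.Agent.Lib.MP_95ba65_al.LPKre

/-! A group generated by exponentials of elements of a soluble Lie algebra is soluble of bounded
derived length. -/

set_option autoImplicit false

namespace Pool.Agent.Lib.MP_95ba65_al.LP

open Finset
open scoped commutatorElement

variable {R : Type*} [CommRing R] {A : Type*} [Ring A] [Algebra R A] {G : Type*} [Group G]

variable (R) in
/-- Conjugation by `ρ g`. -/
def Ad (ρ : G →* A) (g : G) : A →ₐ[R] A where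
  toFun x := ρ g * x * ρ g⁻¹
  map_one' := by rw [mul_one, ← map_mul, mul_inv_cancel, map_one]
  map_mul' x y := by
    have : ρ g⁻¹ * ρ g = 1 := by rw [← map_mul, inv_mul_cancel, map_one]
    calc ρ g * (x * y) * ρ g⁻¹ = ρ g * x * (ρ g⁻¹ * ρ g) * y * ρ g⁻¹ := by
          rw [this]; noncomm_ring
      _ = _ := by noncomm_ring
  map_zero' := by simp
  map_add' x y := by noncomm_ring
  commutes' r := by
    rw [← Algebra.commutes, mul_assoc, ← map_mul, mul_inv_cancel, map_one, mul_one]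

theorem Ad_apply (ρ : G →* A) (g : G) (x : A) : Ad R ρ g x = ρ g * x * ρ g⁻¹ := rfl

theorem Ad_mul (ρ : G →* A) (g h : G) (x : A) : Ad R ρ (g * h) x = Ad R ρ g (Ad R ρ h x) := by
  rw [Ad_apply, Ad_apply, Ad_apply, mul_inv_rev, map_mul, map_mul]
  simp only [mul_assoc]

theorem Ad_one (ρ : G →* A) (x : A) : Ad R ρ 1 x = x := by simp [Ad_apply]

theorem Ad_rho (ρ : G →* A) (g h : G) : Ad R ρ g (ρ h) = ρ (g * h * g⁻¹) := by
  simp only [Ad_apply, map_mul]

/-- Derived subgroup of a subgroup. -/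
def DerG (X : Subgroup G) : Subgroup G := ⁅X, X⁆

theorem DerG_iter_mono (m : ℕ) {X Y : Subgroup G} (h : X ≤ Y) : DerG^[m] X ≤ DerG^[m] Y := by
  induction m with
  | zero => exact h
  | succ m ih =>
    rw [Function.iterate_succ_apply', Function.iterate_succ_apply']
    exact Subgroup.commutator_mono ih ih

theorem DerG_le (X : Subgroup G) : DerG X ≤ X := by
  refine Subgroup.commutator_le.2 fun a ha b hb => ?_
  rw [commutatorElement_def]
  exact X.mul_mem (X.mul_mem (X.mul_mem ha hb) (X.inv_mem ha)) (X.inv_mem hb)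

theorem DerG_iter_le (m : ℕ) (X : Subgroup G) : DerG^[m] X ≤ X := by
  induction m with
  | zero => exact le_rfl
  | succ m ih => rw [Function.iterate_succ_apply']; exact (DerG_le _).trans ih

theorem derivedSeries_eq_DerG (m : ℕ) : derivedSeries G m = DerG^[m] ⊤ := by
  induction m with
  | zero => rfl
  | succ m ih => rw [Function.iterate_succ_apply', derivedSeries_succ, ih]; rfl

theorem closure_ind {Y : Set G} (hY : ∀ y ∈ Y, y⁻¹ ∈ Y) {P : G → Prop} (h1 : P 1)
    (hm : ∀ a b, P a → P b → P (a * b)) (hy : ∀ y ∈ Y, P y) :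
    ∀ g ∈ Subgroup.closure Y, P g := by
  intro g hg
  induction hg using Subgroup.closure_induction'' with
  | mem x hx => exact hy x hx
  | inv_mem x hx => exact hy _ (hY x hx)
  | one => exact h1
  | mul a b _ _ ha hb => exact hm a b ha hb

theorem pow_apply_mem {M : Type*} [AddCommGroup M] [Module R M] {f : Module.End R M}
    {S : Submodule R M} (hf : ∀ x ∈ S, f x ∈ S) (i : ℕ) : ∀ x ∈ S, (f ^ i) x ∈ S := by
  induction i with
  | zero => exact fun x hx => hx
  | succ i ih => intro x hx; rw [pow_succ']; exact hf _ (ih x hx)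

theorem ex_apply {M : Type*} [AddCommGroup M] [Module R M] (f : Module.End R M) (T : ℕ) (x : M) :
    ex R T f x = ∑ i ∈ range T, fi R i • (f ^ i) x := by
  simp [ex, LinearMap.sum_apply]

theorem ex_apply_mem {M : Type*} [AddCommGroup M] [Module R M] {f : Module.End R M}
    {S : Submodule R M} (hf : ∀ x ∈ S, f x ∈ S) (T : ℕ) {x : M} (hx : x ∈ S) :
    ex R T f x ∈ S := by
  rw [ex_apply]
  exact S.sum_mem fun i _ => S.smul_mem _ (pow_apply_mem hf i x hx)

theorem ex_apply_sub {M : Type*} [AddCommGroup M] [Module R M] {f : Module.End R M}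
    {S : Submodule R M} (hf : ∀ x ∈ S, f x ∈ S) (T : ℕ) {x : M} (hx : f x ∈ S) :
    ex R (T + 1) f x - x ∈ S := by
  rw [ex_apply, sum_range_succ', fi_zero]
  simp only [pow_zero, one_smul, Module.End.one_apply, add_sub_cancel_right]
  refine S.sum_mem fun i _ => S.smul_mem _ ?_
  rw [pow_succ]
  exact pow_apply_mem hf i _ hx

theorem ex_apply_sub2 {M : Type*} [AddCommGroup M] [Module R M] {f : Module.End R M}
    {S : Submodule R M} (hf : ∀ x ∈ S, f x ∈ S) (T : ℕ) {x : M} (hx : f (f x) ∈ S) :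
    ex R (T + 2) f x - x - f x ∈ S := by
  rw [ex_apply, sum_range_succ', sum_range_succ', fi_zero, zero_add, fi_one]
  simp only [pow_zero, one_smul, Module.End.one_apply, add_sub_cancel_right, pow_one]
  refine S.sum_mem fun i _ => S.smul_mem _ ?_
  rw [pow_succ, pow_succ]
  exact pow_apply_mem hf i _ hx

/-- The data of a generating set consisting of exponentials. -/
structure ExpGen (ρ : G →* A) (T : ℕ) (L : Submodule R A) (Y : Set G) : Prop where
  lie : br L L ≤ L
  inv : ∀ y ∈ Y, y⁻¹ ∈ Y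
  exp : ∀ y ∈ Y, ∃ ξ ∈ L, (∀ x, Ad R ρ y x = ex R (T + 1) (adj R ξ) x) ∧ ρ y = ex R (T + 1) ξ

/-- The bound for the derived length. -/
def stabF : ℕ → ℕ
  | 0 => 0
  | t + 1 => stabF t + t + 1

/-- Elements of `M` that move the chain `D` by `r` steps. -/
def St (ρ : G →* A) (M : Subgroup G) (D : ℕ → Submodule R A)
    (hD : ∀ i, ∀ g ∈ M, ∀ x ∈ D i, Ad R ρ g x ∈ D i) (r : ℕ) : Subgroup G where
  carrier := {g | g ∈ M ∧ ∀ i, ∀ x ∈ D i, Ad R ρ g x - x ∈ D (i + r)}
  one_mem' := ⟨M.one_mem, fun i x _ => by rw [Ad_one, sub_self]; exact Submodule.zero_mem _⟩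
  mul_mem' := by
    rintro a b ⟨ha, ha'⟩ ⟨hb, hb'⟩
    refine ⟨M.mul_mem ha hb, fun i x hx => ?_⟩
    have : Ad R ρ (a * b) x - x = Ad R ρ a (Ad R ρ b x - x) + (Ad R ρ a x - x) := by
      rw [Ad_mul, map_sub]; abel
    rw [this]
    exact Submodule.add_mem _ (hD _ a ha _ (hb' i x hx)) (ha' i x hx)
  inv_mem' := by
    rintro a ⟨ha, ha'⟩
    refine ⟨M.inv_mem ha, fun i x hx => ?_⟩
    have : Ad R ρ a⁻¹ x - x = -Ad R ρ a⁻¹ (Ad R ρ a x - x) := by
      rw [map_sub, ← Ad_mul, inv_mul_cancel, Ad_one]; abel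
    rw [this]
    exact Submodule.neg_mem _ (hD _ _ (M.inv_mem ha) _ (ha' i x hx))

/-- Elements of `M` acting trivially on `P` modulo `Q`. -/
def Triv (ρ : G →* A) (M : Subgroup G) (P Q : Submodule R A)
    (hP : ∀ g ∈ M, ∀ x ∈ P, Ad R ρ g x ∈ P) : Subgroup G where
  carrier := {g | g ∈ M ∧ ∀ x ∈ P, Ad R ρ g x - x ∈ Q}
  one_mem' := ⟨M.one_mem, fun x _ => by rw [Ad_one, sub_self]; exact Submodule.zero_mem _⟩
  mul_mem' := by
    rintro a b ⟨ha, ha'⟩ ⟨hb, hb'⟩
    refine ⟨M.mul_mem ha hb, fun x hx => ?_⟩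
    have : Ad R ρ (a * b) x - x = (Ad R ρ a (Ad R ρ b x) - Ad R ρ b x) + (Ad R ρ b x - x) := by
      rw [Ad_mul]; abel
    rw [this]
    exact Submodule.add_mem _ (ha' _ (hP b hb x hx)) (hb' x hx)
  inv_mem' := by
    rintro a ⟨ha, ha'⟩
    refine ⟨M.inv_mem ha, fun x hx => ?_⟩
    have : Ad R ρ a⁻¹ x - x = -(Ad R ρ a (Ad R ρ a⁻¹ x) - Ad R ρ a⁻¹ x) := by
      rw [← Ad_mul, mul_inv_cancel, Ad_one]; abel
    rw [this]
    exact Submodule.neg_mem _ (ha' _ (hP _ (M.inv_mem ha) x hx))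

theorem Ad_commutator (ρ : G →* A) (a b : G) (x : A) :
    Ad R ρ ⁅a, b⁆ x - x = Ad R ρ a (Ad R ρ b (Ad R ρ (b * a)⁻¹ x))
      - Ad R ρ b (Ad R ρ a (Ad R ρ (b * a)⁻¹ x)) := by
  rw [← Ad_mul, ← Ad_mul, ← Ad_mul, ← Ad_mul, mul_assoc b a, ← mul_assoc b a, mul_inv_cancel,
    Ad_one, commutatorElement_def]
  congr 2
  group

theorem St_comm (ρ : G →* A) (M : Subgroup G) (D : ℕ → Submodule R A)
    (hD : ∀ i, ∀ g ∈ M, ∀ x ∈ D i, Ad R ρ g x ∈ D i) (r s : ℕ) :
    ⁅St ρ M D hD r, St ρ M D hD s⁆ ≤ St ρ M D hD (r + s) := by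
  refine Subgroup.commutator_le.2 ?_
  rintro a ⟨ha, ha'⟩ b ⟨hb, hb'⟩
  refine ⟨?_, fun i x hx => ?_⟩
  · rw [commutatorElement_def]
    exact M.mul_mem (M.mul_mem (M.mul_mem ha hb) (M.inv_mem ha)) (M.inv_mem hb)
  · rw [Ad_commutator]
    have hx' := hD i _ (M.inv_mem (M.mul_mem hb ha)) x hx
    set x' := Ad R ρ (b * a)⁻¹ x
    have : Ad R ρ a (Ad R ρ b x') - Ad R ρ b (Ad R ρ a x')
        = (Ad R ρ a (Ad R ρ b x' - x') - (Ad R ρ b x' - x'))
          - (Ad R ρ b (Ad R ρ a x' - x') - (Ad R ρ a x' - x')) := by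
      rw [map_sub, map_sub]; abel
    rw [this]
    refine Submodule.sub_mem _ ?_ ?_
    · have := ha' _ _ (hb' i x' hx')
      rwa [add_assoc, add_comm s r] at this
    · have := hb' _ _ (ha' i x' hx')
      rwa [add_assoc] at this

theorem St_der (ρ : G →* A) (M : Subgroup G) (D : ℕ → Submodule R A) (hanti : Antitone D)
    (hD : ∀ i, ∀ g ∈ M, ∀ x ∈ D i, Ad R ρ g x ∈ D i) (j : ℕ) :
    DerG^[j] (St ρ M D hD 1) ≤ St ρ M D hD (j + 1) := by
  induction j with
  | zero => exact le_rfl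
  | succ j ih =>
    rw [Function.iterate_succ_apply']
    refine (Subgroup.commutator_mono ih ih).trans ((St_comm ρ M D hD _ _).trans ?_)
    rintro g ⟨hg, hg'⟩
    exact ⟨hg, fun i x hx => hanti (by omega) (hg' i x hx)⟩

namespace ExpGen
variable {ρ : G →* A} {T : ℕ} {L : Submodule R A} {Y : Set G}

theorem pres (h : ExpGen ρ T L Y) {S : Submodule R A} (hS : br L S ≤ S) :
    ∀ g ∈ Subgroup.closure Y, ∀ x ∈ S, Ad R ρ g x ∈ S := by
  refine closure_ind h.inv (fun x hx => by rwa [Ad_one])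
    (fun a b ha hb x hx => by rw [Ad_mul]; exact ha _ (hb x hx)) ?_
  intro y hy x hx
  obtain ⟨ξ, hξ, h1, -⟩ := h.exp y hy
  rw [h1]
  exact ex_apply_mem (fun z hz => hS (br_mem hξ hz)) _ hx

theorem stab (h : ExpGen ρ T L Y) (t : ℕ) : ∀ P Q : Submodule R A, br L P ≤ P → br L Q ≤ Q →
    br (Dr^[t] L) P ≤ Q →
    ∀ g ∈ DerG^[stabF t] (Subgroup.closure Y), ∀ x ∈ P, Ad R ρ g x - x ∈ Q := by
  induction t with
  | zero =>
    intro P Q hP hQ hPQ g hg
    have key : Subgroup.closure Y ≤ Triv ρ (Subgroup.closure Y) P Q (h.pres hP) := by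
      refine (Subgroup.closure_le _).2 fun y hy => ⟨Subgroup.subset_closure hy, fun x hx => ?_⟩
      obtain ⟨ξ, hξ, h1, -⟩ := h.exp y hy
      rw [h1]
      exact ex_apply_sub (fun z hz => hQ (br_mem hξ hz)) _ (hPQ (br_mem hξ hx))
    exact (key hg).2
  | succ t ih =>
    intro P Q hP hQ hPQ
    set M := Subgroup.closure Y with hM
    set C := cent L P Q with hC
    have hCL : br L C ≤ C := by
      refine br_le.2 fun l hl z hz => ⟨h.lie (br_mem hl hz.1), fun x hx => ?_⟩
      have : x * (l * z - z * l) - (l * z - z * l) * x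
          = (l * (x * z - z * x) - (x * z - z * x) * l)
            - ((l * x - x * l) * z - z * (l * x - x * l)) := by noncomm_ring
      rw [this]
      exact Q.sub_mem (hQ (br_mem hl (hz.2 x hx))) (hz.2 _ (hP (br_mem hl hx)))
    have hDC : Dr^[t + 1] L ≤ C := fun z hz =>
      ⟨(br_Dr_iter h.lie _).2 hz, fun x hx => by
        rw [← neg_sub]; exact Q.neg_mem (hPQ (br_mem hz hx))⟩
    let D : ℕ → Submodule R A := fun i => Dr^[i] L ⊔ C
    have hDL : ∀ i, br L (D i) ≤ D i := fun i =>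
      br_sup_le ((br_Dr_iter h.lie i).1.trans le_sup_left) (hCL.trans le_sup_right)
    have hanti : Antitone D := fun i j hij => sup_le_sup_right (Dr_iter_anti h.lie hij) _
    have hD : ∀ i, ∀ g ∈ M, ∀ x ∈ D i, Ad R ρ g x ∈ D i := fun i => h.pres (hDL i)
    have hstep : ∀ i, br (Dr^[t] L) (D i) ≤ D (i + 1) := by
      intro i
      refine br_sup_le ?_ (((br_mono (br_Dr_iter h.lie t).2 le_rfl).trans hCL).trans le_sup_right)
      rcases le_or_gt i t with hi | hi
      · refine le_trans ?_ le_sup_left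
        rw [Function.iterate_succ_apply']
        exact br_mono (Dr_iter_anti h.lie hi) le_rfl
      · refine le_trans ?_ le_sup_right
        exact (br_mono (br_Dr_iter h.lie t).2 ((Dr_iter_anti h.lie hi).trans hDC)).trans hCL
    have h1 : DerG^[stabF t] M ≤ St ρ M D hD 1 := fun g hg =>
      ⟨DerG_iter_le _ _ hg, fun i => ih (D i) (D (i + 1)) (hDL i) (hDL _) (hstep i) g hg⟩
    have h2 : DerG^[t + stabF t] M ≤ St ρ M D hD (t + 1) := by
      rw [Function.iterate_add_apply]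
      exact (DerG_iter_mono t h1).trans (St_der ρ M D hanti hD t)
    -- elements of `St (t + 1)` commute with `M` on `P / Q`
    have h3 : ∀ g ∈ St ρ M D hD (t + 1), ∀ d ∈ M, ∀ x ∈ P,
        Ad R ρ g (Ad R ρ d x) - Ad R ρ d (Ad R ρ g x) ∈ Q := by
      rintro g ⟨hg, hg'⟩
      have hgP := h.pres hP g hg
      have hgC : ∀ ξ ∈ L, Ad R ρ g ξ - ξ ∈ C := by
        intro ξ hξ
        have := hg' 0 ξ (Submodule.mem_sup_left hξ)
        rw [zero_add] at this
        exact (sup_le hDC le_rfl : D (t + 1) ≤ C) this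
      have key : ∀ d ∈ M, d ∈ M ∧ ∀ x ∈ P,
          Ad R ρ g (Ad R ρ d x) - Ad R ρ d (Ad R ρ g x) ∈ Q := by
        refine closure_ind h.inv ⟨M.one_mem, fun x _ => by
          rw [Ad_one, Ad_one, sub_self]; exact Q.zero_mem⟩ ?_ ?_
        · rintro a b ⟨ha, ha'⟩ ⟨hb, hb'⟩
          refine ⟨M.mul_mem ha hb, fun x hx => ?_⟩
          have : Ad R ρ g (Ad R ρ (a * b) x) - Ad R ρ (a * b) (Ad R ρ g x)
              = (Ad R ρ g (Ad R ρ a (Ad R ρ b x)) - Ad R ρ a (Ad R ρ g (Ad R ρ b x)))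
                + Ad R ρ a (Ad R ρ g (Ad R ρ b x) - Ad R ρ b (Ad R ρ g x)) := by
            rw [Ad_mul, Ad_mul, map_sub]; abel
          rw [this]
          exact Q.add_mem (ha' _ (h.pres hP b hb x hx)) (h.pres hQ a ha _ (hb' x hx))
        · intro y hy
          refine ⟨Subgroup.subset_closure hy, fun x hx => ?_⟩
          obtain ⟨ξ, hξ, e1, -⟩ := h.exp y hy
          have hξP : ∀ z ∈ P, adj R ξ z ∈ P := fun z hz => hP (br_mem hξ hz)
          have hξQ : ∀ z ∈ Q, adj R ξ z ∈ Q := fun z hz => hQ (br_mem hξ hz)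
          have e2 : ∀ z ∈ P, Ad R ρ g (adj R ξ z) - adj R ξ (Ad R ρ g z) ∈ Q := by
            intro z hz
            have : Ad R ρ g (adj R ξ z) - adj R ξ (Ad R ρ g z)
                = -(Ad R ρ g z * (Ad R ρ g ξ - ξ) - (Ad R ρ g ξ - ξ) * Ad R ρ g z) := by
              rw [adj_apply, adj_apply, map_sub, map_mul, map_mul]; noncomm_ring
            rw [this]
            exact Q.neg_mem ((hgC ξ hξ).2 _ (hgP z hz))
          have e3 : ∀ i : ℕ, ∀ z ∈ P,
              Ad R ρ g ((adj R ξ ^ i) z) - (adj R ξ ^ i) (Ad R ρ g z) ∈ Q := by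
            intro i
            induction i with
            | zero => intro z _; simp
            | succ i ihi =>
              intro z hz
              have : Ad R ρ g ((adj R ξ ^ (i + 1)) z) - (adj R ξ ^ (i + 1)) (Ad R ρ g z)
                  = (Ad R ρ g (adj R ξ ((adj R ξ ^ i) z)) - adj R ξ (Ad R ρ g ((adj R ξ ^ i) z)))
                    + adj R ξ (Ad R ρ g ((adj R ξ ^ i) z) - (adj R ξ ^ i) (Ad R ρ g z)) := by
                rw [pow_succ', Module.End.mul_apply, Module.End.mul_apply, map_sub]; abel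
              rw [this]
              exact Q.add_mem (e2 _ (pow_apply_mem hξP i z hz)) (hξQ _ (ihi z hz))
          rw [e1, e1, ex_apply, ex_apply, map_sum, ← sum_sub_distrib]
          refine Q.sum_mem fun i _ => ?_
          rw [map_smul, ← smul_sub]
          exact Q.smul_mem _ (e3 i x hx)
      exact fun d hd => (key d hd).2
    have h4 : DerG^[stabF (t + 1)] M ≤ Triv ρ M P Q (h.pres hP) := by
      have e : stabF (t + 1) = (t + stabF t) + 1 := by rw [stabF]; omega
      rw [e, Function.iterate_succ_apply']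
      refine (Subgroup.commutator_mono h2 (DerG_iter_le _ _)).trans
        (Subgroup.commutator_le.2 fun a ha b hb => ⟨?_, fun x hx => ?_⟩)
      · rw [commutatorElement_def]
        exact M.mul_mem (M.mul_mem (M.mul_mem ha.1 hb) (M.inv_mem ha.1)) (M.inv_mem hb)
      · rw [Ad_commutator]
        exact h3 a ha b hb _ (h.pres hP _ (M.inv_mem (M.mul_mem hb ha.1)) x hx)
    exact fun g hg => (h4 hg).2

theorem solv (h : ExpGen ρ T L Y) {t : ℕ} (ht : Dr^[t] L = ⊥) :
    ∀ g ∈ DerG^[stabF t + 1] (Subgroup.closure Y), ρ g = 1 := by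
  set M := Subgroup.closure Y with hM
  have h1 : ∀ g ∈ DerG^[stabF t] M, ∀ ξ ∈ L, Commute (ρ g) ξ := by
    intro g hg ξ hξ
    have := h.stab t L ⊥ h.lie (br_le.2 fun x _ y hy => by
      rw [Submodule.mem_bot] at hy; rw [hy]; simp) (br_le.2 fun x hx y _ => by
      rw [ht, Submodule.mem_bot] at hx; rw [hx]; simp) g hg ξ hξ
    rw [Submodule.mem_bot, sub_eq_zero, Ad_apply] at this
    have h2 : ρ g⁻¹ * ρ g = 1 := by rw [← map_mul, inv_mul_cancel, map_one]
    change ρ g * ξ = ξ * ρ g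
    conv_rhs => rw [← this]
    rw [mul_assoc, h2, mul_one]
  have h2 : ∀ g ∈ DerG^[stabF t] M, ∀ d ∈ M, Commute (ρ g) (ρ d) := by
    intro g hg
    refine closure_ind h.inv (by simp) (fun a b ha hb => by rw [map_mul]; exact ha.mul_right hb) ?_
    intro y hy
    obtain ⟨ξ, hξ, -, e⟩ := h.exp y hy
    rw [e]
    exact commute_ex (h1 g hg ξ hξ)
  rw [Function.iterate_succ_apply']
  have : DerG (DerG^[stabF t] M) ≤ ρ.ker := by
    refine Subgroup.commutator_le.2 fun a ha b hb => ?_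
    rw [MonoidHom.mem_ker, commutatorElement_def, map_mul, map_mul, map_mul,
      (h2 a ha b (DerG_iter_le _ _ hb)).eq, ← map_mul, ← map_mul, ← map_mul]
    simp
  exact fun g hg => this hg

end ExpGen

end Pool.Agent.Lib.MP_95ba65_al.LP
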