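import Mathlib
import Pool.Agent.Lib.MP_95ba65_al.LPNil
import Pool.Agent.Lib.MP_95ba65_al.LPStab

/-! Augmentation submodules of represented groups, logarithms of group elements. -/

set_option autoImplicit false

namespace Pool.Agent.Lib.MP_95ba65_al.LP

open Finset Polynomial
open scoped commutatorElement

section
variable {R : Type*} [CommRing R] {A : Type*} [Ring A] [Algebra R A] {G : Type*} [Group G]

/-- The filtration by powers of a multiplicatively closed submodule. -/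
def FJ (J : Submodule R A) (i : ℕ) : Submodule R A := J ^ i ⊔ J ^ (i + 1)

theorem pow_succ_le {J : Submodule R A} (hJ : J * J ≤ J) (i : ℕ) : J ^ (i + 2) ≤ J ^ (i + 1) := by
  rw [pow_succ, pow_succ, mul_assoc]
  exact mul_le_mul' le_rfl hJ

theorem FJ_succ {J : Submodule R A} (hJ : J * J ≤ J) (i : ℕ) : FJ J (i + 1) = J ^ (i + 1) :=
  sup_eq_left.2 (pow_succ_le hJ i)

theorem FJ_one {J : Submodule R A} (hJ : J * J ≤ J) : FJ J 1 = J := by
  rw [FJ_succ hJ 0, zero_add, pow_one]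

theorem filt_FJ {J : Submodule R A} (hJ : J * J ≤ J) : Filt (FJ J) where
  one := Submodule.mem_sup_left (by rw [pow_zero]; exact Submodule.mem_one.2 ⟨1, map_one _⟩)
  mul := by
    intro i j x y hx hy
    have : FJ J i * FJ J j ≤ FJ J (i + j) := by
      unfold FJ
      rw [Submodule.mul_sup, Submodule.sup_mul, Submodule.sup_mul, ← pow_add, ← pow_add,
        ← pow_add, ← pow_add]
      refine sup_le (sup_le le_sup_left ?_) (sup_le ?_ ?_)
      · rw [add_right_comm]; exact le_sup_right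
      · exact le_sup_right
      · refine le_trans ?_ le_sup_right
        rw [show i + 1 + (j + 1) = i + j + 2 by omega]
        exact pow_succ_le hJ _
    exact this (Submodule.mul_mem_mul hx hy)
  anti := antitone_nat_of_succ_le fun i => by
    rw [FJ_succ hJ]; exact le_sup_right

theorem FJ_eq_bot {J : Submodule R A} {c : ℕ} (h : J ^ c = ⊥) : FJ J c = ⊥ := by
  rw [FJ, pow_succ, h]; simp

variable (R) in
/-- The span of the elements `ρ k - 1`, `k ∈ K`. -/
def JK (ρ : G →* A) (K : Subgroup G) : Submodule R A :=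
  Submodule.span R {x | ∃ k ∈ K, x = ρ k - 1}

theorem mem_JK (ρ : G →* A) {K : Subgroup G} {k : G} (hk : k ∈ K) : ρ k - 1 ∈ JK R ρ K :=
  Submodule.subset_span ⟨k, hk, rfl⟩

theorem JK_mono (ρ : G →* A) {K L : Subgroup G} (h : K ≤ L) : JK R ρ K ≤ JK R ρ L :=
  Submodule.span_mono fun _ ⟨k, hk, e⟩ => ⟨k, h hk, e⟩

theorem JK_mul (ρ : G →* A) (K : Subgroup G) : JK R ρ K * JK R ρ K ≤ JK R ρ K := by
  rw [JK, Submodule.span_mul_span]
  refine Submodule.span_le.2 ?_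
  rintro _ ⟨_, ⟨a, ha, rfl⟩, _, ⟨b, hb, rfl⟩, rfl⟩
  have : (ρ a - 1) * (ρ b - 1) = (ρ (a * b) - 1) - (ρ a - 1) - (ρ b - 1) := by
    rw [map_mul]; noncomm_ring
  change (ρ a - 1) * (ρ b - 1) ∈ JK R ρ K
  rw [this]
  exact Submodule.sub_mem _ (Submodule.sub_mem _ (mem_JK ρ (K.mul_mem ha hb)) (mem_JK ρ ha))
    (mem_JK ρ hb)

theorem filt_JK (ρ : G →* A) (K : Subgroup G) : Filt (FJ (JK R ρ K)) := filt_FJ (JK_mul ρ K)

theorem mem_FJ_one (ρ : G →* A) {K : Subgroup G} {k : G} (hk : k ∈ K) :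
    ρ k - 1 ∈ FJ (JK R ρ K) 1 := by rw [FJ_one (JK_mul ρ K)]; exact mem_JK ρ hk

theorem mem_FJ_zero (ρ : G →* A) {K : Subgroup G} {k : G} (hk : k ∈ K) :
    ρ k ∈ FJ (JK R ρ K) 0 := by
  have := Submodule.add_mem _ ((filt_JK (R := R) ρ K).anti (Nat.zero_le 1) (mem_FJ_one ρ hk))
    (filt_JK ρ K).one
  simpa using this

/-- Iterated commutators `[K, [K, ..., X]]`. -/
def cm (K X : Subgroup G) : ℕ → Subgroup G
  | 0 => X
  | e + 1 => ⁅K, cm K X e⁆

theorem cm_add (K X : Subgroup G) (a b : ℕ) : cm K X (a + b) = cm K (cm K X a) b := by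
  induction b with
  | zero => rfl
  | succ b ih => rw [← add_assoc, cm, cm, ih]

theorem cm_mono {K L X Y : Subgroup G} (h1 : K ≤ L) (h2 : X ≤ Y) (e : ℕ) :
    cm K X e ≤ cm L Y e := by
  induction e with
  | zero => exact h2
  | succ e ih => exact Subgroup.commutator_mono h1 ih

theorem cm_le_self (K : Subgroup G) (e : ℕ) : cm K K e ≤ K := by
  induction e with
  | zero => exact le_rfl
  | succ e ih => exact (Subgroup.commutator_mono le_rfl ih).trans (DerG_le K)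

/-- The subgroup of elements of `K` with `ρ k - 1` in a given submodule. -/
def subS (ρ : G →* A) (K : Subgroup G) (S : Submodule R A)
    (hS : ∀ k ∈ K, ∀ l ∈ K, ρ l - 1 ∈ S → (ρ k - 1) * (ρ l - 1) ∈ S) : Subgroup G where
  carrier := {k | k ∈ K ∧ ρ k - 1 ∈ S}
  one_mem' := ⟨K.one_mem, by simp⟩
  mul_mem' := by
    rintro a b ⟨ha, ha'⟩ ⟨hb, hb'⟩
    refine ⟨K.mul_mem ha hb, ?_⟩
    have : ρ (a * b) - 1 = (ρ a - 1) * (ρ b - 1) + (ρ a - 1) + (ρ b - 1) := by
      rw [map_mul]; noncomm_ring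
    rw [this]
    exact S.add_mem (S.add_mem (hS a ha b hb hb') ha') hb'
  inv_mem' := by
    rintro a ⟨ha, ha'⟩
    refine ⟨K.inv_mem ha, ?_⟩
    have h1 : ρ a⁻¹ * ρ a = 1 := by rw [← map_mul, inv_mul_cancel, map_one]
    have : ρ a⁻¹ - 1 = -((ρ a⁻¹ - 1) * (ρ a - 1)) - (ρ a - 1) := by
      rw [sub_mul, mul_sub, h1]; noncomm_ring
    rw [this]
    exact S.sub_mem (S.neg_mem (hS _ (K.inv_mem ha) a ha ha')) ha'

theorem rho_commutator (ρ : G →* A) (a b : G) :
    (ρ a - 1) * (ρ b - 1) - (ρ b - 1) * (ρ a - 1) = (ρ ⁅a, b⁆ - 1) * ρ (b * a) := by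
  rw [sub_mul (ρ ⁅a, b⁆), ← map_mul, one_mul, commutatorElement_def,
    show a * b * a⁻¹ * b⁻¹ * (b * a) = a * b by group, map_mul, map_mul]
  noncomm_ring

theorem cm_mem_FJ (ρ : G →* A) (K : Subgroup G) (i : ℕ) :
    ∀ g ∈ cm K K i, ρ g - 1 ∈ FJ (JK R ρ K) (i + 1) := by
  have hF := filt_JK (R := R) ρ K
  induction i with
  | zero => exact fun g hg => mem_FJ_one ρ hg
  | succ i ih =>
    have : cm K K (i + 1) ≤ subS ρ K (FJ (JK R ρ K) (i + 1 + 1))
        (fun k hk l _ hl => hF.mul' (mem_FJ_one ρ hk) hl (by omega)) := by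
      refine Subgroup.commutator_le.2 fun a ha b hb => ⟨cm_le_self K (i + 1)
        (Subgroup.commutator_mem_commutator ha hb), ?_⟩
      have hbK := cm_le_self K i hb
      have h1 : ρ ⁅a, b⁆ - 1
          = ((ρ a - 1) * (ρ b - 1) - (ρ b - 1) * (ρ a - 1)) * ρ (b * a)⁻¹ := by
        rw [rho_commutator, mul_assoc, ← map_mul, mul_inv_cancel, map_one, mul_one]
      rw [h1]
      exact hF.mul' (Submodule.sub_mem _ (hF.mul' (mem_FJ_one ρ ha) (ih b hb) (by omega))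
        (hF.mul' (ih b hb) (mem_FJ_one ρ ha) le_rfl))
        (mem_FJ_zero ρ (K.inv_mem (K.mul_mem hbK ha))) le_rfl
    exact fun g hg => (this hg).2

theorem rc_mem_lcs (ρ : G →* A) (K : Subgroup G) {ι : Type*} {Y : ι → A}
    (hY : ∀ i, Y i ∈ JK R ρ K) (i : ι) (l : List ι) :
    rc Y i l ∈ JK R ρ (cm K K l.length) ⊔ FJ (JK R ρ K) (l.length + 2) := by
  have hF := filt_JK (R := R) ρ K
  induction l with
  | nil => exact Submodule.mem_sup_left (hY i)
  | cons j l ih =>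
    have key : br (JK R ρ K) (JK R ρ (cm K K l.length) ⊔ FJ (JK R ρ K) (l.length + 2))
        ≤ JK R ρ (cm K K (l.length + 1)) ⊔ FJ (JK R ρ K) (l.length + 1 + 2) := by
      refine br_sup_le ?_ (br_le.2 fun x hx y hy => Submodule.mem_sup_right ?_)
      · refine br_span_le ?_
        rintro x hx _ ⟨b, hb, rfl⟩
        have : br (Submodule.span R {ρ b - 1}) (JK R ρ K)
            ≤ JK R ρ (cm K K (l.length + 1)) ⊔ FJ (JK R ρ K) (l.length + 1 + 2) := by
          rw [br_comm]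
          refine br_span_le ?_
          rintro x hx _ rfl
          induction hx using Submodule.span_induction with
          | mem x hx =>
            obtain ⟨a, ha, rfl⟩ := hx
            have hab : ⁅a, b⁆ ∈ cm K K (l.length + 1) := Subgroup.commutator_mem_commutator ha hb
            have h1 : (ρ ⁅a, b⁆ - 1) * ρ (b * a)
                = (ρ ⁅a, b⁆ - 1) + (ρ ⁅a, b⁆ - 1) * (ρ (b * a) - 1) := by noncomm_ring
            rw [rho_commutator, h1]
            exact Submodule.add_mem_sup (mem_JK ρ hab) (hF.mul' (cm_mem_FJ ρ K _ _ hab)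
              (mem_FJ_one ρ (K.mul_mem (cm_le_self K _ hb) ha)) (by omega))
          | zero => simp
          | add x y _ _ hx hy =>
            have : (x + y) * (ρ b - 1) - (ρ b - 1) * (x + y)
                = (x * (ρ b - 1) - (ρ b - 1) * x) + (y * (ρ b - 1) - (ρ b - 1) * y) := by
              noncomm_ring
            rw [this]; exact Submodule.add_mem _ hx hy
          | smul r x _ hx =>
            rw [smul_mul_assoc, mul_smul_comm, ← smul_sub]; exact Submodule.smul_mem _ _ hx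
        rw [br_comm] at this
        exact this (br_mem hx (Submodule.mem_span_singleton_self _))
      · have hx' : x ∈ FJ (JK R ρ K) 1 := by rwa [FJ_one (JK_mul ρ K)]
        exact Submodule.sub_mem _ (hF.mul' hx' hy (by omega)) (hF.mul' hy hx' (by omega))
    exact key (br_mem (hY j) ih)

end

theorem JK_nil {R : Type} [CommRing R] {A : Type} [Ring A] [Algebra R A] {G : Type*} [Group G]
    {ι : Type} [Fintype ι] {N : ℕ} (h : Un R N) (ρ : G →* A) (K : Subgroup G) (c : ℕ)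
    (Y : ι → A) (hY : ∀ i, Y i ∈ JK R ρ K) (hN : ∀ i, Y i ^ N = 0)
    (hgen : JK R ρ K ≤ Submodule.span R (Set.range Y) ⊔ FJ (JK R ρ K) 2)
    (hc : ∀ g ∈ cm K K c, ρ g = 1) (hnil : ∃ t, JK R ρ K ^ t = ⊥) :
    JK R ρ K ^ (nilB (Fintype.card ι) N c) = ⊥ := by
  have hF := filt_JK (R := R) ρ K
  have hJ := JK_mul (R := R) ρ K
  set J := JK R ρ K with hJdef
  set U := Submodule.span R (Set.range Y) with hU
  have hUJ : U ≤ J := Submodule.span_le.2 (by rintro _ ⟨i, rfl⟩; exact hY i)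
  have h1 := env_nil_filt h c hF Y (fun i => by rw [FJ_one hJ]; exact hY i) hN (by
    intro i l hl
    have := rc_mem_lcs ρ K hY i l
    rw [hl] at this
    have h0 : JK R ρ (cm K K c) = ⊥ := by
      rw [JK, Submodule.span_eq_bot]
      rintro _ ⟨g, hg, rfl⟩
      rw [hc g hg, sub_self]
    rwa [h0, bot_sup_eq] at this)
  rw [FJ_succ hJ] at h1
  rw [FJ_succ hJ] at hgen
  have h2 : ∀ k, J ^ (k + 1) ≤ U ^ (k + 1) ⊔ J ^ (k + 2) := by
    intro k
    induction k with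
    | zero => simpa using hgen
    | succ k ih =>
      rw [pow_succ J (k + 1)]
      refine (mul_le_mul' ih le_rfl).trans ?_
      rw [Submodule.sup_mul, ← pow_succ]
      refine sup_le ?_ le_sup_right
      refine (mul_le_mul' le_rfl hgen).trans ?_
      rw [Submodule.mul_sup, ← pow_succ]
      refine sup_le le_sup_left (le_trans ?_ le_sup_right)
      refine (mul_le_mul' (pow_le_pow_left' hUJ _) le_rfl).trans ?_
      rw [← pow_add]
  obtain ⟨B, hB⟩ : ∃ B, nilB (Fintype.card ι) N c = B + 1 :=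
    ⟨_, (Nat.succ_pred_eq_of_pos (nilB_pos _ _ _)).symm⟩
  rw [hB] at h1 ⊢
  have h3 : J ^ (B + 1) ≤ J ^ (B + 1 + 1) := (h2 B).trans (sup_le h1 le_rfl)
  have h4 : ∀ k, J ^ (B + 1) ≤ J ^ (B + 1 + k) := by
    intro k
    induction k with
    | zero => exact le_rfl
    | succ k ih =>
      refine h3.trans ?_
      rw [pow_succ, ← add_assoc, pow_succ J (B + 1 + k)]
      exact mul_le_mul' ih le_rfl
  obtain ⟨t, ht⟩ := hnil
  rw [eq_bot_iff]
  refine (h4 t).trans ?_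
  rw [pow_add, ht]
  simp

section
variable {R : Type*} [CommRing R] {A : Type*} [Ring A] [Algebra R A] {G : Type*} [Group G]

theorem lg_pow_zero {c T : ℕ} {g : A} (hg : (g - 1) ^ c = 0) : lg R T g ^ c = 0 := by
  obtain ⟨p, hp⟩ := lg_eq_mul (R := R) T g
  rw [hp, (commute_aeval (Commute.refl _) p).mul_pow, hg, zero_mul]

theorem aeval_apply_mem {M : Type*} [AddCommGroup M] [Module R M] {f : Module.End R M}
    {S : Submodule R M} (hf : ∀ x ∈ S, f x ∈ S) (p : R[X]) {x : M} (hx : x ∈ S) :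
    aeval f p x ∈ S := by
  rw [aeval_eq_sum_range, LinearMap.sum_apply]
  exact S.sum_mem fun i _ => S.smul_mem _ (pow_apply_mem hf i x hx)

variable {T c : ℕ} {ρ : G →* A} {y : G}

theorem rho_eq_ex (hc : 2 * c ≤ T + 2) (hy : (ρ y - 1) ^ c = 0) :
    ρ y = ex R (T + 2) (lg R T (ρ y)) :=
  (ex_lg (pow_eq_zero_of_le (by omega) hy)).symm

theorem rho_inv_eq_ex (h : Un R (T + 2)) (hc : 2 * c ≤ T + 2) (hy : (ρ y - 1) ^ c = 0) :
    ρ y⁻¹ = ex R (T + 2) (-lg R T (ρ y)) := by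
  have h1 := ex_mul_neg h (by omega) (pow_eq_zero_of_le (show c ≤ T + 2 by omega)
    (lg_pow_zero (R := R) (T := T) hy))
  rw [← rho_eq_ex hc hy] at h1
  have h2 : ρ y⁻¹ * ρ y = 1 := by rw [← map_mul, inv_mul_cancel, map_one]
  rw [← mul_one (ρ y⁻¹), ← h1, ← mul_assoc, h2, one_mul]

theorem lg_rho_inv (h : Un R (T + 2)) (hc : 2 * c ≤ T + 2) (hy : (ρ y - 1) ^ c = 0) :
    lg R T (ρ y⁻¹) = -lg R T (ρ y) := by
  rw [rho_inv_eq_ex h hc hy, lg_ex h]
  rw [neg_pow, pow_eq_zero_of_le (show c ≤ T + 2 by omega) (lg_pow_zero hy), mul_zero]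

theorem Ad_eq_ex (h : Un R (T + 2)) (hc : 2 * c ≤ T + 2) (hy : (ρ y - 1) ^ c = 0) (x : A) :
    Ad R ρ y x = ex R (T + 2) (adj R (lg R T (ρ y))) x := by
  rw [ex_adj h (lg_pow_zero hy) hc, ← rho_eq_ex hc hy, ← rho_inv_eq_ex h hc hy, Ad_apply]

theorem adj_lg_mem (h : Un R (T + 2)) (hc : 2 * c ≤ T + 2) (hy : (ρ y - 1) ^ c = 0)
    {S : Submodule R A} (hS : ∀ x ∈ S, Ad R ρ y x ∈ S) {x : A} (hx : x ∈ S) :
    lg R T (ρ y) * x - x * lg R T (ρ y) ∈ S := by
  have h1 := lg_ex h (adj_pow_zero (R := R) (lg_pow_zero (R := R) (T := T) hy) hc)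
  rw [← adj_apply (R := R), ← h1, lg]
  refine aeval_apply_mem (fun z hz => ?_) _ hx
  rw [LinearMap.sub_apply, ← Ad_eq_ex h hc hy]
  exact S.sub_mem (hS z hz) hz

variable (R) in
/-- The span of the logarithms of a set of group elements. -/
def LgS (T : ℕ) (ρ : G →* A) (Y : Set G) : Submodule R A :=
  Submodule.span R {x | ∃ y ∈ Y, x = lg R T (ρ y)}

theorem mem_LgS {Y : Set G} (hy : y ∈ Y) : lg R T (ρ y) ∈ LgS R T ρ Y :=
  Submodule.subset_span ⟨y, hy, rfl⟩

theorem LgS_map {Y : Set G} (f : A →ₐ[R] A) (hf : ∀ y ∈ Y, ∃ y' ∈ Y, f (ρ y) = ρ y') :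
    ∀ x ∈ LgS R T ρ Y, f x ∈ LgS R T ρ Y := by
  have : LgS R T ρ Y ≤ (LgS R T ρ Y).comap f.toLinearMap := by
    refine Submodule.span_le.2 ?_
    rintro _ ⟨y, hy, rfl⟩
    obtain ⟨y', hy', e⟩ := hf y hy
    change f _ ∈ LgS R T ρ Y
    rw [map_lg, e]
    exact mem_LgS hy'
  exact fun x hx => this hx

theorem LgS_lie (h : Un R (T + 2)) (hc : 2 * c ≤ T + 2) {Y : Set G}
    (hY : ∀ y ∈ Y, (ρ y - 1) ^ c = 0) (hconj : ∀ y ∈ Y, ∀ z ∈ Y, y * z * y⁻¹ ∈ Y) :
    br (LgS R T ρ Y) (LgS R T ρ Y) ≤ LgS R T ρ Y := by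
  refine br_span_le ?_
  rintro x hx _ ⟨y, hy, rfl⟩
  rw [← neg_sub]
  refine Submodule.neg_mem _ (adj_lg_mem h hc (hY y hy) ?_ hx)
  exact LgS_map (Ad R ρ y) fun z hz => ⟨_, hconj y hy z hz, Ad_rho ρ y z⟩

theorem expGen_LgS (h : Un R (T + 2)) (hc : 2 * c ≤ T + 2) {Y : Set G}
    (hY : ∀ y ∈ Y, (ρ y - 1) ^ c = 0) (hconj : ∀ y ∈ Y, ∀ z ∈ Y, y * z * y⁻¹ ∈ Y)
    (hinv : ∀ y ∈ Y, y⁻¹ ∈ Y) : ExpGen ρ (T + 1) (LgS R T ρ Y) Y where
  lie := LgS_lie h hc hY hconj
  inv := hinv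
  exp := fun y hy => ⟨_, mem_LgS hy, Ad_eq_ex h hc (hY y hy), rho_eq_ex hc (hY y hy)⟩

end

end Pool.Agent.Lib.MP_95ba65_al.LP
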