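import Mathlib
import Pool.Agent.Lib.MP_95ba65_al.LPGrp
import Pool.Agent.Lib.MP_95ba65_al.LPBch

/-! The norm of the logarithm of an element of a subgroup acting nilpotently vanishes. -/

set_option autoImplicit false

namespace Pool.Agent.Lib.MP_95ba65_al.LP

open Finset Polynomial

variable {R : Type*} [CommRing R] {A : Type*} [Ring A] [Algebra R A] {G : Type*} [Group G]

theorem br_span_span {S : Submodule R A} {s t : Set A}
    (h : ∀ x ∈ s, ∀ y ∈ t, x * y - y * x ∈ S) :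
    br (Submodule.span R s) (Submodule.span R t) ≤ S := by
  refine br_span_le fun x hx y hy => ?_
  have : br (Submodule.span R {y}) (Submodule.span R s) ≤ S := by
    refine br_span_le fun a ha b hb => ?_
    obtain ⟨r, rfl⟩ := Submodule.mem_span_singleton.1 ha
    rw [smul_mul_assoc, mul_smul_comm, ← smul_sub, ← neg_sub]
    exact S.smul_mem _ (S.neg_mem (h b hb y hy))
  rw [br_comm] at this
  exact this (br_mem hx (Submodule.mem_span_singleton_self _))

/-- Lower central series of a Lie subalgebra. -/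
def lc (L : Submodule R A) : ℕ → Submodule R A
  | 0 => L
  | j + 1 => br L (lc L j)

theorem lc_succ_le {L : Submodule R A} (hL : br L L ≤ L) (j : ℕ) : lc L (j + 1) ≤ lc L j := by
  induction j with
  | zero => exact hL
  | succ j ih => exact br_mono le_rfl ih

theorem lc_le {L : Submodule R A} (hL : br L L ≤ L) (j : ℕ) : lc L j ≤ L := by
  induction j with
  | zero => exact le_rfl
  | succ j ih => exact (lc_succ_le hL j).trans ih

theorem lc_br {L : Submodule R A} {j : ℕ} {x y : A} (hx : x ∈ L) (hy : y ∈ lc L j) :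
    x * y - y * x ∈ lc L (j + 1) := br_mem hx hy

theorem lc_le_F {L : Submodule R A} {F : ℕ → Submodule R A} (hF : Filt F) (hL : L ≤ F 1)
    (j : ℕ) : lc L j ≤ F (j + 1) := by
  induction j with
  | zero => exact hL
  | succ j ih =>
    exact br_le.2 fun x hx y hy => Submodule.sub_mem _ (hF.mul' (hL hx) (ih hy) (by omega))
      (hF.mul' (ih hy) (hL hx) (by omega))

theorem lc_map {L : Submodule R A} (f : A →ₐ[R] A) (hf : ∀ x ∈ L, f x ∈ L) (j : ℕ) :
    ∀ x ∈ lc L j, f x ∈ lc L j := by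
  induction j with
  | zero => exact hf
  | succ j ih =>
    have : lc L (j + 1) ≤ (lc L (j + 1)).comap f.toLinearMap := br_le.2 fun x hx y hy => by
      change f _ ∈ lc L (j + 1)
      rw [map_sub, map_mul, map_mul]
      exact lc_br (hf x hx) (ih y hy)
    exact fun x hx => this hx

section
variable {T c : ℕ} {ρ : G →* A} {K : Subgroup G}

theorem pow_zero_of_JK (hK : JK R ρ K ^ c = ⊥) {k : G} (hk : k ∈ K) : (ρ k - 1) ^ c = 0 :=
  (filt_JK ρ K).pow_eq_zero (FJ_eq_bot hK) le_rfl (mem_FJ_one ρ hk)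

theorem LgS_le_F : LgS R T ρ (K : Set G) ≤ FJ (JK R ρ K) 1 := by
  refine Submodule.span_le.2 ?_
  rintro _ ⟨y, hy, rfl⟩
  exact (filt_JK ρ K).lg_mem (mem_FJ_one ρ hy) T

theorem LgS_sub_lie (h : Un R (T + 2)) (hc : 2 * c ≤ T + 2) (hK : JK R ρ K ^ c = ⊥) :
    br (LgS R T ρ (K : Set G)) (LgS R T ρ (K : Set G)) ≤ LgS R T ρ (K : Set G) :=
  LgS_lie h hc (fun _ hy => pow_zero_of_JK hK hy)
    fun _ hy _ hz => K.mul_mem (K.mul_mem hy hz) (K.inv_mem hy)

theorem lg_mul_lc (h : Un R (T + 2)) (hc : 2 * c ≤ T + 2) (hK : JK R ρ K ^ c = ⊥)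
    {a b : G} (ha : a ∈ K) (hb : b ∈ K) {j : ℕ}
    (hab : lg R T (ρ a) * lg R T (ρ b) - lg R T (ρ b) * lg R T (ρ a)
      ∈ lc (LgS R T ρ (K : Set G)) j) :
    lg R T (ρ (a * b)) - lg R T (ρ a) - lg R T (ρ b) ∈ lc (LgS R T ρ (K : Set G)) j := by
  have hL := LgS_sub_lie h hc hK
  have hF := filt_JK (R := R) ρ K
  have hu : lg R T (ρ a) ∈ LgS R T ρ (K : Set G) := mem_LgS ha
  have hw : lg R T (ρ b) ∈ LgS R T ρ (K : Set G) := mem_LgS hb
  have hLF : LgS R T ρ (K : Set G) ≤ FJ (JK R ρ K) 1 := LgS_le_F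
  have h1 := bch hF (FJ_eq_bot hK) (show c ≤ T + 2 by omega) h (hLF hu) (hLF hw)
    ((lc_le hL j).trans hLF) hab
    (fun x hx => lc_succ_le hL j (lc_br hu hx))
    (fun x hx => lc_succ_le hL j (lc_br hw hx))
    (fun x hx y hy => lc_succ_le hL j (lc_br (lc_le hL j hx) hy))
  have e1 : ex R (T + 2) (lg R T (ρ a)) = ρ a := (rho_eq_ex hc (pow_zero_of_JK hK ha)).symm
  have e2 : ex R (T + 2) (lg R T (ρ b)) = ρ b := (rho_eq_ex hc (pow_zero_of_JK hK hb)).symm
  rw [e1, e2, ← map_mul] at h1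
  exact h1

/-- Elements whose logarithm lies in a given term of the lower central series. -/
def Kj (h : Un R (T + 2)) (hc : 2 * c ≤ T + 2) (hK : JK R ρ K ^ c = ⊥) (j : ℕ) : Subgroup G where
  carrier := {k | k ∈ K ∧ lg R T (ρ k) ∈ lc (LgS R T ρ (K : Set G)) j}
  one_mem' := ⟨K.one_mem, by rw [map_one, lg_one]; exact Submodule.zero_mem _⟩
  mul_mem' := by
    rintro a b ⟨ha, ha'⟩ ⟨hb, hb'⟩
    refine ⟨K.mul_mem ha hb, ?_⟩
    have hu : lg R T (ρ a) ∈ LgS R T ρ (K : Set G) := mem_LgS ha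
    have h0 := lg_mul_lc h hc hK ha hb (j := j + 1) (lc_br hu hb')
    have h1 := lc_succ_le (LgS_sub_lie h hc hK) j h0
    have := Submodule.add_mem _ (Submodule.add_mem _ h1 hb') ha'
    rwa [sub_add_cancel, sub_add_cancel] at this
  inv_mem' := by
    rintro a ⟨ha, ha'⟩
    refine ⟨K.inv_mem ha, ?_⟩
    rw [lg_rho_inv h hc (pow_zero_of_JK hK ha)]
    exact Submodule.neg_mem _ ha'

theorem lc_le_Kj (h : Un R (T + 2)) (hc : 2 * c ≤ T + 2) (hK : JK R ρ K ^ c = ⊥) (j : ℕ) :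
    lc (LgS R T ρ (K : Set G)) j
      ≤ LgS R T ρ (Kj h hc hK j : Set G) ⊔ lc (LgS R T ρ (K : Set G)) (j + 1) := by
  have hL := LgS_sub_lie h hc hK
  induction j with
  | zero =>
    refine le_trans ?_ le_sup_left
    refine Submodule.span_le.2 ?_
    rintro _ ⟨y, hy, rfl⟩
    have h1 : lg R T (ρ y) ∈ LgS R T ρ (K : Set G) := mem_LgS hy
    have h2 : y ∈ Kj h hc hK 0 := ⟨hy, h1⟩
    exact mem_LgS (Y := (Kj h hc hK 0 : Set G)) h2
  | succ j ih =>
    refine (br_mono le_rfl ih).trans (br_sup_le ?_ le_sup_right)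
    refine br_span_span ?_
    rintro _ ⟨a, ha, rfl⟩ _ ⟨b, ⟨hb, hb'⟩, rfl⟩
    set L := LgS R T ρ (K : Set G) with hLdef
    set u := lg R T (ρ a) with hu
    set w := lg R T (ρ b) with hw
    have huL : u ∈ L := mem_LgS (Y := (K : Set G)) ha
    have hwL : w ∈ L := mem_LgS (Y := (K : Set G)) hb
    have hab : a * b * a⁻¹ ∈ K := K.mul_mem (K.mul_mem ha hb) (K.inv_mem ha)
    have h1 : lg R T (ρ (a * b * a⁻¹)) = ex R (T + 2) (adj R u) w := by
      rw [← Ad_rho (R := R), ← map_lg, Ad_eq_ex h hc (pow_zero_of_JK hK ha)]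
    have huw : u * w - w * u ∈ lc L (j + 1) := lc_br huL hb'
    have h2 : lg R T (ρ (a * b * a⁻¹)) - w - (u * w - w * u) ∈ lc L (j + 2) := by
      rw [h1]
      exact ex_apply_sub2 (f := adj R u) (fun x hx => lc_succ_le hL _ (lc_br huL hx)) T
        (lc_br huL huw)
    have h3 : lg R T (ρ (a * b * a⁻¹)) - w ∈ lc L (j + 1) := by
      have := Submodule.add_mem _ (lc_succ_le hL _ h2) huw
      simpa using this
    have h4 : lg R T (ρ b⁻¹) = -w := lg_rho_inv h hc (pow_zero_of_JK hK hb)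
    have h5 := lg_mul_lc h hc hK hab (K.inv_mem hb) (j := j + 2) (by
      rw [h4]
      have := lc_br hwL h3
      convert this using 1
      noncomm_ring)
    rw [h4] at h5
    have h6 : lg R T (ρ (a * b * a⁻¹ * b⁻¹)) - (u * w - w * u) ∈ lc L (j + 2) := by
      have := Submodule.add_mem _ h5 h2
      convert this using 1
      abel
    have h7 : a * b * a⁻¹ * b⁻¹ ∈ Kj h hc hK (j + 1) := by
      refine ⟨K.mul_mem hab (K.inv_mem hb), ?_⟩
      have := Submodule.add_mem _ (lc_succ_le hL _ h6) huw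
      simpa using this
    have := Submodule.sub_mem _
      (Submodule.mem_sup_left (T := lc L (j + 1 + 1))
        (mem_LgS (R := R) (T := T) (ρ := ρ) (Y := (Kj h hc hK (j + 1) : Set G)) h7))
      (Submodule.mem_sup_right h6)
    simpa using this

theorem norm_lg (h : Un R (T + 2)) (hc : 2 * c ≤ T + 2) (hK : JK R ρ K ^ c = ⊥)
    (φ : G →* G) (hφ : ∀ k ∈ K, φ k ∈ K) (σ : A →ₐ[R] A) (hσ : ∀ g, σ (ρ g) = ρ (φ g))
    (hfp : ∀ H : Subgroup G, (∀ k ∈ H, φ k ∈ H) → ∀ k ∈ H, ∃ x ∈ H, k = x⁻¹ * φ x)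
    (Z : Submodule R A) (hZ : ∀ x, σ x - x ∈ Z) : LgS R T ρ (K : Set G) ≤ Z := by
  have hL := LgS_sub_lie h hc hK
  set L := LgS R T ρ (K : Set G) with hLdef
  have hσL : ∀ j, ∀ x ∈ lc L j, σ x ∈ lc L j :=
    lc_map σ (LgS_map σ fun y hy => ⟨φ y, hφ y hy, hσ y⟩)
  have h1 : ∀ j, lc L j ≤ Z ⊔ lc L (j + 1) := by
    intro j
    refine (lc_le_Kj h hc hK j).trans (sup_le ?_ le_sup_right)
    refine Submodule.span_le.2 ?_
    rintro _ ⟨k, hk, rfl⟩
    obtain ⟨x, ⟨hx, hx'⟩, rfl⟩ := hfp (Kj h hc hK j) (fun k hk => ⟨hφ k hk.1, by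
      rw [← hσ, ← map_lg]; exact hσL j _ hk.2⟩) k hk
    have e1 : lg R T (ρ x⁻¹) = -lg R T (ρ x) := lg_rho_inv h hc (pow_zero_of_JK hK hx)
    have e2 : lg R T (ρ (φ x)) = σ (lg R T (ρ x)) := by rw [← hσ, map_lg]
    have h3 : lg R T (ρ x⁻¹) ∈ L := mem_LgS (Y := (K : Set G)) (K.inv_mem hx)
    have h4 : lg R T (ρ (φ x)) ∈ lc L j := by rw [e2]; exact hσL j _ hx'
    have h2 := lg_mul_lc h hc hK (K.inv_mem hx) (hφ x hx) (j := j + 1) (lc_br h3 h4)
    rw [e1, e2] at h2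
    have := Submodule.add_mem_sup (hZ (lg R T (ρ x))) h2
    have e3 : σ (lg R T (ρ x)) - lg R T (ρ x)
        + (lg R T (ρ (x⁻¹ * φ x)) - -lg R T (ρ x) - σ (lg R T (ρ x)))
        = lg R T (ρ (x⁻¹ * φ x)) := by abel
    rw [e3] at this
    exact this
  have h2 : ∀ j, L ≤ Z ⊔ lc L j := by
    intro j
    induction j with
    | zero => exact le_sup_right
    | succ j ih => exact ih.trans (sup_le le_sup_left (h1 j))
  have h3 : lc L c = ⊥ := by
    rw [eq_bot_iff, ← FJ_eq_bot hK]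
    exact (lc_le_F (filt_JK ρ K) LgS_le_F c).trans ((filt_JK ρ K).anti (Nat.le_succ c))
  have := h2 c
  rwa [h3, sup_bot_eq] at this

end

end Pool.Agent.Lib.MP_95ba65_al.LP
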