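import Mathlib
import Pool.Agent.Lib.MP_95ba65_al.LPExp
import Pool.Agent.Lib.MP_95ba65_al.LPKre

/-! Rings with enough roots of unity, eigenprojections. -/

set_option autoImplicit false

namespace Pool.Agent.Lib.MP_95ba65_al.LP

open Finset Polynomial

/-- A system of roots of unity. -/
structure CycR {R : Type*} [CommRing R] {n : ℕ} (w : ZMod n → R) : Prop where
  zero : w 0 = 1
  add : ∀ a b, w (a + b) = w a * w b
  unit : IsUnit (n : R)
  root : ∀ a, aeval (w a) (cyclotomic (addOrderOf a) ℤ) = 0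

theorem cyc_pair_dvd {n a b : ℕ} (hn : 0 < n) (ha : a ∣ n) (hb : b ∣ n) (hab : a ≠ b) :
    cyclotomic a ℤ * cyclotomic b ℤ ∣ X ^ n - 1 := by
  rw [← prod_cyclotomic_eq_X_pow_sub_one hn, ← Finset.prod_pair (f := fun i => cyclotomic i ℤ) hab]
  refine Finset.prod_dvd_prod_of_subset _ _ _ ?_
  intro x hx
  simp only [mem_insert, mem_singleton] at hx
  rcases hx with rfl | rfl
  · exact Nat.mem_divisors.2 ⟨ha, hn.ne'⟩
  · exact Nat.mem_divisors.2 ⟨hb, hn.ne'⟩

theorem exists_ring {n q T : ℕ} (hn : 0 < n) (hnT : n ≤ T)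
    (hq : ∀ k, 0 < k → k ≤ T → Nat.Coprime k q) :
    ∃ (R : Type) (_ : CommRing R) (_ : Algebra (ZMod q) R) (l : R →ₗ[ZMod q] ZMod q)
      (w : ZMod n → R), l 1 = 1 ∧ CycR w ∧ Un R T := by
  have : NeZero n := ⟨hn.ne'⟩
  have hmon : (cyclotomic n (ZMod q)).Monic := cyclotomic.monic n _
  let R := AdjoinRoot (cyclotomic n (ZMod q))
  let ω : R := AdjoinRoot.root _
  have hUn : Un R T := by
    intro k h0 hk
    have := ((ZMod.isUnit_iff_coprime k q).2 (hq k h0 hk)).map (algebraMap (ZMod q) R)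
    rwa [map_natCast] at this
  have hω : aeval ω (cyclotomic n ℤ) = 0 := by
    have h1 : aeval ω (cyclotomic n (ZMod q)) = 0 := by
      rw [AdjoinRoot.aeval_eq]; exact AdjoinRoot.mk_self
    have h2 := aeval_map_algebraMap (ZMod q) ω (cyclotomic n ℤ)
    rw [algebraMap_int_eq, map_cyclotomic_int, h1] at h2
    exact h2.symm
  have hωn : ω ^ n = 1 := by
    obtain ⟨p, hp⟩ := cyclotomic.dvd_X_pow_sub_one n ℤ
    have := congrArg (aeval ω) hp
    rw [map_mul, hω, zero_mul, map_sub, map_pow, aeval_X, map_one, sub_eq_zero] at this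
    exact this
  refine ⟨R, inferInstance, inferInstance,
    (lcoeff (ZMod q) 0).comp (AdjoinRoot.modByMonicHom hmon), fun a => ω ^ a.val, ?_, ?_, hUn⟩
  · rcases subsingleton_or_nontrivial (ZMod q) with h | h
    · exact Subsingleton.elim _ _
    · have h1 : (1 : R) = AdjoinRoot.mk _ 1 := (map_one _).symm
      rw [LinearMap.comp_apply, h1, AdjoinRoot.modByMonicHom_mk,
        (modByMonic_eq_self_iff hmon).2 (by rw [degree_one]; exact degree_cyclotomic_pos n _ hn)]
      simp
  · refine ⟨by simp, fun a b => ?_, hUn n hn hnT, fun a => ?_⟩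
    · rw [ZMod.val_add, ← pow_add, ← pow_eq_pow_mod _ hωn]
    · have hζ := Complex.isPrimitiveRoot_exp n hn.ne'
      set ζ := Complex.exp (2 * Real.pi * Complex.I / n) with hζd
      have hord : addOrderOf a = orderOf (ζ ^ a.val) := by
        have hfin : IsOfFinOrder ζ := isOfFinOrder_iff_pow_eq_one.2 ⟨n, hn, hζ.pow_eq_one⟩
        rw [hfin.orderOf_pow, ← hζ.eq_orderOf]
        conv_lhs => rw [← ZMod.natCast_zmod_val a]
        exact ZMod.addOrderOf_coe _ hn.ne'
      have hpos : 0 < addOrderOf a := addOrderOf_pos a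
      have h1 : IsRoot (cyclotomic (addOrderOf a) ℂ) (ζ ^ a.val) := by
        refine IsPrimitiveRoot.isRoot_cyclotomic hpos ?_
        rw [hord]; exact IsPrimitiveRoot.orderOf _
      have h2 : aeval ζ ((cyclotomic (addOrderOf a) ℤ).comp (X ^ a.val)) = 0 := by
        rw [aeval_comp, map_pow, aeval_X, aeval_def, eval₂_eq_eval_map, algebraMap_int_eq,
          map_cyclotomic_int]
        exact h1
      obtain ⟨p, hp⟩ := minpoly.isIntegrallyClosed_dvd (hζ.isIntegral hn) h2
      rw [← cyclotomic_eq_minpoly hζ hn] at hp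
      have := congrArg (aeval ω) hp
      rw [map_mul, hω, zero_mul, aeval_comp, map_pow, aeval_X] at this
      exact this

theorem exists_shift {n : ℕ} [NeZero n] (a c : ZMod n) :
    ∃ i, i < n ∧ (addOrderOf (c + i • a) = 1 ∨ addOrderOf a < addOrderOf (c + i • a)) := by
  have hn : 0 < n := Nat.pos_of_ne_zero (NeZero.ne n)
  suffices h : ∃ i : ℕ, addOrderOf (c + i • a) = 1 ∨ addOrderOf a < addOrderOf (c + i • a) by
    obtain ⟨i, hi⟩ := h
    refine ⟨i % n, Nat.mod_lt _ hn, ?_⟩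
    have : (i % n) • a = i • a := by
      rw [nsmul_eq_mul, nsmul_eq_mul, ZMod.natCast_mod]
    rwa [this]
  by_cases hc : Nat.gcd n a.val ∣ c.val
  · obtain ⟨t, ht⟩ := hc
    have hb := Nat.gcd_eq_gcd_ab n a.val
    have h1 : ((Nat.gcd n a.val : ℕ) : ZMod n) = a * (Nat.gcdB n a.val : ZMod n) := by
      have := congrArg (Int.cast : ℤ → ZMod n) hb
      simpa using this
    refine ⟨(-((Nat.gcdB n a.val : ZMod n) * t)).val, Or.inl ?_⟩
    rw [AddMonoid.addOrderOf_eq_one_iff, nsmul_eq_mul, ZMod.natCast_zmod_val,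
      ← ZMod.natCast_zmod_val c, ht, Nat.cast_mul, h1]
    ring
  · set g := Nat.gcd (Nat.gcd n a.val) c.val with hg
    have hgn : g ∣ n := (Nat.gcd_dvd_left _ _).trans (Nat.gcd_dvd_left _ _)
    have hga : g ∣ a.val := (Nat.gcd_dvd_left _ _).trans (Nat.gcd_dvd_right _ _)
    have hgc : g ∣ c.val := Nat.gcd_dvd_right _ _
    have hgpos : 0 < g := Nat.pos_of_dvd_of_pos hgn hn
    obtain ⟨n', hn'⟩ := hgn
    obtain ⟨a', ha'⟩ := hga
    obtain ⟨c', hc'⟩ := hgc
    have hn'0 : n' ≠ 0 := by rintro rfl; omega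
    have hcop : Nat.gcd (Nat.gcd n' a') c' = 1 := by
      have h1 : g = g * Nat.gcd (Nat.gcd n' a') c' := by
        rw [← Nat.gcd_mul_left, ← Nat.gcd_mul_left, ← hn', ← ha', ← hc']
      exact Nat.eq_of_mul_eq_mul_left hgpos (by rw [← h1, mul_one])
    set k := ∏ p ∈ n'.primeFactors.filter (fun p => ¬ p ∣ c'), p with hk
    have hco : Nat.Coprime n' (c' + k * a') := by
      refine Nat.coprime_of_dvd fun p hp hpn hpc => ?_
      by_cases h1 : p ∣ c'
      · have h2 : p ∣ k * a' := (Nat.dvd_add_right h1).1 hpc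
        rcases (Nat.Prime.dvd_mul hp).1 h2 with h3 | h3
        · obtain ⟨r, hr, hpr⟩ := (Prime.dvd_finsetProd_iff hp.prime _).1 h3
          rw [mem_filter] at hr
          have := (Nat.prime_dvd_prime_iff_eq hp (Nat.prime_of_mem_primeFactors hr.1)).1 hpr
          exact hr.2 (this ▸ h1)
        · have := Nat.dvd_gcd (Nat.dvd_gcd hpn h3) h1
          rw [hcop] at this
          exact hp.one_lt.ne' (Nat.dvd_one.1 this)
      · have h2 : p ∣ k := Finset.dvd_prod_of_mem _
          (mem_filter.2 ⟨Nat.mem_primeFactors.2 ⟨hp, hpn, hn'0⟩, h1⟩)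
        exact h1 ((Nat.dvd_add_left (h2.mul_right a')).1 hpc)
    refine ⟨k, Or.inr ?_⟩
    have e1 : c + k • a = ((g * (c' + k * a') : ℕ) : ZMod n) := by
      rw [mul_add, ← hc', mul_left_comm, ← ha']
      simp
    have e2 : addOrderOf (c + k • a) = n' := by
      rw [e1, ZMod.addOrderOf_coe _ hn.ne']
      have : Nat.gcd n (g * (c' + k * a')) = g := by
        conv_lhs => rw [hn']
        rw [Nat.gcd_mul_left, hco, mul_one]
      rw [this]
      exact Nat.div_eq_of_eq_mul_right hgpos hn'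
    have e3 : addOrderOf a = n / Nat.gcd n a.val := by
      conv_lhs => rw [← ZMod.natCast_zmod_val a]
      exact ZMod.addOrderOf_coe _ hn.ne'
    rw [e2, e3]
    have h1 : g < Nat.gcd n a.val := by
      refine lt_of_le_of_ne (Nat.le_of_dvd (Nat.gcd_pos_of_pos_left _ hn) (Nat.gcd_dvd_left _ _))
        fun h => hc ?_
      rw [← h]; exact Nat.gcd_dvd_right _ _
    refine Nat.div_lt_of_lt_mul ?_
    calc n = g * n' := hn'
      _ < _ := Nat.mul_lt_mul_of_pos_right h1 (Nat.pos_of_ne_zero hn'0)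

section
variable {R : Type*} [CommRing R] {n : ℕ} [NeZero n] {w : ZMod n → R}

omit [NeZero n] in
theorem CycR.nsmul (hw : CycR w) (k : ℕ) (a : ZMod n) : w (k • a) = w a ^ k := by
  induction k with
  | zero => simpa using hw.zero
  | succ k ih => rw [succ_nsmul, hw.add, ih, pow_succ]

omit [NeZero n] in
theorem CycR.pow_n (hw : CycR w) (a : ZMod n) : w a ^ n = 1 := by
  rw [← hw.nsmul, nsmul_eq_mul, ZMod.natCast_self, zero_mul, hw.zero]

theorem ord_dvd (a : ZMod n) : addOrderOf a ∣ n := by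
  have := addOrderOf_dvd_card (x := a)
  rwa [ZMod.card] at this

theorem CycR.cyc_unit (hw : CycR w) {a : ZMod n} {m : ℕ} (hm : m ∣ n) (hma : addOrderOf a ≠ m) :
    IsUnit (aeval (w a) (cyclotomic m ℤ)) := by
  have hn : 0 < n := Nat.pos_of_ne_zero (NeZero.ne n)
  obtain ⟨p, hp⟩ := cyc_pair_dvd hn (ord_dvd a) hm hma
  have h1 := congrArg (fun f => aeval (w a) (X * derivative f)) hp
  obtain ⟨k, hk⟩ : ∃ k, n = k + 1 := ⟨n - 1, by omega⟩
  have h2 : (X * derivative (X ^ n - 1) : ℤ[X]) = (n : ℤ[X]) * X ^ n := by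
    rw [derivative_sub, derivative_one, sub_zero, derivative_X_pow]
    conv_rhs => rw [hk, pow_succ]
    rw [hk]
    simp only [Nat.add_sub_cancel, map_natCast]
    ring
  simp only [h2, mul_assoc, derivative_mul, map_mul, map_add, hw.root a, zero_mul, add_zero,
    map_natCast, map_pow, aeval_X, hw.pow_n, mul_one] at h1
  have h3 := hw.unit
  rw [h1] at h3
  exact isUnit_of_mul_isUnit_left (isUnit_of_mul_isUnit_right (isUnit_of_mul_isUnit_right h3))

theorem CycR.sub_one_unit (hw : CycR w) {a : ZMod n} (ha : a ≠ 0) : IsUnit (w a - 1) := by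
  have := hw.cyc_unit (a := a) (one_dvd n) (by rwa [Ne, AddMonoid.addOrderOf_eq_one_iff])
  simpa using this

theorem CycR.geom (hw : CycR w) {a : ZMod n} (ha : a ≠ 0) : ∑ k ∈ range n, w a ^ k = 0 := by
  have := mul_geom_sum (w a) n
  rw [hw.pow_n, sub_self] at this
  exact (hw.sub_one_unit ha).mul_right_eq_zero.1 this

theorem CycR.sum_neg (hw : CycR w) {k : ℕ} (hk : (k : ZMod n) ≠ 0) :
    ∑ a : ZMod n, w (-a) ^ k = 0 := by
  have h1 : ∑ a : ZMod n, w (-a) ^ k = ∑ a : ZMod n, w (-(a - 1)) ^ k :=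
    (Equiv.sum_comp (Equiv.subRight (1 : ZMod n)) fun a => w (-a) ^ k).symm
  have h2 : ∀ a : ZMod n, w (-(a - 1)) ^ k = w k * w (-a) ^ k := fun a => by
    rw [neg_sub, sub_eq_add_neg, hw.add, mul_pow, ← hw.nsmul k 1, nsmul_eq_mul, mul_one]
  simp_rw [h2, ← mul_sum] at h1
  refine (hw.sub_one_unit hk).mul_right_eq_zero.1 ?_
  rw [sub_mul, one_mul, ← h1, sub_self]

variable {B : Type*} [Ring B] [Algebra R B]

/-- Eigenprojection. -/
noncomputable def ee (w : ZMod n → R) (τ : B) (a : ZMod n) : B :=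
  Ring.inverse (n : R) • ∑ k ∈ range n, (w (-a) • τ) ^ k

omit [NeZero n] in
theorem CycR.mul_ee (hw : CycR w) {τ : B} (hτ : τ ^ n = 1) (a : ZMod n) :
    τ * ee w τ a = w a • ee w τ a := by
  have h1 := mul_geom_sum (w (-a) • τ) n
  rw [_root_.smul_pow, hw.pow_n, hτ, one_smul, sub_self, sub_mul, one_mul, sub_eq_zero] at h1
  have h2 : τ = w a • (w (-a) • τ) := by
    rw [smul_smul, ← hw.add, add_neg_cancel, hw.zero, one_smul]
  unfold ee
  rw [mul_smul_comm, smul_comm (w a)]
  congr 1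
  conv_lhs => congr; rw [h2]
  rw [smul_mul_assoc, h1]

theorem CycR.sum_ee (hw : CycR w) (τ : B) : ∑ a, ee w τ a = 1 := by
  have hn : 0 < n := Nat.pos_of_ne_zero (NeZero.ne n)
  unfold ee
  rw [← smul_sum, sum_comm, sum_eq_single 0]
  · simp only [pow_zero, sum_const, card_univ, ZMod.card]
    rw [← Nat.cast_smul_eq_nsmul R, smul_smul, Ring.inverse_mul_cancel _ hw.unit, one_smul]
  · intro k hk hk0
    simp_rw [_root_.smul_pow, ← sum_smul]
    rw [hw.sum_neg, zero_smul]
    rw [Ne, ZMod.natCast_eq_zero_iff]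
    exact Nat.not_dvd_of_pos_of_lt (Nat.pos_of_ne_zero hk0) (mem_range.1 hk)
  · intro h; exact absurd (mem_range.2 hn) h

theorem aeval_mul_eigen {τ e : B} {r : R} (h : τ * e = r • e) (P : ℤ[X]) :
    aeval τ P * e = aeval r P • e := by
  have h1 : ∀ k : ℕ, τ ^ k * e = r ^ k • e := by
    intro k
    induction k with
    | zero => simp
    | succ k ih => rw [pow_succ, mul_assoc, h, mul_smul_comm, ih, smul_smul, pow_succ']
  rw [aeval_eq_sum_range, aeval_eq_sum_range, sum_mul, sum_smul]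
  refine sum_congr rfl fun i _ => ?_
  rw [smul_mul_assoc, h1, smul_assoc]

omit [NeZero n] in
theorem CycR.ee_eq_zero (hw : CycR w) {τ : B} (hτ : τ ^ n = 1) {a : ZMod n}
    (hu : IsUnit (aeval τ (cyclotomic (addOrderOf a) ℤ))) : ee w τ a = 0 := by
  have := aeval_mul_eigen (hw.mul_ee hτ a) (cyclotomic (addOrderOf a) ℤ)
  rw [hw.root, zero_smul] at this
  exact hu.mul_right_eq_zero.1 this

omit [NeZero n] in
theorem CycR.semi (hw : CycR w) {τ y : B} {a : ZMod n} (hy : τ * y = w a • (y * τ))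
    (c : ZMod n) : y * ee w τ c = ee w τ (c + a) * y := by
  have h1 : SemiconjBy y (w (-c) • τ) (w (-(c + a)) • τ) := by
    unfold SemiconjBy
    rw [smul_mul_assoc, hy, smul_smul, ← hw.add, mul_smul_comm]
    congr 2
    ring
  unfold ee
  rw [mul_smul_comm, smul_mul_assoc, mul_sum, sum_mul]
  congr 1
  exact sum_congr rfl fun k _ => (h1.pow_right k).eq

theorem CycR.eigen_nil (hw : CycR w) {τ y : B} (hτ : τ ^ n = 1) {a : ZMod n}
    (hy : τ * y = w a • (y * τ))
    (hu : ∀ m, m ∣ n → (m = 1 ∨ addOrderOf a < m) → IsUnit (aeval τ (cyclotomic m ℤ))) :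
    y ^ n = 0 := by
  have h1 : ∀ (i : ℕ) (c : ZMod n), y ^ i * ee w τ c = ee w τ (c + i • a) * y ^ i := by
    intro i
    induction i with
    | zero => simp
    | succ i ih =>
      intro c
      rw [pow_succ', mul_assoc, ih, ← mul_assoc, hw.semi hy, mul_assoc, succ_nsmul, add_assoc]
  rw [← mul_one (y ^ n), ← hw.sum_ee τ, mul_sum]
  refine sum_eq_zero fun c _ => ?_
  obtain ⟨i, hi, h⟩ := exists_shift a c
  rw [← pow_sub_mul_pow y hi.le, mul_assoc, h1, hw.ee_eq_zero hτ (hu _ (ord_dvd _) h), zero_mul,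
    mul_zero]

variable {M : Type*} [AddCommGroup M] [Module R M]

omit [NeZero n] in
theorem ee_apply_eigen {τ : Module.End R M} {x : M} {r : R} (h : τ x = r • x) (a : ZMod n) :
    ee w τ a x = (Ring.inverse (n : R) * ∑ k ∈ range n, (w (-a) * r) ^ k) • x := by
  have h1 : ∀ k : ℕ, ((w (-a) • τ) ^ k) x = (w (-a) * r) ^ k • x := by
    intro k
    induction k with
    | zero => simp
    | succ k ih =>
      rw [pow_succ, Module.End.mul_apply, LinearMap.smul_apply, h, smul_smul, map_smul, ih,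
        smul_smul, pow_succ']
  unfold ee
  rw [LinearMap.smul_apply, LinearMap.sum_apply, mul_smul, sum_smul]
  simp_rw [h1]

omit [NeZero n] in
theorem ee_apply_mem {τ : Module.End R M} {S : Submodule R M} (h : ∀ x ∈ S, τ x ∈ S)
    (a : ZMod n) : ∀ x ∈ S, ee w τ a x ∈ S := by
  have h1 : ∀ k : ℕ, ∀ x ∈ S, (τ ^ k) x ∈ S := by
    intro k
    induction k with
    | zero => exact fun x hx => hx
    | succ k ih => intro x hx; rw [pow_succ']; exact h _ (ih x hx)
  intro x hx
  unfold ee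
  rw [LinearMap.smul_apply, LinearMap.sum_apply]
  refine S.smul_mem _ (S.sum_mem fun k _ => ?_)
  rw [_root_.smul_pow, LinearMap.smul_apply]
  exact S.smul_mem _ (h1 k x hx)

variable {A : Type*} [Ring A] [Algebra R A]

/-- Eigenspaces of an algebra endomorphism. -/
def Eig (w : ZMod n → R) (σ : A →ₐ[R] A) (a : ZMod n) : Submodule R A where
  carrier := {x | σ x = w a • x}
  add_mem' := fun {x y} hx hy => by
    change σ (x + y) = _
    rw [map_add, hx, hy, smul_add]
  zero_mem' := by change σ 0 = _; simp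
  smul_mem' := fun r x hx => by
    change σ (r • x) = _
    rw [map_smul, hx, smul_comm]

omit [NeZero n] in
theorem mem_Eig {σ : A →ₐ[R] A} {a : ZMod n} {x : A} : x ∈ Eig w σ a ↔ σ x = w a • x := Iff.rfl

theorem CycR.grad (hw : CycR w) {σ : A →ₐ[R] A}
    (hσ : (σ.toLinearMap : Module.End R A) ^ n = 1) :
    Grad (Eig w σ) (fun a => ee w (σ.toLinearMap : Module.End R A) a) where
  mul := fun {a b x y} hx hy => by
    rw [mem_Eig] at hx hy ⊢
    rw [map_mul, hx, hy, smul_mul_smul_comm, hw.add]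
  mem := fun a x => LinearMap.congr_fun (hw.mul_ee hσ a) x
  same := fun {a x} hx => by
    rw [ee_apply_eigen (τ := σ.toLinearMap) hx, ← hw.add, neg_add_cancel, hw.zero]
    simp [Ring.inverse_mul_cancel _ hw.unit]
  ne := fun {a b x} hx hab => by
    rw [ee_apply_eigen (τ := σ.toLinearMap) hx, ← hw.add, hw.geom, mul_zero, zero_smul]
    rw [Ne, neg_add_eq_zero]
    exact hab
  sum := fun x => by
    rw [← LinearMap.sum_apply, hw.sum_ee]
    rfl

end

end Pool.Agent.Lib.MP_95ba65_al.LP
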