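import Mathlib
import Pool.Agent.Lib.MP_95ba65_al.LPGrp
import Pool.Agent.Lib.MP_95ba65_al.LPRing

/-! Abelian sections, polynomial powers, and the representation on an abelian section. -/

set_option autoImplicit false

namespace Pool.Agent.Lib.MP_95ba65_al.LP

open Finset Polynomial
open scoped commutatorElement TensorProduct

section
variable {G : Type*} [Group G] {V : Type*} [AddCommGroup V]

/-- A map that is additive on a subgroup. -/
def AddOn (P : Subgroup G) (θ : G → V) : Prop := ∀ x ∈ P, ∀ y ∈ P, θ (x * y) = θ x + θ y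

variable {P Q : Subgroup G} {θ : G → V}

theorem AddOn.one (h : AddOn P θ) : θ 1 = 0 := by
  have := h 1 P.one_mem 1 P.one_mem
  rw [mul_one] at this
  exact left_eq_add.1 this

theorem AddOn.inv (h : AddOn P θ) {x : G} (hx : x ∈ P) : θ x⁻¹ = -θ x := by
  have := h x⁻¹ (P.inv_mem hx) x hx
  rw [inv_mul_cancel, h.one] at this
  exact eq_neg_of_add_eq_zero_left this.symm

theorem AddOn.pow (h : AddOn P θ) {x : G} (hx : x ∈ P) (k : ℕ) : θ (x ^ k) = k • θ x := by
  induction k with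
  | zero => rw [pow_zero, h.one, zero_smul]
  | succ k ih => rw [pow_succ, h _ (P.pow_mem hx k) _ hx, ih, succ_nsmul]

theorem AddOn.zpow (h : AddOn P θ) {x : G} (hx : x ∈ P) (k : ℤ) : θ (x ^ k) = k • θ x := by
  obtain ⟨k, rfl | rfl⟩ := Int.eq_nat_or_neg k
  · rw [zpow_natCast, h.pow hx, natCast_zsmul]
  · rw [zpow_neg, zpow_natCast, h.inv (P.pow_mem hx k), h.pow hx, neg_smul, natCast_zsmul]

theorem AddOn.mono (h : AddOn P θ) (hQ : Q ≤ P) : AddOn Q θ :=
  fun x hx y hy => h x (hQ hx) y (hQ hy)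

/-- Invariant subgroups. -/
def Inv (φ : G →* G) (P : Subgroup G) : Prop := ∀ x ∈ P, φ x ∈ P

theorem Inv.iter {φ : G →* G} (h : Inv φ P) (i : ℕ) : ∀ x ∈ P, φ^[i] x ∈ P := by
  induction i with
  | zero => exact fun x hx => hx
  | succ i ih => intro x hx; rw [Function.iterate_succ_apply']; exact h _ (ih x hx)

theorem Inv.comm {φ : G →* G} (hP : Inv φ P) (hQ : Inv φ Q) : Inv φ ⁅P, Q⁆ := by
  have : ⁅P, Q⁆ ≤ (⁅P, Q⁆).comap φ := Subgroup.commutator_le.2 fun a ha b hb => by
    rw [Subgroup.mem_comap, map_commutatorElement]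
    exact Subgroup.commutator_mem_commutator (hP a ha) (hQ b hb)
  exact fun x hx => this hx

theorem Inv.top (φ : G →* G) : Inv φ ⊤ := fun _ _ => trivial

theorem Inv.der {φ : G →* G} (hP : Inv φ P) (i : ℕ) : Inv φ (DerG^[i] P) := by
  induction i with
  | zero => exact hP
  | succ i ih => rw [Function.iterate_succ_apply']; exact ih.comm ih

theorem Inv.closure {φ : G →* G} {s : Set G} (h : ∀ x ∈ s, φ x ∈ Subgroup.closure s) :
    Inv φ (Subgroup.closure s) := by
  have : Subgroup.closure s ≤ (Subgroup.closure s).comap φ := (Subgroup.closure_le _).2 h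
  exact fun x hx => this hx

theorem normal_der (P : Subgroup G) [P.Normal] (i : ℕ) : (DerG^[i] P).Normal := by
  induction i with
  | zero => assumption
  | succ i ih =>
    rw [Function.iterate_succ_apply']
    exact Subgroup.commutator_normal _ _

/-- Partial products defining `pw`. -/
noncomputable def pwN (φ : G →* G) (p : ℤ[X]) (x : G) : ℕ → G
  | 0 => 1
  | i + 1 => pwN φ p x i * (φ^[i] x) ^ p.coeff i

/-- The element `x ^ p(φ)`. -/
noncomputable def pw (φ : G →* G) (p : ℤ[X]) (x : G) : G := pwN φ p x (p.natDegree + 1)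

theorem pwN_mem {φ : G →* G} (h : Inv φ P) (p : ℤ[X]) {x : G} (hx : x ∈ P) (i : ℕ) :
    pwN φ p x i ∈ P := by
  induction i with
  | zero => exact P.one_mem
  | succ i ih => exact P.mul_mem ih (P.zpow_mem (h.iter i x hx) _)

theorem pw_mem {φ : G →* G} (h : Inv φ P) (p : ℤ[X]) {x : G} (hx : x ∈ P) : pw φ p x ∈ P :=
  pwN_mem h p hx _

theorem pw_map {H : Type*} [Group H] {φ : G →* G} {ψ : H →* H} (π : G →* H)
    (h : ∀ x, π (φ x) = ψ (π x)) (p : ℤ[X]) (x : G) : π (pw φ p x) = pw ψ p (π x) := by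
  have h1 : ∀ i, π (φ^[i] x) = ψ^[i] (π x) := fun i =>
    (Function.Semiconj.iterate_right h i x)
  have : ∀ i, π (pwN φ p x i) = pwN ψ p (π x) i := by
    intro i
    induction i with
    | zero => exact map_one π
    | succ i ih => rw [pwN, pwN, map_mul, ih, map_zpow, h1]
  exact this _

theorem pw_aeval {φ : G →* G} (h : Inv φ P) (hθ : AddOn P θ) {B : Type*} [Ring B] [Module B V]
    {τ : B} (hτ : ∀ x ∈ P, τ • θ x = θ (φ x)) (p : ℤ[X]) {x : G} (hx : x ∈ P) :
    θ (pw φ p x) = aeval τ p • θ x := by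
  have h1 : ∀ i, τ ^ i • θ x = θ (φ^[i] x) := by
    intro i
    induction i with
    | zero => simp
    | succ i ih =>
      rw [pow_succ', mul_smul, ih, hτ _ (h.iter i x hx), Function.iterate_succ_apply']
  have : ∀ i, θ (pwN φ p x i) = (∑ j ∈ range i, p.coeff j • τ ^ j) • θ x := by
    intro i
    induction i with
    | zero => simpa [pwN] using hθ.one
    | succ i ih =>
      rw [pwN, hθ _ (pwN_mem h p hx i) _ (P.zpow_mem (h.iter i x hx) _), ih, sum_range_succ,
        add_smul, hθ.zpow (h.iter i x hx), smul_assoc, h1]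
  rw [pw, this, aeval_eq_sum_range]

theorem pw_cyc_one (φ : G →* G) (x : G) : pw φ (cyclotomic 1 ℤ) x = x⁻¹ * φ x := by
  have h1 : (cyclotomic 1 ℤ).natDegree = 1 := by rw [natDegree_cyclotomic]; rfl
  rw [pw, h1, cyclotomic_one]
  simp [pwN, coeff_X, coeff_one]

/-- `Φ_m(φ)` is injective on every abelian invariant section. -/
def Reg (φ : G →* G) (m : ℕ) : Prop :=
  ∀ P Q : Subgroup G, Inv φ P → Inv φ Q → ⁅P, P⁆ ≤ Q → ∀ x ∈ P,
    pw φ (cyclotomic m ℤ) x ∈ Q → x ∈ Q

/-- Coordinates on an abelian section. -/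
structure Sec (P Q : Subgroup G) (θ : G → V) : Prop where
  add : AddOn P θ
  zero : ∀ x ∈ P, θ x = 0 ↔ x ∈ Q
  surj : ∀ v, ∃ x ∈ P, θ x = v

theorem Sec.ind (h : Sec P Q θ) {α : G →* G} (hP : Inv α P) (hQ : Inv α Q) :
    ∃ f : V →+ V, ∀ x ∈ P, f (θ x) = θ (α x) := by
  choose s hs hs' using h.surj
  have key : ∀ x ∈ P, ∀ y ∈ P, θ x = θ y → θ (α x) = θ (α y) := by
    intro x hx y hy e
    have h1 : x⁻¹ * y ∈ P := P.mul_mem (P.inv_mem hx) hy
    have h2 : θ (x⁻¹ * y) = 0 := by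
      rw [h.add _ (P.inv_mem hx) _ hy, h.add.inv hx, e, neg_add_cancel]
    have h3 := (h.zero _ (hP _ h1)).2 (hQ _ ((h.zero _ h1).1 h2))
    rw [map_mul, map_inv, h.add _ (P.inv_mem (hP x hx)) _ (hP y hy), h.add.inv (hP x hx),
      neg_add_eq_zero] at h3
    exact h3
  refine ⟨AddMonoidHom.mk' (fun v => θ (α (s v))) fun v v' => ?_, fun x hx => ?_⟩
  · rw [← h.add _ (hP _ (hs v)) _ (hP _ (hs v')), ← map_mul]
    refine key _ (hs _) _ (P.mul_mem (hs v) (hs v')) ?_
    rw [h.add _ (hs v) _ (hs v'), hs', hs', hs']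
  · exact key _ (hs _) _ hx (hs' _)

theorem cm_top_bot (h : Group.IsNilpotent G) : ∃ t, cm (⊤ : Subgroup G) ⊤ t = ⊥ := by
  obtain ⟨t, ht⟩ := Subgroup.nilpotent_iff_lowerCentralSeries.1 h
  refine ⟨t, ?_⟩
  rw [← ht]
  clear ht
  induction t with
  | zero => rfl
  | succ t ih => rw [cm, ih, Subgroup.lowerCentralSeries_succ, Subgroup.commutator_comm]

theorem eq_bot_of_le_comm (h : Group.IsNilpotent G) {X : Subgroup G}
    (hX : X ≤ ⁅(⊤ : Subgroup G), X⁆) :
    X = ⊥ := by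
  obtain ⟨t, ht⟩ := cm_top_bot h
  have : ∀ i, X ≤ cm ⊤ ⊤ i := by
    intro i
    induction i with
    | zero => exact le_top
    | succ i ih => exact hX.trans (Subgroup.commutator_mono le_rfl ih)
  exact eq_bot_iff.2 (ht ▸ this t)

theorem cm_le_right (K P : Subgroup G) [P.Normal] (e : ℕ) : cm K P e ≤ P := by
  induction e with
  | zero => exact le_rfl
  | succ e ih => exact (Subgroup.commutator_mono le_rfl ih).trans (Subgroup.commutator_le_right _ _)

end

theorem exists_sec {G : Type} [Group G] {P Q : Subgroup G} (h : ⁅P, P⁆ ≤ Q) :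
    ∃ (V : Type) (_ : AddCommGroup V) (θ : G → V), Sec P Q θ := by
  classical
  have h1 : commutator P ≤ Q.subgroupOf P := Subgroup.commutator_le.2 fun a _ b _ =>
    h (Subgroup.commutator_mem_commutator a.2 b.2)
  have : (Q.subgroupOf P).Normal := Subgroup.Normal.of_commutator_le _ h1
  have h2 := Subgroup.Normal.quotient_commutative_iff_commutator_le.2 h1
  let _ : CommGroup (P ⧸ Q.subgroupOf P) :=
    { (inferInstance : Group (P ⧸ Q.subgroupOf P)) with mul_comm := h2.is_comm.comm }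
  refine ⟨Additive (P ⧸ Q.subgroupOf P), inferInstance,
    fun x => if hx : x ∈ P then Additive.ofMul (QuotientGroup.mk ⟨x, hx⟩) else 0,
    fun x hx y hy => ?_, fun x hx => ?_, fun v => ?_⟩
  · simp only [hx, hy, P.mul_mem hx hy, dif_pos]
    rfl
  · simp only [hx, dif_pos]
    rw [ofMul_eq_zero, QuotientGroup.eq_one_iff, Subgroup.mem_subgroupOf]
  · obtain ⟨x, hx⟩ := QuotientGroup.mk_surjective (Additive.toMul v)
    refine ⟨x, x.2, ?_⟩
    simp only [x.2, dif_pos]
    exact congrArg Additive.ofMul hx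

section
variable {G : Type*} [Group G]

theorem map_aeval_int {B C : Type*} [Ring B] [Ring C] (f : B →+* C) (τ : B) (p : ℤ[X]) :
    f (aeval τ p) = aeval (f τ) p := (aeval_algHom_apply f.toIntAlgHom τ p).symm

variable (R : Type*) [CommRing R] {A : Type*} [Ring A] [Algebra R A]

/-- A representation of `G` together with an element inducing `φ`. -/
structure Rep (n b : ℕ) (φ : G →* G) (ρ : G →* A) (Φ : A) : Prop where
  pow : Φ ^ n = 1
  comm : ∀ g, Φ * ρ g = ρ (φ g) * Φ
  unit : ∀ m, m ∣ n → (m = 1 ∨ b < m) → IsUnit (aeval Φ (cyclotomic m ℤ))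
  nil : ∃ t, JK R ρ ⊤ ^ t = ⊥

variable {R} {M : Type*} [AddCommGroup M] [Module R M] {P : Subgroup G} {ι : G → M}
  {ρ : G →* Module.End R M}

theorem rho_sub_one [P.Normal] (hι : AddOn P ι) (hρ : ∀ g, ∀ x ∈ P, ρ g (ι x) = ι (g * x * g⁻¹))
    (g : G) {x : G} (hx : x ∈ P) : (ρ g - 1) (ι x) = ι ⁅g, x⁆ := by
  rw [LinearMap.sub_apply, hρ g x hx, commutatorElement_def,
    hι _ (Subgroup.Normal.conj_mem inferInstance x hx g) _ (P.inv_mem hx), hι.inv hx,
    sub_eq_add_neg]
  rfl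

theorem cm_zero_of_JK [P.Normal] (hι : AddOn P ι)
    (hρ : ∀ g, ∀ x ∈ P, ρ g (ι x) = ι (g * x * g⁻¹)) {K : Subgroup G} {e : ℕ}
    (he : JK R ρ K ^ e = ⊥) : ∀ x ∈ cm K P e, ι x = 0 := by
  have key : ∀ j i, i + j = e → ∀ x ∈ cm K P j, ∀ f ∈ JK R ρ K ^ i, f (ι x) = 0 := by
    intro j
    induction j with
    | zero =>
      intro i hi x _ f hf
      rw [add_zero] at hi
      rw [hi, he, Submodule.mem_bot] at hf
      rw [hf]; rfl
    | succ j ih =>
      intro i hi x hx f hf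
      let S : Subgroup G :=
        { carrier := {x | x ∈ P ∧ f (ι x) = 0}
          one_mem' := ⟨P.one_mem, by rw [hι.one, map_zero]⟩
          mul_mem' := by
            rintro a b ⟨ha, ha'⟩ ⟨hb, hb'⟩
            exact ⟨P.mul_mem ha hb, by rw [hι a ha b hb, map_add, ha', hb', add_zero]⟩
          inv_mem' := by
            rintro a ⟨ha, ha'⟩
            exact ⟨P.inv_mem ha, by rw [hι.inv ha, map_neg, ha', neg_zero]⟩ }
      have : cm K P (j + 1) ≤ S := Subgroup.commutator_le.2 fun a ha b hb => by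
        refine ⟨cm_le_right K P (j + 1) (Subgroup.commutator_mem_commutator ha hb), ?_⟩
        rw [← rho_sub_one hι hρ a (cm_le_right K P j hb)]
        exact ih (i + 1) (by omega) b hb (f * (ρ a - 1))
          (by rw [pow_succ]; exact Submodule.mul_mem_mul hf (mem_JK ρ ha))
      exact (this hx).2
  intro x hx
  exact key e 0 (zero_add e) x hx 1 (by rw [pow_zero]; exact Submodule.mem_one.2 ⟨1, map_one _⟩)

theorem JK_top_nil [P.Normal] (hι : AddOn P ι)
    (hρ : ∀ g, ∀ x ∈ P, ρ g (ι x) = ι (g * x * g⁻¹))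
    (hsp : Submodule.span R (ι '' P) = ⊤) (hG : Group.IsNilpotent G) :
    ∃ t, JK R ρ ⊤ ^ t = ⊥ := by
  obtain ⟨t, ht⟩ := cm_top_bot hG
  let W : ℕ → Submodule R M := fun j => Submodule.span R (ι '' (cm ⊤ P j))
  have h1 : ∀ j, ∀ f ∈ JK R ρ ⊤, ∀ v ∈ W j, f v ∈ W (j + 1) := by
    intro j f hf
    induction hf using Submodule.span_induction with
    | mem f hf =>
      obtain ⟨g, -, rfl⟩ := hf
      have : W j ≤ (W (j + 1)).comap (ρ g - 1) := by
        refine Submodule.span_le.2 ?_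
        rintro _ ⟨x, hx, rfl⟩
        change (ρ g - 1) (ι x) ∈ W (j + 1)
        rw [rho_sub_one hι hρ g (cm_le_right ⊤ P j hx)]
        exact Submodule.subset_span
          ⟨_, Subgroup.commutator_mem_commutator (Subgroup.mem_top g) hx, rfl⟩
      exact fun v hv => this hv
    | zero => exact fun v _ => Submodule.zero_mem _
    | add f g _ _ hf hg => exact fun v hv => Submodule.add_mem _ (hf v hv) (hg v hv)
    | smul r f _ hf => exact fun v hv => Submodule.smul_mem _ _ (hf v hv)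
  have h2 : ∀ i, ∀ f ∈ JK R ρ ⊤ ^ i, ∀ j, ∀ v ∈ W j, f v ∈ W (j + i) := by
    intro i
    induction i with
    | zero =>
      intro f hf j v hv
      rw [pow_zero] at hf
      obtain ⟨r, rfl⟩ := Submodule.mem_one.1 hf
      exact Submodule.smul_mem _ r hv
    | succ i ih =>
      intro f hf
      rw [pow_succ] at hf
      refine Submodule.mul_induction_on hf (fun a ha b hb j v hv => ?_)
        (fun a b ha hb j v hv => Submodule.add_mem _ (ha j v hv) (hb j v hv))
      have := ih a ha (j + 1) _ (h1 j b hb v hv)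
      rwa [add_assoc, add_comm 1 i] at this
  refine ⟨t, eq_bot_iff.2 fun f hf => ?_⟩
  rw [Submodule.mem_bot]
  ext v
  have h3 := h2 t f hf 0 v (by change v ∈ Submodule.span R (ι '' P); rw [hsp]; trivial)
  rw [zero_add] at h3
  have h4 : W t = ⊥ := by
    refine Submodule.span_eq_bot.2 ?_
    rintro _ ⟨x, hx, rfl⟩
    have := cm_mono le_rfl le_top t hx
    rw [ht, Subgroup.mem_bot] at this
    rw [this, hι.one]
  rwa [h4, Submodule.mem_bot] at h3

end

theorem exists_rep_aux {G : Type} [Group G] [Finite G] {n q b : ℕ} {R : Type} [CommRing R]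
    [Algebra (ZMod q) R] (l : R →ₗ[ZMod q] ZMod q) (hl : l 1 = 1) {φ : G →* G}
    (hG : Group.IsNilpotent G) (hn : ∀ x, φ^[n] x = x)
    (hreg : ∀ m, m ∣ n → (m = 1 ∨ b < m) → Reg φ m) {P Q : Subgroup G} [P.Normal] [Q.Normal]
    (hP : Inv φ P) (hQ : Inv φ Q) (hPQ : ⁅P, P⁆ ≤ Q) {V : Type} [AddCommGroup V]
    [Module (ZMod q) V] {θ : G → V} (hs : Sec P Q θ) :
    ∃ (A : Type) (_ : Ring A) (_ : Algebra R A) (ρ : G →* A) (Φ : A), Rep R n b φ ρ Φ ∧
      (∀ g ∈ P, ρ g = 1) ∧ ∀ K e, JK R ρ K ^ e = ⊥ → cm K P e ≤ Q := by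
  have hfin : Finite V := Finite.of_surjective θ fun v => (hs.surj v).imp fun _ h => h.2
  have hext : ∀ f g : Module.End (ZMod q) V, (∀ x ∈ P, f (θ x) = g (θ x)) → f = g := by
    intro f g h
    ext v
    obtain ⟨x, hx, rfl⟩ := hs.surj v
    exact h x hx
  have hconj : ∀ g : G, ∃ f : V →+ V, ∀ x ∈ P, f (θ x) = θ (g * x * g⁻¹) := fun g =>
    hs.ind (α := (MulAut.conj g).toMonoidHom)
      (fun x hx => Subgroup.Normal.conj_mem inferInstance x hx g)
      (fun x hx => Subgroup.Normal.conj_mem inferInstance x hx g)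
  choose c hc using hconj
  have hcm : ∀ g, ∀ x ∈ P, g * x * g⁻¹ ∈ P := fun g x hx =>
    Subgroup.Normal.conj_mem inferInstance x hx g
  let ρ0 : G →* Module.End (ZMod q) V :=
    { toFun := fun g => (c g).toZModLinearMap q
      map_one' := hext _ _ fun x hx => by
        change c 1 (θ x) = θ x
        rw [hc 1 x hx]; simp
      map_mul' := fun a b => hext _ _ fun x hx => by
        change c (a * b) (θ x) = c a (c b (θ x))
        rw [hc _ x hx, hc b x hx, hc a _ (hcm b x hx)]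
        congr 1; group }
  have hρ0 : ∀ g, ∀ x ∈ P, ρ0 g (θ x) = θ (g * x * g⁻¹) := hc
  obtain ⟨f0, hf0⟩ := hs.ind hP hQ
  let Φ0 : Module.End (ZMod q) V := f0.toZModLinearMap q
  have hΦ0 : ∀ x ∈ P, Φ0 (θ x) = θ (φ x) := hf0
  have hΦn : Φ0 ^ n = 1 := by
    have : ∀ i, ∀ x ∈ P, (Φ0 ^ i) (θ x) = θ (φ^[i] x) := by
      intro i
      induction i with
      | zero => exact fun x _ => rfl
      | succ i ih =>
        intro x hx
        rw [pow_succ', Module.End.mul_apply, ih x hx, hΦ0 _ (hP.iter i x hx),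
          Function.iterate_succ_apply']
    exact hext _ _ fun x hx => by rw [this n x hx, hn]; rfl
  let bc := Module.End.baseChangeHom (ZMod q) R V
  have hbc : ∀ (f : Module.End (ZMod q) V) (v : V), bc f ((1 : R) ⊗ₜ v) = 1 ⊗ₜ f v :=
    fun f v => rfl
  let ι : G → R ⊗[ZMod q] V := fun x => 1 ⊗ₜ θ x
  have hι : AddOn P ι := fun x hx y hy => by
    change (1 : R) ⊗ₜ θ (x * y) = _
    rw [hs.add x hx y hy, TensorProduct.tmul_add]
  let ρ : G →* Module.End R (R ⊗[ZMod q] V) := bc.toMonoidHom.comp ρ0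
  have hρ : ∀ g, ∀ x ∈ P, ρ g (ι x) = ι (g * x * g⁻¹) := fun g x hx => by
    change bc (ρ0 g) (1 ⊗ₜ θ x) = 1 ⊗ₜ θ _
    rw [hbc, hρ0 g x hx]
  have hsp : Submodule.span R (ι '' P) = ⊤ := by
    refine eq_top_iff.2 fun v _ => ?_
    induction v using TensorProduct.induction_on with
    | zero => exact Submodule.zero_mem _
    | tmul a v =>
      obtain ⟨x, hx, rfl⟩ := hs.surj v
      have : a ⊗ₜ[ZMod q] θ x = a • ι x := by
        change _ = a • ((1 : R) ⊗ₜ θ x)
        rw [TensorProduct.smul_tmul', smul_eq_mul, mul_one]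
      rw [this]
      exact Submodule.smul_mem _ _ (Submodule.subset_span ⟨x, hx, rfl⟩)
    | add a b ha hb => exact Submodule.add_mem _ (ha trivial) (hb trivial)
  refine ⟨Module.End R (R ⊗[ZMod q] V), inferInstance, inferInstance, ρ, bc Φ0,
    ⟨by rw [← map_pow, hΦn, map_one], fun g => ?_, fun m hm hb => ?_, JK_top_nil hι hρ hsp hG⟩,
    fun g hg => ?_, fun K e he x hx => ?_⟩
  · change bc Φ0 * bc (ρ0 g) = bc (ρ0 (φ g)) * bc Φ0
    rw [← map_mul, ← map_mul]
    congr 1
    refine hext _ _ fun x hx => ?_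
    rw [Module.End.mul_apply, Module.End.mul_apply, hρ0 g x hx, hΦ0 _ (hcm g x hx), hΦ0 x hx,
      hρ0 _ _ (hP x hx), map_mul, map_mul, map_inv]
  · have h1 := map_aeval_int (C := Module.End R (R ⊗[ZMod q] V)) bc.toRingHom Φ0 (cyclotomic m ℤ)
    refine h1 ▸ IsUnit.map bc.toRingHom ?_
    rw [Module.End.isUnit_iff, ← Finite.injective_iff_bijective, injective_iff_map_eq_zero]
    intro v hv
    obtain ⟨x, hx, rfl⟩ := hs.surj v
    have h2 := pw_aeval hP hs.add (τ := Φ0) hΦ0 (cyclotomic m ℤ) hx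
    rw [Module.End.smul_def, hv] at h2
    exact (hs.zero x hx).2
      (hreg m hm hb P Q hP hQ hPQ x hx ((hs.zero _ (pw_mem hP _ hx)).1 h2))
  · change bc (ρ0 g) = 1
    rw [← map_one bc]
    congr 1
    refine hext _ _ fun x hx => ?_
    rw [hρ0 g x hx, hs.add _ (P.mul_mem hg hx) _ (P.inv_mem hg), hs.add _ hg _ hx, hs.add.inv hg]
    change _ = θ x
    abel
  · have h1 := cm_zero_of_JK hι hρ he x hx
    have h2 := congrArg (fun t => TensorProduct.lid (ZMod q) V (l.rTensor V t)) h1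
    simp only [ι, LinearMap.rTensor_tmul, hl, TensorProduct.lid_tmul, one_smul, map_zero] at h2
    exact (hs.zero x (cm_le_right K P e hx)).1 h2

theorem exists_rep {G : Type} [Group G] [Finite G] {n q b : ℕ} {R : Type} [CommRing R]
    [Algebra (ZMod q) R] (l : R →ₗ[ZMod q] ZMod q) (hl : l 1 = 1) {φ : G →* G}
    (hG : Group.IsNilpotent G) (hn : ∀ x, φ^[n] x = x) (hq : ∀ x : G, x ^ q = 1)
    (hreg : ∀ m, m ∣ n → (m = 1 ∨ b < m) → Reg φ m) {P Q : Subgroup G} [P.Normal] [Q.Normal]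
    (hP : Inv φ P) (hQ : Inv φ Q) (hPQ : ⁅P, P⁆ ≤ Q) :
    ∃ (A : Type) (_ : Ring A) (_ : Algebra R A) (ρ : G →* A) (Φ : A), Rep R n b φ ρ Φ ∧
      (∀ g ∈ P, ρ g = 1) ∧ ∀ K e, JK R ρ K ^ e = ⊥ → cm K P e ≤ Q := by
  obtain ⟨V, _, θ, hs⟩ := exists_sec hPQ
  exact @exists_rep_aux G _ _ n q b R _ _ l hl φ hG hn hreg P Q _ _ hP hQ hPQ V _
    (AddCommGroup.zmodModule fun v => by
      obtain ⟨x, hx, rfl⟩ := hs.surj v
      rw [← hs.add.pow hx, hq, hs.add.one]) θ hs

end Pool.Agent.Lib.MP_95ba65_al.LP
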