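import Mathlib
import Pool.Agent.Lib.MP_95ba65_al.LPSec

/-! Pure elements, quotients, fixed-point-freeness. -/

set_option autoImplicit false

namespace Pool.Agent.Lib.MP_95ba65_al.LP

open Finset Polynomial
open scoped commutatorElement

section
variable {G : Type*} [Group G] {φ : G →* G} {P Q : Subgroup G}

/-- The invariant subgroup generated by an element. -/
def Ky (φ : G →* G) (y : G) : Subgroup G := Subgroup.closure (Set.range fun i : ℕ => φ^[i] y)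

theorem iter_mem_Ky (y : G) (i : ℕ) : φ^[i] y ∈ Ky φ y := Subgroup.subset_closure ⟨i, rfl⟩

theorem mem_Ky (y : G) : y ∈ Ky φ y := iter_mem_Ky y 0

theorem Ky_inv (y : G) : Inv φ (Ky φ y) := Inv.closure <| by
  rintro _ ⟨i, rfl⟩
  have := iter_mem_Ky (φ := φ) y (i + 1)
  rwa [Function.iterate_succ_apply'] at this

theorem Ky_le (hP : Inv φ P) {y : G} (hy : y ∈ P) : Ky φ y ≤ P :=
  (Subgroup.closure_le _).2 (by rintro _ ⟨i, rfl⟩; exact hP.iter i y hy)

/-- Elements killed by `Φ_m(φ)` modulo the derived subgroup of the invariant subgroup they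
generate. -/
def Pure (φ : G →* G) (m : ℕ) (y : G) : Prop :=
  pw φ (cyclotomic m ℤ) y ∈ ⁅Ky φ y, Ky φ y⁆

theorem pow_smul_theta {V : Type*} [AddCommGroup V] {θ : G → V} (h : Inv φ P) {B : Type*}
    [Ring B] [Module B V] {τ : B} (hτ : ∀ x ∈ P, τ • θ x = θ (φ x)) {x : G} (hx : x ∈ P)
    (i : ℕ) : τ ^ i • θ x = θ (φ^[i] x) := by
  induction i with
  | zero => simp
  | succ i ih =>
    rw [pow_succ', mul_smul, ih, hτ _ (h.iter i x hx), Function.iterate_succ_apply']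

/-- Conjugates of elements of the subgroups generated by pure elements. -/
def YY (φ : G →* G) (m : ℕ) : Set G :=
  {z | ∃ y, Pure φ m y ∧ ∃ k ∈ Ky φ y, ∃ g, z = g * k * g⁻¹}

theorem YY_inv {m : ℕ} : ∀ z ∈ YY φ m, z⁻¹ ∈ YY φ m := by
  rintro _ ⟨y, hy, k, hk, g, rfl⟩
  exact ⟨y, hy, k⁻¹, (Ky φ y).inv_mem hk, g, by group⟩

theorem YY_conj {m : ℕ} (a : G) : ∀ z ∈ YY φ m, a * z * a⁻¹ ∈ YY φ m := by
  rintro _ ⟨y, hy, k, hk, g, rfl⟩
  exact ⟨y, hy, k, hk, a * g, by group⟩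

theorem YY_map {m : ℕ} : ∀ z ∈ YY φ m, φ z ∈ YY φ m := by
  rintro _ ⟨y, hy, k, hk, g, rfl⟩
  exact ⟨y, hy, φ k, Ky_inv y k hk, φ g, by rw [map_mul, map_mul, map_inv]⟩

theorem YY_iter {m : ℕ} (i : ℕ) : ∀ z ∈ YY φ m, φ^[i] z ∈ YY φ m := by
  induction i with
  | zero => exact fun z hz => hz
  | succ i ih => intro z hz; rw [Function.iterate_succ_apply']; exact YY_map _ (ih z hz)

theorem YY_closure_inv (m : ℕ) : Inv φ (Subgroup.closure (YY φ m)) :=
  Inv.closure fun x hx => Subgroup.subset_closure (YY_map x hx)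

theorem YY_closure_normal (m : ℕ) : (Subgroup.closure (YY φ m)).Normal := by
  refine ⟨fun x hx g => ?_⟩
  exact Inv.closure (φ := (MulAut.conj g).toMonoidHom)
    (fun z hz => Subgroup.subset_closure (YY_conj g z hz)) x hx

/-- The induced endomorphism of a quotient. -/
def qm (φ : G →* G) (N : Subgroup G) [N.Normal] (hN : Inv φ N) : G ⧸ N →* G ⧸ N :=
  QuotientGroup.map N N φ hN

theorem qm_mk (N : Subgroup G) [N.Normal] (hN : Inv φ N) (x : G) :
    QuotientGroup.mk' N (φ x) = qm φ N hN (QuotientGroup.mk' N x) := rfl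

theorem reg_quot {m : ℕ} (N : Subgroup G) [N.Normal] (hN : Inv φ N)
    (h : ∀ P Q : Subgroup G, Inv φ P → Inv φ Q → N ≤ Q → ⁅P, P⁆ ≤ Q → ∀ x ∈ P,
      pw φ (cyclotomic m ℤ) x ∈ Q → x ∈ Q) : Reg (qm φ N hN) m := by
  intro P Q hP hQ hPQ x hx hp
  obtain ⟨x, rfl⟩ := QuotientGroup.mk'_surjective N x
  refine h (P.comap (QuotientGroup.mk' N)) (Q.comap (QuotientGroup.mk' N))
    (fun y hy => hP _ hy) (fun y hy => hQ _ hy) (fun y hy => ?_)
    (Subgroup.commutator_le.2 fun a ha b hb => ?_) x hx ?_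
  · rw [Subgroup.mem_comap, QuotientGroup.mk'_apply, (QuotientGroup.eq_one_iff y).2 hy]
    exact Q.one_mem
  · rw [Subgroup.mem_comap, map_commutatorElement]
    exact hPQ (Subgroup.commutator_mem_commutator ha hb)
  · rwa [Subgroup.mem_comap, pw_map _ (qm_mk N hN)]

theorem fpf_of_reg (h : Reg φ 1) (g : G) (hg : φ g = g) : g = 1 := by
  have h1 : Inv φ (Subgroup.zpowers g) := by
    rintro _ ⟨k, rfl⟩
    exact ⟨k, by simp [hg]⟩
  refine Subgroup.mem_bot.1 (h (Subgroup.zpowers g) ⊥ h1 (fun x hx => by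
    rw [Subgroup.mem_bot.1 hx, map_one]; exact Subgroup.one_mem _) ?_ g (Subgroup.mem_zpowers g)
    (by rw [pw_cyc_one, hg, inv_mul_cancel]; exact Subgroup.one_mem _))
  refine Subgroup.commutator_le.2 ?_
  rintro _ ⟨k, rfl⟩ _ ⟨l, rfl⟩
  rw [Subgroup.mem_bot, commutatorElement_eq_one_iff_commute]
  exact (Commute.refl g).zpow_zpow k l

theorem surj_of_fpf [Finite G] (h : ∀ g, φ g = g → g = 1) (H : Subgroup G) (hH : Inv φ H) :
    ∀ k ∈ H, ∃ x ∈ H, k = x⁻¹ * φ x := by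
  let f : H → H := fun x => ⟨(x : G)⁻¹ * φ x, H.mul_mem (H.inv_mem x.2) (hH _ x.2)⟩
  have hf : Function.Injective f := by
    intro x y e
    have e' : (x : G)⁻¹ * φ x = (y : G)⁻¹ * φ y := congrArg Subtype.val e
    have := h ((y : G) * (x : G)⁻¹) (by
      rw [map_mul, map_inv]
      calc φ y * (φ x)⁻¹ = y * ((y : G)⁻¹ * φ y) * (φ x)⁻¹ := by group
        _ = y * ((x : G)⁻¹ * φ x) * (φ x)⁻¹ := by rw [e']
        _ = _ := by group)
    exact Subtype.ext (mul_inv_eq_one.1 this).symm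
  intro k hk
  obtain ⟨x, hx⟩ := Finite.injective_iff_surjective.1 hf ⟨k, hk⟩
  exact ⟨x, x.2, (congrArg Subtype.val hx).symm⟩

theorem reg_of_fpf [Finite G] (h : ∀ g, φ g = g → g = 1) : Reg φ 1 := by
  intro P Q _ hQ _ x _ hx
  rw [pw_cyc_one] at hx
  obtain ⟨y, hy, e⟩ := surj_of_fpf h Q hQ _ hx
  have := h (y * x⁻¹) (by
    rw [map_mul, map_inv]
    calc φ y * (φ x)⁻¹ = y * (y⁻¹ * φ y) * (φ x)⁻¹ := by group
      _ = y * (x⁻¹ * φ x) * (φ x)⁻¹ := by rw [e]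
      _ = _ := by group)
  rw [← mul_inv_eq_one.1 this]
  exact hy

end

section
variable {G : Type} [Group G] {φ : G →* G} {P Q : Subgroup G}

theorem exists_pure [Finite G] {n q m : ℕ} (hn0 : 0 < n) (hn : ∀ x, φ^[n] x = x)
    (hq : ∀ x : G, x ^ q = 1) (hnq : Nat.Coprime n q) (hm : m ∣ n) (hP : Inv φ P) (hQ : Inv φ Q)
    (hPQ : ⁅P, P⁆ ≤ Q) {x : G} (hx : x ∈ P) (hxQ : pw φ (cyclotomic m ℤ) x ∈ Q) :
    ∃ y ∈ P, Pure φ m y ∧ y⁻¹ * x ∈ Q := by
  classical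
  obtain ⟨V, _, θ, hs⟩ := exists_sec hPQ
  obtain ⟨f, hf⟩ := hs.ind hP hQ
  obtain ⟨Ψ, hΨ⟩ : cyclotomic m ℤ ∣ X ^ n - 1 := by
    refine (cyclotomic.dvd_X_pow_sub_one m ℤ).trans ?_
    obtain ⟨k, rfl⟩ := hm
    rw [pow_mul]
    simpa using sub_dvd_pow_sub_pow (X ^ m : ℤ[X]) 1 k
  obtain ⟨a, b, hab⟩ := Nat.isCoprime_iff_coprime.2 hnq
  set Φ := cyclotomic m ℤ with hΦ
  set p : ℤ[X] := C a * (X * derivative Φ * Ψ) with hp
  have hp1 : p = C (a * n) + C a * ((n : ℤ[X]) * Ψ - X * derivative Ψ) * Φ := by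
    have h1 := congrArg (fun f => X * derivative f) hΨ
    obtain ⟨k, hk⟩ : ∃ k, n = k + 1 := ⟨n - 1, by omega⟩
    have h2 : (X * derivative (X ^ n - 1) : ℤ[X]) = (n : ℤ[X]) * X ^ n := by
      rw [derivative_sub, derivative_one, sub_zero, derivative_X_pow]
      conv_rhs => rw [hk, pow_succ]
      rw [hk]
      simp only [Nat.add_sub_cancel, map_natCast]
      ring
    simp only [h2, derivative_mul] at h1
    rw [hp, map_mul, map_natCast]
    linear_combination (-C a) * h1 + C a * (n : ℤ[X]) * hΨ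
  have hp2 : Φ * p = C a * (X * derivative Φ) * (X ^ n - 1) := by rw [hΨ, hp]; ring
  let τ : AddMonoid.End V := f
  have hτ : ∀ x ∈ P, τ • θ x = θ (φ x) := hf
  have hx0 : aeval τ Φ • θ x = 0 := by
    rw [← pw_aeval hP hs.add hτ Φ hx]
    exact (hs.zero _ (pw_mem hP _ hx)).2 hxQ
  have hfix : aeval τ p • θ x = θ x := by
    have h1 : (q : ℤ) • θ x = 0 := by rw [natCast_zsmul, ← hs.add.pow hx, hq, hs.add.one]
    rw [hp1, map_add, map_mul (aeval τ) _ Φ, add_smul, mul_smul, hx0, smul_zero, add_zero, aeval_C,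
      algebraMap_int_eq, eq_intCast, Int.cast_smul_eq_zsmul, eq_sub_of_add_eq hab, sub_smul,
      mul_smul, h1, smul_zero, sub_zero, one_smul]
  have hex : ∃ c, ∃ y ∈ P, θ y = θ x ∧ Nat.card (Ky φ y) = c := ⟨_, x, hx, rfl, rfl⟩
  obtain ⟨y, hy, hyx, hyc⟩ := Nat.find_spec hex
  have hy' : pw φ p y ∈ Ky φ y := pw_mem (Ky_inv y) _ (mem_Ky y)
  have hy'P : pw φ p y ∈ P := pw_mem hP _ hy
  have hy'x : θ (pw φ p y) = θ x := by rw [pw_aeval hP hs.add hτ p hy, hyx, hfix]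
  have hK : Ky φ (pw φ p y) = Ky φ y := by
    refine Subgroup.eq_of_le_of_card_ge (Ky_le (Ky_inv y) hy') ?_
    rw [hyc]
    exact Nat.find_min' hex ⟨_, hy'P, hy'x, rfl⟩
  refine ⟨pw φ p y, hy'P, ?_, ?_⟩
  · rw [Pure, hK]
    obtain ⟨V', _, θ', hs'⟩ := exists_sec (le_refl ⁅Ky φ y, Ky φ y⁆)
    obtain ⟨f', hf'⟩ := hs'.ind (Ky_inv y) ((Ky_inv y).comm (Ky_inv y))
    let τ' : AddMonoid.End V' := f'
    have hτ' : ∀ x ∈ Ky φ y, τ' • θ' x = θ' (φ x) := hf'
    refine (hs'.zero _ (pw_mem (Ky_inv y) _ hy')).1 ?_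
    rw [pw_aeval (Ky_inv y) hs'.add hτ' _ hy', pw_aeval (Ky_inv y) hs'.add hτ' _ (mem_Ky y),
      ← mul_smul, ← map_mul, ← hΦ, hp2, map_mul, mul_smul, map_sub, map_pow, aeval_X, map_one,
      sub_smul, pow_smul_theta (Ky_inv y) hτ' (mem_Ky y), hn, one_smul, sub_self, smul_zero]
  · refine (hs.zero _ (P.mul_mem (P.inv_mem hy'P) hx)).1 ?_
    rw [hs.add _ (P.inv_mem hy'P) _ hx, hs.add.inv hy'P, hy'x, neg_add_cancel]

/-- The standing hypotheses. -/
structure Hyp (n q b : ℕ) (φ : G →* G) : Prop where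
  nil : Group.IsNilpotent G
  pow : ∀ x, φ^[n] x = x
  exp : ∀ x : G, x ^ q = 1
  reg : ∀ m, m ∣ n → (m = 1 ∨ b < m) → Reg φ m

theorem qm_iter (N : Subgroup G) [N.Normal] (hN : Inv φ N) {n : ℕ} (h : ∀ x, φ^[n] x = x) :
    ∀ x, (qm φ N hN)^[n] x = x := by
  intro x
  obtain ⟨x, rfl⟩ := QuotientGroup.mk'_surjective N x
  rw [← Function.Semiconj.iterate_right (qm_mk N hN) n x, h]

theorem Hyp.quot {n q b : ℕ} (h : Hyp n q b φ) (N : Subgroup G) [N.Normal] (hN : Inv φ N) :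
    Hyp n q b (qm φ N hN) where
  nil := by have := h.nil; infer_instance
  pow := qm_iter N hN h.pow
  exp := fun x => by
    obtain ⟨x, rfl⟩ := QuotientGroup.mk'_surjective N x
    rw [← map_pow, h.exp, map_one]
  reg := fun m hm hb => reg_quot N hN fun P Q hP hQ _ hPQ => h.reg m hm hb P Q hP hQ hPQ

theorem Hyp.quot_pure [Finite G] {n q b : ℕ} (h : Hyp n q (b + 1) φ) (hn0 : 0 < n)
    (hnq : Nat.Coprime n q) [(Subgroup.closure (YY φ (b + 1))).Normal] :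
    Hyp n q b (qm φ _ (YY_closure_inv (b + 1))) where
  nil := (h.quot _ (YY_closure_inv (b + 1))).nil
  pow := (h.quot _ _).pow
  exp := (h.quot _ (YY_closure_inv (b + 1))).exp
  reg := fun m hm hb => by
    by_cases hmb : m = b + 1
    · subst hmb
      refine reg_quot _ _ fun P Q hP hQ hN hPQ x hx hp => ?_
      obtain ⟨y, -, hy, hyx⟩ := exists_pure hn0 h.pow h.exp hnq hm hP hQ hPQ hx hp
      have h1 : y ∈ Q := hN (Subgroup.subset_closure ⟨y, hy, y, mem_Ky y, 1, by simp⟩)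
      simpa using Q.mul_mem h1 hyx
    · exact (h.quot _ _).reg m hm (by omega)

theorem Hyp.base [Finite G] {n q : ℕ} (h : Hyp n q 0 φ) (hn0 : 0 < n) :
    derivedSeries G 0 = ⊥ := by
  obtain ⟨V, _, θ, hs⟩ := exists_sec (le_refl ⁅(⊤ : Subgroup G), (⊤ : Subgroup G)⁆)
  have hQ := (Inv.top φ).comm (Inv.top φ)
  obtain ⟨f, hf⟩ := hs.ind (Inv.top φ) hQ
  let τ : AddMonoid.End V := f
  have hτ : ∀ x ∈ (⊤ : Subgroup G), τ • θ x = θ (φ x) := hf
  have h1 : ∀ s : Finset ℕ, s ⊆ n.divisors → ∀ v : V,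
      aeval τ (∏ i ∈ s, cyclotomic i ℤ) • v = 0 → v = 0 := by
    intro s
    induction s using Finset.induction_on with
    | empty => intro _ v hv; simpa using hv
    | insert m s hms ih =>
      intro hsub v hv
      rw [prod_insert hms, mul_comm, map_mul, mul_smul] at hv
      have h2 := ih ((subset_insert m s).trans hsub) _ hv
      obtain ⟨x, hx, rfl⟩ := hs.surj v
      have hm := Nat.mem_divisors.1 (hsub (mem_insert_self m s))
      rw [← pw_aeval (Inv.top φ) hs.add hτ _ hx] at h2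
      exact (hs.zero x hx).2 (h.reg m hm.1 (Or.inr (Nat.pos_of_dvd_of_pos hm.1 hn0)) ⊤ _
        (Inv.top φ) hQ le_rfl x hx ((hs.zero _ trivial).1 h2))
  refine eq_bot_of_le_comm h.nil fun x _ => (hs.zero x trivial).1 (h1 _ subset_rfl _ ?_)
  rw [prod_cyclotomic_eq_X_pow_sub_one hn0, map_sub, map_pow, aeval_X, map_one, sub_smul,
    pow_smul_theta (Inv.top φ) hτ (Subgroup.mem_top x), h.pow, one_smul, sub_self]

end

end Pool.Agent.Lib.MP_95ba65_al.LP
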