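import Mathlib
import Pool.Agent.Lib.MP_95ba65_al.LPPure
import Pool.Agent.Lib.MP_95ba65_al.LPNorm

/-! The main induction. -/

set_option autoImplicit false

namespace Pool.Agent.Lib.MP_95ba65_al.LP

open Finset Polynomial
open scoped commutatorElement

/-- Bound for the nilpotency class. -/
def cs (n N : ℕ) : ℕ → ℕ
  | 0 => 0
  | i + 1 => cs n N i + nilB n N (cs n N i)

/-- Bound for the nilpotency index of the augmentation submodule. -/
def cB (n N s : ℕ) : ℕ := nilB n N (cs n N s)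

section
variable {G : Type*} [Group G] {R : Type*} [CommRing R] {A : Type*} [Ring A] [Algebra R A]
  {n b : ℕ} {φ : G →* G} {ρ : G →* A} {Φ : A}

theorem Rep.sigma (h : Rep R n b φ ρ Φ) (hn : 0 < n) :
    ∃ σ : A →ₐ[R] A, (∀ x, σ x * Φ = Φ * x) ∧ (σ.toLinearMap : Module.End R A) ^ n = 1 ∧
      ∀ g, σ (ρ g) = ρ (φ g) := by
  let u : Aˣ := Units.ofPowEqOne Φ n h.pow hn.ne'
  have hu : (u : A) = Φ := rfl
  have hun : u ^ n = 1 := Units.ext (by rw [Units.val_pow_eq_pow_val, hu, h.pow]; rfl)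
  refine ⟨Ad R (Units.coeHom A) u, fun x => ?_, ?_, fun g => ?_⟩
  · rw [Ad_apply, Units.coeHom_apply, Units.coeHom_apply, ← hu, mul_assoc, Units.inv_mul, mul_one]
  · have : ∀ k : ℕ, ∀ x, (((Ad R (Units.coeHom A) u).toLinearMap : Module.End R A) ^ k) x
        = Ad R (Units.coeHom A) (u ^ k) x := by
      intro k
      induction k with
      | zero => intro x; rw [pow_zero, pow_zero, Ad_one]; rfl
      | succ k ih => intro x; rw [pow_succ, pow_succ, Module.End.mul_apply, ih, Ad_mul]; rfl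
    ext x
    rw [this, hun, Ad_one]; rfl
  · rw [Ad_apply, Units.coeHom_apply, Units.coeHom_apply, hu, h.comm, ← hu, mul_assoc,
      Units.mul_inv, mul_one]

theorem JK_map {K : Subgroup G} (hK : Inv φ K) {σ : A →ₐ[R] A} (hσ : ∀ g, σ (ρ g) = ρ (φ g)) :
    ∀ x ∈ JK R ρ K, σ x ∈ JK R ρ K := by
  have : JK R ρ K ≤ (JK R ρ K).comap σ.toLinearMap := by
    refine Submodule.span_le.2 ?_
    rintro _ ⟨k, hk, rfl⟩
    change σ _ ∈ JK R ρ K
    rw [map_sub, map_one, hσ]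
    exact mem_JK ρ (hK k hk)
  exact fun x hx => this hx

theorem FJ_two_map {K : Subgroup G} (hK : Inv φ K) {σ : A →ₐ[R] A}
    (hσ : ∀ g, σ (ρ g) = ρ (φ g)) : ∀ x ∈ FJ (JK R ρ K) 2, σ x ∈ FJ (JK R ρ K) 2 := by
  intro x hx
  rw [FJ_succ (JK_mul ρ K), pow_succ, pow_one] at hx ⊢
  refine Submodule.mul_induction_on hx (fun a ha c hc => ?_) (fun a c ha hc => ?_)
  · rw [map_mul]
    exact Submodule.mul_mem_mul (JK_map hK hσ a ha) (JK_map hK hσ c hc)
  · rw [map_add]; exact Submodule.add_mem _ ha hc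

theorem JK_Ky_le {y : G} {U : Submodule R A}
    (h : ∀ i, ρ (φ^[i] y) - 1 ∈ U ⊔ FJ (JK R ρ (Ky φ y)) 2) :
    JK R ρ (Ky φ y) ≤ U ⊔ FJ (JK R ρ (Ky φ y)) 2 := by
  have hF := filt_JK (R := R) ρ (Ky φ y)
  have : Ky φ y ≤ subS ρ (Ky φ y) (U ⊔ FJ (JK R ρ (Ky φ y)) 2) (fun k hk l hl _ =>
      Submodule.mem_sup_right (hF.mul' (mem_FJ_one ρ hk) (mem_FJ_one ρ hl) le_rfl)) := by
    refine (Subgroup.closure_le _).2 ?_
    rintro _ ⟨i, rfl⟩
    exact ⟨iter_mem_Ky y i, h i⟩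
  refine Submodule.span_le.2 ?_
  rintro _ ⟨k, hk, rfl⟩
  exact (this hk).2

theorem pw_sum {V : Type*} [AddCommGroup V] {θ : G → V} {P : Subgroup G} (h : Inv φ P)
    (hθ : AddOn P θ) (p : ℤ[X]) {x : G} (hx : x ∈ P) :
    θ (pw φ p x) = ∑ j ∈ range (p.natDegree + 1), p.coeff j • θ (φ^[j] x) := by
  have : ∀ i, θ (pwN φ p x i) = ∑ j ∈ range i, p.coeff j • θ (φ^[j] x) := by
    intro i
    induction i with
    | zero => simpa [pwN] using hθ.one
    | succ i ih =>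
      rw [pwN, hθ _ (pwN_mem h p hx i) _ (P.zpow_mem (h.iter i x hx) _), ih, sum_range_succ,
        hθ.zpow (h.iter i x hx)]
  exact this _

theorem pure_mem_FJ {m : ℕ} {y : G} (hy : Pure φ m y) :
    ∑ j ∈ range ((cyclotomic m ℤ).natDegree + 1),
      (cyclotomic m ℤ).coeff j • (ρ (φ^[j] y) - 1) ∈ FJ (JK R ρ (Ky φ y)) 2 := by
  have hF := filt_JK (R := R) ρ (Ky φ y)
  set S := FJ (JK R ρ (Ky φ y)) 2 with hS
  have hθ : AddOn (Ky φ y) (fun g => S.mkQ (ρ g - 1)) := by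
    intro a ha c hc
    have : ρ (a * c) - 1 = (ρ a - 1) * (ρ c - 1) + ((ρ a - 1) + (ρ c - 1)) := by
      rw [map_mul]; noncomm_ring
    have h0 : S.mkQ ((ρ a - 1) * (ρ c - 1)) = 0 :=
      (Submodule.Quotient.mk_eq_zero _).2 (hF.mul' (mem_FJ_one ρ ha) (mem_FJ_one ρ hc) le_rfl)
    change S.mkQ _ = S.mkQ _ + S.mkQ _
    rw [this, map_add, h0, zero_add, map_add]
  have h1 := pw_sum (Ky_inv y) hθ (cyclotomic m ℤ) (mem_Ky y)
  have h2 : S.mkQ (ρ (pw φ (cyclotomic m ℤ) y) - 1) = 0 :=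
    (Submodule.Quotient.mk_eq_zero _).2 (cm_mem_FJ ρ (Ky φ y) 1 _ hy)
  rw [h2] at h1
  refine (Submodule.Quotient.mk_eq_zero _).1 ?_
  change S.mkQ _ = 0
  rw [h1, map_sum]
  exact sum_congr rfl fun j _ => map_zsmul _ _ _

variable [NeZero n] {w : ZMod n → R}

theorem pure_gen (hw : CycR w) (h : Rep R n b φ ρ Φ) (hb : b ∣ n) {y : G} (hy : Pure φ b y) :
    ∃ Y : ZMod n → A, (∀ i, Y i ∈ JK R ρ (Ky φ y)) ∧ (∀ i, Y i ^ n = 0) ∧
      JK R ρ (Ky φ y) ≤ Submodule.span R (Set.range Y) ⊔ FJ (JK R ρ (Ky φ y)) 2 := by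
  classical
  have hn : 0 < n := Nat.pos_of_ne_zero (NeZero.ne n)
  obtain ⟨σ, hσ1, hσ2, hσ3⟩ := h.sigma hn
  have hG := hw.grad hσ2
  set π : ZMod n → A →ₗ[R] A := fun a => ee w (σ.toLinearMap : Module.End R A) a with hπ
  set u := ρ y - 1 with hu
  have hiter : ∀ i, ρ (φ^[i] y) - 1 = ∑ a, w a ^ i • π a u := by
    intro i
    induction i with
    | zero => simpa using (hG.sum u).symm
    | succ i ih =>
      rw [Function.iterate_succ_apply', ← hσ3, ← map_one σ, ← map_sub, ih, map_sum]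
      refine sum_congr rfl fun a _ => ?_
      rw [map_smul, mem_Eig.1 (hG.mem a u), smul_smul, pow_succ]
  have hproj : ∀ a i, π a (ρ (φ^[i] y) - 1) = w a ^ i • π a u := by
    intro a i
    rw [hiter, map_sum, sum_eq_single a]
    · rw [map_smul, hG.same (hG.mem a u)]
    · intro c _ hca
      rw [map_smul, hG.ne (hG.mem c u) hca.symm, smul_zero]
    · intro h; exact absurd (mem_univ a) h
  refine ⟨fun a => if addOrderOf a = b then π a u else 0, fun a => ?_, fun a => ?_, ?_⟩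
  · beta_reduce
    split_ifs
    · exact ee_apply_mem (JK_map (Ky_inv y) hσ3) a _ (mem_JK ρ (mem_Ky y))
    · exact Submodule.zero_mem _
  · beta_reduce
    split_ifs with ha
    · refine hw.eigen_nil h.pow (a := a) ?_ (by rw [ha]; exact h.unit)
      rw [← hσ1, mem_Eig.1 (hG.mem a u), smul_mul_assoc]
    · exact zero_pow hn.ne'
  · refine JK_Ky_le fun i => ?_
    rw [hiter]
    refine Submodule.sum_mem _ fun a _ => Submodule.smul_mem _ _ ?_
    by_cases ha : addOrderOf a = b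
    · exact Submodule.mem_sup_left (Submodule.subset_span ⟨a, if_pos ha⟩)
    · refine Submodule.mem_sup_right ?_
      have h1 : π a _ ∈ FJ (JK R ρ (Ky φ y)) 2 :=
        ee_apply_mem (FJ_two_map (Ky_inv y) hσ3) a _ (pure_mem_FJ (R := R) (ρ := ρ) hy)
      rw [map_sum] at h1
      simp_rw [map_zsmul, hproj, ← smul_assoc] at h1
      rw [← sum_smul, ← aeval_eq_sum_range] at h1
      obtain ⟨v, hv⟩ := hw.cyc_unit hb ha
      have := Submodule.smul_mem _ ((v⁻¹ : Rˣ) : R) h1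
      rwa [smul_smul, ← hv, Units.inv_mul, one_smul] at this

omit [NeZero n] in
theorem orbit_gen (hφ : ∀ x, φ^[n] x = x) {c : ℕ} {z : G}
    (hz : ∀ i, (ρ (φ^[i] z) - 1) ^ c = 0) :
    ∃ Y : ZMod n → A, (∀ i, Y i ∈ JK R ρ (Ky φ z)) ∧ (∀ i, Y i ^ c = 0) ∧
      JK R ρ (Ky φ z) ≤ Submodule.span R (Set.range Y) ⊔ FJ (JK R ρ (Ky φ z)) 2 := by
  refine ⟨fun i => ρ (φ^[i.val] z) - 1, fun i => mem_JK ρ (iter_mem_Ky z _), fun i => hz _,
    JK_Ky_le fun i => Submodule.mem_sup_left (Submodule.subset_span ⟨(i : ZMod n), ?_⟩)⟩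
  have : Function.IsPeriodicPt φ n z := hφ z
  simp only [ZMod.val_natCast, this.iterate_mod_apply]

end

section
variable {G : Type} [Group G] [Finite G] {n q b : ℕ} [NeZero n] {R : Type} [CommRing R]
  [Algebra (ZMod q) R] {l : R →ₗ[ZMod q] ZMod q} {w : ZMod n → R} {φ : G →* G}

theorem lemC (hl : l 1 = 1) (h : Hyp n q b φ) {s N : ℕ} (hs : derivedSeries G s = ⊥)
    (hN : Un R N) {K : Subgroup G}
    (hK : ∀ (A : Type) [Ring A] [Algebra R A] (ρ : G →* A) (Φ : A), Rep R n b φ ρ Φ →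
      ∃ Y : ZMod n → A, (∀ i, Y i ∈ JK R ρ K) ∧ (∀ i, Y i ^ N = 0) ∧
        JK R ρ K ≤ Submodule.span R (Set.range Y) ⊔ FJ (JK R ρ K) 2)
    {A : Type} [Ring A] [Algebra R A] {ρ : G →* A} {Φ : A} (hρ : Rep R n b φ ρ Φ) :
    JK R ρ K ^ cB n N s = ⊥ := by
  have key : ∀ (A : Type) [Ring A] [Algebra R A] (ρ : G →* A) (Φ : A), Rep R n b φ ρ Φ →
      ∀ c, (∀ g ∈ cm K K c, ρ g = 1) → JK R ρ K ^ nilB n N c = ⊥ := by
    intro A _ _ ρ Φ hρ c hc
    obtain ⟨Y, h1, h2, h3⟩ := hK A ρ Φ hρ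
    obtain ⟨t, ht⟩ := hρ.nil
    have := JK_nil hN ρ K c Y h1 h2 h3 hc
      ⟨t, eq_bot_iff.2 (ht ▸ pow_le_pow_left' (JK_mono ρ le_top) t)⟩
    rwa [ZMod.card] at this
  have h1 : ∀ i, cm K ⊤ (cs n N i) ≤ DerG^[i] ⊤ := by
    intro i
    induction i with
    | zero => exact le_rfl
    | succ i ih =>
      have := normal_der (⊤ : Subgroup G) i
      have := normal_der (⊤ : Subgroup G) (i + 1)
      obtain ⟨A, _, _, ρ, Φ, hρ, h2, h3⟩ := exists_rep l hl h.nil h.pow h.exp h.reg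
        ((Inv.top φ).der i) ((Inv.top φ).der (i + 1))
        (by rw [Function.iterate_succ_apply']; exact le_rfl)
      rw [cs, cm_add]
      exact (cm_mono le_rfl ih _).trans
        (h3 K _ (key A ρ Φ hρ _ fun g hg => h2 g (ih (cm_mono le_rfl le_top _ hg))))
  refine key A ρ Φ hρ _ fun g hg => ?_
  have := h1 s (cm_mono le_rfl le_top _ hg)
  rw [← derivedSeries_eq_DerG, hs, Subgroup.mem_bot] at this
  rw [this, map_one]

theorem act_trivial (hl : l 1 = 1) (hw : CycR w) (h : Hyp n q b φ) (hb : b ∣ n) {s T : ℕ}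
    (hs : derivedSeries G s = ⊥) (hT : Un R (T + 2)) (h0 : n ≤ T + 2)
    (h1 : 2 * cB n n s ≤ T + 2) (h2 : 2 * cB n (cB n n s) s ≤ T + 2)
    {A : Type} [Ring A] [Algebra R A] {ρ : G →* A} {Φ : A} (hρ : Rep R n b φ ρ Φ) :
    ∀ g ∈ DerG^[stabF (2 ^ (n - 1) - 1) + 1] (Subgroup.closure (YY φ b)), ρ g = 1 := by
  have hn : 0 < n := Nat.pos_of_ne_zero (NeZero.ne n)
  have hα : ∀ (A : Type) [Ring A] [Algebra R A] (ρ : G →* A) (Φ : A), Rep R n b φ ρ Φ →
      ∀ z ∈ YY φ b, (ρ z - 1) ^ cB n n s = 0 := by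
    rintro A _ _ ρ Φ hρ _ ⟨y, hy, k, hk, g, rfl⟩
    have h3 := lemC hl h hs (hT.mono h0) (fun A _ _ ρ Φ hρ => pure_gen hw hρ hb hy) hρ
    rw [← Ad_rho (R := R), ← map_one (Ad R ρ g), ← map_sub, ← map_pow, pow_zero_of_JK h3 hk,
      map_zero]
  obtain ⟨σ, -, hσ2, hσ3⟩ := hρ.sigma hn
  have hG := hw.grad hσ2
  have hE := expGen_LgS hT h1 (hα A ρ Φ hρ) (fun y _ z hz => YY_conj y z hz) YY_inv
  have hfp := surj_of_fpf (fpf_of_reg (h.reg 1 (one_dvd n) (Or.inl rfl)))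
  set π0 : A →ₗ[R] A := ee w (σ.toLinearMap : Module.End R A) 0 with hπ0
  have hZ : ∀ x, σ x - x ∈ LinearMap.ker π0 := by
    intro x
    rw [LinearMap.mem_ker, ← hG.sum x, map_sum, ← sum_sub_distrib, map_sum]
    refine sum_eq_zero fun a _ => ?_
    have ha := hG.mem a x
    rw [mem_Eig.1 ha, map_sub, map_smul]
    by_cases ha0 : a = 0
    · rw [ha0, hw.zero, one_smul, sub_self]
    · have : π0 _ = 0 := hG.ne ha (Ne.symm ha0)
      rw [this, smul_zero, sub_self]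
  have hker : LgS R T ρ (YY φ b) ≤ LinearMap.ker π0 := by
    refine Submodule.span_le.2 ?_
    rintro _ ⟨z, hz, rfl⟩
    have h3 := lemC hl h hs (hT.mono (show cB n n s ≤ T + 2 by omega))
      (fun A _ _ ρ Φ hρ => orbit_gen h.pow fun i => hα A ρ Φ hρ _ (YY_iter i z hz)) hρ
    exact norm_lg hT h2 h3 φ (Ky_inv z) σ hσ3 hfp _ hZ
      (mem_LgS (Y := (Ky φ z : Set G)) (mem_Ky z))
  refine hE.solv (hG.kreknin (fun a => ee_apply_mem
    (LgS_map σ fun y hy => ⟨φ y, YY_map y hy, hσ3 y⟩) a) hE.lie ?_)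
  refine eq_bot_iff.2 fun x hx => ?_
  have h3 : π0 x = 0 := hker hx.1
  have h4 : π0 x = x := hG.same hx.2
  rw [Submodule.mem_bot, ← h4, h3]

omit [Finite G] in
theorem der_two_eq_bot (hG : Group.IsNilpotent G) {N : Subgroup G} [N.Normal]
    (h : ⁅N, DerG N⁆ ≤ DerG (DerG N)) : DerG (DerG N) = ⊥ := by
  unfold DerG at h ⊢
  have h1 : ⁅⁅N, N⁆, ⁅N, N⁆⁆ ≤ ⁅N, ⁅N, ⁅N, N⁆⁆⁆ := by
    obtain ⟨H, _, π, hπ⟩ : ∃ (H : Type) (_ : Group H) (π : G →* H), π.ker = ⁅N, ⁅N, ⁅N, N⁆⁆⁆ :=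
      ⟨_, _, QuotientGroup.mk' _, QuotientGroup.ker_mk' _⟩
    have hZ0 : (⁅N, ⁅N, ⁅N, N⁆⁆⁆).map π = ⊥ := by rw [Subgroup.map_eq_bot_iff, hπ]
    rw [← hπ, ← Subgroup.map_eq_bot_iff]
    simp only [Subgroup.map_commutator] at hZ0 ⊢
    refine Subgroup.commutator_commutator_eq_bot_of_rotate ?_ ?_
    · rw [Subgroup.commutator_comm]; exact hZ0
    · rw [Subgroup.commutator_comm, Subgroup.commutator_comm _ (N.map _)]; exact hZ0
  have h2 : ⁅N, ⁅N, N⁆⁆ = ⊥ :=
    eq_bot_of_le_comm hG ((h.trans h1).trans (Subgroup.commutator_mono le_top le_rfl))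
  rw [eq_bot_iff, ← h2]
  exact Subgroup.commutator_mono (DerG_le N) le_rfl

theorem step_der (hl : l 1 = 1) (hw : CycR w) (h : Hyp n q b φ) (hb : b ∣ n) {s T : ℕ}
    (hs : derivedSeries G s = ⊥) (hT : Un R (T + 2)) (h0 : n ≤ T + 2)
    (h1 : 2 * cB n n s ≤ T + 2) (h2 : 2 * cB n (cB n n s) s ≤ T + 2) :
    DerG^[stabF (2 ^ (n - 1) - 1) + 1 + 2] (Subgroup.closure (YY φ b)) = ⊥ := by
  have := YY_closure_normal (φ := φ) b
  have hN := normal_der (Subgroup.closure (YY φ b)) (stabF (2 ^ (n - 1) - 1) + 1)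
  have hNi := (YY_closure_inv (φ := φ) b).der (stabF (2 ^ (n - 1) - 1) + 1)
  rw [Function.iterate_succ_apply', Function.iterate_succ_apply']
  set N := DerG^[stabF (2 ^ (n - 1) - 1) + 1] (Subgroup.closure (YY φ b)) with hNdef
  have := normal_der N 1
  have := normal_der N 2
  obtain ⟨A, _, _, ρ, Φ, hρ, -, h3⟩ := exists_rep l hl h.nil h.pow h.exp h.reg
    (hNi.der 1) (hNi.der 2) le_rfl
  refine der_two_eq_bot h.nil (h3 N 1 ?_)
  rw [pow_one, JK, Submodule.span_eq_bot]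
  rintro _ ⟨k, hk, rfl⟩
  rw [act_trivial hl hw h hb hs hT h0 h1 h2 hρ k hk, sub_self]

end

theorem main_ind {n : ℕ} (hn : 0 < n) (b : ℕ) :
    ∃ f p : ℕ, ∀ (G : Type) [Group G] [Finite G] (φ : G →* G) (q : ℕ),
      (∀ k, 0 < k → k ≤ p → Nat.Coprime k q) → Hyp n q b φ → derivedSeries G f = ⊥ := by
  have : NeZero n := ⟨hn.ne'⟩
  induction b with
  | zero => exact ⟨0, 0, fun G _ _ φ q _ h => h.base hn⟩
  | succ b ih =>
    obtain ⟨f, p, ih⟩ := ih
    by_cases hb : b + 1 ∣ n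
    swap
    · refine ⟨f, p, fun G _ _ φ q hq h => ih G φ q hq ⟨h.nil, h.pow, h.exp, fun m hm h1 => ?_⟩⟩
      refine h.reg m hm ?_
      by_cases hmb : m = b + 1
      · exact absurd (hmb ▸ hm) hb
      · omega
    set F := stabF (2 ^ (n - 1) - 1) + 1 + 2 with hF
    set s := F + f + 1 with hs
    set T := n + 2 * cB n n s + 2 * cB n (cB n n s) s with hT
    refine ⟨F + f, p + T + 2, fun G _ _ φ q hq h => ?_⟩
    obtain ⟨R, _, _, l, w, hl, hw, hU⟩ := exists_ring (q := q) (T := T + 2) hn (by omega)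
      fun k h0 hk => hq k h0 (by omega)
    have key : ∀ (G : Type) [Group G] [Finite G] (φ : G →* G), Hyp n q (b + 1) φ →
        derivedSeries G s = ⊥ → derivedSeries G (F + f) = ⊥ := by
      intro G _ _ φ h hs
      have h1 := step_der hl hw h hb hs hU (by omega) (by omega) (by omega)
      have := YY_closure_normal (φ := φ) (b + 1)
      have h2 := ih _ _ q (fun k h0 hk => hq k h0 (by omega))
        (h.quot_pure hn (hq n hn (by omega)))
      rw [← map_derivedSeries_eq (QuotientGroup.mk'_surjective _), Subgroup.map_eq_bot_iff,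
        QuotientGroup.ker_mk', derivedSeries_eq_DerG] at h2
      rw [derivedSeries_eq_DerG, Function.iterate_add_apply, eq_bot_iff, ← h1]
      exact DerG_iter_mono F h2
    have hinv : Inv φ (derivedSeries G s) := by
      rw [derivedSeries_eq_DerG]; exact (Inv.top φ).der s
    have h1 := key _ _ (h.quot (derivedSeries G s) hinv) (by
      rw [← map_derivedSeries_eq (QuotientGroup.mk'_surjective _), Subgroup.map_eq_bot_iff,
        QuotientGroup.ker_mk'])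
    rw [← map_derivedSeries_eq (QuotientGroup.mk'_surjective _), Subgroup.map_eq_bot_iff,
      QuotientGroup.ker_mk', hs, derivedSeries_succ] at h1
    exact eq_bot_of_le_comm h.nil (h1.trans (Subgroup.commutator_mono le_top le_rfl))

theorem large_primes :
    ∃ f p0 : ℕ → ℕ, ∀ (G : Type) [Group G] [Finite G], Group.IsNilpotent G →
      ∀ φ : MulAut G, (∀ q : ℕ, q.Prime → q ∣ Nat.card G → p0 (orderOf φ) < q) →
        (∀ g : G, φ g = g → g = 1) → derivedSeries G (f (orderOf φ)) = ⊥ := by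
  choose f p hfp using fun n : ℕ => main_ind (Nat.succ_pos n) (n + 1)
  refine ⟨fun n => f (n - 1), fun n => p (n - 1), fun G _ _ hG φ hq hφ => ?_⟩
  have hpos : 0 < orderOf φ := orderOf_pos φ
  refine hfp (orderOf φ - 1) G φ.toMonoidHom (Nat.card G) (fun k h0 hk => ?_)
    ⟨hG, fun x => ?_, fun x => pow_card_eq_one', fun m hm h1 => ?_⟩
  · refine Nat.coprime_of_dvd fun r hr hrk hrq => ?_
    have := hq r hr hrq
    have := Nat.le_of_dvd h0 hrk
    simp only at *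
    omega
  · have h1 : ∀ i : ℕ, (φ.toMonoidHom)^[i] x = (φ ^ i) x := by
      intro i
      induction i with
      | zero => rfl
      | succ i ih => rw [Function.iterate_succ_apply', ih, pow_succ']; rfl
    rw [h1, show (orderOf φ - 1).succ = orderOf φ by omega, pow_orderOf_eq_one]
    rfl
  · have := Nat.le_of_dvd (Nat.succ_pos _) hm
    obtain rfl : m = 1 := by omega
    exact reg_of_fpf hφ

end Pool.Agent.Lib.MP_95ba65_al.LP
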