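import Mathlib

/-!
Nilpotency of associative algebras generated by finitely many nilpotent elements of a soluble
Lie subalgebra, when small integers are invertible.
-/

set_option autoImplicit false

namespace Pool.Agent.Lib.MP_95ba65_al.Large

/-- small positive integers are units -/
def SmallU (R : Type) [CommRing R] (K : ℕ) : Prop := ∀ k : ℕ, 0 < k → k ≤ K → IsUnit (k : R)

theorem SmallU.mono {R : Type} [CommRing R] {K K' : ℕ} (h : SmallU R K) (hK : K' ≤ K) :
    SmallU R K' := fun k h0 hk => h k h0 (hk.trans hK)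

/-- products of `M` generators lie in `J` -/
def NilM {R A ι : Type} [CommRing R] [Ring A] [Algebra R A] (X : ι → A) (M : ℕ)
    (J : Submodule R A) : Prop :=
  ∀ l : List ι, l.length = M → (l.map X).prod ∈ J

/-- iterated commutators -/
def cm {A ι : Type} [Ring A] (X : ι → A) (l : List ι) (y : A) : A :=
  l.foldr (fun j z => X j * z - z * X j) y

theorem cm_nil {A ι : Type} [Ring A] (X : ι → A) (y : A) : cm X [] y = y := rfl

theorem cm_cons {A ι : Type} [Ring A] (X : ι → A) (j : ι) (l : List ι) (y : A) :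
    cm X (j :: l) y = X j * cm X l y - cm X l y * X j := rfl

theorem map_cm {A B ι F : Type} [Ring A] [Ring B] [FunLike F A B] [RingHomClass F A B] (f : F)
    (X : ι → A) (l : List ι) (y : A) : f (cm X l y) = cm (fun i => f (X i)) l (f y) := by
  induction l with
  | nil => rfl
  | cons j l ih => rw [cm_cons, cm_cons, map_sub, map_mul, map_mul, ih]

theorem map_prodX {A B ι F : Type} [Ring A] [Ring B] [FunLike F A B] [RingHomClass F A B] (f : F)
    (X : ι → A) (l : List ι) : f (l.map X).prod = (l.map fun i => f (X i)).prod := by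
  induction l with
  | nil => simp
  | cons j l ih => simp [ih]

section Quo

variable {R A : Type} [CommRing R] [Ring A] [Algebra R A]

/-- `J` is a two-sided ideal of the subalgebra `B` -/
structure Idl (B : Subalgebra R A) (J : Submodule R A) : Prop where
  left : ∀ b ∈ B, ∀ x ∈ J, b * x ∈ J
  right : ∀ b ∈ B, ∀ x ∈ J, x * b ∈ J

/-- the ideal of `B` -/
def Idl.ideal {B : Subalgebra R A} {J : Submodule R A} (h : Idl B J) : Ideal B where
  carrier := {x | (x : A) ∈ J}
  add_mem' := fun ha hb => J.add_mem ha hb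
  zero_mem' := J.zero_mem
  smul_mem' := fun c x hx => h.left c c.2 x hx

instance {B : Subalgebra R A} {J : Submodule R A} (h : Idl B J) : h.ideal.IsTwoSided :=
  ⟨fun b ha => h.right b b.2 _ ha⟩

/-- the quotient map -/
def Idl.mk' {B : Subalgebra R A} {J : Submodule R A} (h : Idl B J) : B →ₐ[R] B ⧸ h.ideal :=
  Ideal.Quotient.mkₐ R h.ideal

theorem Idl.mk'_eq_zero {B : Subalgebra R A} {J : Submodule R A} (h : Idl B J) (x : B) :
    h.mk' x = 0 ↔ (x : A) ∈ J := Ideal.Quotient.eq_zero_iff_mem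

theorem Idl.prod_mem {ι : Type} {B : Subalgebra R A} {J : Submodule R A} (h : Idl B J)
    {X : ι → A} (hX : ∀ i, X i ∈ B) {M : ℕ}
    (hn : NilM (fun i => h.mk' ⟨X i, hX i⟩) M (⊥ : Submodule R (B ⧸ h.ideal))) : NilM X M J := by
  intro l hl
  have h1 := hn l hl
  rw [Submodule.mem_bot, ← map_prodX h.mk' (fun i => (⟨X i, hX i⟩ : B)), h.mk'_eq_zero] at h1
  have h2 := map_prodX B.val (fun i => (⟨X i, hX i⟩ : B)) l
  exact h2 ▸ h1

end Quo

section Heis

variable {R A : Type} [CommRing R] [Ring A] [Algebra R A]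

theorem pow_comm_sub {x y z : A} (hz : x * y - y * x = z) (hxz : Commute x z) (m : ℕ) :
    x ^ (m + 1) * y - y * x ^ (m + 1) = (m + 1) • (x ^ m * z) := by
  induction m with
  | zero => simpa using hz
  | succ m ih =>
    have h1 : x ^ (m + 2) * y - y * x ^ (m + 2) =
        x ^ (m + 1) * (x * y - y * x) + (x ^ (m + 1) * y - y * x ^ (m + 1)) * x := by
      rw [pow_succ x (m + 1)]; noncomm_ring
    rw [h1, hz, ih, smul_mul_assoc, mul_assoc, ← hxz.eq, ← mul_assoc, ← pow_succ, succ_nsmul' _ (m + 1)]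

theorem cancel_nsmul {W : Type} [AddCommGroup W] [Module R W] {k : ℕ} (hk : IsUnit (k : R))
    {S : Submodule R W} {w : W} (h : k • w ∈ S) : w ∈ S := by
  obtain ⟨u, hu⟩ := hk.exists_left_inv
  have := S.smul_mem u h
  rwa [← Nat.cast_smul_eq_nsmul R, smul_smul, hu, one_smul] at this

theorem heis {N : ℕ} (hU : SmallU R N) {x y z : A} (hz : x * y - y * x = z) (hxz : Commute x z)
    (hyz : Commute y z) (hx : x ^ N = 0) : z ^ N = 0 := by
  have key : ∀ k m, m + k = N → x ^ m * z ^ k = 0 := by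
    intro k
    induction k with
    | zero => intro m hm; simp [show m = N by omega, hx]
    | succ k ih =>
      intro m hm
      have h0 := ih (m + 1) (by omega)
      have h1 : (x ^ (m + 1) * y - y * x ^ (m + 1)) * z ^ k = 0 := by
        rw [sub_mul, mul_assoc, (hyz.pow_right k).eq, ← mul_assoc, h0, mul_assoc, h0]
        simp
      rw [pow_comm_sub hz hxz, smul_mul_assoc, mul_assoc, ← pow_succ'] at h1
      have := cancel_nsmul (R := R) (S := (⊥ : Submodule R A)) (hU (m + 1) (by omega) (by omega))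
        (by rw [h1]; exact Submodule.zero_mem _)
      exact (Submodule.mem_bot R).1 this
  simpa using key N 0 (by omega)

end Heis

section Tower

variable {R A : Type} [CommRing R] [Ring A] [Algebra R A]

theorem sum_pow_eq_zero {S κ : Type} [Semiring S] [DecidableEq κ] (P : κ → S) (N : ℕ)
    (hc : ∀ a b, Commute (P a) (P b)) (hP : ∀ a, P a ^ N = 0) (s : Finset κ) :
    (∑ a ∈ s, P a) ^ (s.card * N + 1) = 0 := by
  induction s using Finset.induction_on with
  | empty => simp
  | insert a s ha ih =>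
    rw [Finset.sum_insert ha, Finset.card_insert_of_notMem ha]
    refine Commute.add_pow_eq_zero_of_add_le_succ_of_pow_eq_zero
      (Commute.sum_right _ _ _ fun b _ => hc a b) (hP a) ih ?_
    nlinarith

theorem commute_span {z : A} {P : Submodule R A} (h : ∀ b ∈ P, z * b = b * z) :
    Commute (Submodule.span R {z}) P := by
  refine le_antisymm (Submodule.mul_le.2 ?_) (Submodule.mul_le.2 ?_)
  · intro m hm b hb
    obtain ⟨r, rfl⟩ := Submodule.mem_span_singleton.1 hm
    rw [smul_mul_assoc, h b hb, ← mul_smul_comm]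
    exact Submodule.mul_mem_mul hb hm
  · intro b hb m hm
    obtain ⟨r, rfl⟩ := Submodule.mem_span_singleton.1 hm
    rw [mul_smul_comm, ← h b hb, ← smul_mul_assoc]
    exact Submodule.mul_mem_mul hm hb

theorem NilM.tower {ι : Type} {X : ι → A} {M T : ℕ} {J : Submodule R A} (h : NilM X M J)
    (hJ : J ^ T = ⊥) : NilM X (M * T) (⊥ : Submodule R A) := by
  have key : ∀ k, NilM X (M * k) (J ^ k) := by
    intro k
    induction k with
    | zero =>
      intro l hl
      rw [List.length_eq_zero_iff.1 (show l.length = 0 by simpa using hl)]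
      rw [pow_zero]
      exact Submodule.one_le.1 le_rfl
    | succ k ih =>
      intro l hl
      rw [← List.take_append_drop (M * k) l, List.map_append, List.prod_append, pow_succ]
      refine Submodule.mul_mem_mul (ih _ ?_) (h _ ?_)
      · rw [List.length_take, hl]; apply min_eq_left; nlinarith
      · rw [List.length_drop, hl, mul_add]; omega
  exact hJ ▸ key T

theorem NilM.mono {ι : Type} {X : ι → A} {M M' : ℕ} (h : NilM X M (⊥ : Submodule R A))
    (hM : M ≤ M') : NilM X M' (⊥ : Submodule R A) := by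
  intro l hl
  have := h (l.take M) (by rw [List.length_take, hl]; exact min_eq_left hM)
  rw [Submodule.mem_bot] at this ⊢
  rw [← List.take_append_drop M l, List.map_append, List.prod_append, this, zero_mul]

end Tower

/-- the nilpotent case -/
def LNP (c N r M : ℕ) : Prop :=
  ∀ (R : Type) [CommRing R], SmallU R N → ∀ (A : Type) [Ring A] [Algebra R A] (ι : Type)
    [Fintype ι], Fintype.card ι ≤ r → ∀ X : ι → A, (∀ i, X i ^ N = 0) →
    (∀ l : List ι, l.length = c → ∀ i, cm X l (X i) = 0) → NilM X M (⊥ : Submodule R A)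

theorem LNP.rel {c N r M : ℕ} (h : LNP c N r M) {R : Type} [CommRing R] (hU : SmallU R N)
    {A : Type} [Ring A] [Algebra R A] {ι : Type} [Fintype ι] (hr : Fintype.card ι ≤ r)
    {B : Subalgebra R A} {J : Submodule R A} (hJ : Idl B J) {X : ι → A} (hX : ∀ i, X i ∈ B)
    (hN : ∀ i, X i ^ N ∈ J) (hc : ∀ l : List ι, l.length = c → ∀ i, cm X l (X i) ∈ J) :
    NilM X M J := by
  refine hJ.prod_mem hX (h R hU _ ι hr _ ?_ ?_)
  · intro i
    rw [← map_pow, hJ.mk'_eq_zero]
    exact hN i
  · intro l hl i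
    rw [← map_cm hJ.mk' (fun i => (⟨X i, hX i⟩ : B)), hJ.mk'_eq_zero]
    have h2 : ((cm (fun i => (⟨X i, hX i⟩ : B)) l ⟨X i, hX i⟩ : B) : A) = cm X l (X i) :=
      map_cm B.val (fun i => (⟨X i, hX i⟩ : B)) l ⟨X i, hX i⟩
    rw [h2]
    exact hc l hl i

theorem cm_mem {R A ι : Type} [CommRing R] [Ring A] [Algebra R A] {B : Subalgebra R A}
    {X : ι → A} (hX : ∀ i, X i ∈ B) (l : List ι) {y : A} (hy : y ∈ B) : cm X l y ∈ B := by
  induction l with
  | nil => exact hy
  | cons j l ih => exact B.sub_mem (B.mul_mem (hX j) ih) (B.mul_mem ih (hX j))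

theorem exists_LNP (N r c : ℕ) : ∃ M, LNP c N r M := by
  induction c with
  | zero =>
    refine ⟨1, fun R _ _ A _ _ ι _ _ X _ hc l hl => ?_⟩
    obtain ⟨i, rfl⟩ := List.length_eq_one_iff.1 hl
    simpa [cm_nil] using hc [] rfl i
  | succ c ih =>
    obtain ⟨M, hM⟩ := ih
    refine ⟨M * (r ^ (c + 1) * N + 1), fun R _ hU A _ _ ι _ hr X hN hc => ?_⟩
    classical
    let B : Subalgebra R A := Algebra.adjoin R (Set.range X)
    have hX : ∀ i, X i ∈ B := fun i => Algebra.subset_adjoin ⟨i, rfl⟩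
    let κ := List.Vector ι c × ι
    let z : κ → A := fun a => cm X a.1.1 (X a.2)
    have hzB : ∀ a, z a ∈ B := fun a => cm_mem hX _ (hX _)
    have hzc : ∀ a, ∀ b ∈ B, z a * b = b * z a := by
      intro a b hb
      have h1 : ∀ x ∈ Set.range X, Commute (z a) x := by
        rintro _ ⟨j, rfl⟩
        have := hc (j :: a.1.1) (by rw [List.length_cons, a.1.2]) a.2
        rw [cm_cons, sub_eq_zero] at this
        exact this.symm
      exact Algebra.commute_of_mem_adjoin_of_forall_mem_commute hb h1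
    have hzN : ∀ a, z a ^ N = 0 := by
      rintro ⟨⟨l, hl⟩, i⟩
      cases l with
      | nil => exact hN i
      | cons j l =>
        exact heis (R := R) hU (x := X j) (y := cm X l (X i)) rfl (hzc _ _ (hX j)).symm
          (hzc _ _ (cm_mem hX l (hX i))).symm (hN j)
    let Bs : Submodule R A := Subalgebra.toSubmodule B
    have hBB : Bs * Bs = Bs := by
      refine le_antisymm (Submodule.mul_le.2 fun a ha b hb => B.mul_mem ha hb) fun b hb => ?_
      have := Submodule.mul_mem_mul hb (show (1 : A) ∈ Bs from B.one_mem)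
      rwa [mul_one] at this
    let P : κ → Submodule R A := fun a => Submodule.span R {z a} * Bs
    have hcB : ∀ a, Commute (Submodule.span R {z a}) Bs := fun a => commute_span (hzc a)
    have hcz : ∀ a b, Commute (Submodule.span R {z a}) (Submodule.span R {z b}) := by
      intro a b
      refine commute_span fun x hx => hzc a x ?_
      obtain ⟨t, rfl⟩ := Submodule.mem_span_singleton.1 hx
      exact B.smul_mem (hzB b) t
    have hPc : ∀ a b, Commute (P a) (P b) := fun a b =>
      ((hcz a b).mul_right (hcB a)).mul_left (((hcB b).symm).mul_right (Commute.refl _))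
    have hPN : ∀ a, P a ^ N = 0 := by
      intro a
      rw [(hcB a).mul_pow, Submodule.span_pow, Set.singleton_pow, hzN, Submodule.span_zero_singleton,
        Submodule.bot_mul, Submodule.zero_eq_bot]
    let J : Submodule R A := ∑ a, P a
    have hJT : J ^ (Fintype.card κ * N + 1) = ⊥ := sum_pow_eq_zero P N hPc hPN Finset.univ
    have hBJ : Bs * J = J := by
      rw [Finset.mul_sum]
      refine Finset.sum_congr rfl fun a _ => ?_
      rw [← mul_assoc, ← (hcB a).eq, mul_assoc, hBB]
    have hJB : J * Bs = J := by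
      rw [Finset.sum_mul]
      refine Finset.sum_congr rfl fun a _ => ?_
      rw [mul_assoc, hBB]
    have hJ : Idl B J := ⟨fun b hb x hx => hBJ ▸ Submodule.mul_mem_mul hb hx,
      fun b hb x hx => hJB ▸ Submodule.mul_mem_mul hx hb⟩
    have hzJ : ∀ a, z a ∈ J := by
      intro a
      have h1 : P a ≤ J := Finset.single_le_sum (f := P) (fun _ _ => bot_le) (Finset.mem_univ a)
      apply h1
      have := Submodule.mul_mem_mul (Submodule.mem_span_singleton_self (R := R) (z a))
        (show (1 : A) ∈ Bs from B.one_mem)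
      rwa [mul_one] at this
    have h1 : NilM X M J := hM.rel hU hr hJ hX (fun i => by rw [hN i]; exact J.zero_mem)
      fun l hl i => hzJ (⟨l, hl⟩, i)
    refine (h1.tower hJT).mono (Nat.mul_le_mul_left _ (Nat.succ_le_succ (Nat.mul_le_mul_right _ ?_)))
    rw [Fintype.card_prod, card_vector, pow_succ]
    exact Nat.mul_le_mul (Nat.pow_le_pow_left hr c) hr

/-- a soluble chain of Lie ideals, modulo `J` -/
structure Chain {R A : Type} [CommRing R] [Ring A] [Algebra R A] (h : ℕ → Submodule R A)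
    (J : Submodule R A) : Prop where
  le0 : ∀ i, h i ≤ h 0
  br : ∀ i, ∀ a ∈ h i, ∀ b ∈ h i, a * b - b * a ∈ h (i + 1) ⊔ J
  idl : ∀ i, ∀ a ∈ h 0, ∀ b ∈ h i, a * b - b * a ∈ h i ⊔ J

/-- the soluble case -/
def LGP (s N r M K : ℕ) : Prop :=
  ∀ (R : Type) [CommRing R], SmallU R K → ∀ (A : Type) [Ring A] [Algebra R A] (ι : Type)
    [Fintype ι], Fintype.card ι ≤ r → ∀ (X : ι → A) (h : ℕ → Submodule R A), Chain h ⊥ →
    h s ≤ ⊥ → (∀ i, X i ∈ h 0) → (∀ i, X i ^ N = 0) → NilM X M (⊥ : Submodule R A)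

theorem LGP.rel {s N r M K : ℕ} (hP : LGP s N r M K) {R : Type} [CommRing R] (hU : SmallU R K)
    {A : Type} [Ring A] [Algebra R A] {ι : Type} [Fintype ι] (hr : Fintype.card ι ≤ r)
    {B : Subalgebra R A} {J : Submodule R A} (hJ : Idl B J) {X : ι → A} {h : ℕ → Submodule R A}
    (hc : Chain h J) (hB : ∀ x ∈ h 0, x ∈ B) (hs : h s ≤ J) (hX : ∀ i, X i ∈ h 0)
    (hN : ∀ i, X i ^ N ∈ J) : NilM X M J := by
  let h' : ℕ → Submodule R (B ⧸ hJ.ideal) := fun i =>
    ((h i).comap B.val.toLinearMap).map hJ.mk'.toLinearMap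
  have key : ∀ i (a b : B), (a : A) * b - b * a ∈ h i ⊔ J →
      hJ.mk' a * hJ.mk' b - hJ.mk' b * hJ.mk' a ∈ h' i ⊔ ⊥ := by
    intro i a b hab
    obtain ⟨u, hu, j, hj, huj⟩ := Submodule.mem_sup.1 hab
    apply Submodule.mem_sup_left
    refine ⟨⟨u, hB u (hc.le0 i hu)⟩, hu, ?_⟩
    rw [← map_mul, ← map_mul, ← map_sub, AlgHom.toLinearMap_apply, eq_comm, ← sub_eq_zero,
      ← map_sub, hJ.mk'_eq_zero]
    have : ((a * b - b * a - ⟨u, hB u (hc.le0 i hu)⟩ : B) : A) = j := by
      simp [← huj]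
    rwa [this]
  refine hJ.prod_mem (fun i => hB _ (hX i)) (hP R hU _ ι hr _ h' ⟨?_, ?_, ?_⟩ ?_ ?_ ?_)
  · exact fun i => Submodule.map_mono (Submodule.comap_mono (hc.le0 i))
  · rintro i _ ⟨a, ha, rfl⟩ _ ⟨b, hb, rfl⟩
    exact key _ a b (hc.br i _ ha _ hb)
  · rintro i _ ⟨a, ha, rfl⟩ _ ⟨b, hb, rfl⟩
    exact key _ a b (hc.idl i _ ha _ hb)
  · rintro _ ⟨a, ha, rfl⟩
    exact (hJ.mk'_eq_zero a).2 (hs ha)
  · exact fun i => ⟨⟨X i, hB _ (hX i)⟩, hX i, rfl⟩
  · intro i
    rw [← map_pow, hJ.mk'_eq_zero]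
    exact hN i

section Ad

variable {R A : Type} [CommRing R] [Ring A] [Algebra R A]

/-- the adjoint action -/
def ad (R A : Type) [CommRing R] [Ring A] [Algebra R A] : A →ₗ[R] Module.End R A :=
  LinearMap.mul R A - (LinearMap.mul R A).flip

theorem ad_apply (a x : A) : ad R A a x = a * x - x * a := rfl

theorem ad_br (a b : A) :
    ad R A a * ad R A b - ad R A b * ad R A a = ad R A (a * b - b * a) := by
  ext x
  simp only [LinearMap.sub_apply, Module.End.mul_apply, ad_apply]
  noncomm_ring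

theorem ad_pow {a : A} {N : ℕ} (ha : a ^ N = 0) : ad R A a ^ (2 * N) = 0 := by
  have h1 : ad R A a = LinearMap.mulLeft R a + LinearMap.mulRight R (-a) := by
    ext x
    simp [ad_apply, sub_eq_add_neg]
  rw [h1]
  refine Commute.add_pow_eq_zero_of_add_le_succ_of_pow_eq_zero (R := Module.End R A)
    (m := N) (n := N) (k := 2 * N) (LinearMap.commute_mulLeft_right a (-a)) ?_ ?_ (by omega)
  · rw [LinearMap.pow_mulLeft, ha, LinearMap.mulLeft_zero_eq_zero]
  · rw [LinearMap.pow_mulRight, neg_pow, ha, mul_zero, LinearMap.mulRight_zero_eq_zero]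

theorem cm_eq_ad {ι : Type} (X : ι → A) (l : List ι) (y : A) :
    cm X l y = (l.map fun i => ad R A (X i)).prod y := by
  induction l with
  | nil => rfl
  | cons j l ih => rw [cm_cons, ih, List.map_cons, List.prod_cons, Module.End.mul_apply, ad_apply]

end Ad

section Sec

variable {R W : Type} [CommRing R] [AddCommGroup W] [Module R W]

/-- endomorphisms preserving two submodules -/
def secB (V₁ V₂ : Submodule R W) : Subalgebra R (Module.End R W) where
  carrier := {T | (∀ x ∈ V₁, T x ∈ V₁) ∧ ∀ x ∈ V₂, T x ∈ V₂}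
  mul_mem' := fun ha hb => ⟨fun x hx => ha.1 _ (hb.1 x hx), fun x hx => ha.2 _ (hb.2 x hx)⟩
  add_mem' := fun ha hb => ⟨fun x hx => V₁.add_mem (ha.1 x hx) (hb.1 x hx),
    fun x hx => V₂.add_mem (ha.2 x hx) (hb.2 x hx)⟩
  algebraMap_mem' := fun r => ⟨fun _ hx => V₁.smul_mem r hx, fun _ hx => V₂.smul_mem r hx⟩

/-- endomorphisms mapping `V₁` into `V₂` -/
def secJ (V₁ V₂ : Submodule R W) : Submodule R (Module.End R W) where
  carrier := {T | ∀ x ∈ V₁, T x ∈ V₂}
  add_mem' := fun ha hb x hx => V₂.add_mem (ha x hx) (hb x hx)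
  zero_mem' := fun _ _ => V₂.zero_mem
  smul_mem' := fun r _ ha x hx => V₂.smul_mem r (ha x hx)

theorem idl_sec (V₁ V₂ : Submodule R W) : Idl (secB V₁ V₂) (secJ V₁ V₂) :=
  ⟨fun _ hb _ hx y hy => hb.2 _ (hx y hy), fun _ hb _ hx y hy => hx _ (hb.1 y hy)⟩

end Sec

theorem exists_LGP (r s : ℕ) : ∀ N, ∃ M K, LGP s N r M K := by
  induction s with
  | zero =>
    refine fun N => ⟨1, 0, fun R _ _ A _ _ ι _ _ X h _ hs hX _ l hl => ?_⟩
    obtain ⟨i, rfl⟩ := List.length_eq_one_iff.1 hl
    simpa using hs (hX i)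
  | succ s ih =>
    intro N
    obtain ⟨M', K, hM'⟩ := ih (2 * N)
    obtain ⟨M, hM⟩ := exists_LNP N r (M' + M')
    refine ⟨M, max K N, fun R _ hU A _ _ ι _ hr X h hc hs hX hN => ?_⟩
    refine hM R (hU.mono (le_max_right _ _)) A ι hr X hN ?_
    have hbr := hc.br
    have hidl := hc.idl
    simp only [sup_bot_eq] at hbr hidl
    have main : ∀ V₁ V₂ : Submodule R A, (∀ a ∈ h 0, ad R A a ∈ secB V₁ V₂) →
        (∀ a ∈ h s, ad R A a ∈ secJ V₁ V₂) → NilM (fun i => ad R A (X i)) M' (secJ V₁ V₂) := by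
      intro V₁ V₂ h1 h2
      refine hM'.rel (hU.mono (le_max_left _ _)) hr (idl_sec V₁ V₂)
        (h := fun i => (h i).map (ad R A)) ⟨?_, ?_, ?_⟩ ?_ ?_ ?_ ?_
      · exact fun i => Submodule.map_mono (hc.le0 i)
      · rintro i _ ⟨a, ha, rfl⟩ _ ⟨b, hb, rfl⟩
        rw [ad_br]
        exact Submodule.mem_sup_left ⟨_, hbr i a ha b hb, rfl⟩
      · rintro i _ ⟨a, ha, rfl⟩ _ ⟨b, hb, rfl⟩
        rw [ad_br]
        exact Submodule.mem_sup_left ⟨_, hidl i a ha b hb, rfl⟩
      · rintro _ ⟨a, ha, rfl⟩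
        exact h1 a ha
      · rintro _ ⟨a, ha, rfl⟩
        exact h2 a ha
      · exact fun i => ⟨X i, hX i, rfl⟩
      · intro i
        rw [ad_pow (hN i)]
        exact Submodule.zero_mem _
    have m1 := main (h 0) (h s) (fun a ha => ⟨fun x hx => hidl 0 a ha x hx,
      fun x hx => hidl s a ha x hx⟩) (fun a ha x hx => by
        rw [ad_apply, ← neg_sub]
        exact Submodule.neg_mem _ (hidl s x hx a ha))
    have m2 := main (h s) ⊥ (fun a ha => ⟨fun x hx => hidl s a ha x hx,
      fun x hx => by rw [(Submodule.mem_bot R).1 hx, map_zero]; exact Submodule.zero_mem _⟩)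
      (fun a ha x hx => hs (hbr s a ha x hx))
    intro l hl i
    rw [cm_eq_ad (R := R), ← List.take_append_drop M' l, List.map_append, List.prod_append,
      Module.End.mul_apply]
    refine (Submodule.mem_bot R).1 (m2 _ ?_ _ (m1 _ ?_ _ (hX i)))
    · rw [List.length_take, hl]; omega
    · rw [List.length_drop, hl]; omega

end Pool.Agent.Lib.MP_95ba65_al.Large
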