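import Mathlib
import Pool.Agent.Lib.MP_95ba65_al.LargeNil

/-!
Nilpotency of augmentation ideals through the associated graded ring.
-/

set_option autoImplicit false

namespace Pool.Agent.Lib.MP_95ba65_al.Large

open Polynomial
open scoped commutatorElement

section Cf

variable {R A : Type} [CommRing R] [Ring A] [Algebra R A]

/-- polynomials with coefficients in prescribed submodules -/
def cf (S : ℕ → Submodule R A) : Submodule R A[X] where
  carrier := {p | ∀ i, p.coeff i ∈ S i}
  add_mem' := fun ha hb i => by rw [coeff_add]; exact (S i).add_mem (ha i) (hb i)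
  zero_mem' := fun i => (S i).zero_mem
  smul_mem' := fun r _ ha i => by rw [coeff_smul]; exact (S i).smul_mem r (ha i)

theorem mem_cf {S : ℕ → Submodule R A} {p : A[X]} : p ∈ cf S ↔ ∀ i, p.coeff i ∈ S i := Iff.rfl

theorem cf_mul {S T U : ℕ → Submodule R A} (h : ∀ a b, S a * T b ≤ U (a + b)) {p q : A[X]}
    (hp : p ∈ cf S) (hq : q ∈ cf T) : p * q ∈ cf U := by
  intro i
  rw [coeff_mul]
  refine Submodule.sum_mem _ fun c hc => ?_
  rw [← Finset.HasAntidiagonal.mem_antidiagonal.1 hc]
  exact h _ _ (Submodule.mul_mem_mul (hp _) (hq _))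

theorem monomial_mem_cf {S : ℕ → Submodule R A} {m : ℕ} {x : A} :
    monomial m x ∈ cf S ↔ x ∈ S m := by
  constructor
  · intro h
    simpa using h m
  · intro h i
    rw [coeff_monomial]
    split_ifs with hi
    · exact hi ▸ h
    · exact Submodule.zero_mem _

theorem br_span {s t : Set A} {U : Submodule R A} (h : ∀ a ∈ s, ∀ b ∈ t, a * b - b * a ∈ U) :
    ∀ a ∈ Submodule.span R s, ∀ b ∈ Submodule.span R t, a * b - b * a ∈ U := by
  intro a ha b hb
  have h1 : ∀ a ∈ s, Submodule.span R t ≤ U.comap (ad R A a) :=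
    fun a ha => Submodule.span_le.2 fun b hb => h a ha b hb
  have h2 : Submodule.span R s ≤ U.comap ((ad R A).flip b) :=
    Submodule.span_le.2 fun a ha => h1 a ha hb
  exact h2 ha

end Cf

section Aug

variable {R A G : Type} [CommRing R] [Ring A] [Algebra R A] [Group G]

/-- the augmentation ideal of a subgroup, in a representation -/
def aug (R : Type) [CommRing R] [Algebra R A] (ρ : G →* A) (H : Subgroup G) : Submodule R A :=
  Submodule.span R {x | ∃ h ∈ H, x = ρ h - 1}

theorem mem_aug (ρ : G →* A) {H : Subgroup G} {h : G} (hh : h ∈ H) : ρ h - 1 ∈ aug R ρ H :=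
  Submodule.subset_span ⟨h, hh, rfl⟩

theorem aug_mul_le (ρ : G →* A) (H : Subgroup G) : aug R ρ H * aug R ρ H ≤ aug R ρ H := by
  unfold aug
  rw [Submodule.span_mul_span, Submodule.span_le]
  rintro _ ⟨_, ⟨a, ha, rfl⟩, _, ⟨b, hb, rfl⟩, rfl⟩
  have : (ρ a - 1) * (ρ b - 1) = (ρ (a * b) - 1) - (ρ a - 1) - (ρ b - 1) := by
    rw [map_mul]; noncomm_ring
  change (ρ a - 1) * (ρ b - 1) ∈ aug R ρ H
  rw [this]
  exact Submodule.sub_mem _ (Submodule.sub_mem _ (mem_aug ρ (H.mul_mem ha hb)) (mem_aug ρ ha))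
    (mem_aug ρ hb)

theorem aug_closure_le (ρ : G →* A) {T : Set G} {P : Submodule R A}
    (hT : ∀ t ∈ T, ρ t - 1 ∈
      P ⊔ aug R ρ (Subgroup.closure T) * aug R ρ (Subgroup.closure T)) :
    aug R ρ (Subgroup.closure T) ≤
      P ⊔ aug R ρ (Subgroup.closure T) * aug R ρ (Subgroup.closure T) := by
  refine Submodule.span_le.2 ?_
  rintro _ ⟨h, hh, rfl⟩
  induction hh using Subgroup.closure_induction with
  | mem x hx => exact hT x hx
  | one => simp
  | mul a b ha hb iha ihb =>
    have : ρ (a * b) - 1 = (ρ a - 1) + (ρ b - 1) + (ρ a - 1) * (ρ b - 1) := by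
      rw [map_mul]; noncomm_ring
    rw [this]
    exact Submodule.add_mem _ (Submodule.add_mem _ iha ihb)
      (Submodule.mem_sup_right (Submodule.mul_mem_mul (mem_aug ρ ha) (mem_aug ρ hb)))
  | inv a ha iha =>
    have h1 : ρ a⁻¹ * ρ a = 1 := by rw [← map_mul, inv_mul_cancel, map_one]
    have : ρ a⁻¹ - 1 = -(ρ a - 1) - (ρ a⁻¹ - 1) * (ρ a - 1) := by
      rw [sub_mul, mul_sub, h1]; noncomm_ring
    rw [this]
    exact Submodule.sub_mem _ (Submodule.neg_mem _ iha)
      (Submodule.mem_sup_right (Submodule.mul_mem_mul (mem_aug ρ (Subgroup.inv_mem _ ha))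
        (mem_aug ρ ha)))

/-- the filtration by powers -/
def fil (I : Submodule R A) (m : ℕ) : Submodule R A := (1 + I) * I ^ m

theorem pow_le_fil (I : Submodule R A) (m : ℕ) : I ^ m ≤ fil I m := by
  unfold fil
  rw [add_mul, one_mul]
  exact le_sup_left

theorem fil_mul {I : Submodule R A} (hI : I * I ≤ I) (m k : ℕ) :
    fil I m * fil I k ≤ fil I (m + k) := by
  have h1 : Commute (I ^ m) (1 + I) :=
    ((Commute.one_right _).add_right (Commute.refl I)).pow_left m
  have h2 : (1 + I) * (1 + I) ≤ 1 + I := by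
    rw [add_mul, one_mul, mul_add, mul_one]
    exact sup_le le_rfl (sup_le le_sup_right (hI.trans le_sup_right))
  unfold fil
  rw [mul_assoc, ← mul_assoc (I ^ m), h1.eq, mul_assoc, ← mul_assoc, ← pow_add]
  exact mul_le_mul_left h2 _

theorem fil_succ {I : Submodule R A} (hI : I * I ≤ I) (m : ℕ) : fil I (m + 1) = I ^ (m + 1) := by
  refine le_antisymm ?_ (pow_le_fil I _)
  unfold fil
  rw [pow_succ', ← mul_assoc]
  refine mul_le_mul_left ?_ _
  rw [add_mul, one_mul]
  exact sup_le le_rfl hI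

theorem fil_one {I : Submodule R A} (hI : I * I ≤ I) : fil I 1 = I := by
  rw [fil_succ hI, zero_add, pow_one]

theorem fil_anti {I : Submodule R A} (hI : I * I ≤ I) (m : ℕ) : fil I (m + 1) ≤ fil I m := by
  rw [fil_succ hI, pow_succ']
  exact mul_le_mul_left le_sup_right _

theorem mem_fil_zero (ρ : G →* A) {H : Subgroup G} {h : G} (hh : h ∈ H) :
    ρ h ∈ fil (aug R ρ H) 0 := by
  unfold fil
  rw [pow_zero, mul_one, show ρ h = 1 + (ρ h - 1) by simp]
  exact Submodule.add_mem_sup (Submodule.one_le.1 le_rfl) (mem_aug ρ hh)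

/-- the Rees ring -/
def rees {I : Submodule R A} (hI : I * I ≤ I) : Subalgebra R A[X] where
  carrier := cf (fil I)
  mul_mem' := fun ha hb => cf_mul (fil_mul hI) ha hb
  add_mem' := fun ha hb => (cf (fil I)).add_mem ha hb
  algebraMap_mem' := fun r => by
    rw [Polynomial.algebraMap_apply, ← monomial_zero_left]
    refine monomial_mem_cf.2 (pow_le_fil I 0 ?_)
    rw [pow_zero]
    exact Submodule.algebraMap_mem r

theorem idl_rees {I : Submodule R A} (hI : I * I ≤ I) :
    Idl (rees hI) (cf fun i => fil I (i + 1)) :=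
  ⟨fun _ hb _ hx => cf_mul (fun a b => fil_mul hI a (b + 1)) hb hx,
    fun _ hb _ hx => cf_mul (fun a b => (fil_mul hI (a + 1) b).trans
      (by rw [add_right_comm])) hx hb⟩

theorem prod_monomial {ι : Type} (X : ι → A) (l : List ι) :
    (l.map fun i => monomial 1 (X i)).prod = monomial l.length (l.map X).prod := by
  induction l with
  | nil => simp
  | cons j l ih => simp [ih, monomial_mul_monomial, add_comm]

theorem pow_bot_of_nilM {ι : Type} {I : Submodule R A} (hI : I * I ≤ I) {X : ι → A}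
    (hX : ∀ i, X i ∈ I) (hgen : I ≤ Submodule.span R (Set.range X) ⊔ I * I) {M L : ℕ}
    (hM : NilM X M (fil I (M + 1))) (hL : I ^ L = ⊥) : I ^ M = ⊥ := by
  let P := Submodule.span R (Set.range X)
  have hP : P ≤ fil I 1 := by
    rw [fil_one hI]
    exact Submodule.span_le.2 (by rintro _ ⟨i, rfl⟩; exact hX i)
  let Q : ℕ → Submodule R A := fun m =>
    Submodule.span R {x | ∃ l : List ι, l.length = m ∧ x = (l.map X).prod}
  have h1 : ∀ m, I ^ m ≤ Q m ⊔ fil I (m + 1) := by
    intro m
    induction m with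
    | zero =>
      rw [pow_zero, Submodule.one_le]
      exact Submodule.mem_sup_left (Submodule.subset_span ⟨[], rfl, rfl⟩)
    | succ m ih =>
      rw [pow_succ']
      refine (mul_le_mul_left hgen _).trans ?_
      rw [Submodule.sup_mul]
      refine sup_le ((mul_le_mul_right ih _).trans ?_) (le_sup_of_le_right ?_)
      · rw [Submodule.mul_sup]
        refine sup_le_sup ?_ ((mul_le_mul_left hP _).trans
          ((fil_mul hI _ _).trans (by rw [add_comm])))
        rw [Submodule.span_mul_span, Submodule.span_le]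
        rintro _ ⟨_, ⟨i, rfl⟩, _, ⟨l, hl, rfl⟩, rfl⟩
        exact Submodule.subset_span ⟨i :: l, by rw [List.length_cons, hl], rfl⟩
      · rw [mul_assoc, ← pow_succ', ← pow_succ']
        exact pow_le_fil I _
  have h2 : fil I M ≤ fil I (M + 1) := by
    have h3 : I ^ M ≤ fil I (M + 1) := by
      refine (h1 M).trans (sup_le (Submodule.span_le.2 ?_) le_rfl)
      rintro _ ⟨l, hl, rfl⟩
      exact hM l hl
    have h4 := fil_mul hI 0 (M + 1)
    rw [zero_add] at h4
    refine le_trans ?_ h4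
    unfold fil
    rw [pow_zero, mul_one]
    exact mul_le_mul_right h3 _
  have h5 : ∀ k, fil I M ≤ fil I (M + k) := by
    intro k
    induction k with
    | zero => exact le_rfl
    | succ k ih =>
      refine ih.trans ?_
      have e : ∀ a, fil I (a + k) = fil I a * I ^ k := fun a => by
        unfold fil; rw [pow_add, mul_assoc]
      rw [e, ← add_assoc, add_right_comm, e]
      exact mul_le_mul_left h2 _
  rw [eq_bot_iff]
  refine (pow_le_fil I M).trans ((h5 L).trans ?_)
  unfold fil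
  rw [pow_add, hL, Submodule.mul_bot, Submodule.mul_bot]

theorem LGP.aug_pow {s N r M K : ℕ} (hP : LGP s N r M K) (hU : SmallU R K) (ρ : G →* A)
    (hs : derivedSeries G s = ⊥) (H : Subgroup G) {ι : Type} [Fintype ι]
    (hr : Fintype.card ι ≤ r) {X : ι → A} (hX : ∀ i, X i ∈ aug R ρ H)
    (hN : ∀ i, X i ^ N ∈ aug R ρ H ^ (N + 1))
    (hgen : aug R ρ H ≤ Submodule.span R (Set.range X) ⊔ aug R ρ H * aug R ρ H) {L : ℕ}
    (hL : aug R ρ H ^ L = ⊥) : aug R ρ H ^ M = ⊥ := by
  set I := aug R ρ H with hIdef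
  have hI : I * I ≤ I := aug_mul_le ρ H
  refine pow_bot_of_nilM hI hX hgen ?_ hL
  let S : ℕ → Set A[X] := fun i =>
    {p | ∃ m, ∃ g ∈ H, g ∈ derivedSeries G i ∧ ρ g - 1 ∈ fil I m ∧ p = monomial m (ρ g - 1)}
  have key : ∀ i j k, (∀ a ∈ derivedSeries G i, ∀ b ∈ derivedSeries G j, ⁅a, b⁆ ∈ derivedSeries G k) →
      ∀ a ∈ Submodule.span R (S i), ∀ b ∈ Submodule.span R (S j),
        a * b - b * a ∈ Submodule.span R (S k) ⊔ cf fun i => fil I (i + 1) := by
    intro i j k hijk
    apply br_span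
    rintro _ ⟨m, a, haH, ha, ham, rfl⟩ _ ⟨m', b, hbH, hb, hbm, rfl⟩
    have hc : ⁅a, b⁆ ∈ H := by
      rw [commutatorElement_def]
      exact H.mul_mem (H.mul_mem (H.mul_mem haH hbH) (H.inv_mem haH)) (H.inv_mem hbH)
    have e1 : (ρ a - 1) * (ρ b - 1) - (ρ b - 1) * (ρ a - 1) =
        (ρ ⁅a, b⁆ - 1) + (ρ ⁅a, b⁆ - 1) * (ρ (b * a) - 1) := by
      have : ρ ⁅a, b⁆ * ρ (b * a) = ρ a * ρ b := by
        rw [← map_mul, ← map_mul, commutatorElement_def]; congr 1; group
      rw [mul_sub (ρ ⁅a, b⁆ - 1), sub_mul (ρ ⁅a, b⁆), this, map_mul]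
      noncomm_ring
    have e2 : ρ ⁅a, b⁆ - 1 =
        ((ρ a - 1) * (ρ b - 1) - (ρ b - 1) * (ρ a - 1)) * ρ (b * a)⁻¹ := by
      have h1 : ρ (b * a) * ρ (b * a)⁻¹ = 1 := by rw [← map_mul, mul_inv_cancel, map_one]
      rw [e1, add_mul, mul_assoc, sub_mul (ρ (b * a)), h1]
      noncomm_ring
    have hm : ρ ⁅a, b⁆ - 1 ∈ fil I (m + m') := by
      rw [e2]
      refine fil_mul hI (m + m') 0 (Submodule.mul_mem_mul (Submodule.sub_mem _ ?_ ?_)
        (mem_fil_zero ρ (H.inv_mem (H.mul_mem hbH haH))))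
      · exact fil_mul hI _ _ (Submodule.mul_mem_mul ham hbm)
      · rw [add_comm]
        exact fil_mul hI _ _ (Submodule.mul_mem_mul hbm ham)
    rw [monomial_mul_monomial, monomial_mul_monomial, add_comm m' m, ← map_sub, e1, map_add]
    refine Submodule.add_mem_sup (Submodule.subset_span ⟨_, _, hc, hijk a ha b hb, hm, rfl⟩) ?_
    refine monomial_mem_cf.2 (fil_mul hI _ 1 (Submodule.mul_mem_mul hm ?_))
    rw [fil_one hI]
    exact mem_aug ρ (H.mul_mem hbH haH)
  have main := hP.rel hU hr (idl_rees hI) (X := fun i => monomial 1 (X i))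
    (h := fun i => Submodule.span R (S i)) ⟨?_, ?_, ?_⟩ ?_ ?_ ?_ ?_
  · intro l hl
    have := main l hl
    rwa [prod_monomial, monomial_mem_cf, hl] at this
  · intro i
    apply Submodule.span_mono
    rintro _ ⟨m, a, haH, -, ham, rfl⟩
    exact ⟨m, a, haH, Subgroup.mem_top _, ham, rfl⟩
  · exact fun i => key i i (i + 1) fun a ha b hb => Subgroup.commutator_mem_commutator ha hb
  · refine fun i => key 0 i i fun a _ b hb => ?_
    rw [commutatorElement_def]
    exact Subgroup.mul_mem _ ((derivedSeries_normal G i).conj_mem b hb a) (Subgroup.inv_mem _ hb)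
  · have : Submodule.span R (S 0) ≤ cf (fil I) := by
      refine Submodule.span_le.2 ?_
      rintro _ ⟨m, a, -, -, ham, rfl⟩
      exact monomial_mem_cf.2 ham
    exact fun x hx => this hx
  · refine Submodule.span_le.2 ?_
    rintro _ ⟨m, a, -, ha, -, rfl⟩
    rw [hs, Subgroup.mem_bot] at ha
    simp [ha]
  · intro i
    have : I ≤ (Submodule.span R (S 0)).comap ((monomial 1).restrictScalars R) := by
      refine Submodule.span_le.2 ?_
      rintro _ ⟨a, ha, rfl⟩
      exact Submodule.subset_span ⟨1, a, ha, Subgroup.mem_top _,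
        by rw [fil_one hI]; exact mem_aug ρ ha, rfl⟩
    exact this (hX i)
  · intro i
    rw [monomial_pow, one_mul, monomial_mem_cf]
    exact pow_le_fil I _ (hN i)

end Aug

end Pool.Agent.Lib.MP_95ba65_al.Large
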