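import Mathlib
import Pool.Agent.Lib.MP_95ba65_al.LargeGr

/-!
Interpolation, truncated logarithms of unipotent elements.
-/

set_option autoImplicit false

namespace Pool.Agent.Lib.MP_95ba65_al.Large

open Polynomial Finset

section Interp

variable {R A : Type} [CommRing R] [Ring A] [Algebra R A]

theorem interp {D : ℕ} (hU : SmallU R D) {W : Type} [AddCommGroup W] [Module R W]
    (S : Submodule R W) (c : Fin (D + 1) → W)
    (h : ∀ k : Fin (D + 1), ∑ j : Fin (D + 1), ((k : ℕ) : R) ^ (j : ℕ) • c j ∈ S)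
    (j : Fin (D + 1)) : c j ∈ S := by
  let V : Matrix (Fin (D + 1)) (Fin (D + 1)) R := Matrix.vandermonde fun i => ((i : ℕ) : R)
  have hdet : IsUnit V.det := by
    rw [Matrix.det_vandermonde]
    refine IsUnit.prod_iff.2 fun a _ => IsUnit.prod_iff.2 fun b hb => ?_
    have hab : (a : ℕ) < b := Fin.lt_def.1 (Finset.mem_Ioi.1 hb)
    rw [← Nat.cast_sub hab.le]
    exact hU _ (by omega) (by omega)
  have h1 : V⁻¹ * V = 1 := Matrix.nonsing_inv_mul V hdet
  have h2 : c j = ∑ k, V⁻¹ j k • ∑ i : Fin (D + 1), ((k : ℕ) : R) ^ (i : ℕ) • c i := by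
    simp only [Finset.smul_sum, smul_smul]
    rw [Finset.sum_comm]
    simp only [← Finset.sum_smul]
    have h3 : ∀ i : Fin (D + 1), ∑ k, V⁻¹ j k * ((k : ℕ) : R) ^ (i : ℕ) = if j = i then 1 else 0 := by
      intro i
      rw [← Matrix.one_apply, ← h1, Matrix.mul_apply]
      rfl
    simp [h3]
  rw [h2]
  exact S.sum_mem fun k _ => S.smul_mem _ (h k)

/-- evaluation at a natural number -/
noncomputable def ev (R A : Type) [CommRing R] [Ring A] [Algebra R A] (k : ℕ) : A[X] →ₐ[R] A :=
  eval₂AlgHom (AlgHom.id R A) (k : A) fun a => (Nat.cast_commute k a).symm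

theorem ev_eq (k : ℕ) (p : A[X]) : ev R A k p = p.eval (k : A) := rfl

theorem ev_C (k : ℕ) (a : A) : ev R A k (C a) = a := by rw [ev_eq, eval_C]

theorem ev_monomial (k i : ℕ) (a : A) : ev R A k (monomial i a) = a * (k : A) ^ i := by
  rw [ev_eq, eval_monomial]

theorem ev_zero (p : A[X]) : ev R A 0 p = p.coeff 0 := by
  rw [ev_eq, Nat.cast_zero, coeff_zero_eq_eval_zero]

theorem interpP {D : ℕ} (hU : SmallU R D) {S : Submodule R A} {p : A[X]} (hp : p.natDegree ≤ D)
    (h : ∀ k, ev R A k p ∈ S) (j : ℕ) : p.coeff j ∈ S := by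
  by_cases hj : j ≤ D
  · refine interp hU S (fun i => p.coeff i) (fun k => ?_) ⟨j, by omega⟩
    have := h k
    rw [ev_eq, eval_eq_sum_range' (Nat.lt_succ_of_le hp), Finset.sum_range] at this
    convert this using 2 with i
    rw [Algebra.smul_def, map_pow, map_natCast]
    exact ((Nat.cast_commute _ _).pow_left _).eq
  · rw [coeff_eq_zero_of_natDegree_lt (by omega)]
    exact S.zero_mem

theorem eq_of_ev {D : ℕ} (hU : SmallU R D) {p q : A[X]} (hp : p.natDegree ≤ D)
    (hq : q.natDegree ≤ D) (h : ∀ k, ev R A k p = ev R A k q) : p = q := by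
  rw [← sub_eq_zero]
  ext j
  refine (Submodule.mem_bot R).1 (interpP hU ((natDegree_sub_le _ _).trans (max_le hp hq)) ?_ j)
  intro k
  rw [map_sub, h, sub_self]
  exact Submodule.zero_mem _

theorem ftc {D : ℕ} (hU : SmallU R D) {S : Submodule R A} {p : A[X]} (hp : p.natDegree ≤ D)
    (h : ∀ i, (derivative p).coeff i ∈ S) : ev R A 1 p - ev R A 0 p ∈ S := by
  rw [ev_zero, ev_eq, eval_eq_sum_range' (Nat.lt_succ_of_le hp), Finset.sum_range_succ']
  simp only [Nat.cast_one, one_pow, mul_one, add_sub_cancel_right]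
  refine S.sum_mem fun i hi => ?_
  have hi := Finset.mem_range.1 hi
  refine cancel_nsmul (hU (i + 1) (by omega) (by omega)) ?_
  have := h i
  rwa [coeff_derivative, ← Nat.cast_succ, ← nsmul_eq_mul'] at this

/-- combinations of scalar polynomials -/
noncomputable def bq (M : ℕ) (γ : ℕ → R[X]) (u : ℕ → A) : A[X] :=
  ∑ i ∈ range M, (γ i).map (algebraMap R A) * C (u i)

theorem coeff_bq (M : ℕ) (γ : ℕ → R[X]) (u : ℕ → A) (t : ℕ) :
    (bq M γ u).coeff t = ∑ i ∈ range M, (γ i).coeff t • u i := by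
  simp only [bq, finsetSum_coeff, coeff_mul_C, coeff_map, Algebra.smul_def]

theorem ev_bq (M : ℕ) (γ : ℕ → R[X]) (u : ℕ → A) (k : ℕ) :
    ev R A k (bq M γ u) = ∑ i ∈ range M, (γ i).eval (k : R) • u i := by
  simp only [bq, map_sum, map_mul, ev_C]
  refine Finset.sum_congr rfl fun i _ => ?_
  rw [ev_eq, ← map_natCast (algebraMap R A), eval_map, eval₂_at_apply, Algebra.smul_def]

theorem derivative_bq (M : ℕ) (γ : ℕ → R[X]) (u : ℕ → A) :
    derivative (bq M γ u) = bq M (fun i => derivative (γ i)) u := by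
  simp [bq, derivative_mul, derivative_map]

theorem natDegree_bq {M D : ℕ} {γ : ℕ → R[X]} (hγ : ∀ i < M, (γ i).natDegree ≤ D) (u : ℕ → A) :
    (bq M γ u).natDegree ≤ D := by
  refine natDegree_sum_le_of_forall_le _ _ fun i hi => ?_
  exact (natDegree_mul_C_le _ _).trans (natDegree_map_le.trans (hγ i (Finset.mem_range.1 hi)))

/-- binomial polynomials -/
noncomputable def bin (R : Type) [CommRing R] (i : ℕ) : R[X] :=
  C (Ring.inverse (i.factorial : R)) * descPochhammer R i

theorem natDegree_bin (i : ℕ) : (bin R i).natDegree ≤ i := by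
  refine (natDegree_C_mul_le _ _).trans ?_
  rw [← descPochhammer_map (Int.castRingHom R)]
  exact natDegree_map_le.trans (descPochhammer_natDegree ℤ i).le

theorem unit_factorial {M : ℕ} (hU : SmallU R M) (i : ℕ) (hi : i ≤ M) :
    IsUnit (i.factorial : R) := by
  induction i with
  | zero => simp
  | succ i ih =>
    rw [Nat.factorial_succ, Nat.cast_mul]
    exact (hU _ (by omega) hi).mul (ih (by omega))

theorem eval_bin {M : ℕ} (hU : SmallU R M) {i : ℕ} (hi : i ≤ M) (k : ℕ) :
    (bin R i).eval (k : R) = (k.choose i : R) := by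
  rw [bin, eval_mul, eval_C, descPochhammer_eval_eq_descFactorial,
    Nat.descFactorial_eq_factorial_mul_choose, Nat.cast_mul, ← mul_assoc,
    Ring.inverse_mul_cancel _ (unit_factorial hU i hi), one_mul]

theorem bin_zero : (bin R 0).coeff 1 = 0 := by simp [bin, coeff_one]

theorem bin_one : (bin R 1).coeff 1 = 1 := by simp [bin]

theorem sum_choose {M : ℕ} {g : A} (hg : (g - 1) ^ M = 0) (k : ℕ) :
    ∑ i ∈ range M, (k.choose i : R) • (g - 1) ^ i = g ^ k := by
  have h1 : g ^ k = ∑ i ∈ range (k + 1), (k.choose i : R) • (g - 1) ^ i := by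
    conv_lhs => rw [← sub_add_cancel g 1, (Commute.one_right _).add_pow]
    refine Finset.sum_congr rfl fun i _ => ?_
    rw [one_pow, mul_one, Nat.cast_smul_eq_nsmul, nsmul_eq_mul']
  rw [h1]
  have h2 : ∀ a, a ≤ M + (k + 1) → (∀ i, a ≤ i → (k.choose i : R) • (g - 1) ^ i = 0) →
      ∑ i ∈ range a, (k.choose i : R) • (g - 1) ^ i =
        ∑ i ∈ range (M + (k + 1)), (k.choose i : R) • (g - 1) ^ i := by
    intro a ha h0
    refine Finset.sum_subset (Finset.range_mono ha) fun i _ hi => h0 i ?_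
    simpa using hi
  rw [h2 M (by omega), h2 (k + 1) (by omega)]
  · intro i hi
    rw [Nat.choose_eq_zero_of_lt (by omega), Nat.cast_zero, zero_smul]
  · intro i hi
    rw [pow_eq_zero_of_le hi hg, smul_zero]

/-- the polynomial interpolating the powers -/
noncomputable def pw (R : Type) [CommRing R] [Algebra R A] (M : ℕ) (g : A) : A[X] :=
  bq M (bin R) fun i => (g - 1) ^ i

/-- the truncated logarithm -/
noncomputable def lg (R : Type) [CommRing R] [Algebra R A] (M : ℕ) (g : A) : A :=
  ∑ i ∈ range M, (bin R i).coeff 1 • (g - 1) ^ i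

theorem pw_one (M : ℕ) (g : A) : (pw R M g).coeff 1 = lg R M g := coeff_bq _ _ _ _

theorem natDegree_pw (M : ℕ) (g : A) : (pw R M g).natDegree ≤ M :=
  natDegree_bq (fun i hi => (natDegree_bin i).trans hi.le) _

theorem ev_pw {M : ℕ} (hU : SmallU R M) {g : A} (hg : (g - 1) ^ M = 0) (k : ℕ) :
    ev R A k (pw R M g) = g ^ k := by
  rw [pw, ev_bq, ← sum_choose (R := R) hg k]
  exact Finset.sum_congr rfl fun i hi => by rw [eval_bin hU (Finset.mem_range.1 hi).le]

theorem pw_zero {M : ℕ} (hU : SmallU R M) {g : A} (hg : (g - 1) ^ M = 0) :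
    (pw R M g).coeff 0 = 1 := by rw [← ev_zero (R := R), ev_pw hU hg, pow_zero]

theorem ev_derivative_pw {M : ℕ} (hU : SmallU R M) {g : A} (hg : (g - 1) ^ M = 0) (k : ℕ) :
    ev R A k (derivative (pw R M g)) = g ^ k * lg R M g := by
  have h1 : bq M (fun i => taylor (k : R) (bin R i)) (fun i => (g - 1) ^ i) =
      C (g ^ k) * pw R M g := by
    refine eq_of_ev hU (natDegree_bq (fun i hi => ?_) _)
      ((natDegree_C_mul_le _ _).trans (natDegree_pw M g)) fun j => ?_
    · rw [natDegree_taylor]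
      exact (natDegree_bin i).trans hi.le
    · rw [map_mul, ev_C, ev_pw hU hg, ← pow_add, ← ev_pw hU hg, pw, ev_bq, ev_bq]
      refine Finset.sum_congr rfl fun i _ => ?_
      rw [taylor_eval, Nat.cast_add, add_comm]
  have h2 := congrArg (fun p => p.coeff 1) h1
  simp only [coeff_C_mul, pw_one, coeff_bq, taylor_coeff_one] at h2
  rw [← h2, pw, derivative_bq, ev_bq]

theorem map_lg {B : Type} [Ring B] [Algebra R B] (f : A →ₐ[R] B) (M : ℕ) (g : A) :
    f (lg R M g) = lg R M (f g) := by
  simp [lg]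

theorem lg_one (M : ℕ) : lg R M (1 : A) = 0 := by
  refine Finset.sum_eq_zero fun i _ => ?_
  cases i with
  | zero => rw [bin_zero, zero_smul]
  | succ i => simp

theorem commute_lg (M : ℕ) {x g : A} (h : Commute x g) : Commute x (lg R M g) :=
  Commute.sum_right _ _ _ fun _ _ =>
    ((h.sub_right (Commute.one_right x)).pow_right _).smul_right _

theorem eq_one_of_lg {M : ℕ} (hU : SmallU R M) {g : A} (hg : (g - 1) ^ M = 0)
    (h : lg R M g = 0) : g = 1 := by
  have h1 := ftc hU (S := ⊥) (natDegree_pw (R := R) M g) (interpP hU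
    ((natDegree_derivative_le _).trans ((Nat.sub_le _ _).trans (natDegree_pw M g))) fun k => by
      rw [ev_derivative_pw hU hg, h, mul_zero]; exact Submodule.zero_mem _)
  rwa [ev_pw hU hg, ev_pw hU hg, pow_one, pow_zero, Submodule.mem_bot, sub_eq_zero] at h1

theorem lg_inv {M : ℕ} (hU : SmallU R (2 * M)) {g g' : A} (hg : (g - 1) ^ M = 0)
    (hg' : (g' - 1) ^ M = 0) (h : g' * g = 1) (h' : g * g' = 1) : lg R M g' = -lg R M g := by
  have hU' := hU.mono (show M ≤ 2 * M by omega)
  have h1 : pw R M g' * pw R M g = 1 := by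
    refine eq_of_ev hU (natDegree_mul_le.trans ?_) (by simp) fun k => ?_
    · have := natDegree_pw (R := R) M g
      have := natDegree_pw (R := R) M g'
      omega
    · rw [map_mul, ev_pw hU' hg, ev_pw hU' hg', map_one,
        ← Commute.mul_pow (h.trans h'.symm), h, one_pow]
  have h2 := congrArg (fun p => p.coeff 1) h1
  simp only [mul_coeff_one, pw_zero hU' hg, pw_zero hU' hg', pw_one, coeff_one] at h2
  simpa [eq_neg_iff_add_eq_zero, add_comm] using h2

theorem natDegree_lg {M D : ℕ} {Q : A[X]} (hQ : Q.natDegree ≤ D) :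
    (lg R M Q).natDegree ≤ M * D := by
  refine natDegree_sum_le_of_forall_le _ _ fun i hi => (natDegree_smul_le _ _).trans ?_
  refine natDegree_pow_le.trans (Nat.mul_le_mul (Finset.mem_range.1 hi).le ?_)
  exact (natDegree_sub_le _ _).trans (max_le hQ (by simp))

theorem coeff_one_lg {M : ℕ} (hM : 2 ≤ M) {Q : A[X]} (hQ : Q.coeff 0 = 1) :
    (lg R M Q).coeff 1 = Q.coeff 1 := by
  have h0 : (Q - 1).coeff 0 = 0 := by simp [hQ]
  rw [lg, finsetSum_coeff, Finset.sum_eq_single 1]
  · simp [bin_one, coeff_one]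
  · intro i _ hi
    rcases i with _ | _ | i
    · simp [bin_zero]
    · exact absurd rfl hi
    · rw [coeff_smul, pow_succ, mul_coeff_one, h0, pow_succ, mul_coeff_zero, h0]
      simp
  · intro h
    exact absurd (Finset.mem_range.2 hM) h

/-- the derivative of the logarithm against the logarithmic derivative -/
theorem dlog {M : ℕ} (hU : SmallU R (2 * M + 1)) (D : A →ₗ[R] A)
    (hD : ∀ x y, D (x * y) = D x * y + x * D y) {P P' y : A} (h1 : P' * P = 1) (h2 : P * P' = 1)
    (hP : (P - 1) ^ M = 0) (hP' : (P' - 1) ^ M = 0) (hy : D P = P * y) {S : Submodule R A}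
    (hS : ∀ x ∈ S, P' * x * P ∈ S) (hyS : P' * y * P - y ∈ S) : D (lg R M P) - y ∈ S := by
  have hU' := hU.mono (show M ≤ 2 * M + 1 by omega)
  have hD1 : D 1 = 0 := by simpa using hD 1 1
  have key : ∀ s : ℕ, P' ^ s * D (P ^ s) - y * s ∈ S := by
    intro s
    induction s with
    | zero => simp [hD1]
    | succ s ih =>
      have e0 : P' ^ s * P ^ s = 1 := by rw [← Commute.mul_pow (h1.trans h2.symm), h1, one_pow]
      have e1 : P' ^ (s + 1) * D (P ^ (s + 1)) - y * ((s + 1 : ℕ) : A) =
          P' * (P' ^ s * D (P ^ s) - y * s) * P + s • (P' * y * P - y) := by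
        have e2 : P' ^ (s + 1) * (P ^ s * (P * y)) = y := by
          rw [pow_succ', mul_assoc, ← mul_assoc (P' ^ s), e0, one_mul, ← mul_assoc, h1, one_mul]
        rw [pow_succ P, hD, hy, mul_add, e2, pow_succ', ← nsmul_eq_mul', ← nsmul_eq_mul', succ_nsmul]
        simp only [mul_sub, sub_mul, smul_sub, mul_smul_comm, smul_mul_assoc, mul_assoc]
        abel
      rw [e1]
      exact S.add_mem (hS _ ih) (S.smul_of_tower_mem s hyS)
  let Dp : A[X] := bq M (bin R) fun i => D ((P - 1) ^ i)
  have hDp : ∀ s, ev R A s Dp = D (P ^ s) := by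
    intro s
    rw [ev_bq, ← sum_choose (R := R) hP s, map_sum]
    exact Finset.sum_congr rfl fun i hi => by
      rw [eval_bin hU' (Finset.mem_range.1 hi).le, map_smul]
  have h3 := interpP hU (S := S) (p := pw R M P' * Dp - monomial 1 y) ?_ ?_ 1
  · rw [coeff_sub, mul_coeff_one, pw_zero hU' hP', ← ev_zero (R := R) Dp, hDp, pow_zero, hD1,
      coeff_bq] at h3
    simpa [lg] using h3
  · refine (natDegree_sub_le _ _).trans (max_le (natDegree_mul_le.trans ?_) ?_)
    · have := natDegree_pw (R := R) M P'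
      have : Dp.natDegree ≤ M := natDegree_bq (fun i hi => (natDegree_bin i).trans hi.le) _
      omega
    · exact (natDegree_monomial_le _).trans (by omega)
  · intro k
    rw [map_sub, map_mul, ev_pw hU' hP', hDp, ev_monomial, pow_one]
    exact key k

end Interp

end Pool.Agent.Lib.MP_95ba65_al.Large
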