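import Mathlib
import Pool.Agent.Lib.MP_95ba65_al.LargeLog

/-!
A weak form of the Baker-Campbell-Hausdorff formula, and the Lie algebra spanned by logarithms.
-/

set_option autoImplicit false

namespace Pool.Agent.Lib.MP_95ba65_al.Large

open Polynomial Finset
open scoped commutatorElement

variable {R A G : Type} [CommRing R] [Ring A] [Algebra R A] [Group G]

/-- conjugation by a group element -/
def cj (R : Type) [CommRing R] [Algebra R A] (ρ : G →* A) (w : G) : A →ₐ[R] A where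
  toFun x := ρ w * x * ρ w⁻¹
  map_one' := by rw [mul_one, ← map_mul, mul_inv_cancel, map_one]
  map_mul' x y := by
    have : ρ w⁻¹ * ρ w = 1 := by rw [← map_mul, inv_mul_cancel, map_one]
    simp only [mul_assoc]
    rw [← mul_assoc (ρ w⁻¹) (ρ w), this, one_mul]
  map_zero' := by simp
  map_add' x y := by rw [mul_add, add_mul]
  commutes' r := by
    rw [← Algebra.commutes, mul_assoc, ← map_mul, mul_inv_cancel, map_one, mul_one]

theorem cj_apply (ρ : G →* A) (w : G) (x : A) : cj R ρ w x = ρ w * x * ρ w⁻¹ := rfl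

theorem cj_rho (ρ : G →* A) (w h : G) : cj R ρ w (ρ h) = ρ (w * h * w⁻¹) := by
  rw [cj_apply, map_mul, map_mul]

/-- the span of the logarithms -/
def LL (R : Type) [CommRing R] [Algebra R A] (ρ : G →* A) (M : ℕ) (N : Subgroup G) :
    Submodule R A :=
  Submodule.span R {x | ∃ h ∈ N, x = lg R M (ρ h)}

theorem mem_LL (ρ : G →* A) (M : ℕ) {N : Subgroup G} {h : G} (hh : h ∈ N) :
    lg R M (ρ h) ∈ LL R ρ M N := Submodule.subset_span ⟨h, hh, rfl⟩

theorem LL_mono (ρ : G →* A) (M : ℕ) {N N' : Subgroup G} (h : N ≤ N') :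
    LL R ρ M N ≤ LL R ρ M N' :=
  Submodule.span_mono (by rintro _ ⟨x, hx, rfl⟩; exact ⟨x, h hx, rfl⟩)

/-- the span of the brackets -/
def brk (S : Submodule R A) : Submodule R A :=
  Submodule.span R {x | ∃ a ∈ S, ∃ b ∈ S, x = a * b - b * a}

theorem mem_brk {S : Submodule R A} {a b : A} (ha : a ∈ S) (hb : b ∈ S) :
    a * b - b * a ∈ brk S := Submodule.subset_span ⟨a, ha, b, hb, rfl⟩

theorem brk_mono {S T : Submodule R A} (h : S ≤ T) : brk S ≤ brk T :=
  Submodule.span_mono (by rintro _ ⟨a, ha, b, hb, rfl⟩; exact ⟨a, h ha, b, h hb, rfl⟩)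

theorem map_mem_brk (f : A →ₐ[R] A) {S : Submodule R A} (hS : ∀ x ∈ S, f x ∈ S) :
    ∀ x ∈ brk S, f x ∈ brk S := by
  have : brk S ≤ (brk S).comap f.toLinearMap := by
    refine Submodule.span_le.2 ?_
    rintro _ ⟨a, ha, b, hb, rfl⟩
    change f _ ∈ brk S
    rw [map_sub, map_mul, map_mul]
    exact mem_brk (hS a ha) (hS b hb)
  exact fun x hx => this hx

theorem map_mem_LL (f : A →ₐ[R] A) {ρ : G →* A} {M : ℕ} {N : Subgroup G}
    (hf : ∀ h ∈ N, ∃ h' ∈ N, f (ρ h) = ρ h') : ∀ x ∈ LL R ρ M N, f x ∈ LL R ρ M N := by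
  have : LL R ρ M N ≤ (LL R ρ M N).comap f.toLinearMap := by
    refine Submodule.span_le.2 ?_
    rintro _ ⟨h, hh, rfl⟩
    obtain ⟨h', hh', e⟩ := hf h hh
    change f _ ∈ LL R ρ M N
    rw [map_lg, e]
    exact mem_LL ρ M hh'
  exact fun x hx => this hx

theorem cj_mem_LL (ρ : G →* A) (M : ℕ) {N : Subgroup G} {w : G} (hw : w ∈ N) :
    ∀ x ∈ LL R ρ M N, cj R ρ w x ∈ LL R ρ M N :=
  map_mem_LL _ fun h hh => ⟨_, N.mul_mem (N.mul_mem hw hh) (N.inv_mem hw), cj_rho ρ w h⟩

/-- the bound on the integers to be inverted -/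
def KK (M : ℕ) : ℕ := 2 * M * M + 4 * M + 1

theorem cf_pow {I : Submodule R A} {p : A[X]} (hp : p ∈ cf fun _ => I) (m : ℕ) :
    p ^ m ∈ cf fun _ => I ^ m := by
  induction m with
  | zero =>
    rw [pow_zero, pow_zero, ← monomial_zero_one]
    exact monomial_mem_cf.2 (Submodule.one_le.1 le_rfl)
  | succ m ih =>
    rw [pow_succ, pow_succ]
    exact cf_mul (fun _ _ => le_rfl) ih hp

section

variable {ρ : G →* A} {N : Subgroup G} {M : ℕ} (hU : SmallU R (KK M))
  (hN : aug R ρ N ^ M = ⊥)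
include hN

theorem unip {h : G} (hh : h ∈ N) : (ρ h - 1) ^ M = 0 := by
  have := Submodule.pow_mem_pow _ (mem_aug (R := R) ρ hh) M
  rwa [hN, Submodule.mem_bot] at this

include hU

theorem ev_pw_rho {h : G} (hh : h ∈ N) (k : ℕ) : ev R A k (pw R M (ρ h)) = ρ (h ^ k) := by
  rw [ev_pw (hU.mono (by unfold KK; omega)) (unip hN hh), map_pow]

theorem ev_dpw_rho {h : G} (hh : h ∈ N) (k : ℕ) :
    ev R A k (derivative (pw R M (ρ h))) = ρ (h ^ k) * lg R M (ρ h) := by
  rw [ev_derivative_pw (hU.mono (by unfold KK; omega)) (unip hN hh), map_pow]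

theorem lg_rho_inv {h : G} (hh : h ∈ N) : lg R M (ρ h⁻¹) = -lg R M (ρ h) :=
  lg_inv (hU.mono (by unfold KK; omega)) (unip hN hh) (unip hN (N.inv_mem hh))
    (by rw [← map_mul, inv_mul_cancel, map_one]) (by rw [← map_mul, mul_inv_cancel, map_one])

theorem bch {S : Submodule R A} (h1 : ∀ w ∈ N, ∀ x ∈ S, cj R ρ w x ∈ S)
    (h2 : ∀ w ∈ N, ∀ h ∈ N, cj R ρ w (lg R M (ρ h)) - lg R M (ρ h) ∈ S) {g h : G} (hg : g ∈ N)
    (hh : h ∈ N) : lg R M (ρ (g * h)) - (lg R M (ρ g) + lg R M (ρ h)) ∈ S := by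
  have hU4 : SmallU R (4 * M) := hU.mono (by unfold KK; omega)
  set a := lg R M (ρ g) with ha
  set b := lg R M (ρ h) with hb
  let P : A[X] := pw R M (ρ g) * pw R M (ρ h)
  let P' : A[X] := pw R M (ρ h⁻¹) * pw R M (ρ g⁻¹)
  have dpw : ∀ x y : A, (pw R M x * pw R M y).natDegree ≤ 2 * M := fun x y =>
    natDegree_mul_le.trans (by
      have := natDegree_pw (R := R) M x
      have := natDegree_pw (R := R) M y
      omega)
  have dP : P.natDegree ≤ 2 * M := dpw _ _
  have dP' : P'.natDegree ≤ 2 * M := dpw _ _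
  have hw : ∀ k : ℕ, g ^ k * h ^ k ∈ N := fun k => N.mul_mem (N.pow_mem hg k) (N.pow_mem hh k)
  have eP : ∀ k, ev R A k P = ρ (g ^ k * h ^ k) := fun k => by
    rw [map_mul, ev_pw_rho hU hN hg, ev_pw_rho hU hN hh, map_mul]
  have eP' : ∀ k, ev R A k P' = ρ (g ^ k * h ^ k)⁻¹ := fun k => by
    rw [map_mul, ev_pw_rho hU hN (N.inv_mem hg), ev_pw_rho hU hN (N.inv_mem hh), ← map_mul,
      mul_inv_rev, inv_pow, inv_pow]
  have i1 : P' * P = 1 := eq_of_ev hU4 (natDegree_mul_le.trans (by omega)) (by simp) fun k => by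
    rw [map_mul, eP, eP', ← map_mul, inv_mul_cancel, map_one, map_one]
  have i2 : P * P' = 1 := eq_of_ev hU4 (natDegree_mul_le.trans (by omega)) (by simp) fun k => by
    rw [map_mul, eP, eP', ← map_mul, mul_inv_cancel, map_one, map_one]
  have nil : ∀ Q : A[X], Q.natDegree ≤ 2 * M → (∀ k, ∃ w ∈ N, ev R A k Q = ρ w) →
      (Q - 1) ^ M = 0 := by
    intro Q dQ hQ
    have : Q - 1 ∈ cf fun _ => aug R ρ N := by
      refine interpP hU4 ((natDegree_sub_le _ _).trans (max_le (by omega) (by simp))) fun k => ?_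
      obtain ⟨w, hw, e⟩ := hQ k
      rw [map_sub, map_one, e]
      exact mem_aug ρ hw
    have := cf_pow this M
    ext i
    have := this i
    rwa [hN, Submodule.mem_bot] at this
  let T : Submodule R A[X] := cf fun _ => S
  have hC : ∀ x y : A, (∀ w ∈ N, cj R ρ w x - y ∈ S) → P' * C x * P - C y ∈ T := by
    intro x y hx
    refine interpP hU4 ((natDegree_sub_le _ _).trans (max_le ?_ (by simp))) fun k => ?_
    · refine natDegree_mul_le.trans ?_
      have := natDegree_mul_C_le P' x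
      omega
    · rw [map_sub, map_mul, map_mul, eP, eP', ev_C, ev_C]
      have := hx _ (N.inv_mem (hw k))
      rwa [cj_apply, inv_inv] at this
  have hT : ∀ x ∈ T, P' * x * P ∈ T := by
    intro x hx
    rw [x.as_sum_support, Finset.mul_sum, Finset.sum_mul]
    refine T.sum_mem fun i _ => ?_
    rw [← C_mul_X_pow_eq_monomial, ← mul_assoc P', X_pow_mul_assoc]
    have h3 := hC (x.coeff i) 0 fun w hw => by simpa using h1 w hw _ (hx i)
    rw [map_zero, sub_zero] at h3
    refine cf_mul (T := fun _ => 1) (fun _ _ => by rw [mul_one]) h3 ?_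
    rw [← monomial_one_right_eq_X_pow]
    exact monomial_mem_cf.2 (Submodule.one_le.1 le_rfl)
  have hy : P' * derivative P - C (a + b) ∈ T := by
    refine interpP hU4 ((natDegree_sub_le _ _).trans (max_le ?_ (by simp))) fun k => ?_
    · refine natDegree_mul_le.trans ?_
      have := natDegree_derivative_le P
      omega
    · rw [map_sub, map_mul, eP', ev_C, derivative_mul, map_add, map_mul, map_mul,
        ev_pw_rho hU hN hg, ev_pw_rho hU hN hh, ev_dpw_rho hU hN hg, ev_dpw_rho hU hN hh]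
      have h3 := h2 _ (N.inv_mem (N.pow_mem hh k)) g hg
      rw [cj_apply, inv_inv] at h3
      have e1 : ρ (g ^ k * h ^ k)⁻¹ * ρ (g ^ k) = ρ (h ^ k)⁻¹ := by
        rw [← map_mul]; congr 1; group
      have e2 : ρ (h ^ k)⁻¹ * ρ (h ^ k) = 1 := by rw [← map_mul, inv_mul_cancel, map_one]
      convert h3 using 1
      rw [mul_add, ← mul_assoc, ← mul_assoc, ← mul_assoc, ← mul_assoc, e1, e2, one_mul]
      abel
  have hc : P' * C (a + b) * P - C (a + b) ∈ T := hC _ _ fun w hw => by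
    rw [map_add, add_sub_add_comm]
    exact S.add_mem (h2 w hw g hg) (h2 w hw h hh)
  have h3 := dlog (R := R) (A := A[X]) (hU.mono (by unfold KK; omega))
    ((derivative (R := A)).restrictScalars R) (fun x y => derivative_mul) i1 i2
    (nil P dP fun k => ⟨_, hw k, eP k⟩) (nil P' dP' fun k => ⟨_, N.inv_mem (hw k), eP' k⟩)
    (y := P' * derivative P) (by rw [← mul_assoc, i2, one_mul]; rfl) hT (by
      have := T.sub_mem (T.add_mem (hT _ hy) hc) hy
      convert this using 1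
      noncomm_ring)
  have h4 := ftc (R := R) (D := KK M) hU (S := S) (p := lg R M P - monomial 1 (a + b)) ?_ ?_
  · rw [map_sub, map_sub, map_lg, map_lg, eP, eP, ev_monomial, ev_monomial] at h4
    simpa [lg_one] using h4
  · refine (natDegree_sub_le _ _).trans (max_le ((natDegree_lg dP).trans ?_)
      ((natDegree_monomial_le _).trans ?_))
    · unfold KK; nlinarith
    · unfold KK; omega
  · have := T.add_mem h3 hy
    rw [sub_add_sub_cancel] at this
    refine mem_cf.1 (show _ ∈ T from ?_)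
    simpa using this

theorem cj_sub_mem_brk {w : G} (hw : w ∈ N) {b : A} (hb : b ∈ LL R ρ M N) :
    cj R ρ w b - b ∈ brk (LL R ρ M N) := by
  have hU2 : SmallU R (2 * M) := hU.mono (by unfold KK; omega)
  have d : (pw R M (ρ w) * C b * pw R M (ρ w⁻¹)).natDegree ≤ 2 * M := by
    refine natDegree_mul_le.trans ?_
    have := natDegree_mul_C_le (pw R M (ρ w)) b
    have := natDegree_pw (R := R) M (ρ w)
    have := natDegree_pw (R := R) M (ρ w⁻¹)
    omega
  have h1 := ftc hU2 (S := brk (LL R ρ M N)) d (interpP hU2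
    ((natDegree_derivative_le _).trans ((Nat.sub_le _ _).trans d)) fun k => ?_)
  · simp only [map_mul, ev_C, ev_pw_rho hU hN hw, ev_pw_rho hU hN (N.inv_mem hw)] at h1
    simpa [cj_apply] using h1
  · simp only [derivative_mul, derivative_C, map_add, map_mul, ev_C, ev_pw_rho hU hN hw,
      ev_pw_rho hU hN (N.inv_mem hw), ev_dpw_rho hU hN hw, ev_dpw_rho hU hN (N.inv_mem hw),
      lg_rho_inv hU hN hw, map_zero]
    have h2 := mem_brk (mem_LL (R := R) ρ M hw) (cj_mem_LL ρ M (N.pow_mem hw k) b hb)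
    have h3 : Commute (ρ (w ^ k)) (lg R M (ρ w)) :=
      commute_lg M (((Commute.refl w).pow_left k).map ρ)
    convert h2 using 1
    rw [cj_apply, h3.eq, inv_pow]
    noncomm_ring

theorem bch_brk {g h : G} (hg : g ∈ N) (hh : h ∈ N) :
    lg R M (ρ (g * h)) - (lg R M (ρ g) + lg R M (ρ h)) ∈ brk (LL R ρ M N) :=
  bch hU hN (fun _ hw => map_mem_brk _ (cj_mem_LL ρ M hw))
    (fun _ hw _ hh => cj_sub_mem_brk hU hN hw (mem_LL ρ M hh)) hg hh

theorem LL_comm_le : LL R ρ M ⁅N, N⁆ ≤ brk (LL R ρ M N) := by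
  let T : Subgroup G :=
    { carrier := {h | h ∈ N ∧ lg R M (ρ h) ∈ brk (LL R ρ M N)}
      mul_mem' := fun {a b} ha hb => ⟨N.mul_mem ha.1 hb.1, by
        simpa using Submodule.add_mem _ (bch_brk hU hN ha.1 hb.1) (Submodule.add_mem _ ha.2 hb.2)⟩
      one_mem' := ⟨N.one_mem, by rw [map_one, lg_one]; exact Submodule.zero_mem _⟩
      inv_mem' := fun {a} ha => ⟨N.inv_mem ha.1, by
        rw [lg_rho_inv hU hN ha.1]; exact Submodule.neg_mem _ ha.2⟩ }
  have h1 : ⁅N, N⁆ ≤ T := by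
    rw [Subgroup.commutator_le]
    intro a ha b hb
    have hc : a * b * a⁻¹ ∈ N := N.mul_mem (N.mul_mem ha hb) (N.inv_mem ha)
    refine ⟨N.mul_mem hc (N.inv_mem hb), ?_⟩
    have h2 := Submodule.add_mem _ (bch_brk hU hN hc (N.inv_mem hb))
      (cj_sub_mem_brk hU hN ha (mem_LL ρ M hb))
    rw [map_lg, cj_rho, lg_rho_inv hU hN hb] at h2
    rw [commutatorElement_def]
    convert h2 using 1
    abel
  refine Submodule.span_le.2 ?_
  rintro _ ⟨h, hh, rfl⟩
  exact (h1 hh).2

theorem brk_le_LL (hM : 2 ≤ M) : brk (LL R ρ M N) ≤ LL R ρ M ⁅N, N⁆ := by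
  have hU1 : SmallU R M := hU.mono (by unfold KK; omega)
  have s1 : ∀ g ∈ N, ∀ h ∈ N, cj R ρ g (lg R M (ρ h)) - lg R M (ρ h) ∈ LL R ρ M ⁅N, N⁆ := by
    intro g hg h hh
    let Q : A[X] := C (ρ g) * pw R M (ρ h) * C (ρ g⁻¹) * pw R M (ρ h⁻¹)
    have dQ : Q.natDegree ≤ 2 * M := by
      refine natDegree_mul_le.trans ?_
      have := natDegree_mul_C_le (C (ρ g) * pw R M (ρ h)) (ρ g⁻¹)
      have := natDegree_C_mul_le (ρ g) (pw R M (ρ h))
      have := natDegree_pw (R := R) M (ρ h)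
      have := natDegree_pw (R := R) M (ρ h⁻¹)
      omega
    have e0 : ρ g * ρ g⁻¹ = 1 := by rw [← map_mul, mul_inv_cancel, map_one]
    have h1 := interpP hU (S := LL R ρ M ⁅N, N⁆) (p := lg R M Q)
      ((natDegree_lg dQ).trans (by unfold KK; nlinarith)) (fun k => ?_) 1
    · rw [coeff_one_lg hM, mul_coeff_one] at h1
      · simp only [coeff_mul_C, coeff_C_mul, pw_one, pw_zero hU1 (unip hN hh),
          pw_zero hU1 (unip hN (N.inv_mem hh)), mul_one, e0, one_mul, lg_rho_inv hU hN hh] at h1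
        rwa [cj_apply, sub_eq_neg_add]
      · simp only [Q, mul_coeff_zero, coeff_C_zero, pw_zero hU1 (unip hN hh),
          pw_zero hU1 (unip hN (N.inv_mem hh)), mul_one, e0]
    · rw [map_lg]
      simp only [Q, map_mul, ev_C, ev_pw_rho hU hN hh, ev_pw_rho hU hN (N.inv_mem hh)]
      rw [← map_mul, ← map_mul, ← map_mul, inv_pow, ← commutatorElement_def]
      exact mem_LL ρ M (Subgroup.commutator_mem_commutator hg (N.pow_mem hh k))
  refine Submodule.span_le.2 ?_
  rintro _ ⟨a, ha, b, hb, rfl⟩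
  refine br_span ?_ a ha b hb
  rintro _ ⟨g, hg, rfl⟩ _ ⟨h, hh, rfl⟩
  have h1 := interpP hU (S := LL R ρ M ⁅N, N⁆)
    (p := pw R M (ρ g) * C (lg R M (ρ h)) * pw R M (ρ g⁻¹) - C (lg R M (ρ h))) ?_ ?_ 1
  · rw [coeff_sub, mul_coeff_one] at h1
    simp only [coeff_mul_C, pw_one, pw_zero hU1 (unip hN hg), coeff_C_succ,
      pw_zero hU1 (unip hN (N.inv_mem hg)), mul_one, one_mul, lg_rho_inv hU hN hg] at h1
    convert h1 using 1
    noncomm_ring
  · refine (natDegree_sub_le _ _).trans (max_le (natDegree_mul_le.trans ?_) (by simp))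
    have := natDegree_mul_C_le (pw R M (ρ g)) (lg R M (ρ h))
    have := natDegree_pw (R := R) M (ρ g)
    have := natDegree_pw (R := R) M (ρ g⁻¹)
    unfold KK
    omega
  · intro k
    simp only [map_sub, map_mul, ev_C, ev_pw_rho hU hN hg, ev_pw_rho hU hN (N.inv_mem hg)]
    rw [inv_pow]
    exact s1 _ (N.pow_mem hg k) h hh

end

end Pool.Agent.Lib.MP_95ba65_al.Large
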