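import Mathlib
import Pool.Agent.Lib.MP_95ba65_al.Core
import Pool.Agent.Lib.MP_95ba65_al.LargeBch

/-!
Eigen-projections, the Kreknin theorem for Lie subalgebras of associative algebras, and its
transfer to unipotent groups of bounded index.
-/

set_option autoImplicit false

namespace Pool.Agent.Lib.MP_95ba65_al.Large

open Finset
open scoped commutatorElement

/-- a character with orthogonality relations -/
structure Ctx {n : ℕ} [NeZero n] {R : Type} [CommRing R] (ψ : AddChar (ZMod n) R) : Prop where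
  orth : ∀ t : ZMod n, t ≠ 0 → ∑ i : ZMod n, ψ (i * t) = 0
  unit : IsUnit (n : R)

section Proj

variable {n : ℕ} [NeZero n] {R : Type} [CommRing R] {ψ : AddChar (ZMod n) R}
  {W : Type} [AddCommGroup W] [Module R W]

/-- projection to the eigenspace with label `t` -/
noncomputable def pj (ψ : AddChar (ZMod n) R) (s : Module.End R W) (t : ZMod n) :
    Module.End R W :=
  Ring.inverse (n : R) • ∑ i : ZMod n, ψ (-(i * t)) • s ^ i.val

theorem pow_val_succ {s : Module.End R W} (hs : s ^ n = 1) (i : ZMod n) :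
    s ^ (i + 1).val = s * s ^ i.val := by
  have h1 : (i + 1 : ZMod n) = ((i.val + 1 : ℕ) : ZMod n) := by simp
  rw [h1, ZMod.val_natCast, ← pow_eq_pow_mod _ hs, pow_succ']

theorem mul_pj {s : Module.End R W} (hs : s ^ n = 1) (t : ZMod n) :
    s * pj ψ s t = ψ t • pj ψ s t := by
  unfold pj
  rw [mul_smul_comm, smul_comm]
  congr 1
  rw [Finset.mul_sum, Finset.smul_sum, ← Equiv.sum_comp (Equiv.addRight (1 : ZMod n))
    (fun i => ψ t • ψ (-(i * t)) • s ^ i.val)]
  refine Finset.sum_congr rfl fun i _ => ?_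
  rw [Equiv.coe_addRight, pow_val_succ hs, mul_smul_comm, smul_smul, ← AddChar.map_add_eq_mul]
  congr 2
  ring

theorem pj_mul {s : Module.End R W} (hs : s ^ n = 1) (t : ZMod n) :
    pj ψ s t * s = ψ t • pj ψ s t := by
  rw [← mul_pj hs]
  refine (Commute.smul_right (Commute.sum_right _ _ _ fun i _ => ?_) _).symm.eq
  exact ((Commute.refl s).pow_right _).smul_right _

theorem pj_eig {s : Module.End R W} (hs : s ^ n = 1) (t : ZMod n) (x : W) :
    s (pj ψ s t x) = ψ t • pj ψ s t x :=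
  LinearMap.congr_fun (mul_pj hs t) x

theorem pj_apply_map {s : Module.End R W} (hs : s ^ n = 1) (t : ZMod n) (x : W) :
    pj ψ s t (s x) = ψ t • pj ψ s t x :=
  LinearMap.congr_fun (pj_mul hs t) x

theorem Ctx.sum_ite (h : Ctx ψ) (t : ZMod n) :
    Ring.inverse (n : R) * ∑ i : ZMod n, ψ (i * t) = if t = 0 then 1 else 0 := by
  split_ifs with ht
  · simp [ht, Ring.inverse_mul_cancel _ h.unit]
  · rw [h.orth t ht, mul_zero]

theorem Ctx.sum_pj (h : Ctx ψ) (s : Module.End R W) (x : W) : ∑ t, pj ψ s t x = x := by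
  simp only [pj, LinearMap.smul_apply, LinearMap.sum_apply, Finset.smul_sum, smul_smul]
  rw [Finset.sum_comm]
  simp only [← Finset.sum_smul, ← Finset.mul_sum]
  have : ∀ i : ZMod n, Ring.inverse (n : R) * ∑ t : ZMod n, ψ (-(i * t)) =
      if i = 0 then 1 else 0 := by
    intro i
    have h1 := h.sum_ite (-i)
    simp only [neg_eq_zero] at h1
    rw [← h1]
    congr 1
    exact Finset.sum_congr rfl fun t _ => by congr 1; ring
  simp [this]

omit [NeZero n] in
theorem pow_eig {s : Module.End R W} {j : ZMod n} {x : W} (hx : s x = ψ j • x) (k : ℕ) :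
    (s ^ k) x = ψ ((k : ZMod n) * j) • x := by
  induction k with
  | zero => simp
  | succ k ih =>
    rw [pow_succ', Module.End.mul_apply, ih, map_smul, hx, smul_smul, ← AddChar.map_add_eq_mul]
    congr 2
    push_cast
    ring

theorem Ctx.pj_of_eig (h : Ctx ψ) {s : Module.End R W} {j : ZMod n} {x : W}
    (hx : s x = ψ j • x) (t : ZMod n) : pj ψ s t x = if t = j then x else 0 := by
  simp only [pj, LinearMap.smul_apply, LinearMap.sum_apply, pow_eig hx, smul_smul,
    ← Finset.sum_smul, ← AddChar.map_add_eq_mul, ZMod.natCast_val, ZMod.cast_id', id_eq]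
  have h1 := h.sum_ite (j - t)
  have h2 : ∀ i : ZMod n, -(i * t) + i * j = i * (j - t) := fun i => by ring
  simp only [h2, h1, sub_eq_zero, eq_comm (a := j)]
  split_ifs <;> simp

theorem pj_mem {s : Module.End R W} {S : Submodule R W} (hS : ∀ x ∈ S, s x ∈ S) (t : ZMod n)
    {x : W} (hx : x ∈ S) : pj ψ s t x ∈ S := by
  have : ∀ k : ℕ, (s ^ k) x ∈ S := by
    intro k
    induction k with
    | zero => exact hx
    | succ k ih => rw [pow_succ']; exact hS _ ih
  simp only [pj, LinearMap.smul_apply, LinearMap.sum_apply]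
  exact S.smul_mem _ (S.sum_mem fun i _ => S.smul_mem _ (this _))

end Proj

section Lie

variable {R A : Type} [CommRing R] [Ring A] [Algebra R A]

/-- the Lie subalgebra generated by a set -/
def lieGen (R : Type) [CommRing R] [Algebra R A] (T : Set A) : Submodule R A :=
  sInf {S | T ⊆ S ∧ brk S ≤ S}

theorem lieGen_le {T : Set A} {S : Submodule R A} (h1 : T ⊆ S) (h2 : brk S ≤ S) :
    lieGen R T ≤ S := sInf_le ⟨h1, h2⟩

theorem mem_lieGen {T : Set A} {x : A} (hx : x ∈ T) : x ∈ lieGen R T :=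
  Submodule.mem_sInf.2 fun _ hS => hS.1 hx

theorem brk_lieGen (T : Set A) : brk (lieGen R T) ≤ lieGen R T :=
  le_sInf fun _ hS => (brk_mono (lieGen_le hS.1 hS.2)).trans hS.2

theorem brk_le_iff {S U : Submodule R A} :
    brk S ≤ U ↔ ∀ a ∈ S, ∀ b ∈ S, a * b - b * a ∈ U :=
  ⟨fun h _ ha _ hb => h (mem_brk ha hb), fun h => Submodule.span_le.2 (by
    rintro _ ⟨a, ha, b, hb, rfl⟩; exact h a ha b hb)⟩

theorem map_mem_lieGen (f : A →ₐ[R] A) {T : Set A} (hT : ∀ x ∈ T, f x ∈ lieGen R T) :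
    ∀ x ∈ lieGen R T, f x ∈ lieGen R T := by
  have : lieGen R T ≤ (lieGen R T).comap f.toLinearMap := by
    refine lieGen_le hT (brk_le_iff.2 fun a ha b hb => ?_)
    change f _ ∈ lieGen R T
    rw [map_sub, map_mul, map_mul]
    exact brk_lieGen T (mem_brk ha hb)
  exact fun x hx => this hx

theorem brk_lieGen_le {T : Set A} {W : Submodule R A}
    (hW : ∀ a ∈ lieGen R T, ∀ b ∈ T, a * b - b * a ∈ W) : brk (lieGen R T) ≤ W := by
  let U : Submodule R A := lieGen R T ⊓ ⨅ a ∈ lieGen R T, W.comap (ad R A a)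
  have hU : ∀ u, u ∈ U ↔ u ∈ lieGen R T ∧ ∀ a ∈ lieGen R T, a * u - u * a ∈ W := by
    intro u
    simp [U, ad_apply]
  have h1 : lieGen R T ≤ U := by
    refine lieGen_le (fun b hb => (hU b).2 ⟨mem_lieGen hb, fun a ha => hW a ha b hb⟩) ?_
    refine brk_le_iff.2 fun u hu v hv => ?_
    obtain ⟨hu1, hu2⟩ := (hU u).1 hu
    obtain ⟨hv1, hv2⟩ := (hU v).1 hv
    refine (hU _).2 ⟨brk_lieGen T (mem_brk hu1 hv1), fun a ha => ?_⟩
    have := W.sub_mem (hv2 _ (brk_lieGen T (mem_brk ha hu1)))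
      (hu2 _ (brk_lieGen T (mem_brk ha hv1)))
    convert this using 1
    noncomm_ring
  exact brk_le_iff.2 fun a ha b hb => ((hU b).1 (h1 hb)).2 a ha

theorem brk_iter_mono (m : ℕ) {X Y : Submodule R A} (h : X ≤ Y) : brk^[m] X ≤ brk^[m] Y := by
  induction m with
  | zero => exact h
  | succ m ih =>
    rw [Function.iterate_succ_apply', Function.iterate_succ_apply']
    exact brk_mono ih

variable {n : ℕ} [NeZero n] {ψ : AddChar (ZMod n) R}

/-- the subalgebra generated by the eigen-elements with labels at least `k` -/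
def kgen (ψ : AddChar (ZMod n) R) (σ : A →ₐ[R] A) (k : ℕ) (X : Submodule R A) : Submodule R A :=
  lieGen R {x | x ∈ X ∧ ∃ j : ZMod n, k ≤ j.val ∧ σ x = ψ j • x}

omit [NeZero n] in
theorem kgen_le (σ : A →ₐ[R] A) (k : ℕ) {X : Submodule R A} (hX : brk X ≤ X) :
    kgen ψ σ k X ≤ X := lieGen_le (fun _ hx => hx.1) hX

omit [NeZero n] in
theorem kgen_inv (σ : A →ₐ[R] A) (k : ℕ) (X : Submodule R A) :
    ∀ x ∈ kgen ψ σ k X, σ x ∈ kgen ψ σ k X := by
  apply map_mem_lieGen
  rintro x ⟨hx, j, hj, he⟩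
  rw [he]
  exact Submodule.smul_mem _ _ (mem_lieGen ⟨hx, j, hj, he⟩)

omit [NeZero n] in
theorem eig_br {σ : A →ₐ[R] A} {i j : ZMod n} {a b : A} (ha : σ a = ψ i • a)
    (hb : σ b = ψ j • b) : σ (a * b - b * a) = ψ (i + j) • (a * b - b * a) := by
  rw [map_sub, map_mul, map_mul, ha, hb, smul_mul_smul_comm, smul_mul_smul_comm,
    AddChar.map_add_eq_mul, mul_comm (ψ j), smul_sub]

variable (h : Ctx ψ) {σ : A →ₐ[R] A} (hs : (σ.toLinearMap : Module.End R A) ^ n = 1)
include h hs

theorem kre_main {X : Submodule R A} (hX : brk X ≤ X) (h0 : ∀ x ∈ X, σ x = ψ 0 • x → x = 0)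
    {j : ZMod n} {w : A} (hw : w ∈ brk (kgen ψ σ j.val X)) (he : σ w = ψ j • w) :
    w ∈ kgen ψ σ (j.val + 1) X := by
  have h1 : brk (kgen ψ σ j.val X) ≤ (kgen ψ σ (j.val + 1) X).comap (pj ψ σ.toLinearMap j) := by
    apply brk_lieGen_le
    rintro a ha b ⟨hb, j', hj', heb⟩
    rw [Submodule.mem_comap, ← h.sum_pj σ.toLinearMap a, Finset.sum_mul, Finset.mul_sum,
      ← Finset.sum_sub_distrib, map_sum]
    refine Submodule.sum_mem _ fun i _ => ?_
    have hai : pj ψ σ.toLinearMap i a ∈ X := kgen_le σ _ hX (pj_mem (kgen_inv σ _ X) i ha)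
    have hei : σ (pj ψ σ.toLinearMap i a) = ψ i • pj ψ σ.toLinearMap i a := pj_eig hs i a
    rw [h.pj_of_eig (s := σ.toLinearMap) (eig_br hei heb)]
    split_ifs with hij
    · by_cases hi : i = 0
      · subst hi
        rw [h0 _ hai hei]
        simp
      · have e1 : j.val = (i.val + j'.val) % n := by rw [hij, ZMod.val_add]
        have e2 : 0 < i.val := ZMod.val_pos.2 hi
        have e3 := ZMod.val_lt i
        have e4 := ZMod.val_lt j'
        have e5 : i.val + j'.val = j.val + n := by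
          by_cases hlt : i.val + j'.val < n
          · rw [Nat.mod_eq_of_lt hlt] at e1
            omega
          · rw [Nat.mod_eq_sub_mod (by omega), Nat.mod_eq_of_lt (by omega)] at e1
            omega
        exact brk_lieGen _ (mem_brk (mem_lieGen ⟨hai, i, by omega, hei⟩)
          (mem_lieGen ⟨hb, j', by omega, heb⟩))
    · exact Submodule.zero_mem _
  have h2 := h1 hw
  rwa [Submodule.mem_comap, h.pj_of_eig (s := σ.toLinearMap) he, if_pos rfl] at h2

theorem kre_step (k : ℕ) : ∀ X : Submodule R A, brk X ≤ X → (∀ x ∈ X, σ x ∈ X) →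
    (∀ x ∈ X, σ x = ψ 0 • x → x = 0) → brk^[2 ^ k - 1] X ≤ kgen ψ σ (k + 1) X := by
  induction k with
  | zero =>
    intro X _ hi h0 x hx
    rw [← h.sum_pj σ.toLinearMap x]
    refine Submodule.sum_mem _ fun i _ => ?_
    have hxi : pj ψ σ.toLinearMap i x ∈ X := pj_mem hi i hx
    have hei : σ (pj ψ σ.toLinearMap i x) = ψ i • pj ψ σ.toLinearMap i x := pj_eig hs i x
    by_cases hi : i = 0
    · subst hi
      rw [h0 _ hxi hei]
      exact Submodule.zero_mem _
    · exact mem_lieGen ⟨hxi, i, ZMod.val_pos.2 hi, hei⟩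
  | succ k ih =>
    intro X hX hi h0
    have hsplit : 2 ^ (k + 1) - 1 = (2 ^ k - 1) + (1 + (2 ^ k - 1)) := by
      have : 0 < 2 ^ k := by positivity
      omega
    rw [hsplit, Function.iterate_add_apply, Function.iterate_add_apply, Function.iterate_one]
    have hYX : brk (kgen ψ σ (k + 1) X) ≤ X := (brk_lieGen _).trans (kgen_le σ _ hX)
    refine (brk_iter_mono _ (brk_mono (ih X hX hi h0))).trans ((ih _ (brk_mono (brk_lieGen _))
      (map_mem_brk σ (kgen_inv σ _ X)) fun x hx => h0 x (hYX hx)).trans ?_)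
    refine lieGen_le ?_ (brk_lieGen _)
    rintro x ⟨hx, j, hkj, he⟩
    by_cases hjk : j.val = k + 1
    · rw [← hjk] at hx ⊢
      exact kre_main h hs hX h0 hx he
    · exact mem_lieGen ⟨hYX hx, j, by omega, he⟩

theorem kreknin_lie {X : Submodule R A} (hX : brk X ≤ X) (hi : ∀ x ∈ X, σ x ∈ X)
    (h0 : ∀ x ∈ X, σ x = ψ 0 • x → x = 0) : brk^[2 ^ (n - 1) - 1] X ≤ ⊥ := by
  refine (kre_step h hs (n - 1) X hX hi h0).trans (lieGen_le ?_ ?_)
  · rintro x ⟨-, j, hj, -⟩
    have := ZMod.val_lt j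
    omega
  · exact brk_le_iff.2 fun a ha b _ => by rw [(Submodule.mem_bot R).1 ha]; simp

end Lie

section Core

variable {n : ℕ} {R : Type} [CommRing R] {G : Type} [Group G]

/-- no homomorphism with label `t` on an invariant subgroup -/
def NoLab (ψ : AddChar (ZMod n) R) (f : G →* G) (t : ZMod n) : Prop :=
  ∀ Y : Subgroup G, Inv f Y → ∀ (S : Type) [AddCommGroup S] [Module R S] (χ : G → S),
    (∀ a ∈ Y, ∀ b ∈ Y, χ (a * b) = χ a + χ b) → (∀ a ∈ Y, χ (f a) = ψ t • χ a) →
      ∀ a ∈ Y, χ a = 0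

theorem Der_iter_le (m : ℕ) (X : Subgroup G) : Der^[m] X ≤ X := by
  induction m with
  | zero => exact le_rfl
  | succ m ih =>
    rw [Function.iterate_succ_apply']
    exact (Subgroup.commutator_le_self _).trans ih

theorem inv_Der_iter {f : G →* G} (m : ℕ) {X : Subgroup G} (hX : Inv f X) :
    Inv f (Der^[m] X) := by
  induction m with
  | zero => exact hX
  | succ m ih =>
    rw [Function.iterate_succ_apply']
    exact ih.commutator ih

variable [NeZero n] {ψ : AddChar (ZMod n) R} {A : Type} [Ring A] [Algebra R A]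

theorem core (h : Ctx ψ) {σ : A →ₐ[R] A} (hs : (σ.toLinearMap : Module.End R A) ^ n = 1)
    {f : G →* G} {ρ : G →* A} (hσ : ∀ g, σ (ρ g) = ρ (f g)) (h0 : NoLab ψ f 0) {s : ℕ}
    (hG : derivedSeries G s = ⊥) {H : Subgroup G} (hH : Inv f H) {M : ℕ} (hM : 2 ≤ M)
    (hU : SmallU R (KK M)) (hN : aug R ρ H ^ M = ⊥) :
    ∀ g ∈ Der^[2 ^ (n - 1) - 1] H, ρ g = 1 := by
  have hN' : ∀ i, aug R ρ (Der^[i] H) ^ M = ⊥ := by
    intro i
    rw [eq_bot_iff, ← hN]
    refine pow_le_pow_left' (Submodule.span_mono ?_) M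
    rintro _ ⟨x, hx, rfl⟩
    exact ⟨x, Der_iter_le i H hx, rfl⟩
  have hinv : ∀ N : Subgroup G, Inv f N → ∀ x ∈ LL R ρ M N, σ x ∈ LL R ρ M N :=
    fun N hN => map_mem_LL σ fun x hx => ⟨_, hN x hx, hσ x⟩
  have e1 : ∀ i, LL R ρ M (Der^[i] H) ≤ brk^[i] (LL R ρ M H) := by
    intro i
    induction i with
    | zero => exact le_rfl
    | succ i ih =>
      rw [Function.iterate_succ_apply', Function.iterate_succ_apply']
      exact (LL_comm_le hU (hN' i)).trans (brk_mono ih)
  have e2 : ∀ x ∈ LL R ρ M H, σ x = ψ 0 • x → x = 0 := by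
    intro x hx he
    have key : ∀ i, x ∈ LL R ρ M (Der^[i] H) := by
      intro i
      induction i with
      | zero => exact hx
      | succ i ih =>
        rw [Function.iterate_succ_apply']
        set N := Der^[i] H with hNdef
        have hNi : Inv f N := inv_Der_iter i hH
        have h1 := h0 N hNi (A ⧸ LL R ρ M ⁅N, N⁆)
          (fun g => (LL R ρ M ⁅N, N⁆).mkQ (pj ψ σ.toLinearMap 0 (lg R M (ρ g)))) ?_ ?_
        · have h2 : LL R ρ M N ≤ (LL R ρ M ⁅N, N⁆).comap (pj ψ σ.toLinearMap 0) := by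
            refine Submodule.span_le.2 ?_
            rintro _ ⟨g, hg, rfl⟩
            exact (Submodule.Quotient.mk_eq_zero (LL R ρ M ⁅N, N⁆)).1 (h1 g hg)
          have h3 := h2 ih
          rwa [Submodule.mem_comap, h.pj_of_eig (s := σ.toLinearMap) he, if_pos rfl] at h3
        · intro a ha b hb
          rw [← map_add, ← map_add, ← sub_eq_zero, ← map_sub, ← map_sub]
          exact (Submodule.Quotient.mk_eq_zero _).2 (pj_mem (hinv _ (hNi.commutator hNi)) 0
            (brk_le_LL hU (hN' i) hM (bch_brk hU (hN' i) ha hb)))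
        · intro a _
          rw [← hσ, ← map_lg, ← map_smul, ← pj_apply_map hs]
          rfl
    have h4 := LL_mono ρ M ((Der_iter_mono s le_top).trans
      (le_of_eq ((derivedSeries_eq s).symm.trans hG))) (key s)
    have h5 : LL R ρ M (⊥ : Subgroup G) ≤ ⊥ := by
      refine Submodule.span_le.2 ?_
      rintro _ ⟨g, hg, rfl⟩
      rw [Subgroup.mem_bot.1 hg, map_one, lg_one]
      exact Submodule.zero_mem _
    exact h5 h4
  have e3 := kreknin_lie h hs (X := LL R ρ M H) ((brk_le_LL hU hN hM).trans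
    (LL_mono ρ M (Subgroup.commutator_le_self H))) (hinv H hH) e2
  intro g hg
  exact eq_one_of_lg (hU.mono (by unfold KK; omega)) (unip (hN' _) hg)
    (e3 (e1 _ (mem_LL ρ M hg)))

end Core

end Pool.Agent.Lib.MP_95ba65_al.Large
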