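import Mathlib
import Pool.Agent.Lib.MP_95ba65_al.LargeKre

/-!
The module obtained from the abelianization of a normal invariant subgroup by extension of
scalars.
-/

set_option autoImplicit false

namespace Pool.Agent.Lib.MP_95ba65_al.Large

open Finset
open scoped commutatorElement TensorProduct

variable {R : Type} [CommRing R] {G : Type} [Group G]

/-- the module attached to a normal invariant subgroup -/
structure Pkg (f : G →* G) (Y : Subgroup G) {V : Type} [AddCommGroup V] [Module R V] (ι : G → V)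
    (ρ : G →* Module.End R V) (τ : Module.End R V) : Prop where
  add : ∀ a ∈ Y, ∀ b ∈ Y, ι (a * b) = ι a + ι b
  inj : ∀ a ∈ Y, ι a = 0 → a ∈ ⁅Y, Y⁆
  rho : ∀ g, ∀ y ∈ Y, ρ g (ι y) = ι (g * y * g⁻¹)
  tau : ∀ y ∈ Y, τ (ι y) = ι (f y)
  span : Submodule.span R (ι '' Y) = ⊤

theorem exists_pkg {q : ℕ} (l : R →+ ZMod q) (hl : l 1 = 1) (hq : ∀ g : G, g ^ q = 1)
    (f : G →* G) (Y : Subgroup G) [Y.Normal] (hY : Inv f Y) :
    ∃ (V : Type) (_ : AddCommGroup V) (_ : Module R V) (ι : G → V) (ρ : G →* Module.End R V)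
      (τ : Module.End R V), Pkg f Y ι ρ τ := by
  classical
  let Ab := Additive (Abelianization Y)
  let V := R ⊗[ℤ] Ab
  let j : Y → V := fun y => (1 : R) ⊗ₜ[ℤ] Additive.ofMul (Abelianization.of y)
  let T : (Y →* Y) → Module.End R V := fun c =>
    ((MonoidHom.toAdditive (Abelianization.map c)).toIntLinearMap).baseChange R
  have hT : ∀ c y, T c (j y) = j (c y) := fun c y => rfl
  let ι : G → V := fun g => if h : g ∈ Y then j ⟨g, h⟩ else 0
  have hι : ∀ y : Y, ι y = j y := fun y => dif_pos y.2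
  have hspan : Submodule.span R (ι '' Y) = ⊤ := by
    rw [eq_top_iff]
    intro v _
    induction v using TensorProduct.induction_on with
    | zero => exact Submodule.zero_mem _
    | add a b ha hb => exact Submodule.add_mem _ (ha trivial) (hb trivial)
    | tmul r a =>
      obtain ⟨y, hy⟩ : ∃ y : Y, Additive.ofMul (Abelianization.of y) = a :=
        QuotientGroup.mk_surjective (Additive.toMul a)
      have : r ⊗ₜ[ℤ] a = r • ι y := by
        rw [hι, ← hy, TensorProduct.smul_tmul', smul_eq_mul, mul_one]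
      rw [this]
      exact Submodule.smul_mem _ _ (Submodule.subset_span ⟨y, y.2, rfl⟩)
  have hext : ∀ S S' : Module.End R V, (∀ y : Y, S (j y) = S' (j y)) → S = S' := by
    intro S S' h
    refine LinearMap.ext_on hspan ?_
    rintro _ ⟨y, hy, rfl⟩
    rw [hι ⟨y, hy⟩]
    exact h _
  let ρ : G →* Module.End R V :=
    { toFun := fun g => T (MulAut.conjNormal g : MulAut Y)
      map_one' := hext _ _ fun y => by rw [hT]; simp
      map_mul' := fun a b => hext _ _ fun y => by
        rw [Module.End.mul_apply, hT, hT, hT]; simp }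
  refine ⟨V, inferInstance, inferInstance, ι, ρ, T (res f Y hY), ?_, ?_, ?_, ?_, hspan⟩
  · intro a ha b hb
    rw [hι ⟨a, ha⟩, hι ⟨b, hb⟩, ← TensorProduct.tmul_add, ← ofMul_mul, ← map_mul]
    exact hι (⟨a, ha⟩ * ⟨b, hb⟩)
  · intro a ha h0
    rw [hι ⟨a, ha⟩] at h0
    have hA : ∀ x : Ab, q • x = 0 := by
      intro x
      obtain ⟨y, hy⟩ : ∃ y : Y, Additive.ofMul (Abelianization.of y) = x :=
        QuotientGroup.mk_surjective (Additive.toMul x)
      rw [← hy, ← ofMul_pow, ← map_pow, show y ^ q = 1 from Subtype.ext (hq y), map_one, ofMul_one]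
    let _ := AddCommGroup.zmodModule hA
    let Λ : V →+ Ab := TensorProduct.liftAddHom ((smulAddHom (ZMod q) Ab).comp l)
      fun r m x => by simp only [map_zsmul, AddMonoidHom.smul_apply]
    have h1 : Λ (j ⟨a, ha⟩) = Additive.ofMul (Abelianization.of ⟨a, ha⟩) := by
      change l 1 • (Additive.ofMul (Abelianization.of ⟨a, ha⟩) : Ab) = _
      rw [hl, one_smul]
    rw [h0, map_zero, eq_comm, ofMul_eq_zero, ← MonoidHom.mem_ker, Abelianization.ker_of] at h1
    rw [← Subgroup.map_subtype_commutator]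
    exact ⟨_, h1, rfl⟩
  · intro g y hy
    rw [hι ⟨y, hy⟩]
    exact (hT _ _).trans (hι _).symm
  · intro y hy
    rw [hι ⟨y, hy⟩]
    exact (hT _ _).trans (hι _).symm

namespace Pkg

variable {f : G →* G} {Y : Subgroup G} {V : Type} [AddCommGroup V] [Module R V] {ι : G → V}
  {ρ : G →* Module.End R V} {τ : Module.End R V} (P : Pkg f Y ι ρ τ)
include P

theorem ext {W : Type} [AddCommGroup W] [Module R W] {S S' : V →ₗ[R] W}
    (h : ∀ y ∈ Y, S (ι y) = S' (ι y)) : S = S' := by
  refine LinearMap.ext_on P.span ?_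
  rintro _ ⟨y, hy, rfl⟩
  exact h y hy

theorem one : ι 1 = 0 := by simpa using P.add 1 Y.one_mem 1 Y.one_mem

theorem inv {a : G} (ha : a ∈ Y) : ι a⁻¹ = -ι a := by
  have := P.add a ha a⁻¹ (Y.inv_mem ha)
  rw [mul_inv_cancel, P.one] at this
  exact eq_neg_of_add_eq_zero_right this.symm

theorem comm [Y.Normal] (g : G) {y : G} (hy : y ∈ Y) : (ρ g - 1) (ι y) = ι ⁅g, y⁆ := by
  rw [commutatorElement_def, P.add _ (‹Y.Normal›.conj_mem y hy g) _ (Y.inv_mem hy), P.inv hy,
    ← P.rho g y hy, LinearMap.sub_apply, sub_eq_add_neg]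
  rfl

theorem tau_pow (hY : Inv f Y) {n : ℕ} (hf : ∀ x, f^[n] x = x) : τ ^ n = 1 := by
  have : ∀ k, ∀ y ∈ Y, f^[k] y ∈ Y ∧ (τ ^ k) (ι y) = ι (f^[k] y) := by
    intro k y hy
    induction k with
    | zero => exact ⟨hy, rfl⟩
    | succ k ih =>
      rw [Function.iterate_succ_apply', pow_succ', Module.End.mul_apply, ih.2, P.tau _ ih.1]
      exact ⟨hY _ ih.1, rfl⟩
  exact P.ext fun y hy => by rw [(this n y hy).2, hf]; rfl

theorem tau_rho [Y.Normal] (hY : Inv f Y) (g : G) : τ * ρ g = ρ (f g) * τ :=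
  P.ext fun y hy => by
    rw [Module.End.mul_apply, Module.End.mul_apply, P.rho g y hy,
      P.tau _ (‹Y.Normal›.conj_mem y hy g), P.tau y hy, P.rho _ _ (hY y hy), map_mul, map_mul,
      map_inv]

theorem aug_nil [Y.Normal] [Group.IsNilpotent G] (H : Subgroup G) :
    ∃ L, aug R ρ H ^ L = ⊥ := by
  obtain ⟨c, hc⟩ := exists_Gam_bot (G := G)
  let U : ℕ → Submodule R V := fun k => Submodule.span R (ι '' ↑(Y ⊓ Gam G k))
  have h1 : ∀ k, aug R ρ H ≤ secJ (U k) (U (k + 1)) := by
    intro k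
    refine Submodule.span_le.2 ?_
    rintro _ ⟨g, -, rfl⟩
    have : U k ≤ (U (k + 1)).comap (ρ g - 1) := by
      refine Submodule.span_le.2 ?_
      rintro _ ⟨y, hy, rfl⟩
      change (ρ g - 1) (ι y) ∈ U (k + 1)
      rw [P.comm g hy.1]
      refine Submodule.subset_span ⟨_, ⟨?_, ?_⟩, rfl⟩
      · rw [commutatorElement_def]
        exact Y.mul_mem (‹Y.Normal›.conj_mem y hy.1 g) (Y.inv_mem hy.1)
      · rw [← commutatorElement_inv]
        exact Subgroup.inv_mem _ (Subgroup.commutator_mem_commutator hy.2 (Subgroup.mem_top g))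
    exact fun x hx => this hx
  have h2 : ∀ k, aug R ρ H ^ k ≤ secJ ⊤ (U k) := by
    intro k
    induction k with
    | zero =>
      intro x _ v _
      have : U 0 = ⊤ := by
        rw [← P.span]
        simp [U, Gam]
      rw [this]
      trivial
    | succ k ih =>
      rw [pow_succ']
      exact Submodule.mul_le.2 fun a ha b hb v hv => h1 k ha _ (ih hb v hv)
  refine ⟨c, eq_bot_iff.2 fun x hx => ?_⟩
  have h3 : U c ≤ ⊥ := by
    refine Submodule.span_le.2 ?_
    rintro _ ⟨y, hy, rfl⟩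
    have := hy.2
    rw [hc c le_rfl] at this
    rw [Subgroup.mem_bot.1 this, P.one]
    exact Submodule.zero_mem _
  ext v
  exact h3 (h2 c hx v trivial)

theorem pj_eq_zero {n : ℕ} [NeZero n] {ψ : AddChar (ZMod n) R} (hY : Inv f Y)
    (hf : ∀ x, f^[n] x = x) {t : ZMod n} (ht : NoLab ψ f t) : pj ψ τ t = 0 :=
  P.ext (ht Y hY V (fun g => pj ψ τ t (ι g)) (fun a ha b hb => by rw [P.add a ha b hb, map_add])
    fun a ha => by rw [← P.tau a ha, pj_apply_map (P.tau_pow hY hf)])

end Pkg

section Sig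

variable {A : Type} [Ring A] [Algebra R A]

/-- conjugation by an element of finite order -/
def sig (R : Type) [CommRing R] [Algebra R A] {τ : A} {m : ℕ} (h : τ ^ (m + 1) = 1) :
    A →ₐ[R] A where
  toFun x := τ * x * τ ^ m
  map_one' := by rw [mul_one, ← pow_succ', h]
  map_mul' x y := by
    simp only [mul_assoc]
    rw [← mul_assoc (τ ^ m) τ, ← pow_succ, h, one_mul]
  map_zero' := by simp
  map_add' x y := by rw [mul_add, add_mul]
  commutes' r := by rw [← Algebra.commutes, mul_assoc, ← pow_succ', h, mul_one]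

theorem sig_mul {τ : A} {m : ℕ} (h : τ ^ (m + 1) = 1) (x : A) : sig R h x * τ = τ * x := by
  change τ * x * τ ^ m * τ = τ * x
  rw [mul_assoc, ← pow_succ, h, mul_one]

theorem exists_sig {τ : A} {n : ℕ} [NeZero n] (h : τ ^ n = 1) :
    ∃ σ : A →ₐ[R] A, (σ.toLinearMap : Module.End R A) ^ n = 1 ∧ (∀ x, σ x * τ = τ * x) ∧
      ∀ x y, τ * x = y * τ → σ x = y := by
  obtain ⟨m, rfl⟩ := Nat.exists_eq_succ_of_ne_zero (NeZero.ne n)
  refine ⟨sig R h, ?_, sig_mul h, fun x y hxy => ?_⟩
  · have : ∀ k x, (((sig R h).toLinearMap : Module.End R A) ^ k) x * τ ^ k = τ ^ k * x := by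
      intro k x
      induction k with
      | zero => simp
      | succ k ih =>
        rw [pow_succ', pow_succ' τ, Module.End.mul_apply, ← mul_assoc, AlgHom.toLinearMap_apply,
          sig_mul, mul_assoc, ih, mul_assoc]
    ext x
    simpa [h] using this (m + 1) x
  · change τ * x * τ ^ m = y
    rw [hxy, mul_assoc, ← pow_succ', h, mul_one]

end Sig

end Pool.Agent.Lib.MP_95ba65_al.Large
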