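import Mathlib
import Pool.Agent.Lib.MP_95ba65_al.LargeMod

/-!
Labels, good elements and a critical abelian subgroup.
-/

set_option autoImplicit false

namespace Pool.Agent.Lib.MP_95ba65_al.Large

open Finset
open scoped commutatorElement

theorem exists_coprime_add {a b n : ℕ} (hn : n ≠ 0) (h : Nat.gcd (Nat.gcd a b) n = 1) :
    ∃ k, Nat.Coprime n (a + k * b) := by
  classical
  refine ⟨∏ p ∈ n.primeFactors.filter (fun p => ¬ p ∣ a), p, Nat.coprime_of_dvd ?_⟩
  intro p hp hpn hpa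
  by_cases ha : p ∣ a
  · rcases (Nat.Prime.dvd_mul hp).1 ((Nat.dvd_add_right ha).1 hpa) with hk | hb
    · obtain ⟨p', hp', hpp⟩ := (Nat.Prime.prime hp).exists_mem_finset_dvd hk
      rw [Finset.mem_filter] at hp'
      rw [(Nat.prime_dvd_prime_iff_eq hp (Nat.prime_of_mem_primeFactors hp'.1)).1 hpp] at ha
      exact hp'.2 ha
    · exact hp.ne_one (Nat.dvd_one.1 (h ▸ Nat.dvd_gcd (Nat.dvd_gcd ha hb) hpn))
  · refine ha ((Nat.dvd_add_left (Dvd.dvd.mul_right ?_ b)).1 hpa)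
    exact Finset.dvd_prod_of_mem _
      (Finset.mem_filter.2 ⟨Nat.mem_primeFactors.2 ⟨hp, hpn, hn⟩, ha⟩)

theorem exists_gcd_add (a b : ℕ) {n : ℕ} (hn : n ≠ 0) :
    ∃ k, Nat.gcd n (a + k * b) = Nat.gcd (Nat.gcd a b) n := by
  set g := Nat.gcd (Nat.gcd a b) n with hg
  have hg0 : 0 < g := Nat.gcd_pos_of_pos_right _ (Nat.pos_of_ne_zero hn)
  obtain ⟨a', ha⟩ : g ∣ a := (Nat.gcd_dvd_left _ _).trans (Nat.gcd_dvd_left _ _)
  obtain ⟨b', hb⟩ : g ∣ b := (Nat.gcd_dvd_left _ _).trans (Nat.gcd_dvd_right _ _)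
  obtain ⟨n', hn'⟩ : g ∣ n := Nat.gcd_dvd_right _ _
  have h1 : Nat.gcd (Nat.gcd a' b') n' = 1 := by
    have : g * Nat.gcd (Nat.gcd a' b') n' = g * 1 := by
      rw [← Nat.gcd_mul_left, ← Nat.gcd_mul_left, ← ha, ← hb, ← hn', mul_one]
    exact Nat.eq_of_mul_eq_mul_left hg0 this
  obtain ⟨k, hk⟩ := exists_coprime_add (n := n') (by rintro rfl; exact hn (by simpa using hn')) h1
  refine ⟨k, ?_⟩
  have : a + k * b = g * (a' + k * b') := by
    conv_lhs => rw [ha, hb]
    ring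
  rw [this]
  conv_lhs => rw [hn']
  rw [Nat.gcd_mul_left, hk, mul_one]

theorem coset_meets {n : ℕ} [NeZero n] (j t : ZMod n) :
    ∃ k : ℕ, k < n ∧ (t + k * j = 0 ∨ addOrderOf j < addOrderOf (t + k * j)) := by
  have hn := NeZero.ne n
  suffices h : ∃ k : ZMod n, t + k * j = 0 ∨ addOrderOf j < addOrderOf (t + k * j) by
    obtain ⟨k, hk⟩ := h
    exact ⟨k.val, ZMod.val_lt k, by simpa using hk⟩
  obtain ⟨k, hk⟩ := exists_gcd_add t.val j.val hn
  have h1 : Nat.gcd (Nat.gcd t.val j.val) n ∣ Nat.gcd n j.val :=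
    Nat.dvd_gcd (Nat.gcd_dvd_right _ _) ((Nat.gcd_dvd_left _ _).trans (Nat.gcd_dvd_right _ _))
  rcases (Nat.le_of_dvd (Nat.gcd_pos_of_pos_left _ (Nat.pos_of_ne_zero hn)) h1).lt_or_eq with
    h2 | h2
  · refine ⟨k, Or.inr ?_⟩
    have e1 : t + k * j = ((t.val + k * j.val : ℕ) : ZMod n) := by simp
    have e2 : j = ((j.val : ℕ) : ZMod n) := by simp
    rw [e1, ZMod.addOrderOf_coe _ hn, hk]
    conv_lhs => rw [e2, ZMod.addOrderOf_coe _ hn]
    exact (Nat.div_lt_div_left hn (Nat.gcd_dvd_left _ _) (Nat.gcd_dvd_right _ _)).2 h2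
  · obtain ⟨c, hc⟩ : Nat.gcd n j.val ∣ t.val :=
      h2 ▸ (Nat.gcd_dvd_left _ _).trans (Nat.gcd_dvd_left _ _)
    refine ⟨-((Nat.gcdB n j.val : ℤ) * c), Or.inl ?_⟩
    have e1 : ((Nat.gcd n j.val : ℕ) : ZMod n) = j * (Nat.gcdB n j.val : ℤ) := by
      have := congrArg (Int.cast : ℤ → ZMod n) (Nat.gcd_eq_gcd_ab n j.val)
      simpa using this
    have e2 : t = ((Nat.gcd n j.val : ℕ) : ZMod n) * c := by
      rw [← Nat.cast_mul, ← hc]; simp
    rw [e2, e1]
    ring

variable {n : ℕ} [NeZero n] {R : Type} [CommRing R] {ψ : AddChar (ZMod n) R}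

theorem eig_pow_eq_zero (h : Ctx ψ) {V : Type} [AddCommGroup V] [Module R V]
    {τ x : Module.End R V} (hτ : τ ^ n = 1) {j : ZMod n} (hx : τ * x = ψ j • x * τ)
    (h0 : ∀ t, t = 0 ∨ addOrderOf j < addOrderOf t → pj ψ τ t = 0) : x ^ n = 0 := by
  ext v
  rw [← h.sum_pj τ v, map_sum]
  refine Finset.sum_eq_zero fun t _ => ?_
  have key : ∀ k : ℕ, τ ((x ^ k) (pj ψ τ t v)) = ψ (t + k * j) • (x ^ k) (pj ψ τ t v) := by
    intro k
    induction k with
    | zero => simpa using pj_eig hτ t v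
    | succ k ih =>
      rw [pow_succ', Module.End.mul_apply, ← Module.End.mul_apply τ x, hx, Module.End.mul_apply, ih,
        LinearMap.smul_apply, map_smul, smul_smul, ← AddChar.map_add_eq_mul]
      congr 2
      push_cast
      ring
  obtain ⟨k, hk, hkt⟩ := coset_meets j t
  have h1 := h.pj_of_eig (key k) (t + k * j)
  rw [if_pos rfl, h0 _ hkt] at h1
  have h2 : x ^ n = x ^ (n - k) * x ^ k := by rw [← pow_add, Nat.sub_add_cancel hk.le]
  rw [h2, Module.End.mul_apply, ← h1]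
  simp

variable {G : Type} [Group G]

/-- the invariant subgroup generated by a set -/
def Orb (f : G →* G) (T : Set G) : Subgroup G :=
  Subgroup.closure {x | ∃ u ∈ T, ∃ i : ℕ, x = f^[i] u}

theorem inv_Orb (f : G →* G) (T : Set G) : Inv f (Orb f T) := by
  apply inv_closure
  rintro _ ⟨u, hu, i, rfl⟩
  exact Subgroup.subset_closure ⟨u, hu, i + 1, (Function.iterate_succ_apply' _ _ _).symm⟩

theorem mem_Orb (f : G →* G) {T : Set G} {u : G} (hu : u ∈ T) : u ∈ Orb f T :=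
  Subgroup.subset_closure ⟨u, hu, 0, rfl⟩

theorem Inv.iter {f : G →* G} {Y : Subgroup G} (hY : Inv f Y) (i : ℕ) {y : G} (hy : y ∈ Y) :
    f^[i] y ∈ Y := by
  induction i with
  | zero => exact hy
  | succ i ih => rw [Function.iterate_succ_apply']; exact hY _ ih

theorem Orb_le {f : G →* G} {T : Set G} {Y : Subgroup G} (hY : Inv f Y) (hT : T ⊆ Y) :
    Orb f T ≤ Y := by
  refine (Subgroup.closure_le _).2 ?_
  rintro _ ⟨u, hu, i, rfl⟩
  exact Inv.iter hY i (hT hu)

/-- a homomorphism with label `j` on an invariant subgroup -/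
structure Lab (ψ : AddChar (ZMod n) R) (f : G →* G) (Y : Subgroup G) (j : ZMod n) {S : Type}
    [AddCommGroup S] [Module R S] (χ : G → S) : Prop where
  add : ∀ a ∈ Y, ∀ b ∈ Y, χ (a * b) = χ a + χ b
  lab : ∀ a ∈ Y, χ (f a) = ψ j • χ a

/-- a word in the images of `y` -/
noncomputable def wd (n : ℕ) [NeZero n] (f : G →* G) (e : ℕ) (y : G) : G :=
  y ^ n * ((Finset.univ : Finset (ZMod n)).toList.map fun i => f^[e * i.val] y).prod⁻¹

theorem wd_mem {f : G →* G} {Y : Subgroup G} (hY : Inv f Y) (e : ℕ) {y : G} (hy : y ∈ Y) :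
    wd n f e y ∈ Y := by
  refine Y.mul_mem (Y.pow_mem hy n) (Y.inv_mem (Y.list_prod_mem ?_))
  intro x hx
  obtain ⟨i, -, rfl⟩ := List.mem_map.1 hx
  exact Inv.iter hY _ hy

/-- composite words -/
noncomputable def wds (n : ℕ) [NeZero n] (f : G →* G) : ℕ → G → G
  | 0, y => y
  | e + 1, y => wd n f (e + 1) (wds n f e y)

theorem wds_mem {f : G →* G} {Y : Subgroup G} (hY : Inv f Y) (e : ℕ) {y : G} (hy : y ∈ Y) :
    wds n f e y ∈ Y := by
  induction e with
  | zero => exact hy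
  | succ e ih => exact wd_mem hY _ ih

namespace Lab

variable {f : G →* G} {Y : Subgroup G} {j : ZMod n} {S : Type} [AddCommGroup S] [Module R S]
  {χ : G → S} (L : Lab ψ f Y j χ)
include L

omit [NeZero n] in
theorem one : χ 1 = 0 := by simpa using L.add 1 Y.one_mem 1 Y.one_mem

omit [NeZero n] in
theorem inv {a : G} (ha : a ∈ Y) : χ a⁻¹ = -χ a := by
  have := L.add a ha a⁻¹ (Y.inv_mem ha)
  rw [mul_inv_cancel, L.one] at this
  exact eq_neg_of_add_eq_zero_right this.symm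

omit [NeZero n] in
theorem prod {κ : Type} (l : List κ) (g : κ → G) (hg : ∀ i, g i ∈ Y) :
    χ (l.map g).prod = (l.map fun i => χ (g i)).sum := by
  induction l with
  | nil => simpa using L.one
  | cons a l ih =>
    rw [List.map_cons, List.prod_cons, L.add _ (hg a) _ (Y.list_prod_mem ?_), ih]
    · simp
    · intro x hx
      obtain ⟨i, -, rfl⟩ := List.mem_map.1 hx
      exact hg i

omit [NeZero n] in
theorem pow {a : G} (ha : a ∈ Y) (k : ℕ) : χ (a ^ k) = k • χ a := by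
  induction k with
  | zero => simpa using L.one
  | succ k ih => rw [pow_succ, L.add _ (Y.pow_mem ha k) _ ha, ih, succ_nsmul]

omit [NeZero n] in
theorem iter (hY : Inv f Y) {a : G} (ha : a ∈ Y) (k : ℕ) :
    χ (f^[k] a) = ψ ((k : ZMod n) * j) • χ a := by
  induction k with
  | zero => simp
  | succ k ih =>
    rw [Function.iterate_succ_apply', L.lab _ (Inv.iter hY k ha), ih, smul_smul,
      ← AddChar.map_add_eq_mul]
    congr 2
    push_cast
    ring

theorem wd (h : Ctx ψ) (hY : Inv f Y) (e : ℕ) {y : G} (hy : y ∈ Y) :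
    χ (wd n f e y) = if (e : ZMod n) * j = 0 then 0 else n • χ y := by
  have h1 : ∀ i : ZMod n, f^[e * i.val] y ∈ Y := fun i => Inv.iter hY _ hy
  have h2 : ((Finset.univ : Finset (ZMod n)).toList.map fun i => f^[e * i.val] y).prod ∈ Y := by
    refine Y.list_prod_mem fun x hx => ?_
    obtain ⟨i, -, rfl⟩ := List.mem_map.1 hx
    exact h1 i
  rw [Large.wd, L.add _ (Y.pow_mem hy n) _ (Y.inv_mem h2), L.inv h2, L.prod _ _ h1, L.pow hy,
    Finset.sum_map_toList]
  have h3 : ∀ i : ZMod n, χ (f^[e * i.val] y) = ψ (i * (e * j)) • χ y := by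
    intro i
    rw [L.iter hY hy]
    congr 2
    simp only [Nat.cast_mul, ZMod.natCast_val, ZMod.cast_id', id_eq]
    ring
  simp only [h3, ← Finset.sum_smul]
  split_ifs with he
  · simp [he, Nat.cast_smul_eq_nsmul]
  · rw [h.orth _ he]
    simp

theorem wds_lt (h : Ctx ψ) (hY : Inv f Y) (e : ℕ) (he : e < addOrderOf j) {y : G} (hy : y ∈ Y)
    (h0 : χ (wds n f e y) = 0) : χ y = 0 := by
  induction e with
  | zero => exact h0
  | succ e ih =>
    apply ih (by omega)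
    rw [wds, L.wd h hY _ (wds_mem hY e hy), if_neg] at h0
    · exact (Submodule.mem_bot R).1 (cancel_nsmul h.unit (S := ⊥) (h0 ▸ Submodule.zero_mem _))
    · rw [← nsmul_eq_mul]
      exact nsmul_ne_zero_of_lt_addOrderOf (by omega) he

theorem wds_ge (h : Ctx ψ) (hY : Inv f Y) (e : ℕ) (he : addOrderOf j ≤ e) {y : G} (hy : y ∈ Y) :
    χ (wds n f e y) = 0 := by
  induction e with
  | zero => exact absurd (addOrderOf_pos j) (by omega)
  | succ e ih =>
    rw [wds, L.wd h hY _ (wds_mem hY e hy)]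
    split_ifs with h1
    · rfl
    · rw [ih, smul_zero]
      by_contra h2
      apply h1
      rw [← nsmul_eq_mul, show e + 1 = addOrderOf j by omega]
      exact addOrderOf_nsmul_eq_zero j

end Lab

/-- all homomorphisms with a label of order at most `e` kill `u` -/
def Good (ψ : AddChar (ZMod n) R) (f : G →* G) (e : ℕ) (u : G) : Prop :=
  ∀ j : ZMod n, addOrderOf j ≤ e → ∀ (S : Type) [AddCommGroup S] [Module R S] (χ : G → S),
    Lab ψ f (Orb f {u}) j χ → χ u = 0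

theorem exists_good [Finite G] (h : Ctx ψ) (f : G →* G) (e : ℕ) (y : G) :
    ∃ u, Good ψ f e u ∧ ∀ j : ZMod n, e < addOrderOf j → ∀ Y : Subgroup G, Inv f Y → y ∈ Y →
      u ∈ Y ∧ ∀ (S : Type) [AddCommGroup S] [Module R S] (χ : G → S), Lab ψ f Y j χ → χ u = 0 →
        χ y = 0 := by
  induction hO : Orb f {y} using WellFoundedLT.induction generalizing y with
  | ind O ih =>
    subst hO
    have hy : y ∈ Orb f {y} := mem_Orb f rfl
    have h1 : Orb f {wds n f e y} ≤ Orb f {y} :=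
      Orb_le (inv_Orb f _) (Set.singleton_subset_iff.2 (wds_mem (inv_Orb f _) e hy))
    rcases h1.lt_or_eq with h2 | h2
    · obtain ⟨u, hu, hu'⟩ := ih _ h2 _ rfl
      refine ⟨u, hu, fun j hj Y hY hyY => ?_⟩
      obtain ⟨h3, h4⟩ := hu' j hj Y hY (wds_mem hY e hyY)
      exact ⟨h3, fun S _ _ χ L h0 => L.wds_lt h hY e hj hyY (h4 S χ L h0)⟩
    · refine ⟨wds n f e y, fun j hj S _ _ χ L => ?_, fun j hj Y hY hyY =>
        ⟨wds_mem hY e hyY, fun S _ _ χ L h0 => L.wds_lt h hY e hj hyY h0⟩⟩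
      rw [h2] at L
      exact L.wds_ge h (inv_Orb f _) e hj hy

omit [NeZero n] in
theorem noLab_zero [Finite G] {f : G →* G} (hf : ∀ x, f x = x → x = 1) : NoLab ψ f 0 := by
  intro Y hY S _ _ χ h1 h2 a ha
  have L : Lab ψ f Y 0 χ := ⟨h1, h2⟩
  let c : Y → Y := fun y => ⟨(y : G)⁻¹ * f y, Y.mul_mem (Y.inv_mem y.2) (hY _ y.2)⟩
  have hc : Function.Injective c := by
    intro y z hyz
    have e : (y : G)⁻¹ * f y = (z : G)⁻¹ * f z := congrArg Subtype.val hyz
    have := hf ((z : G) * (y : G)⁻¹) (by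
      rw [map_mul, map_inv, ← mul_inv_cancel_left (z : G) (f z), ← e]; group)
    exact Subtype.ext (mul_inv_eq_one.1 this).symm
  obtain ⟨y, hy⟩ := Finite.surjective_of_injective hc ⟨a, ha⟩
  have e : a = (y : G)⁻¹ * f y := (congrArg Subtype.val hy).symm
  rw [e, h1 _ (Y.inv_mem y.2) _ (hY _ y.2), L.inv y.2, h2 _ y.2]
  simp

omit [NeZero n] in
theorem NoLab.quo {f : G →* G} {t : ZMod n} (ht : NoLab ψ f t) (U : Subgroup G) [U.Normal]
    (hU : Inv f U) : NoLab ψ (quo f U hU) t := by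
  intro Y hY S _ _ χ h1 h2 a ha
  obtain ⟨a, rfl⟩ := QuotientGroup.mk_surjective a
  exact ht (Y.comap (QuotientGroup.mk' U)) (fun x hx => hY _ hx) S (fun g => χ g)
    (fun a ha b hb => h1 _ ha _ hb) (fun a ha => h2 _ ha) a ha

theorem inv_centralizer {f : G →* G} (hf : ∀ x, f^[n] x = x) {A : Subgroup G} (hA : Inv f A) :
    Inv f (Subgroup.centralizer (A : Set G)) := by
  intro x hx a ha
  obtain ⟨m, rfl⟩ := Nat.exists_eq_succ_of_ne_zero (NeZero.ne n)
  rw [← hf a, Function.iterate_succ_apply', ← map_mul, ← map_mul, hx _ (Inv.iter hA m ha)]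

theorem exists_critical [Finite G] [Group.IsNilpotent G] {f : G →* G} (hf : ∀ x, f^[n] x = x) :
    ∃ A : Subgroup G, A.Normal ∧ Inv f A ∧ ⁅A, A⁆ = ⊥ ∧
      ∀ N : Subgroup G, N ≤ Subgroup.centralizer (A : Set G) → Der^[2] N = ⊥ := by
  obtain ⟨A, hA, hmax⟩ := exists_maximal_of_wellFoundedGT
    (fun A : Subgroup G => A.Normal ∧ Inv f A ∧ A ≤ Subgroup.centralizer (A : Set G))
    ⟨⊥, inferInstance, fun x hx => by rw [Subgroup.mem_bot.1 hx, map_one]; exact one_mem _, bot_le⟩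
  obtain ⟨hAn, hAi, hAc⟩ := hA
  let B : Subgroup G :=
    { carrier := {x | x ∈ Subgroup.centralizer (A : Set G) ∧ ∀ g, ⁅x, g⁆ ∈ A}
      mul_mem' := fun {a b} ha hb => ⟨Subgroup.mul_mem _ ha.1 hb.1, fun g => by
        have : ⁅a * b, g⁆ = a * ⁅b, g⁆ * a⁻¹ * ⁅a, g⁆ := by
          simp only [commutatorElement_def]; group
        rw [this]
        exact A.mul_mem (hAn.conj_mem _ (hb.2 g) a) (ha.2 g)⟩
      one_mem' := ⟨Subgroup.one_mem _, fun g => by simp⟩
      inv_mem' := fun {a} ha => ⟨Subgroup.inv_mem _ ha.1, fun g => by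
        have : ⁅a⁻¹, g⁆ = a⁻¹ * ⁅a, g⁆⁻¹ * a⁻¹⁻¹ := by
          simp only [commutatorElement_def]; group
        rw [this]
        exact hAn.conj_mem _ (A.inv_mem (ha.2 g)) _⟩ }
  have hAB : A ≤ B := fun a ha => ⟨hAc ha, fun g => by
    have : ⁅a, g⁆ = a * (g * a⁻¹ * g⁻¹) := by simp only [commutatorElement_def]; group
    rw [this]
    exact A.mul_mem ha (hAn.conj_mem _ (A.inv_mem ha) g)⟩
  have hBn : B.Normal := ⟨fun x hx y => by
    have : y * x * y⁻¹ = ⁅x, y⁆⁻¹ * x := by simp only [commutatorElement_def]; group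
    rw [this]
    exact B.mul_mem (hAB (A.inv_mem (hx.2 y))) hx⟩
  have hBi : Inv f B := fun x hx => ⟨inv_centralizer hf hAi x hx.1, fun g => by
    obtain ⟨m, rfl⟩ := Nat.exists_eq_succ_of_ne_zero (NeZero.ne n)
    rw [← hf g, Function.iterate_succ_apply', ← map_commutatorElement]
    exact hAi _ (hx.2 _)⟩
  have h1 : B ⊓ Subgroup.centralizer (B : Set G) ≤ A := by
    refine hmax ⟨inferInstance, hBi.inf (inv_centralizer hf hBi), fun x hx y hy => hx.2 y hy.1⟩ ?_
    exact le_inf hAB fun a ha b hb => (hb.1 a ha).symm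
  have h2 : Subgroup.centralizer (B : Set G) ≤ A := by
    obtain ⟨c, hc⟩ := exists_Gam_bot (G := G)
    have key : ∀ r, Subgroup.centralizer (B : Set G) ⊓ Gam G r ≤ A := by
      refine desc_ind c (fun r hr => by rw [hc r hr]; simp) fun r ih x hx => ?_
      refine h1 ⟨⟨fun a ha => hx.1 a (hAB ha), fun g => ih ⟨?_, ?_⟩⟩, hx.1⟩
      · have : ⁅x, g⁆ = x * (g * x⁻¹ * g⁻¹) := by simp only [commutatorElement_def]; group
        rw [this]
        exact Subgroup.mul_mem _ hx.1 (Subgroup.Normal.conj_mem inferInstance _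
          (Subgroup.inv_mem _ hx.1) g)
      · exact Subgroup.commutator_mem_commutator hx.2 (Subgroup.mem_top g)
    exact fun x hx => key 0 ⟨hx, Subgroup.mem_top x⟩
  refine ⟨A, hAn, hAi, Subgroup.commutator_eq_bot_iff_le_centralizer.2 hAc, fun N hN => ?_⟩
  have h3 : ⁅B, N⁆ ≤ A := Subgroup.commutator_le.2 fun b hb g _ => hb.2 g
  have h4 : ⁅⁅B, N⁆, N⁆ = ⊥ := by
    rw [Subgroup.commutator_comm, Subgroup.commutator_eq_bot_iff_le_centralizer]
    exact hN.trans (Subgroup.centralizer_le h3)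
  have h5 : ⁅N, N⁆ ≤ A := by
    refine le_trans ?_ h2
    rw [← Subgroup.commutator_eq_bot_iff_le_centralizer]
    exact Subgroup.commutator_commutator_eq_bot_of_rotate (by rwa [Subgroup.commutator_comm N B]) h4
  exact eq_bot_iff.2 ((Subgroup.commutator_mono h5 h5).trans
    (Subgroup.commutator_eq_bot_iff_le_centralizer.2 hAc).le)

end Pool.Agent.Lib.MP_95ba65_al.Large
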