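import Mathlib
import Pool.Agent.Lib.MP_95ba65_al.LargeGood

/-!
The induction on the largest order of a label.
-/

set_option autoImplicit false

namespace Pool.Agent.Lib.MP_95ba65_al.Large

open Finset Polynomial
open scoped commutatorElement

variable {n : ℕ} [NeZero n] {R : Type} [CommRing R] {ψ : AddChar (ZMod n) R}
  {G : Type} [Group G]

/-- the label zero and the labels of order larger than `d` are absent -/
def Abs (ψ : AddChar (ZMod n) R) (f : G →* G) (d : ℕ) : Prop :=
  ∀ t : ZMod n, t = 0 ∨ d < addOrderOf t → NoLab ψ f t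

theorem pow_anti {A : Type} [Ring A] [Algebra R A] {I : Submodule R A} (hI : I * I ≤ I) (a k : ℕ) :
    I ^ (a + 1 + k) ≤ I ^ (a + 1) := by
  induction k with
  | zero => exact le_rfl
  | succ k ih =>
    refine le_trans ?_ ih
    rw [← add_assoc, add_right_comm a 1 k, ← fil_succ hI, ← fil_succ hI]
    exact fil_anti hI _

theorem map_mem_aug {A : Type} [Ring A] [Algebra R A] {σ : A →ₐ[R] A} {f : G →* G} {ρ : G →* A}
    (hσ : ∀ g, σ (ρ g) = ρ (f g)) {H : Subgroup G} (hH : Inv f H) :
    ∀ x ∈ aug R ρ H, σ x ∈ aug R ρ H := by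
  have : aug R ρ H ≤ (aug R ρ H).comap σ.toLinearMap := by
    refine Submodule.span_le.2 ?_
    rintro _ ⟨h, hh, rfl⟩
    change σ _ ∈ aug R ρ H
    rw [map_sub, map_one, hσ]
    exact mem_aug ρ (hH h hh)
  exact fun x hx => this hx

theorem stepA (h : Ctx ψ) {s M K : ℕ} (hP : LGP s n n M K) (hU : SmallU R K) {f : G →* G}
    (hs : derivedSeries G s = ⊥) {V : Type} [AddCommGroup V] [Module R V]
    {ρ : G →* Module.End R V} {τ : Module.End R V} (hτ : τ ^ n = 1)
    {σ : Module.End R V →ₐ[R] Module.End R V}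
    (hσn : (σ.toLinearMap : Module.End R (Module.End R V)) ^ n = 1) (hστ : ∀ x, σ x * τ = τ * x)
    (hσ : ∀ g, σ (ρ g) = ρ (f g)) (hnil : ∀ H : Subgroup G, ∃ L, aug R ρ H ^ L = ⊥) {e : ℕ}
    (hA : Abs ψ f (e + 1)) (h0 : ∀ t, NoLab ψ f t → pj ψ τ t = 0) {u : G} (hu : Good ψ f e u) :
    (ρ u - 1) ^ M = 0 := by
  have hH : Inv f (Orb f {u}) := inv_Orb f _
  have huH : u ∈ Orb f {u} := mem_Orb f rfl
  obtain ⟨L, hL⟩ := hnil (Orb f {u})
  have hI := aug_mul_le (R := R) ρ (Orb f {u})
  have hIi := map_mem_aug hσ hH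
  set I := aug R ρ (Orb f {u}) with hIdef
  let X : ZMod n → Module.End R V := fun j => pj ψ σ.toLinearMap j (ρ u - 1)
  have hXe : ∀ j, σ (X j) = ψ j • X j := fun j => pj_eig hσn j _
  refine unip (hP.aug_pow hU ρ hs (Orb f {u}) (ZMod.card n).le (X := X)
    (fun j => pj_mem hIi j (mem_aug ρ huH)) (fun j => ?_) ?_ hL) huH
  · by_cases hj : addOrderOf j = e + 1
    · rw [eig_pow_eq_zero h hτ (j := j) (by rw [← hστ, hXe]) fun t ht => h0 t (hA t (hj ▸ ht))]
      exact Submodule.zero_mem _
    · have hII : ∀ x ∈ I * I, σ x ∈ I * I := by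
        have : I * I ≤ (I * I).comap σ.toLinearMap := Submodule.mul_le.2 fun a ha b hb => by
          change σ _ ∈ I * I
          rw [map_mul]
          exact Submodule.mul_mem_mul (hIi a ha) (hIi b hb)
        exact fun x hx => this hx
      have L : Lab ψ f (Orb f {u}) j
          (fun g => (I * I).mkQ (pj ψ σ.toLinearMap j (ρ g - 1))) := by
        refine ⟨fun a ha b hb => ?_, fun a _ => ?_⟩
        · rw [← map_add, ← map_add, ← sub_eq_zero, ← map_sub, ← map_sub]
          refine (Submodule.Quotient.mk_eq_zero _).2 (pj_mem hII j ?_)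
          have : ρ (a * b) - 1 - (ρ a - 1 + (ρ b - 1)) = (ρ a - 1) * (ρ b - 1) := by
            rw [map_mul]; noncomm_ring
          rw [this]
          exact Submodule.mul_mem_mul (mem_aug ρ ha) (mem_aug ρ hb)
        · rw [← hσ, ← map_smul, ← pj_apply_map hσn]
          simp
      have h1 : X j ∈ I * I := by
        refine (Submodule.Quotient.mk_eq_zero (I * I)).1 ?_
        rcases lt_or_gt_of_ne hj with h2 | h2
        · exact hu j (by omega) _ _ L
        · exact hA j (Or.inr h2) _ hH _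
            (fun g => (I * I).mkQ (pj ψ σ.toLinearMap j (ρ g - 1))) L.add L.lab u huH
      have h2 := Submodule.pow_mem_pow _ h1 n
      rw [← pow_two, ← pow_mul, show 2 * n = n + 1 + (n - 1) by have := NeZero.pos n; omega] at h2
      exact pow_anti hI _ _ h2
  · apply aug_closure_le
    rintro _ ⟨_, rfl, i, rfl⟩
    apply Submodule.mem_sup_left
    induction i with
    | zero =>
      rw [Function.iterate_zero_apply, ← h.sum_pj σ.toLinearMap (ρ _ - 1)]
      exact Submodule.sum_mem _ fun j _ => Submodule.subset_span ⟨j, rfl⟩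
    | succ i ih =>
      have : Submodule.span R (Set.range X) ≤
          (Submodule.span R (Set.range X)).comap σ.toLinearMap := by
        refine Submodule.span_le.2 ?_
        rintro _ ⟨j, rfl⟩
        change σ _ ∈ Submodule.span R (Set.range X)
        rw [hXe]
        exact Submodule.smul_mem _ _ (Submodule.subset_span ⟨j, rfl⟩)
      have h3 := this ih
      rw [Function.iterate_succ_apply', ← hσ]
      simpa using h3

theorem normal_closure {S : Set G} (hS : ∀ x, ∀ a ∈ S, x * a * x⁻¹ ∈ S) :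
    (Subgroup.closure S).Normal := by
  refine ⟨fun a ha x => ?_⟩
  have : Subgroup.closure S ≤ (Subgroup.closure S).comap (MulAut.conj x).toMonoidHom :=
    (Subgroup.closure_le _).2 fun a ha => Subgroup.subset_closure (hS x a ha)
  exact this ha

theorem comm_closure_le {S : Set G} {N : Subgroup G} [N.Normal]
    (h : ∀ a ∈ S, ∀ b ∈ S, ⁅a, b⁆ ∈ N) : ⁅Subgroup.closure S, Subgroup.closure S⁆ ≤ N := by
  rw [← QuotientGroup.ker_mk' N, ← Subgroup.map_eq_bot_iff, Subgroup.map_commutator,
    MonoidHom.map_closure, Subgroup.commutator_eq_bot_iff_le_centralizer, Subgroup.closure_le]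
  rintro _ ⟨a, ha, rfl⟩
  have : Subgroup.closure (QuotientGroup.mk' N '' S) ≤
      Subgroup.centralizer {QuotientGroup.mk' N a} := by
    rw [Subgroup.closure_le]
    rintro _ ⟨b, hb, rfl⟩ _ rfl
    rw [← commutatorElement_eq_one_iff_mul_comm, ← map_commutatorElement]
    exact (QuotientGroup.eq_one_iff _).2 (h a ha b hb)
  exact fun x hx => (this hx _ rfl).symm

theorem map_Der_iter (c : G →* G) (k : ℕ) (X : Subgroup G) :
    (Der^[k] X).map c = Der^[k] (X.map c) := by
  induction k with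
  | zero => rfl
  | succ k ih =>
    rw [Function.iterate_succ_apply', Function.iterate_succ_apply', ← ih]
    exact Subgroup.map_commutator _ _ _

theorem Der_closure_le {S : Set G} (hS : ∀ x, ∀ a ∈ S, x * a * x⁻¹ ∈ S) (k : ℕ) :
    Der^[k] (Subgroup.closure S) ≤ Subgroup.closure {g | ∃ T : Finset G, (T : Set G) ⊆ S ∧
      T.card ≤ 2 ^ k ∧ g ∈ Der^[k] (Subgroup.closure (T : Set G))} := by
  classical
  induction k with
  | zero =>
    refine Subgroup.closure_mono fun g hg => ⟨{g}, by simpa using hg, by simp, ?_⟩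
    exact Subgroup.subset_closure (by simp)
  | succ k ih =>
    rw [Function.iterate_succ_apply']
    refine (Subgroup.commutator_mono ih ih).trans ?_
    have : (Subgroup.closure {g | ∃ T : Finset G, (T : Set G) ⊆ S ∧ T.card ≤ 2 ^ (k + 1) ∧
        g ∈ Der^[k + 1] (Subgroup.closure (T : Set G))}).Normal := by
      apply normal_closure
      rintro x a ⟨T, hT, hc, ha⟩
      refine ⟨T.image (MulAut.conj x).toMonoidHom, ?_, Finset.card_image_le.trans hc, ?_⟩
      · rw [Finset.coe_image]
        rintro _ ⟨b, hb, rfl⟩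
        exact hS x b (hT hb)
      · rw [Finset.coe_image, ← MonoidHom.map_closure, ← map_Der_iter]
        exact ⟨a, ha, rfl⟩
    apply comm_closure_le
    rintro a ⟨T, hT, hc, ha⟩ b ⟨T', hT', hc', hb⟩
    refine Subgroup.subset_closure ⟨T ∪ T', by simp [hT, hT'],
      (Finset.card_union_le _ _).trans (by omega), ?_⟩
    rw [Function.iterate_succ_apply']
    exact Subgroup.commutator_mem_commutator
      (Der_iter_mono k (Subgroup.closure_mono (by simp)) ha)
      (Der_iter_mono k (Subgroup.closure_mono (by simp)) hb)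

theorem stepB (h : Ctx ψ) {s N M K : ℕ} (hP : LGP s N (2 ^ (2 ^ (n - 1) - 1) * n) M K)
    (hU : SmallU R K) (hU' : SmallU R (KK (M + 2))) {f : G →* G} (hf : ∀ x, f^[n] x = x)
    (hs : derivedSeries G s = ⊥) {A : Type} [Ring A] [Algebra R A] {ρ : G →* A} {σ : A →ₐ[R] A}
    (hσn : (σ.toLinearMap : Module.End R A) ^ n = 1) (hσ : ∀ g, σ (ρ g) = ρ (f g))
    (hnil : ∀ H : Subgroup G, ∃ L, aug R ρ H ^ L = ⊥) (h0 : NoLab ψ f 0) :
    Der^[2 ^ (n - 1) - 1] (Subgroup.closure {g | (ρ g - 1) ^ N = 0}) ≤ ρ.ker := by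
  refine (Der_closure_le ?_ _).trans ((Subgroup.closure_le _).2 ?_)
  · intro x a ha
    have := congrArg (cj R ρ x) (show (ρ a - 1) ^ N = 0 from ha)
    rwa [map_pow, map_sub, map_one, cj_rho, map_zero] at this
  rintro g ⟨T, hT, hc, hg⟩
  obtain ⟨L, hL⟩ := hnil (Orb f T)
  have h1 : aug R ρ (Orb f T) ^ M = ⊥ := by
    refine hP.aug_pow hU ρ hs (Orb f T) (ι := T × Fin n) ?_
      (X := fun a => ρ (f^[a.2] a.1) - 1) ?_ ?_ ?_ hL
    · rw [Fintype.card_prod, Fintype.card_coe, Fintype.card_fin]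
      exact Nat.mul_le_mul_right _ hc
    · exact fun a => mem_aug ρ (Inv.iter (inv_Orb f _) _ (mem_Orb f a.1.2))
    · rintro ⟨a, i⟩
      have : ∀ i : ℕ, (ρ (f^[i] a) - 1) ^ N = 0 := by
        intro i
        induction i with
        | zero => exact hT a.2
        | succ i ih =>
          have := congrArg σ ih
          rwa [map_pow, map_sub, map_one, hσ, map_zero, ← Function.iterate_succ_apply' f] at this
      rw [this]
      exact Submodule.zero_mem _
    · apply aug_closure_le
      rintro _ ⟨a, ha, i, rfl⟩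
      refine Submodule.mem_sup_left (Submodule.subset_span
        ⟨(⟨a, ha⟩, ⟨i % n, Nat.mod_lt _ (NeZero.pos n)⟩), ?_⟩)
      exact congrArg (fun x => ρ x - 1)
        (Function.IsPeriodicPt.iterate_mod_apply (show Function.IsPeriodicPt f n a from hf a) i)
  refine core h hσn hσ h0 hs (inv_Orb f T) (M := M + 2) (by omega) hU' ?_ g
    (Der_iter_mono _ ((Subgroup.closure_le _).2 fun x hx => mem_Orb f hx) hg)
  rw [pow_add, h1, Submodule.bot_mul]

theorem main_step (n s : ℕ) [NeZero n] : ∃ K, ∀ (R : Type) [CommRing R]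
    (ψ : AddChar (ZMod n) R), Ctx ψ → SmallU R K → ∀ (q : ℕ) (l : R →+ ZMod q), l 1 = 1 →
    ∀ (d : ℕ) (G : Type) [Group G] [Finite G] [Group.IsNilpotent G] (f : G →* G), Act n q f →
    Abs ψ f d → derivedSeries G s = ⊥ → derivedSeries G (d * (2 ^ (n - 1) + 1)) = ⊥ := by
  obtain ⟨M₁, K₁, h₁⟩ := exists_LGP n s n
  obtain ⟨M₂, K₂, h₂⟩ := exists_LGP (2 ^ (2 ^ (n - 1) - 1) * n) s M₁
  refine ⟨max K₁ (max K₂ (KK (M₂ + 2))), fun R _ ψ h hU q l hl d => ?_⟩
  induction d with
  | zero =>
    intro G _ _ _ f hf hA hs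
    obtain ⟨V, _, _, ι, ρ, τ, P⟩ := exists_pkg l hl hf.expo f ⊤ (inv_top f)
    have h1 : (⊤ : Subgroup G) ≤ ⁅(⊤ : Subgroup G), (⊤ : Subgroup G)⁆ := by
      intro a ha
      apply P.inj a ha
      rw [← h.sum_pj τ (ι a)]
      refine Finset.sum_eq_zero fun t _ => ?_
      rw [P.pj_eq_zero (inv_top f) hf.iter (hA t (Or.inr (addOrderOf_pos t)))]
      rfl
    have h2 : ∀ i, (⊤ : Subgroup G) ≤ derivedSeries G i := by
      intro i
      induction i with
      | zero => exact le_rfl
      | succ i ih => exact h1.trans (Subgroup.commutator_mono ih ih)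
    exact eq_bot_iff.2 (le_top.trans ((h2 s).trans hs.le))
  | succ e ih =>
    intro G _ _ _ f hf hA hs
    obtain ⟨A, hAn, hAi, hAc, hAN⟩ := exists_critical hf.iter
    obtain ⟨V, _, _, ι, ρ, τ, P⟩ := exists_pkg l hl hf.expo f A hAi
    have hτ := P.tau_pow hAi hf.iter
    obtain ⟨σ, hσn, hστ, hσ'⟩ := exists_sig (R := R) hτ
    have hσ : ∀ g, σ (ρ g) = ρ (f g) := fun g => hσ' _ _ (P.tau_rho hAi g)
    let U := Subgroup.closure {g | (ρ g - 1) ^ M₁ = 0}
    have hUn : U.Normal := by
      apply normal_closure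
      intro x a ha
      have := congrArg (cj R ρ x) (show (ρ a - 1) ^ M₁ = 0 from ha)
      rwa [map_pow, map_sub, map_one, cj_rho, map_zero] at this
    have hUi : Inv f U := by
      apply inv_closure
      intro a ha
      have := congrArg σ (show (ρ a - 1) ^ M₁ = 0 from ha)
      rw [map_pow, map_sub, map_one, hσ, map_zero] at this
      exact Subgroup.subset_closure this
    have hB := stepB h h₂ (hU.mono (by simp)) (hU.mono (by simp)) hf.iter hs hσn hσ P.aug_nil
      (hA 0 (Or.inl rfl))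
    have hC : Der^[2] (Der^[2 ^ (n - 1) - 1] U) = ⊥ := by
      apply hAN
      intro g hg a ha
      have h1 := P.comm g ha
      rw [MonoidHom.mem_ker.1 (hB hg), sub_self, LinearMap.zero_apply] at h1
      have h2 : ⁅g, a⁆ ∈ A := by
        rw [commutatorElement_def]
        exact A.mul_mem (hAn.conj_mem a ha g) (A.inv_mem ha)
      have h3 := P.inj _ h2 h1.symm
      rw [hAc, Subgroup.mem_bot, commutatorElement_eq_one_iff_mul_comm] at h3
      exact h3.symm
    have hsurj := QuotientGroup.mk'_surjective U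
    have hQ := ih (G ⧸ U) (quo f U hUi) (hf.quo U hUi) ?_
      (by rw [← map_derivedSeries_eq hsurj, hs, Subgroup.map_bot])
    · rw [← map_derivedSeries_eq hsurj, Subgroup.map_eq_bot_iff, QuotientGroup.ker_mk',
        derivedSeries_eq] at hQ
      have e1 : (e + 1) * (2 ^ (n - 1) + 1) = 2 + ((2 ^ (n - 1) - 1) + e * (2 ^ (n - 1) + 1)) := by
        have : 0 < 2 ^ (n - 1) := by positivity
        rw [add_mul]
        omega
      rw [derivedSeries_eq, e1, Function.iterate_add_apply, Function.iterate_add_apply, eq_bot_iff,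
        ← hC]
      exact Der_iter_mono _ (Der_iter_mono _ hQ)
    · intro t ht
      by_cases h1 : t = 0 ∨ e + 1 < addOrderOf t
      · exact (hA t h1).quo U hUi
      · have h2 : e < addOrderOf t := by tauto
        intro Y hY S _ _ χ c1 c2 a ha
        obtain ⟨y, rfl⟩ := QuotientGroup.mk_surjective a
        obtain ⟨u, hu, hu'⟩ := exists_good h f e y
        obtain ⟨-, h4⟩ := hu' t h2 (Y.comap (QuotientGroup.mk' U)) (fun x hx => hY _ hx) ha
        refine h4 S (fun g => χ g) ⟨fun a ha b hb => c1 _ ha _ hb, fun a ha => c2 _ ha⟩ ?_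
        have h5 : u ∈ U := Subgroup.subset_closure (stepA h h₁ (hU.mono (by simp)) hs hτ hσn hστ hσ
          P.aug_nil hA (fun t ht => P.pj_eq_zero hAi hf.iter ht) hu)
        rw [(QuotientGroup.eq_one_iff u).2 h5]
        exact Lab.one ⟨c1, c2⟩

theorem exists_ctx (n q K : ℕ) [NeZero n] (hn : n ≤ K)
    (hq : ∀ k, 0 < k → k ≤ K → Nat.Coprime k q) :
    ∃ (R : Type) (_ : CommRing R) (ψ : AddChar (ZMod n) R) (l : R →+ ZMod q),
      Ctx ψ ∧ SmallU R K ∧ l 1 = 1 := by
  have hn0 := NeZero.pos n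
  let R := AdjoinRoot (cyclotomic n (ZMod q))
  let ζ : R := AdjoinRoot.root _
  have h1 : ∀ p : ℤ[X], cyclotomic n ℤ ∣ p → aeval ζ p = 0 := by
    rintro _ ⟨p, rfl⟩
    rw [map_mul, ← aeval_map_algebraMap (ZMod q), show algebraMap ℤ (ZMod q) = Int.castRingHom _ from
      rfl, map_cyclotomic_int, AdjoinRoot.aeval_eq, AdjoinRoot.mk_self, zero_mul]
  have hζ : ζ ^ n = 1 := by
    have := h1 _ (cyclotomic.dvd_X_pow_sub_one n ℤ)
    simpa [sub_eq_zero] using this
  have hU : SmallU R K := fun k h0 hk => by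
    have := ((ZMod.isUnit_iff_coprime k q).2 (hq k h0 hk)).map (algebraMap (ZMod q) R)
    rwa [map_natCast] at this
  refine ⟨R, inferInstance, AddChar.zmodChar n hζ, ((lcoeff (ZMod q) 0).comp
    (AdjoinRoot.modByMonicHom (cyclotomic.monic n (ZMod q)))).toAddMonoidHom,
    ⟨fun t ht => ?_, hU n hn0 hn⟩, hU, ?_⟩
  · have hμ := Complex.isPrimitiveRoot_exp n hn0.ne'
    have h2 := h1 (∑ i : ZMod n, X ^ (i * t).val) (by
      rw [cyclotomic_eq_minpoly hμ hn0]
      apply minpoly.isIntegrallyClosed_dvd (hμ.isIntegral hn0)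
      have := AddChar.sum_mulShift t (AddChar.zmodChar_primitive_of_primitive_root n hμ)
      rw [if_neg ht] at this
      simpa [AddChar.zmodChar_apply] using this)
    simpa [AddChar.zmodChar_apply] using h2
  · nontriviality ZMod q
    change (AdjoinRoot.modByMonicHom (cyclotomic.monic n (ZMod q)) (AdjoinRoot.mk _ 1)).coeff 0 = 1
    rw [AdjoinRoot.modByMonicHom_mk, (modByMonic_eq_self_iff (cyclotomic.monic n (ZMod q))).2,
      coeff_one_zero]
    rw [degree_one]
    exact degree_cyclotomic_pos n _ hn0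

theorem large_primes (n : ℕ) [NeZero n] : ∃ K, ∀ (G : Type) [Group G] [Finite G]
    [Group.IsNilpotent G] (f : G →* G), (∀ x, f^[n] x = x) → (∀ x, f x = x → x = 1) →
    (∀ p : ℕ, p.Prime → p ∣ Nat.card G → K < p) →
    derivedSeries G (n * (2 ^ (n - 1) + 1)) = ⊥ := by
  obtain ⟨K, hK⟩ := main_step n (n * (2 ^ (n - 1) + 1) + 1)
  refine ⟨max K n, fun G _ _ _ f hf hfpf hp => ?_⟩
  obtain ⟨R, _, ψ, l, h, hU, hl⟩ := exists_ctx n (Nat.card G) (max K n) (le_max_right _ _) (by
    intro k h0 hk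
    refine Nat.coprime_of_dvd fun p hp' hpk hpq => ?_
    have := hp p hp' hpq
    have := Nat.le_of_dvd h0 hpk
    omega)
  have hact : Act n (Nat.card G) f := ⟨fun _ => pow_card_eq_one', hf⟩
  have hmap : ∀ (H : Subgroup G) (k : ℕ), (derivedSeries H k).map H.subtype = Der^[k] H := by
    intro H k
    induction k with
    | zero => exact (MonoidHom.range_eq_map _).symm.trans H.range_subtype
    | succ k ih =>
      rw [Function.iterate_succ_apply', derivedSeries_succ, Subgroup.map_commutator, ih]; rfl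
  have key : ∀ H : Subgroup G, Inv f H → Der^[n * (2 ^ (n - 1) + 1) + 1] H = ⊥ →
      Der^[n * (2 ^ (n - 1) + 1)] H = ⊥ := by
    intro H hH h1
    rw [← hmap, Subgroup.map_eq_bot_iff_of_injective _ H.subtype_injective] at h1 ⊢
    refine hK R ψ h (hU.mono (le_max_left _ _)) _ l hl n H (res f H hH) (hact.res H hH) ?_ h1
    rintro t (rfl | ht)
    · exact noLab_zero fun x hx => Subtype.ext (hfpf _ (congrArg Subtype.val hx))
    · exact absurd ht (not_lt.2 ((addOrderOf_le_card_univ).trans (ZMod.card n).le))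
  obtain ⟨c, hc⟩ := (inferInstance : Group.IsSolvable G)
  have key2 : ∀ i, Der^[n * (2 ^ (n - 1) + 1)] (Der^[i] (⊤ : Subgroup G)) = ⊥ := by
    refine desc_ind c (fun r hr => eq_bot_iff.2 ((Der_iter_le _ _).trans ?_)) fun r ih => ?_
    · rw [← derivedSeries_eq, ← hc]
      exact derivedSeries_antitone G hr
    · apply key _ (inv_Der_iter r (inv_top f))
      rwa [Function.iterate_succ_apply, ← Function.iterate_succ_apply' Der]
  rw [derivedSeries_eq]
  exact key2 0

end Pool.Agent.Lib.MP_95ba65_al.Large
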