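import Mathlib
import Pool.Agent.Lib.MP_95ba65_al.Proj

/-!
Existence of a primitive `n`-th root of unity modulo `E` when all primes dividing `E` are
congruent to `1` modulo `n`.
-/

set_option autoImplicit false

namespace Pool.Agent.Lib.MP_95ba65_al

theorem exists_root_prime {n q : ℕ} (hq : q.Prime) (hqn : q ≡ 1 [MOD n]) :
    ∃ a : ℕ, a ^ n ≡ 1 [MOD q] ∧ ∀ i, 0 < i → i < n → ¬ a ^ i ≡ 1 [MOD q] := by
  have : Fact q.Prime := ⟨hq⟩
  have hdvd : n ∣ Nat.card (ZMod q)ˣ := by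
    rw [Nat.card_eq_fintype_card, ZMod.card_units q]
    exact (Nat.modEq_iff_dvd' hq.one_le).1 hqn.symm
  obtain ⟨g, hg⟩ := IsCyclic.exists_ofOrder_eq_natCard (α := (ZMod q)ˣ)
  obtain ⟨d, hd⟩ := hdvd
  have hpos : 0 < Nat.card (ZMod q)ˣ := Nat.card_pos
  have hd0 : d ≠ 0 := by rintro rfl; omega
  have ho : orderOf (g ^ d) = n := by
    rw [orderOf_pow_of_dvd hd0 (by rw [hg, hd]; exact Dvd.intro_left _ rfl), hg, hd,
      Nat.mul_div_cancel _ (Nat.pos_of_ne_zero hd0)]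
  have key : ∀ i, ((g ^ d : (ZMod q)ˣ) : ZMod q).val ^ i ≡ 1 [MOD q] ↔ (g ^ d) ^ i = 1 := by
    intro i
    rw [← ZMod.natCast_eq_natCast_iff]
    push_cast
    rw [ZMod.natCast_zmod_val, Units.ext_iff]
    simp
  refine ⟨((g ^ d : (ZMod q)ˣ) : ZMod q).val, ?_, ?_⟩
  · rw [key, ← ho, pow_orderOf_eq_one]
  · intro i hi hin
    rw [key]
    exact pow_ne_one_of_lt_orderOf hi.ne' (ho ▸ hin)

theorem exists_root {n : ℕ} (E : ℕ) (hE0 : E ≠ 0)
    (hE : ∀ q, q.Prime → q ∣ E → q ≡ 1 [MOD n]) :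
    ∃ a : ℕ, a ^ n ≡ 1 [MOD E] ∧
      ∀ i, 0 < i → i < n → ∀ q, q.Prime → q ∣ E → ¬ a ^ i ≡ 1 [MOD q] := by
  induction E using Nat.recOnPosPrimePosCoprime with
  | zero => exact absurd rfl hE0
  | one =>
    exact ⟨1, Nat.modEq_one, fun i _ _ q hq hq1 => absurd (Nat.dvd_one.1 hq1) hq.ne_one⟩
  | prime_pow q e hq he =>
    obtain ⟨a, ha, ha'⟩ := exists_root_prime hq (hE q hq (dvd_pow_self q he.ne'))
    have : Fact q.Prime := ⟨hq⟩
    refine ⟨a ^ q ^ e, ?_, ?_⟩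
    · have h1 : (q : ℤ) ∣ (a : ℤ) ^ n - 1 := by
        have := (Nat.modEq_iff_dvd.1 ha.symm)
        simpa using this
      have h2 := dvd_sub_pow_of_dvd_sub h1 e
      have h3 : ((q ^ e : ℕ) : ℤ) ∣ (((a ^ q ^ e) ^ n : ℕ) : ℤ) - ((1 : ℕ) : ℤ) := by
        push_cast
        rw [← pow_mul, mul_comm, pow_mul]
        rw [one_pow] at h2
        exact (pow_dvd_pow _ (Nat.le_succ e)).trans h2
      exact (Nat.modEq_iff_dvd.2 h3).symm
    · intro i hi hin p hp hpq hcon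
      have hpq' : p = q := (Nat.prime_dvd_prime_iff_eq hp hq).1 (hp.dvd_of_dvd_pow hpq)
      subst hpq'
      apply ha' i hi hin
      rw [← ZMod.natCast_eq_natCast_iff] at hcon ⊢
      push_cast at hcon ⊢
      rwa [ZMod.pow_card_pow] at hcon
  | coprime a b ha hb hab iha ihb =>
    obtain ⟨x, hx, hx'⟩ := iha (by omega) fun q hq hqa => hE q hq (hqa.mul_right b)
    obtain ⟨y, hy, hy'⟩ := ihb (by omega) fun q hq hqb => hE q hq (hqb.mul_left a)
    obtain ⟨z, hzx, hzy⟩ := Nat.chineseRemainder hab x y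
    refine ⟨z, ?_, ?_⟩
    · exact (Nat.modEq_and_modEq_iff_modEq_mul hab).1
        ⟨(hzx.pow n).trans hx, (hzy.pow n).trans hy⟩
    · intro i hi hin q hq hqab hcon
      rcases (Nat.Prime.dvd_mul hq).1 hqab with hqa | hqb
      · exact hx' i hi hin q hq hqa (((hzx.pow i).of_dvd hqa).symm.trans hcon)
      · exact hy' i hi hin q hq hqb (((hzy.pow i).of_dvd hqb).symm.trans hcon)

theorem isUnit_of_primes {E : ℕ} (hE0 : E ≠ 0) {x : ZMod E}
    (hx : ∀ q (_ : q.Prime) (hqE : q ∣ E), ZMod.castHom hqE (ZMod q) x ≠ 0) : IsUnit x := by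
  have : NeZero E := ⟨hE0⟩
  rw [← ZMod.natCast_zmod_val x, ZMod.isUnit_iff_coprime]
  apply Nat.Coprime.symm
  apply Nat.coprime_of_dvd
  intro q hq hqE hqx
  apply hx q hq hqE
  rw [← ZMod.natCast_zmod_val x, map_natCast, ZMod.natCast_eq_zero_iff]
  exact hqx

theorem exists_num {n E : ℕ} (hn : 0 < n) (hE0 : E ≠ 0)
    (hE : ∀ q, q.Prime → q ∣ E → q ≡ 1 [MOD n]) (hco : Nat.Coprime n E) :
    ∃ w v, Num n E w v := by
  obtain ⟨a, ha, ha'⟩ := exists_root E hE0 hE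
  have : NeZero E := ⟨hE0⟩
  obtain ⟨u, hu⟩ := ((ZMod.isUnit_iff_coprime n E).2 hco).exists_left_inv
  refine ⟨a, u.val, hn, ?_, ?_, ?_⟩
  · have := (ZMod.natCast_eq_natCast_iff _ _ _).2 ha
    simpa using this
  · intro i hi hin
    apply isUnit_of_primes hE0
    intro q hq hqE hcon
    apply ha' i hi hin q hq hqE
    rw [← ZMod.natCast_eq_natCast_iff]
    rw [map_sub, map_pow, map_natCast, map_one, sub_eq_zero] at hcon
    simpa using hcon
  · rw [ZMod.natCast_zmod_val, hu]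

end Pool.Agent.Lib.MP_95ba65_al
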