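import Mathlib
import Pool.Agent.Lib.MP_95ba65_al.Core

/-!
The graded Lie ring of a filtered group, with extension of scalars.
-/

set_option autoImplicit false

namespace Pool.Agent.Lib.MP_95ba65_al.Six

open Finset
open scoped commutatorElement TensorProduct DirectSum

section
variable {G : Type*} [Group G] {V : Type*} [AddCommGroup V]

/-- A map that is additive on a subgroup. -/
def AddOn (P : Subgroup G) (θ : G → V) : Prop := ∀ x ∈ P, ∀ y ∈ P, θ (x * y) = θ x + θ y

variable {P Q : Subgroup G} {θ : G → V}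

theorem AddOn.one (h : AddOn P θ) : θ 1 = 0 := by
  have := h 1 P.one_mem 1 P.one_mem
  rw [mul_one] at this
  exact left_eq_add.1 this

theorem AddOn.inv (h : AddOn P θ) {x : G} (hx : x ∈ P) : θ x⁻¹ = -θ x := by
  have := h x⁻¹ (P.inv_mem hx) x hx
  rw [inv_mul_cancel, h.one] at this
  exact eq_neg_of_add_eq_zero_left this.symm

theorem AddOn.pow (h : AddOn P θ) {x : G} (hx : x ∈ P) (k : ℕ) : θ (x ^ k) = k • θ x := by
  induction k with
  | zero => rw [pow_zero, h.one, zero_smul]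
  | succ k ih => rw [pow_succ, h _ (P.pow_mem hx k) _ hx, ih, succ_nsmul]

theorem AddOn.zpow (h : AddOn P θ) {x : G} (hx : x ∈ P) (k : ℤ) : θ (x ^ k) = k • θ x := by
  obtain ⟨k, rfl | rfl⟩ := Int.eq_nat_or_neg k
  · rw [zpow_natCast, h.pow hx, natCast_zsmul]
  · rw [zpow_neg, zpow_natCast, h.inv (P.pow_mem hx k), h.pow hx, neg_smul, natCast_zsmul]

theorem AddOn.mono (h : AddOn P θ) (hQ : Q ≤ P) : AddOn Q θ :=
  fun x hx y hy => h x (hQ hx) y (hQ hy)

/-- Coordinates on an abelian section. -/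
structure Sec (P Q : Subgroup G) (θ : G → V) : Prop where
  add : AddOn P θ
  zero : ∀ x ∈ P, θ x = 0 ↔ x ∈ Q
  surj : ∀ v, ∃ x ∈ P, θ x = v

theorem Sec.eq_iff (h : Sec P Q θ) {x y : G} (hx : x ∈ P) (hy : y ∈ P) :
    θ x = θ y ↔ x⁻¹ * y ∈ Q := by
  rw [← h.zero _ (P.mul_mem (P.inv_mem hx) hy), h.add _ (P.inv_mem hx) _ hy, h.add.inv hx,
    neg_add_eq_zero]

/-- additive maps on a section from maps on representatives -/
theorem Sec.lift (h : Sec P Q θ) {W : Type*} [AddCommGroup W] {η : G → W} (hη : AddOn P η)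
    (h0 : ∀ x ∈ P, x ∈ Q → η x = 0) : ∃ f : V →+ W, ∀ x ∈ P, f (θ x) = η x := by
  choose s hs hs' using h.surj
  have key : ∀ x ∈ P, ∀ y ∈ P, θ x = θ y → η x = η y := by
    intro x hx y hy e
    have h3 := h0 _ (P.mul_mem (P.inv_mem hx) hy) ((h.eq_iff hx hy).1 e)
    rwa [hη _ (P.inv_mem hx) _ hy, hη.inv hx, neg_add_eq_zero] at h3
  refine ⟨AddMonoidHom.mk' (fun v => η (s v)) fun v v' => ?_, fun x hx => ?_⟩
  · rw [← hη _ (hs v) _ (hs v')]
    refine key _ (hs _) _ (P.mul_mem (hs v) (hs v')) ?_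
    rw [h.add _ (hs v) _ (hs v'), hs', hs', hs']
  · exact key _ (hs _) _ hx (hs' _)

theorem Sec.ind (h : Sec P Q θ) {α : G →* G} (hP : Inv α P) (hQ : Inv α Q) :
    ∃ f : V →+ V, ∀ x ∈ P, f (θ x) = θ (α x) :=
  h.lift (η := fun x => θ (α x))
    (fun x hx y hy => by
      simp only
      rw [map_mul, h.add _ (hP x hx) _ (hP y hy)])
    (fun x hx hq => (h.zero _ (hP x hx)).2 (hQ x hq))

end

theorem exists_sec {G : Type} [Group G] {P Q : Subgroup G} (h : ⁅P, P⁆ ≤ Q) :
    ∃ (V : Type) (_ : AddCommGroup V) (θ : G → V), Sec P Q θ := by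
  classical
  have h1 : commutator P ≤ Q.subgroupOf P := Subgroup.commutator_le.2 fun a _ b _ =>
    h (Subgroup.commutator_mem_commutator a.2 b.2)
  have : (Q.subgroupOf P).Normal := Subgroup.Normal.of_commutator_le _ h1
  have h2 := Subgroup.Normal.quotient_commutative_iff_commutator_le.2 h1
  let _ : CommGroup (P ⧸ Q.subgroupOf P) :=
    { (inferInstance : Group (P ⧸ Q.subgroupOf P)) with mul_comm := h2.is_comm.comm }
  refine ⟨Additive (P ⧸ Q.subgroupOf P), inferInstance,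
    fun x => if hx : x ∈ P then Additive.ofMul (QuotientGroup.mk ⟨x, hx⟩) else 0,
    fun x hx y hy => ?_, fun x hx => ?_, fun v => ?_⟩
  · simp only [hx, hy, P.mul_mem hx hy, dif_pos]
    rfl
  · simp only [hx, dif_pos]
    rw [ofMul_eq_zero, QuotientGroup.eq_one_iff, Subgroup.mem_subgroupOf]
  · obtain ⟨x, hx⟩ := QuotientGroup.mk_surjective (Additive.toMul v)
    refine ⟨x, x.2, ?_⟩
    simp only [x.2, dif_pos]
    exact congrArg Additive.ofMul hx

section Filt

variable {G : Type} [Group G]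

/-- a filtration compatible with commutators -/
structure NS (Γ : ℕ → Subgroup G) : Prop where
  anti : Antitone Γ
  comm : ∀ i j, ⁅Γ i, Γ j⁆ ≤ Γ (i + j + 1)

theorem NS.mem {Γ : ℕ → Subgroup G} (h : NS Γ) {i j k : ℕ} (hk : k ≤ i + j + 1) {a b : G}
    (ha : a ∈ Γ i) (hb : b ∈ Γ j) : ⁅a, b⁆ ∈ Γ k :=
  h.anti hk (h.comm i j (Subgroup.commutator_mem_commutator ha hb))

theorem NS.conj {Γ : ℕ → Subgroup G} (h : NS Γ) {i j : ℕ} {a b : G}
    (ha : a ∈ Γ i) (hb : b ∈ Γ j) : a * b * a⁻¹ ∈ Γ j := by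
  have : a * b * a⁻¹ = ⁅a, b⁆ * b := by simp [commutatorElement_def]
  rw [this]
  exact Subgroup.mul_mem _ (h.mem (by omega) ha hb) hb

theorem three_sub {H : Type*} [Group H] (H₁ H₂ H₃ K : Subgroup H) [K.Normal]
    (h1 : ⁅⁅H₂, H₃⁆, H₁⁆ ≤ K) (h2 : ⁅⁅H₃, H₁⁆, H₂⁆ ≤ K) : ⁅⁅H₁, H₂⁆, H₃⁆ ≤ K := by
  have key : ∀ X : Subgroup H, X ≤ K ↔ X.map (QuotientGroup.mk' K) = ⊥ := by
    intro X
    rw [Subgroup.map_eq_bot_iff, QuotientGroup.ker_mk']
  rw [key] at h1 h2 ⊢
  simp only [Subgroup.map_commutator] at h1 h2 ⊢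
  exact Subgroup.commutator_commutator_eq_bot_of_rotate h1 h2

theorem gam_comm {H : Type*} [Group H] (j : ℕ) :
    ∀ i, ⁅Gam H i, Gam H j⁆ ≤ Gam H (i + j + 1) := by
  induction j with
  | zero => intro i; exact le_rfl
  | succ j ih =>
    intro i
    change ⁅Gam H i, ⁅Gam H j, ⊤⁆⁆ ≤ _
    rw [Subgroup.commutator_comm]
    apply three_sub
    · rw [Subgroup.commutator_comm ⊤ (Gam H i)]
      exact (ih (i + 1)).trans (Gam_anti (by omega))
    · exact Subgroup.commutator_mono (ih i) le_rfl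

theorem ns_lcs (Y : Subgroup G) : NS Y.lowerCentralSeries where
  anti := Y.lowerCentralSeries_antitone
  comm i j := by
    simp only [← Subgroup.top_subtype_lowerCentralSeries Y]
    rw [← Subgroup.map_commutator]
    exact Subgroup.map_mono (gam_comm j i)

/-- the graded Lie ring of a filtered group -/
structure LPkg0 (f : G →* G) (Γ : ℕ → Subgroup G) {L : Type} [LieRing L] (ι : ℕ → G → L)
    (τ : L →+ L) (d : ℕ → L →+ L) : Prop where
  add : ∀ i, AddOn (Γ i) (ι i)
  zero : ∀ i, ∀ a ∈ Γ i, ι i a = 0 ↔ a ∈ Γ (i + 1)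
  br : ∀ i j, ∀ a ∈ Γ i, ∀ b ∈ Γ j, ⁅ι i a, ι j b⁆ = ι (i + j + 1) ⁅a, b⁆
  map : ∀ i, ∀ a ∈ Γ i, τ (ι i a) = ι i (f a)
  span : AddSubgroup.closure {v | ∃ i, ∃ a ∈ Γ i, v = ι i a} = ⊤
  deg : ∀ i j a, d j (ι i a) = if i = j then ι i a else 0

theorem exists_lpkg0 (f : G →* G) {Γ : ℕ → Subgroup G} (hΓ : NS Γ) (hf : ∀ i, Inv f (Γ i)) :
    ∃ (L : Type) (_ : LieRing L) (ι : ℕ → G → L) (τ : L →+ L) (d : ℕ → L →+ L),
      LPkg0 f Γ ι τ d := by
  classical
  choose M inst θ hθ using fun i => exists_sec (P := Γ i) (Q := Γ (i + 1))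
    ((hΓ.comm i i).trans (hΓ.anti (by omega)))
  let L := ⨁ i, M i
  let ι : ℕ → G → L := fun i a => DirectSum.of M i (θ i a)
  have hadd : ∀ i, AddOn (Γ i) (ι i) := fun i x hx y hy => by
    simp only [ι]
    rw [(hθ i).add x hx y hy, map_add]
  have hzero : ∀ i, ∀ a ∈ Γ i, ι i a = 0 ↔ a ∈ Γ (i + 1) := fun i a ha => by
    rw [← (hθ i).zero a ha]
    exact map_eq_zero_iff _ (DirectSum.of_injective i)
  have hconj : ∀ i j, ∀ a ∈ Γ i, ∀ c ∈ Γ j, ι j (a * c * a⁻¹) = ι j c := by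
    intro i j a ha c hc
    have : a * c * a⁻¹ = ⁅a, c⁆ * c := by simp [commutatorElement_def]
    rw [this, hadd j _ (hΓ.mem (by omega) ha hc) _ hc,
      (hzero j _ (hΓ.mem (by omega) ha hc)).2 (hΓ.mem (by omega) ha hc), zero_add]
  have hspan : AddSubgroup.closure {v | ∃ i, ∃ a ∈ Γ i, v = ι i a} = ⊤ := by
    rw [eq_top_iff]
    intro v _
    induction v using DirectSum.induction_on with
    | zero => exact AddSubgroup.zero_mem _
    | of i x =>
      obtain ⟨a, ha, rfl⟩ := (hθ i).surj x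
      exact AddSubgroup.subset_closure ⟨i, a, ha, rfl⟩
    | add x y hx hy => exact AddSubgroup.add_mem _ (hx trivial) (hy trivial)
  have hext : ∀ {W : Type} [AddCommGroup W] (S T : L →+ W),
      (∀ i, ∀ a ∈ Γ i, S (ι i a) = T (ι i a)) → S = T := by
    intro W _ S T h
    refine AddMonoidHom.eq_of_eqOn_dense hspan ?_
    rintro _ ⟨i, a, ha, rfl⟩
    exact h i a ha
  have hlift : ∀ {W : Type} [AddCommGroup W] (η : ℕ → G → W), (∀ i, AddOn (Γ i) (η i)) →
      (∀ i, ∀ x ∈ Γ (i + 1), η i x = 0) → ∃ S : L →+ W, ∀ i, ∀ a ∈ Γ i, S (ι i a) = η i a := by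
    intro W _ η h1 h2
    choose s hs using fun i => (hθ i).lift (h1 i) (fun x _ hx => h2 i x hx)
    refine ⟨DirectSum.toAddMonoid s, fun i a ha => ?_⟩
    simp only [ι]
    rw [DirectSum.toAddMonoid_of, hs i a ha]
  have h1 : ∀ i, ∀ a ∈ Γ i, ∃ S : L →+ L, ∀ j, ∀ b ∈ Γ j, S (ι j b) = ι (i + j + 1) ⁅a, b⁆ := by
    intro i a ha
    refine hlift (fun j b => ι (i + j + 1) ⁅a, b⁆) (fun j b hb c hc => ?_) (fun j b hb => ?_)
    · have e : ⁅a, b * c⁆ = ⁅a, b⁆ * (b * ⁅a, c⁆ * b⁻¹) := by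
        simp only [commutatorElement_def]; group
      have hc' := hΓ.mem le_rfl ha hc
      simp only
      rw [e, hadd _ _ (hΓ.mem le_rfl ha hb) _ (hΓ.conj hb hc'), hconj _ _ b hb _ hc']
    · exact (hzero _ _ (hΓ.mem (by omega) ha hb)).2 (hΓ.mem (by omega) ha hb)
  choose! S hS using h1
  obtain ⟨B, hB⟩ : ∃ B : L →+ (L →+ L), ∀ i, ∀ a ∈ Γ i, B (ι i a) = S i a := by
    refine hlift S (fun i a ha c hc => hext _ _ fun j b hb => ?_)
      (fun i a ha => hext _ _ fun j b hb => ?_)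
    · have e : ⁅a * c, b⁆ = (a * ⁅c, b⁆ * a⁻¹) * ⁅a, b⁆ := by
        simp only [commutatorElement_def]; group
      have hc' := hΓ.mem le_rfl hc hb
      rw [AddMonoidHom.add_apply, hS i _ (Subgroup.mul_mem _ ha hc) j b hb, hS i a ha j b hb,
        hS i c hc j b hb, e, hadd _ _ (hΓ.conj ha hc') _ (hΓ.mem le_rfl ha hb),
        hconj _ _ a ha _ hc', add_comm]
    · rw [hS i a (hΓ.anti (by omega) ha) j b hb]
      exact (hzero _ _ (hΓ.mem (by omega) ha hb)).2 (hΓ.mem (by omega) ha hb)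
  have hbr : ∀ i j, ∀ a ∈ Γ i, ∀ b ∈ Γ j, B (ι i a) (ι j b) = ι (i + j + 1) ⁅a, b⁆ :=
    fun i j a ha b hb => by rw [hB i a ha, hS i a ha j b hb]
  have hskew : ∀ x y, B x y = -B y x := by
    have : B = -B.flip := hext _ _ fun i a ha => hext _ _ fun j b hb => by
      change B _ _ = -B _ _
      rw [hbr i j a ha b hb, hbr j i b hb a ha, ← commutatorElement_inv b a,
        (hadd _).inv (hΓ.mem (by omega) hb ha), add_comm j i]
    intro x y
    exact DFunLike.congr_fun (DFunLike.congr_fun this x) y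
  have hself : ∀ x, B x x = 0 := by
    intro x
    have hx : x ∈ AddSubgroup.closure {v | ∃ i, ∃ a ∈ Γ i, v = ι i a} := hspan ▸ trivial
    induction hx using AddSubgroup.closure_induction with
    | mem x hx =>
      obtain ⟨i, a, ha, rfl⟩ := hx
      rw [hbr i i a ha a ha, commutatorElement_self, (hadd _).one]
    | zero => simp
    | add x y _ _ hx hy =>
      rw [map_add, map_add, AddMonoidHom.add_apply, AddMonoidHom.add_apply, hx, hy, hskew x y]
      abel
    | neg x _ hx => simp [hx]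
  have hjac : ∀ x y z, B (B x y) z + B (B y z) x + B (B z x) y = 0 := by
    have key : ∀ i, ∀ a ∈ Γ i, ∀ j, ∀ b ∈ Γ j, ∀ k, ∀ c ∈ Γ k,
        B (B (ι i a) (ι j b)) (ι k c) + B (B (ι j b) (ι k c)) (ι i a)
          + B (B (ι k c) (ι i a)) (ι j b) = 0 := by
      intro i a ha j b hb k c hc
      have hab := hΓ.mem le_rfl ha hb
      have hbc := hΓ.mem le_rfl hb hc
      have hca := hΓ.mem le_rfl hc ha
      have e1 : B (B (ι i a) (ι j b)) (ι k c) = ι (i + j + k + 2) ⁅⁅a, b⁆, b * c * b⁻¹⁆ := by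
        rw [hbr i j a ha b hb, ← hconj _ _ b hb c hc, hbr _ _ _ hab _ (hΓ.conj hb hc)]
        congr 1
        omega
      have e2 : B (B (ι j b) (ι k c)) (ι i a) = ι (i + j + k + 2) ⁅⁅b, c⁆, c * a * c⁻¹⁆ := by
        rw [hbr j k b hb c hc, ← hconj _ _ c hc a ha, hbr _ _ _ hbc _ (hΓ.conj hc ha)]
        congr 1
        omega
      have e3 : B (B (ι k c) (ι i a)) (ι j b) = ι (i + j + k + 2) ⁅⁅c, a⁆, a * b * a⁻¹⁆ := by
        rw [hbr k i c hc a ha, ← hconj _ _ a ha b hb, hbr _ _ _ hca _ (hΓ.conj ha hb)]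
        congr 1
        omega
      have m1 : ⁅⁅a, b⁆, b * c * b⁻¹⁆ ∈ Γ (i + j + k + 2) :=
        hΓ.mem (by omega) hab (hΓ.conj hb hc)
      have m2 : ⁅⁅b, c⁆, c * a * c⁻¹⁆ ∈ Γ (i + j + k + 2) :=
        hΓ.mem (by omega) hbc (hΓ.conj hc ha)
      have m3 : ⁅⁅c, a⁆, a * b * a⁻¹⁆ ∈ Γ (i + j + k + 2) :=
        hΓ.mem (by omega) hca (hΓ.conj ha hb)
      rw [e1, e2, e3, ← hadd _ _ m1 _ m2, ← hadd _ _ (Subgroup.mul_mem _ m1 m2) _ m3,
        commutatorElement_commutatorElement_conj_mul, (hadd _).one]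
    have lin : ∀ (J : L → L → L → L), (∀ x y z, J x y z = J y z x) →
        (∀ x x' y z, J (x + x') y z = J x y z + J x' y z) → ∀ y z,
        (∀ i, ∀ a ∈ Γ i, J (ι i a) y z = 0) → ∀ x, J x y z = 0 := by
      intro J _ h2 y z h x
      have := hext (AddMonoidHom.mk' (fun x => J x y z) fun a b => h2 a b y z) 0 h
      exact DFunLike.congr_fun this x
    let J : L → L → L → L := fun x y z => B (B x y) z + B (B y z) x + B (B z x) y
    have c1 : ∀ x y z, J x y z = J y z x := fun x y z => by simp only [J]; abel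
    have c2 : ∀ x x' y z, J (x + x') y z = J x y z + J x' y z := fun x x' y z => by
      simp only [J, map_add, AddMonoidHom.add_apply]; abel
    intro x y z
    change J x y z = 0
    refine lin J c1 c2 y z (fun i a ha => ?_) x
    rw [c1]
    refine lin J c1 c2 _ _ (fun j b hb => ?_) y
    rw [c1]
    refine lin J c1 c2 _ _ (fun k c hc => ?_) z
    rw [c1]
    exact key i a ha j b hb k c hc
  let _ : LieRing L :=
    { (inferInstance : AddCommGroup L) with
      bracket := fun x y => B x y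
      add_lie := fun x y z => by
        change B (x + y) z = B x z + B y z
        rw [map_add, AddMonoidHom.add_apply]
      lie_add := fun x y z => map_add (B x) y z
      lie_self := hself
      leibniz_lie := fun x y z => by
        change B x (B y z) = B (B x y) z + B y (B x z)
        have := hjac x y z
        rw [hskew (B y z) x, hskew (B z x) y, hskew z x, map_neg, neg_neg] at this
        rw [← sub_eq_zero, ← neg_eq_zero, ← this]
        abel }
  obtain ⟨τ, hτ⟩ := hlift (fun i a => ι i (f a))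
    (fun i x hx y hy => by
      simp only
      rw [map_mul, hadd i _ (hf i x hx) _ (hf i y hy)])
    (fun i x hx => (hzero i _ (hf i x (hΓ.anti (by omega) hx))).2 (hf _ x hx))
  let d : ℕ → L →+ L := fun j => DirectSum.toAddMonoid fun i =>
    if i = j then DirectSum.of M i else 0
  refine ⟨L, inferInstance, ι, τ, d, hadd, hzero, hbr, hτ, hspan, fun i j a => ?_⟩
  simp only [d, ι]
  rw [DirectSum.toAddMonoid_of]
  split_ifs <;> rfl

variable {R : Type} [CommRing R]

/-- the span of the leading terms of the elements of a subgroup -/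
def sub (R : Type) [CommRing R] (Γ : ℕ → Subgroup G) {V : Type} [AddCommGroup V] [Module R V]
    (κ : ℕ → G → V) (K : Subgroup G) : Submodule R V :=
  Submodule.span R {v | ∃ i, ∃ a ∈ K, a ∈ Γ i ∧ v = κ i a}

/-- the graded Lie algebra of a filtered group -/
structure LPkg (f : G →* G) (Γ : ℕ → Subgroup G) {V : Type} [LieRing V] [LieAlgebra R V]
    (κ : ℕ → G → V) (F : Module.End R V) : Prop where
  add : ∀ i, AddOn (Γ i) (κ i)
  br : ∀ i j, ∀ a ∈ Γ i, ∀ b ∈ Γ j, ⁅κ i a, κ j b⁆ = κ (i + j + 1) ⁅a, b⁆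
  map : ∀ i, ∀ a ∈ Γ i, F (κ i a) = κ i (f a)
  span : sub R Γ κ ⊤ = ⊤
  zero : ∀ i, ∀ a ∈ Γ (i + 1), κ i a = 0
  ext : ∀ (K : Subgroup G) (j : ℕ), ∀ x ∈ Γ j, κ j x ∈ sub R Γ κ K →
    ∃ k ∈ K, k ∈ Γ j ∧ x⁻¹ * k ∈ Γ (j + 1)

theorem exists_lpkg {q : ℕ} (l : R →+ ZMod q) (hl : l 1 = 1) (hq : ∀ g : G, g ^ q = 1)
    (f : G →* G) {Γ : ℕ → Subgroup G} (hΓ : NS Γ) (hf : ∀ i, Inv f (Γ i)) :
    ∃ (V : Type) (_ : LieRing V) (_ : LieAlgebra R V) (κ : ℕ → G → V) (F : Module.End R V),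
      LPkg f Γ κ F := by
  classical
  obtain ⟨L, _, ι, τ, d, P⟩ := exists_lpkg0 f hΓ hf
  let V := R ⊗[ℤ] L
  let κ : ℕ → G → V := fun i a => (1 : R) ⊗ₜ[ℤ] ι i a
  have hA : ∀ x : L, q • x = 0 := by
    intro x
    have hx : x ∈ AddSubgroup.closure {v | ∃ i, ∃ a ∈ Γ i, v = ι i a} := P.span ▸ trivial
    induction hx using AddSubgroup.closure_induction with
    | mem x hx =>
      obtain ⟨i, a, ha, rfl⟩ := hx
      rw [← (P.add i).pow ha, hq, (P.add i).one]
    | zero => simp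
    | add x y _ _ hx hy => rw [smul_add, hx, hy, add_zero]
    | neg x _ hx => rw [smul_neg, hx, neg_zero]
  refine ⟨V, inferInstance, inferInstance, κ, τ.toIntLinearMap.baseChange R, ?_, ?_, ?_, ?_, ?_,
    ?_⟩
  · intro i a ha b hb
    simp only [κ]
    rw [P.add i a ha b hb, TensorProduct.tmul_add]
  · intro i j a ha b hb
    simp only [κ]
    rw [LieAlgebra.ExtendScalars.bracket_tmul, one_mul, P.br i j a ha b hb]
  · intro i a ha
    simp only [κ]
    rw [LinearMap.baseChange_tmul, AddMonoidHom.coe_toIntLinearMap, P.map i a ha]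
  · rw [eq_top_iff]
    intro v _
    induction v using TensorProduct.induction_on with
    | zero => exact Submodule.zero_mem _
    | add a b ha hb => exact Submodule.add_mem _ (ha trivial) (hb trivial)
    | tmul r x =>
      have hx : x ∈ AddSubgroup.closure {v | ∃ i, ∃ a ∈ Γ i, v = ι i a} := P.span ▸ trivial
      induction hx using AddSubgroup.closure_induction with
      | mem x hx =>
        obtain ⟨i, a, ha, rfl⟩ := hx
        have : r ⊗ₜ[ℤ] ι i a = r • κ i a := by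
          simp only [κ]
          rw [TensorProduct.smul_tmul', smul_eq_mul, mul_one]
        rw [this]
        exact Submodule.smul_mem _ _ (Submodule.subset_span ⟨i, a, trivial, ha, rfl⟩)
      | zero => rw [TensorProduct.tmul_zero]; exact Submodule.zero_mem _
      | add x y _ _ hx hy =>
        rw [TensorProduct.tmul_add]
        exact Submodule.add_mem _ (hx trivial) (hy trivial)
      | neg x _ hx =>
        rw [TensorProduct.tmul_neg]
        exact Submodule.neg_mem _ (hx trivial)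
  · intro i a ha
    simp only [κ]
    rw [(P.zero i a (hΓ.anti (by omega) ha)).2 ha, TensorProduct.tmul_zero]
  · intro K j x hx hK
    let _ := AddCommGroup.zmodModule hA
    let Λ : V →+ L := TensorProduct.liftAddHom ((smulAddHom (ZMod q) L).comp l)
      fun r m x => by simp only [map_zsmul, AddMonoidHom.smul_apply]
    have hΛ : ∀ (r : R) (y : L), Λ (r ⊗ₜ[ℤ] y) = l r • y := fun r y => rfl
    let K0 : AddSubgroup L :=
      { carrier := {v | ∃ k ∈ K, k ∈ Γ j ∧ v = ι j k}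
        zero_mem' := ⟨1, K.one_mem, Subgroup.one_mem _, (P.add j).one.symm⟩
        add_mem' := by
          rintro _ _ ⟨a, ha, ha', rfl⟩ ⟨b, hb, hb', rfl⟩
          exact ⟨a * b, K.mul_mem ha hb, Subgroup.mul_mem _ ha' hb', (P.add j a ha' b hb').symm⟩
        neg_mem' := by
          rintro _ ⟨a, ha, ha', rfl⟩
          exact ⟨a⁻¹, K.inv_mem ha, Subgroup.inv_mem _ ha', ((P.add j).inv ha').symm⟩ }
    have key : ∀ v ∈ sub R Γ κ K, ∀ r : R, d j (Λ (r • v)) ∈ K0 := by
      intro v hv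
      induction hv using Submodule.span_induction with
      | mem v hv =>
        obtain ⟨i, a, ha, ha', rfl⟩ := hv
        intro r
        simp only [κ]
        rw [TensorProduct.smul_tmul', hΛ]
        obtain ⟨n, hn⟩ := ZMod.intCast_surjective (l (r • 1))
        rw [← hn, Int.cast_smul_eq_zsmul, map_zsmul, P.deg]
        refine K0.zsmul_mem ?_ n
        split_ifs with hij
        · subst hij
          exact ⟨a, ha, ha', rfl⟩
        · exact K0.zero_mem
      | zero => intro r; simp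
      | add x y _ _ hx hy =>
        intro r
        rw [smul_add, map_add, map_add]
        exact K0.add_mem (hx r) (hy r)
      | smul s x _ hx =>
        intro r
        rw [smul_smul]
        exact hx _
    have h1 := key _ hK 1
    simp only [κ] at h1
    rw [one_smul, hΛ, hl, one_smul, P.deg, if_pos rfl] at h1
    obtain ⟨k, hk, hk', e⟩ := h1
    refine ⟨k, hk, hk', (P.zero j _ (Subgroup.mul_mem _ (Subgroup.inv_mem _ hx) hk')).1 ?_⟩
    rw [P.add j _ (Subgroup.inv_mem _ hx) _ hk', (P.add j).inv hx, e, neg_add_cancel]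

end Filt

end Pool.Agent.Lib.MP_95ba65_al.Six
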