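import Mathlib

/-!
Lie algebras graded by the integers modulo six with trivial zero component.
-/

set_option autoImplicit false

namespace Pool.Agent.Lib.MP_95ba65_al.Six

variable {R V : Type*} [CommRing R] [LieRing V] [LieAlgebra R V]

/-- the span of the brackets -/
def bk (S T : Submodule R V) : Submodule R V :=
  Submodule.span R {z | ∃ x ∈ S, ∃ y ∈ T, z = ⁅x, y⁆}

theorem mem_bk {S T : Submodule R V} {x y : V} (hx : x ∈ S) (hy : y ∈ T) : ⁅x, y⁆ ∈ bk S T :=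
  Submodule.subset_span ⟨x, hx, y, hy, rfl⟩

theorem bk_le {S T U : Submodule R V} (h : ∀ x ∈ S, ∀ y ∈ T, ⁅x, y⁆ ∈ U) : bk S T ≤ U :=
  Submodule.span_le.2 (by rintro _ ⟨x, hx, y, hy, rfl⟩; exact h x hx y hy)

theorem bk_mono {S T S' T' : Submodule R V} (h1 : S ≤ S') (h2 : T ≤ T') : bk S T ≤ bk S' T' :=
  bk_le fun _ hx _ hy => mem_bk (h1 hx) (h2 hy)

/-- right multiplication as a linear map -/
def rm (R : Type*) [CommRing R] [LieAlgebra R V] (y : V) : V →ₗ[R] V where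
  toFun x := ⁅x, y⁆
  map_add' a b := add_lie a b y
  map_smul' r a := smul_lie r a y

/-- left multiplication as a linear map -/
def lm (R : Type*) [CommRing R] [LieAlgebra R V] (y : V) : V →ₗ[R] V where
  toFun x := ⁅y, x⁆
  map_add' a b := lie_add y a b
  map_smul' r a := lie_smul r y a

theorem bk_span_le {s t : Set V} {U : Submodule R V} (h : ∀ x ∈ s, ∀ y ∈ t, ⁅x, y⁆ ∈ U) :
    bk (Submodule.span R s) (Submodule.span R t) ≤ U := by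
  refine bk_le fun x hx y hy => ?_
  have h1 : ∀ a ∈ s, Submodule.span R t ≤ U.comap (lm R a) :=
    fun a ha => Submodule.span_le.2 fun b hb => h a ha b hb
  have h2 : Submodule.span R s ≤ U.comap (rm R y) :=
    Submodule.span_le.2 fun a ha => h1 a ha hy
  exact h2 hx

/-- the lower central series -/
def lc (R V : Type*) [CommRing R] [LieRing V] [LieAlgebra R V] : ℕ → Submodule R V
  | 0 => ⊤
  | k + 1 => bk (lc R V k) ⊤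

theorem lc_succ_le (k : ℕ) : lc R V (k + 1) ≤ lc R V k := by
  induction k with
  | zero => exact le_top
  | succ k ih => exact bk_mono ih le_rfl

theorem lc_anti {k l : ℕ} (h : k ≤ l) : lc R V l ≤ lc R V k :=
  antitone_nat_of_succ_le lc_succ_le h

theorem jac (a b c : V) : ⁅⁅a, b⁆, c⁆ = ⁅⁅a, c⁆, b⁆ + ⁅a, ⁅b, c⁆⁆ := by
  rw [lie_lie, ← lie_skew ⁅a, c⁆ b]
  abel

theorem skew_mem {K : Submodule R V} {a b : V} (h : ⁅a, b⁆ ∈ K) : ⁅b, a⁆ ∈ K := by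
  rw [← lie_skew]
  exact K.neg_mem h

theorem skew_mem' {K : Submodule R V} {a b c : V} (h : ⁅⁅a, b⁆, c⁆ ∈ K) : ⁅⁅b, a⁆, c⁆ ∈ K := by
  rw [← lie_skew b a, neg_lie]
  exact K.neg_mem h

theorem skew_mem'' {K : Submodule R V} {a b c d : V} (h : ⁅⁅⁅a, b⁆, c⁆, d⁆ ∈ K) :
    ⁅⁅⁅b, a⁆, c⁆, d⁆ ∈ K := by
  rw [← lie_skew b a, neg_lie, neg_lie]
  exact K.neg_mem h

theorem cs3 : ∀ i j : ZMod 6, i + j = 3 → i ≠ 0 → j ≠ 0 →
    (i = 1 ∧ j = 2) ∨ (i = 2 ∧ j = 1) ∨ (i = 4 ∧ j = 5) ∨ (i = 5 ∧ j = 4) := by decide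

theorem cs4 : ∀ i j : ZMod 6, i + j = 4 → i ≠ 0 → j ≠ 0 →
    (i = 1 ∧ j = 3) ∨ (i = 3 ∧ j = 1) ∨ (i = 2 ∧ j = 2) ∨ (i = 5 ∧ j = 5) := by decide

theorem cs5 : ∀ i j : ZMod 6, i + j = 5 → i ≠ 0 → j ≠ 0 →
    (i = 1 ∧ j = 4) ∨ (i = 4 ∧ j = 1) ∨ (i = 2 ∧ j = 3) ∨ (i = 3 ∧ j = 2) := by decide

theorem cs2 : ∀ i j : ZMod 6, i + j = 2 → i ≠ 0 → j ≠ 0 →
    (i = 1 ∧ j = 1) ∨ (i = 4 ∧ j = 4) ∨ (i = 3 ∧ j = 5) ∨ (i = 5 ∧ j = 3) := by decide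

/-- a grading with trivial zero component -/
structure Grad (P : ZMod 6 → Submodule R V) (π : ZMod 6 → V →ₗ[R] V) : Prop where
  br : ∀ i j x y, x ∈ P i → y ∈ P j → ⁅x, y⁆ ∈ P (i + j)
  zero : ∀ x ∈ P 0, x = 0
  mem : ∀ i x, π i x ∈ P i
  sum : ∀ x, ∑ i, π i x = x
  of_mem : ∀ j, ∀ x ∈ P j, ∀ t, π t x = if t = j then x else 0

/-- graded submodules -/
def Gr (π : ZMod 6 → V →ₗ[R] V) (S : Submodule R V) : Prop := ∀ t, ∀ x ∈ S, π t x ∈ S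

namespace Grad

variable {P : ZMod 6 → Submodule R V} {π : ZMod 6 → V →ₗ[R] V} (g : Grad P π)
include g

theorem neg : Grad (fun i => P (-i)) (fun i => π (-i)) where
  br i j x y hx hy := by
    have := g.br _ _ x y hx hy
    rwa [← neg_add] at this
  zero x hx := g.zero x (by simpa using hx)
  mem i x := g.mem (-i) x
  sum x := (Equiv.sum_comp (Equiv.neg (ZMod 6)) (fun i => π i x)).trans (g.sum x)
  of_mem j x hx t := by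
    rw [g.of_mem _ x hx]
    simp only [neg_inj]

theorem br' {i j k : ZMod 6} (h : i + j = k) {x y : V} (hx : x ∈ P i) (hy : y ∈ P j) :
    ⁅x, y⁆ ∈ P k := h ▸ g.br i j x y hx hy

theorem br0 {i j : ZMod 6} (h : i + j = 0) {x y : V} (hx : x ∈ P i) (hy : y ∈ P j) :
    ⁅x, y⁆ = 0 := g.zero _ (g.br' h hx hy)

theorem pi_bk {S T : Submodule R V} (hS : Gr π S) (hT : Gr π T) (m : ZMod 6) {K : Submodule R V}
    (h : ∀ i j, i + j = m → i ≠ 0 → j ≠ 0 → ∀ x ∈ S, x ∈ P i → ∀ y ∈ T, y ∈ P j → ⁅x, y⁆ ∈ K) :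
    ∀ z ∈ bk S T, π m z ∈ K := by
  have : bk S T ≤ K.comap (π m) := by
    refine bk_le fun x hx y hy => ?_
    change π m ⁅x, y⁆ ∈ K
    rw [← g.sum x, ← g.sum y, sum_lie, map_sum]
    refine K.sum_mem fun i _ => ?_
    rw [lie_sum, map_sum]
    refine K.sum_mem fun j _ => ?_
    rw [g.of_mem _ _ (g.br i j _ _ (g.mem i x) (g.mem j y))]
    split_ifs with hm
    · by_cases hi : i = 0
      · rw [g.zero (π i x) (hi ▸ g.mem i x), zero_lie]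
        exact K.zero_mem
      by_cases hj : j = 0
      · rw [g.zero (π j y) (hj ▸ g.mem j y), lie_zero]
        exact K.zero_mem
      exact h i j hm.symm hi hj _ (hS i x hx) (g.mem i x) _ (hT j y hy) (g.mem j y)
    · exact K.zero_mem
  exact fun z hz => this hz

omit g in
theorem gr_top : Gr π ⊤ := fun _ _ _ => trivial

theorem gr_bk {S T : Submodule R V} (hS : Gr π S) (hT : Gr π T) : Gr π (bk S T) :=
  fun t => g.pi_bk hS hT t fun _ _ _ _ _ _ hx _ _ hy _ => mem_bk hx hy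

theorem gr_lc (k : ℕ) : Gr π (lc R V k) := by
  induction k with
  | zero => exact gr_top
  | succ k ih => exact g.gr_bk ih gr_top

theorem ind (k : ℕ) {m : ZMod 6} {K : Submodule R V}
    (h : ∀ i j, i + j = m → i ≠ 0 → j ≠ 0 → ∀ x ∈ lc R V k, x ∈ P i → ∀ y ∈ P j, ⁅x, y⁆ ∈ K)
    {z : V} (hz : z ∈ lc R V (k + 1)) (hm : z ∈ P m) : z ∈ K := by
  have := g.pi_bk (g.gr_lc k) gr_top m (fun i j hij hi hj x hx hxi y _ hy =>
    h i j hij hi hj x hx hxi y hy) z hz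
  rwa [g.of_mem m z hm, if_pos rfl] at this

/-- elimination of the label three -/
theorem elim3 {K : Submodule R V} (h12 : ∀ x ∈ P 1, ∀ y ∈ P 2, ⁅x, y⁆ ∈ K)
    (h54 : ∀ x ∈ P 5, ∀ y ∈ P 4, ⁅x, y⁆ ∈ K) {z : V} (hz : z ∈ lc R V 1) (hm : z ∈ P 3) :
    z ∈ K := by
  refine g.ind 0 (fun i j hij hi hj x _ hx y hy => ?_) hz hm
  rcases cs3 i j hij hi hj with ⟨rfl, rfl⟩ | ⟨rfl, rfl⟩ | ⟨rfl, rfl⟩ | ⟨rfl, rfl⟩
  · exact h12 x hx y hy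
  · exact skew_mem (h12 y hy x hx)
  · exact skew_mem (h54 y hy x hx)
  · exact h54 x hx y hy

section Elim

variable {K : Submodule R V} (h11 : ∀ x ∈ P 1, ∀ y ∈ P 1, ⁅x, y⁆ ∈ K)
include h11

theorem e215 {b x y : V} (hb : b ∈ P 2) (hx : x ∈ P 1) (hy : y ∈ P 5) : ⁅⁅b, x⁆, y⁆ ∈ K := by
  rw [jac, g.br0 (by decide) hx hy, lie_zero, add_zero]
  exact h11 _ (g.br' (by decide) hb hy) _ hx

variable (h5 : ∀ a ∈ P 5, ∀ b ∈ P 5, ∀ c ∈ P 5, ∀ d ∈ P 5, ⁅⁅⁅a, b⁆, c⁆, d⁆ ∈ K)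
include h5

theorem e455 {b y y' : V} (hbD : b ∈ lc R V 1) (hb : b ∈ P 4) (hy : y ∈ P 5) (hy' : y' ∈ P 5) :
    ⁅⁅b, y⁆, y'⁆ ∈ K := by
  refine g.ind 0 (K := K.comap ((rm R y').comp (rm R y)))
    (fun i j hij hi hj p _ hp q hq => ?_) hbD hb
  change ⁅⁅⁅p, q⁆, y⁆, y'⁆ ∈ K
  have h31 : ∀ p ∈ P 3, ∀ q ∈ P 1, ⁅⁅⁅p, q⁆, y⁆, y'⁆ ∈ K := by
    intro p hp q hq
    rw [jac p q y, g.br0 (by decide) hq hy, lie_zero, add_zero, jac,
      g.br0 (by decide) hq hy', lie_zero, add_zero]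
    exact h11 _ (g.br' (by decide) (g.br' (k := 2) (by decide) hp hy) hy') _ hq
  rcases cs4 i j hij hi hj with ⟨rfl, rfl⟩ | ⟨rfl, rfl⟩ | ⟨rfl, rfl⟩ | ⟨rfl, rfl⟩
  · exact skew_mem'' (h31 q hq p hp)
  · exact h31 p hp q hq
  · have hp1 : ⁅p, y⁆ ∈ P 1 := g.br' (by decide) hp hy
    have hq1 : ⁅q, y⁆ ∈ P 1 := g.br' (by decide) hq hy
    rw [jac p q y, add_lie, jac ⁅p, y⁆ q y', jac p ⁅q, y⁆ y', g.br0 (by decide) hp1 hy',
      g.br0 (by decide) hq1 hy', zero_lie, lie_zero, zero_add, add_zero]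
    exact K.add_mem (h11 _ hp1 _ (g.br' (by decide) hq hy'))
      (h11 _ (g.br' (by decide) hp hy') _ hq1)
  · exact h5 p hp q hq y hy y' hy'

theorem e554 {p q b : V} (hp : p ∈ P 5) (hq : q ∈ P 5) (hbD : b ∈ lc R V 1) (hb : b ∈ P 4) :
    ⁅⁅p, q⁆, b⁆ ∈ K := by
  rw [jac]
  exact K.add_mem (skew_mem' (g.e455 h11 h5 hbD hb hp hq))
    (skew_mem (skew_mem' (g.e455 h11 h5 hbD hb hq hp)))

variable (h3 : P 3 ≤ lc R V 1)
include h3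

theorem e314 {a x b : V} (ha : a ∈ P 3) (hx : x ∈ P 1) (hbD : b ∈ lc R V 1) (hb : b ∈ P 4) :
    ⁅⁅a, x⁆, b⁆ ∈ K := by
  refine g.ind 0 (K := K.comap ((rm R b).comp (rm R x)))
    (fun i j hij hi hj p _ hp q hq => ?_) (h3 ha) ha
  change ⁅⁅⁅p, q⁆, x⁆, b⁆ ∈ K
  have h21 : ∀ p ∈ P 2, ∀ q ∈ P 1, ⁅⁅⁅p, q⁆, x⁆, b⁆ ∈ K := by
    intro p hp q hq
    rw [jac]
    exact K.add_mem (h11 _ (g.br' (by decide) (g.br' (k := 3) (by decide) hp hq) hb) _ hx)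
      (g.e215 h11 hp hq (g.br' (by decide) hx hb))
  have h45 : ∀ p ∈ P 4, ∀ q ∈ P 5, ⁅⁅⁅p, q⁆, x⁆, b⁆ ∈ K := by
    intro p hp q hq
    rw [jac p q x, g.br0 (by decide) hq hx, lie_zero, add_zero]
    exact g.e554 h11 h5 (g.br' (by decide) hp hx) hq hbD hb
  rcases cs3 i j hij hi hj with ⟨rfl, rfl⟩ | ⟨rfl, rfl⟩ | ⟨rfl, rfl⟩ | ⟨rfl, rfl⟩
  · exact skew_mem'' (h21 q hq p hp)
  · exact h21 p hp q hq
  · exact h45 p hp q hq
  · exact skew_mem'' (h45 q hq p hp)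

theorem e44D {b b' : V} (hbD : b ∈ lc R V 1) (hb : b ∈ P 4) (hbD' : b' ∈ lc R V 1)
    (hb' : b' ∈ P 4) : ⁅b, b'⁆ ∈ K := by
  refine g.ind 0 (K := K.comap (rm R b')) (fun i j hij hi hj p _ hp q hq => ?_) hbD hb
  change ⁅⁅p, q⁆, b'⁆ ∈ K
  rcases cs4 i j hij hi hj with ⟨rfl, rfl⟩ | ⟨rfl, rfl⟩ | ⟨rfl, rfl⟩ | ⟨rfl, rfl⟩
  · exact skew_mem' (g.e314 h11 h5 h3 hq hp hbD' hb')
  · exact g.e314 h11 h5 h3 hp hq hbD' hb'
  · rw [jac, g.br0 (by decide) hp hb', g.br0 (by decide) hq hb', zero_lie, lie_zero, add_zero]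
    exact K.zero_mem
  · exact g.e554 h11 h5 hp hq hbD' hb'

variable (h4 : ∀ b ∈ P 4, ∃ t ∈ P 4, b - t ∈ lc R V 1 ∧ ∀ b' ∈ P 4, ⁅t, b'⁆ ∈ K)
include h4

theorem e44 {b b' : V} (hb : b ∈ P 4) (hb' : b' ∈ P 4) : ⁅b, b'⁆ ∈ K := by
  obtain ⟨t, ht, hd, hK⟩ := h4 b hb
  obtain ⟨t', ht', hd', hK'⟩ := h4 b' hb'
  have h1 : b - t ∈ P 4 := (P 4).sub_mem hb ht
  have : ⁅b, b'⁆ = ⁅t, b'⁆ + (⁅b - t, t'⁆ + ⁅b - t, b' - t'⁆) := by
    simp only [sub_lie, lie_sub]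
    abel
  rw [this]
  exact K.add_mem (hK b' hb') (K.add_mem (skew_mem (hK' _ h1))
    (g.e44D h11 h5 h3 hd h1 hd' ((P 4).sub_mem hb' ht')))

theorem e455s {b y y' : V} (hb : b ∈ P 4) (hy : y ∈ P 5) (hy' : y' ∈ P 5)
    (h : ⁅⁅b, y'⁆, y⁆ ∈ K) : ⁅⁅b, y⁆, y'⁆ ∈ K := by
  rw [jac]
  exact K.add_mem h (g.e44 h11 h5 h3 h4 hb (g.br' (by decide) hy hy'))

theorem e455' {b z y : V} (hb : b ∈ P 4) (hzD : z ∈ lc R V 1) (hz : z ∈ P 5) (hy : y ∈ P 5) :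
    ⁅⁅b, z⁆, y⁆ ∈ K := by
  refine g.ind 0 (K := K.comap ((rm R y).comp (lm R b)))
    (fun i j hij hi hj p _ hp q hq => ?_) hzD hz
  change ⁅⁅b, ⁅p, q⁆⁆, y⁆ ∈ K
  have sk : ∀ p q : V, ⁅⁅b, ⁅p, q⁆⁆, y⁆ ∈ K → ⁅⁅b, ⁅q, p⁆⁆, y⁆ ∈ K := by
    intro p q h
    rw [← lie_skew q p, lie_neg, neg_lie]
    exact K.neg_mem h
  have h41 : ∀ p ∈ P 4, ∀ q ∈ P 1, ⁅⁅b, ⁅p, q⁆⁆, y⁆ ∈ K := by
    intro p hp q hq
    have ha : ⁅b, y⁆ ∈ P 3 := g.br' (by decide) hb hy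
    refine g.e455s h11 h5 h3 h4 hb (g.br' (by decide) hp hq) hy ?_
    rw [leibniz_lie]
    exact K.add_mem (h11 _ (g.br' (by decide) ha hp) _ hq)
      (g.e44 h11 h5 h3 h4 hp (g.br' (by decide) ha hq))
  have h23 : ∀ p ∈ P 2, ∀ q ∈ P 3, ⁅⁅b, ⁅p, q⁆⁆, y⁆ ∈ K := by
    intro p hp q hq
    rw [leibniz_lie, g.br0 (by decide) hb hp, zero_lie, zero_add]
    exact g.e215 h11 hp (g.br' (by decide) hb hq) hy
  rcases cs5 i j hij hi hj with ⟨rfl, rfl⟩ | ⟨rfl, rfl⟩ | ⟨rfl, rfl⟩ | ⟨rfl, rfl⟩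
  · exact sk _ _ (h41 q hq p hp)
  · exact h41 p hp q hq
  · exact h23 p hp q hq
  · exact sk _ _ (h23 q hq p hp)

theorem e35 {a y : V} (ha : a ∈ P 3) (hyD : y ∈ lc R V 1) (hy : y ∈ P 5) : ⁅a, y⁆ ∈ K := by
  refine g.ind 0 (K := K.comap (rm R y)) (fun i j hij hi hj p _ hp q hq => ?_) (h3 ha) ha
  change ⁅⁅p, q⁆, y⁆ ∈ K
  have h45 : ∀ p ∈ P 4, ∀ q ∈ P 5, ⁅⁅p, q⁆, y⁆ ∈ K := fun p hp q hq =>
    g.e455s h11 h5 h3 h4 hp hq hy (g.e455' h11 h5 h3 h4 hp hyD hy hq)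
  rcases cs3 i j hij hi hj with ⟨rfl, rfl⟩ | ⟨rfl, rfl⟩ | ⟨rfl, rfl⟩ | ⟨rfl, rfl⟩
  · exact skew_mem' (g.e215 h11 hq hp hy)
  · exact g.e215 h11 hp hq hy
  · exact h45 p hp q hq
  · exact skew_mem' (h45 q hq p hp)

theorem e35' {a y : V} (haD : a ∈ lc R V 2) (ha : a ∈ P 3) (hy : y ∈ P 5) : ⁅a, y⁆ ∈ K := by
  refine g.ind 1 (K := K.comap (rm R y)) (fun i j hij hi hj p hpD hp q hq => ?_) haD ha
  change ⁅⁅p, q⁆, y⁆ ∈ K
  rcases cs3 i j hij hi hj with ⟨rfl, rfl⟩ | ⟨rfl, rfl⟩ | ⟨rfl, rfl⟩ | ⟨rfl, rfl⟩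
  · exact skew_mem' (g.e215 h11 hq hp hy)
  · exact g.e215 h11 hp hq hy
  · exact g.e455 h11 h5 hpD hp hq hy
  · exact skew_mem' (g.e455' h11 h5 h3 h4 hq hpD hp hy)

/-- elimination of the label two -/
theorem elim2 {z : V} (hz : z ∈ lc R V 3) (hm : z ∈ P 2) : z ∈ K := by
  refine g.ind 2 (fun i j hij hi hj x hxD hx y hy => ?_) hz hm
  rcases cs2 i j hij hi hj with ⟨rfl, rfl⟩ | ⟨rfl, rfl⟩ | ⟨rfl, rfl⟩ | ⟨rfl, rfl⟩
  · exact h11 x hx y hy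
  · exact g.e44 h11 h5 h3 h4 hx hy
  · exact g.e35' h11 h5 h3 h4 hxD hx hy
  · exact skew_mem (g.e35 h11 h5 h3 h4 hy (lc_succ_le 1 hxD) hx)

end Elim

/-- brackets of even elements -/
theorem even_br {x y : V} (hx : x ∈ P 2 ⊔ P 4) (hy : y ∈ P 2 ⊔ P 4) :
    ⁅x, y⁆ ∈ P 2 ⊔ P 4 ∧ ∀ w ∈ P 2 ⊔ P 4, ⁅⁅x, y⁆, w⁆ = 0 := by
  obtain ⟨a, ha, b, hb, rfl⟩ := Submodule.mem_sup.1 hx
  obtain ⟨c, hc, d, hd, rfl⟩ := Submodule.mem_sup.1 hy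
  have hac : ⁅a, c⁆ ∈ P 4 := g.br' (by decide) ha hc
  have hbd : ⁅b, d⁆ ∈ P 2 := g.br' (by decide) hb hd
  rw [add_lie, lie_add, lie_add, g.br0 (by decide) ha hd, g.br0 (by decide) hb hc, add_zero,
    zero_add]
  refine ⟨Submodule.add_mem _ (Submodule.mem_sup_right hac) (Submodule.mem_sup_left hbd), ?_⟩
  intro w hw
  obtain ⟨u, hu, v, hv, rfl⟩ := Submodule.mem_sup.1 hw
  rw [add_lie, lie_add, lie_add, g.br0 (by decide) hac hu, g.br0 (by decide) hbd hv, jac a c v,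
    jac b d u, g.br0 (by decide) ha hv, g.br0 (by decide) hc hv, g.br0 (by decide) hb hu,
    g.br0 (by decide) hd hu]
  simp

/-- the subalgebra generated by the labels one and five is nilpotent -/
theorem unit_nil {E : ℕ → Submodule R V} (h0 : E 0 ≤ P 1 ⊔ P 5)
    (hE : ∀ k, E (k + 1) ≤ bk (E k) (E 0)) : E 5 ≤ ⊥ := by
  let C : ZMod 6 → ZMod 6 → Submodule R V := fun i j =>
    P i ⊓ ⨅ y ∈ P j, LinearMap.ker (rm R y)
  have hC : ∀ i j x, x ∈ C i j ↔ x ∈ P i ∧ ∀ y ∈ P j, ⁅x, y⁆ = 0 := by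
    intro i j x
    simp only [C, Submodule.mem_inf, Submodule.mem_iInf, LinearMap.mem_ker]
    rfl
  have step : ∀ i j l : ZMod 6, l + j = 0 → ∀ x ∈ C i j, ∀ y ∈ P l, ⁅x, y⁆ ∈ C (i + l) j := by
    intro i j l hl x hx y hy
    obtain ⟨h1, h2⟩ := (hC _ _ _).1 hx
    refine (hC _ _ _).2 ⟨g.br _ _ _ _ h1 hy, fun w hw => ?_⟩
    rw [jac, h2 w hw, g.br0 hl hy hw, zero_lie, lie_zero, add_zero]
  have key : ∀ k : ℕ, E k ≤ C (k + 1) 5 ⊔ C (-(k + 1)) 1 := by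
    intro k
    induction k with
    | zero =>
      refine h0.trans (sup_le_sup (fun x hx => (hC _ _ _).2 ⟨by simpa using hx, fun y hy => ?_⟩)
        (fun x hx => (hC _ _ _).2 ⟨?_, fun y hy => ?_⟩))
      · exact g.br0 (by decide) hx hy
      · have : (-(((0 : ℕ) : ZMod 6) + 1)) = 5 := by decide
        rw [this]
        exact hx
      · exact g.br0 (by decide) hx hy
    | succ k ih =>
      refine (hE k).trans ((bk_mono ih h0).trans (bk_le fun x hx y hy => ?_))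
      obtain ⟨a, ha, b, hb, rfl⟩ := Submodule.mem_sup.1 hx
      obtain ⟨c, hc, d, hd, rfl⟩ := Submodule.mem_sup.1 hy
      rw [add_lie, lie_add, lie_add, ((hC _ _ _).1 ha).2 d hd, ((hC _ _ _).1 hb).2 c hc, add_zero,
        zero_add]
      refine Submodule.add_mem _ (Submodule.mem_sup_left ?_) (Submodule.mem_sup_right ?_)
      · have := step _ _ 1 (by decide) a ha c hc
        rwa [Nat.cast_succ]
      · have := step _ _ 5 (by decide) b hb d hd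
        have e : -((k : ZMod 6) + 1) + 5 = -(((k + 1 : ℕ) : ZMod 6) + 1) := by
          have : (5 : ZMod 6) = -1 := by decide
          rw [this, Nat.cast_succ]
          ring
        rwa [e] at this
  refine (key 5).trans (sup_le (fun x hx => ?_) (fun x hx => ?_))
  · have e : ((5 : ℕ) : ZMod 6) + 1 = 0 := by decide
    exact g.zero x (e ▸ ((hC _ _ _).1 hx).1)
  · have e : -(((5 : ℕ) : ZMod 6) + 1) = 0 := by decide
    exact g.zero x (e ▸ ((hC _ _ _).1 hx).1)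

end Grad

end Pool.Agent.Lib.MP_95ba65_al.Six
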