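import Mathlib
import Pool.Agent.Lib.MP_95ba65_al.SixGr

/-!
Subgroups whose abelianization has a prescribed type, and the group elimination lemma.
-/

set_option autoImplicit false

namespace Pool.Agent.Lib.MP_95ba65_al.Six

open Finset Polynomial
open scoped commutatorElement

section Pw
variable {G : Type*} [Group G] {V : Type*} [AddCommGroup V] {P Q : Subgroup G} {θ : G → V}

theorem inv_iter {φ : G →* G} (h : Inv φ P) (i : ℕ) : ∀ x ∈ P, φ^[i] x ∈ P := by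
  induction i with
  | zero => exact fun x hx => hx
  | succ i ih => intro x hx; rw [Function.iterate_succ_apply']; exact h _ (ih x hx)

theorem inv_sup {φ : G →* G} (hP : Inv φ P) (hQ : Inv φ Q) : Inv φ (P ⊔ Q) := by
  have : P ⊔ Q ≤ (P ⊔ Q).comap φ :=
    sup_le (fun x hx => Subgroup.mem_sup_left (hP x hx))
      (fun x hx => Subgroup.mem_sup_right (hQ x hx))
  exact fun x hx => this hx

theorem inv_lcs {φ : G →* G} (hP : Inv φ P) (i : ℕ) : Inv φ (P.lowerCentralSeries i) := by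
  induction i with
  | zero => exact hP
  | succ i ih => exact ih.commutator hP

/-- Initial products defining `pw`. -/
noncomputable def pwN (φ : G →* G) (p : ℤ[X]) (x : G) : ℕ → G
  | 0 => 1
  | i + 1 => pwN φ p x i * (φ^[i] x) ^ p.coeff i

/-- The element `x ^ p(φ)`. -/
noncomputable def pw (φ : G →* G) (p : ℤ[X]) (x : G) : G := pwN φ p x (p.natDegree + 1)

theorem pw_mem {φ : G →* G} (h : Inv φ P) (p : ℤ[X]) {x : G} (hx : x ∈ P) : pw φ p x ∈ P := by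
  have : ∀ i, pwN φ p x i ∈ P := by
    intro i
    induction i with
    | zero => exact P.one_mem
    | succ i ih => exact P.mul_mem ih (P.zpow_mem (inv_iter h i x hx) _)
  exact this _

theorem iter_pow {φ : G →* G} (h : Inv φ P) {B : Type*} [Ring B] [Module B V]
    {τ : B} (hτ : ∀ x ∈ P, τ • θ x = θ (φ x)) {x : G} (hx : x ∈ P) (i : ℕ) :
    τ ^ i • θ x = θ (φ^[i] x) := by
  induction i with
  | zero => simp
  | succ i ih =>
    rw [pow_succ', mul_smul, ih, hτ _ (inv_iter h i x hx), Function.iterate_succ_apply']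

theorem pw_aeval {φ : G →* G} (h : Inv φ P) (hθ : AddOn P θ) {B : Type*} [Ring B] [Module B V]
    {τ : B} (hτ : ∀ x ∈ P, τ • θ x = θ (φ x)) (p : ℤ[X]) {x : G} (hx : x ∈ P) :
    θ (pw φ p x) = aeval τ p • θ x := by
  have : ∀ i, pwN φ p x i ∈ P ∧ θ (pwN φ p x i) = (∑ j ∈ range i, p.coeff j • τ ^ j) • θ x := by
    intro i
    induction i with
    | zero => exact ⟨P.one_mem, by simpa [pwN] using hθ.one⟩
    | succ i ih =>
      refine ⟨P.mul_mem ih.1 (P.zpow_mem (inv_iter h i x hx) _), ?_⟩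
      rw [pwN, hθ _ ih.1 _ (P.zpow_mem (inv_iter h i x hx) _), ih.2, sum_range_succ,
        add_smul, hθ.zpow (inv_iter h i x hx), smul_assoc, iter_pow h hτ hx]
  rw [pw, (this _).2, aeval_eq_sum_range]

/-- the norm polynomial -/
noncomputable def N6 : ℤ[X] := 1 + X + X ^ 2 + X ^ 3 + X ^ 4 + X ^ 5

/-- standing hypotheses -/
structure Act6 (f : G →* G) (E v : ℕ) : Prop where
  expo : ∀ x : G, x ^ E = 1
  inv : v * 6 ≡ 1 [MOD E]
  nrm : ∀ x : G, x * f x * f^[2] x * f^[3] x * f^[4] x * f^[5] x = 1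

/-- idempotents up to the factor six -/
def Ty (e : ℤ[X]) : Prop := ∃ m, (e - 6) * e = m * N6

theorem Act6.n6 {f : G →* G} {E v : ℕ} (hf : Act6 f E v) (h : Inv f P) (hθ : AddOn P θ)
    {B : Type*} [Ring B] [Module B V] {τ : B} (hτ : ∀ x ∈ P, τ • θ x = θ (f x)) {x : G}
    (hx : x ∈ P) : aeval τ N6 • θ x = 0 := by
  have h1 := fun i => inv_iter h i x hx
  have h2 := congrArg θ (hf.nrm x)
  have m1 := P.mul_mem hx (h x hx)
  have m2 := P.mul_mem m1 (h1 2)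
  have m3 := P.mul_mem m2 (h1 3)
  have m4 := P.mul_mem m3 (h1 4)
  rw [hθ _ m4 _ (h1 5), hθ _ m3 _ (h1 4), hθ _ m2 _ (h1 3), hθ _ m1 _ (h1 2), hθ _ hx _ (h x hx),
    hθ.one, ← iter_pow h hτ hx, ← iter_pow h hτ hx, ← iter_pow h hτ hx, ← iter_pow h hτ hx,
    ← hτ x hx] at h2
  simp only [N6, map_add, map_pow, aeval_X, map_one, add_smul, one_smul]
  exact h2

theorem Act6.six {f : G →* G} {E v : ℕ} (hf : Act6 f E v) (hθ : AddOn P θ) {x : G}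
    (hx : x ∈ P) : v • (6 • θ x) = θ x := by
  rw [smul_smul, ← hθ.pow hx, pow_eq_pow_of_modEq hf.inv (hf.expo x), pow_one]

end Pw

variable {G : Type} [Group G] {f : G →* G} {E v : ℕ}

theorem exists_cmp {P Q : Subgroup G} (hP : Inv f P) (hQ : Inv f Q) (h : ⁅P, P⁆ ≤ Q) :
    ∃ (V : Type) (_ : AddCommGroup V) (θ : G → V) (τ : AddMonoid.End V),
      Sec P Q θ ∧ ∀ x ∈ P, τ • θ x = θ (f x) := by
  obtain ⟨V, _, θ, hθ⟩ := exists_sec h
  obtain ⟨τ, hτ⟩ := hθ.ind hP hQ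
  exact ⟨V, inferInstance, θ, τ, hθ, hτ⟩

theorem exists_tp {P Q : Subgroup G} (hP : Inv f P) (hQ : Inv f Q) (h : ⁅P, P⁆ ≤ Q) (p : ℤ[X]) :
    ∃ W : Subgroup G, Inv f W ∧ (∀ x, x ∈ W ↔ x ∈ P ∧ pw f p x ∈ Q) ∧ P ⊓ Q ≤ W := by
  obtain ⟨V, _, θ, τ, hθ, hτ⟩ := exists_cmp hP hQ h
  let W : Subgroup G :=
    { carrier := {x | x ∈ P ∧ aeval τ p • θ x = 0}
      one_mem' := ⟨P.one_mem, by rw [hθ.add.one, smul_zero]⟩
      mul_mem' := fun {a b} ha hb => ⟨P.mul_mem ha.1 hb.1, by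
        rw [hθ.add a ha.1 b hb.1, smul_add, ha.2, hb.2, add_zero]⟩
      inv_mem' := fun {a} ha => ⟨P.inv_mem ha.1, by rw [hθ.add.inv ha.1, smul_neg, ha.2, neg_zero]⟩ }
  refine ⟨W, fun x hx => ⟨hP x hx.1, ?_⟩, fun x => and_congr_right fun hx => ?_,
    fun x hx => ⟨hx.1, ?_⟩⟩
  · have : aeval τ p * τ = τ * aeval τ p := by
      have := congrArg (aeval τ) (mul_comm p X)
      rwa [map_mul, map_mul, aeval_X] at this
    rw [← hτ x hx.1, ← mul_smul, this, mul_smul, hx.2, smul_zero]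
  · rw [← pw_aeval hP hθ.add hτ p hx, hθ.zero _ (pw_mem hP p hx)]
  · rw [(hθ.zero x hx.1).2 hx.2, smul_zero]

theorem pw_congr {P Q : Subgroup G} (hP : Inv f P) (hQ : Inv f Q) (h : ⁅P, P⁆ ≤ Q) {p : ℤ[X]}
    {x y : G} (hx : x ∈ P) (hy : y ∈ P) (hxy : x⁻¹ * y ∈ Q) (hp : pw f p x ∈ Q) :
    pw f p y ∈ Q := by
  obtain ⟨W, -, hW, hQW⟩ := exists_tp hP hQ h p
  have h1 := W.mul_mem ((hW x).2 ⟨hx, hp⟩) (hQW ⟨P.mul_mem (P.inv_mem hx) hy, hxy⟩)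
  rw [mul_inv_cancel_left] at h1
  exact ((hW y).1 h1).2

theorem Act6.sa (hf : Act6 f E v) {e : ℤ[X]} (he : Ty e) {P Q : Subgroup G} (hP : Inv f P)
    (hQ : Inv f Q) (h : ⁅P, P⁆ ≤ Q) {x : G} (hx : x ∈ P) (k : ℕ) :
    pw f (e - 6) (pw f e x ^ k) ∈ Q := by
  obtain ⟨V, _, θ, τ, hθ, hτ⟩ := exists_cmp hP hQ h
  obtain ⟨m, hm⟩ := he
  have h1 := pw_mem hP e hx
  rw [← hθ.zero _ (pw_mem hP _ (P.pow_mem h1 k)), pw_aeval hP hθ.add hτ _ (P.pow_mem h1 k),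
    hθ.add.pow h1, pw_aeval hP hθ.add hτ _ hx, smul_comm, ← mul_smul, ← map_mul, hm, map_mul,
    mul_smul, hf.n6 hP hθ.add hτ hx, smul_zero, smul_zero]

theorem aeval_six {V : Type*} [AddCommGroup V] {B : Type*} [Ring B] [Module B V] (τ : B)
    (y : V) : aeval τ (6 : ℤ[X]) • y = 6 • y := by
  rw [map_ofNat, ← Nat.cast_smul_eq_nsmul B]
  rfl

theorem Act6.sb (hf : Act6 f E v) {e : ℤ[X]} {P Q : Subgroup G} (hP : Inv f P)
    (hQ : Inv f Q) (h : ⁅P, P⁆ ≤ Q) {x : G} (hx : x ∈ P) (hp : pw f (e - 6) x ∈ Q) :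
    x⁻¹ * pw f e x ^ v ∈ Q := by
  obtain ⟨V, _, θ, τ, hθ, hτ⟩ := exists_cmp hP hQ h
  have h1 := pw_mem hP e hx
  rw [← hθ.zero _ (pw_mem hP _ hx), pw_aeval hP hθ.add hτ _ hx, map_sub, sub_smul, sub_eq_zero,
    aeval_six] at hp
  rw [← hθ.eq_iff hx (P.pow_mem h1 v), hθ.add.pow h1, pw_aeval hP hθ.add hτ _ hx, hp,
    hf.six hθ.add hx]

theorem Act6.sd (hf : Act6 f E v) {e₁ e₂ e₃ : ℤ[X]} (he : e₁ + e₂ + e₃ = 6) {P Q : Subgroup G}
    (hP : Inv f P) (hQ : Inv f Q) (h : ⁅P, P⁆ ≤ Q) {x a b c : G} (hx : x ∈ P) (ha : a ∈ P)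
    (hb : b ∈ P) (hc : c ∈ P) (h1 : (pw f e₁ x ^ v)⁻¹ * a ∈ Q) (h2 : (pw f e₂ x ^ v)⁻¹ * b ∈ Q)
    (h3 : (pw f e₃ x ^ v)⁻¹ * c ∈ Q) : x⁻¹ * (a * b * c) ∈ Q := by
  obtain ⟨V, _, θ, τ, hθ, hτ⟩ := exists_cmp hP hQ h
  have k : ∀ e y, y ∈ P → (pw f e x ^ v)⁻¹ * y ∈ Q → θ y = v • (aeval τ e • θ x) := by
    intro e y hy h
    rw [← (hθ.eq_iff (P.pow_mem (pw_mem hP e hx) v) hy).2 h, hθ.add.pow (pw_mem hP e hx),
      pw_aeval hP hθ.add hτ _ hx]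
  rw [← hθ.eq_iff hx (P.mul_mem (P.mul_mem ha hb) hc), hθ.add _ (P.mul_mem ha hb) _ hc,
    hθ.add _ ha _ hb, k _ _ ha h1, k _ _ hb h2, k _ _ hc h3, ← smul_add, ← smul_add, ← add_smul,
    ← add_smul, ← map_add, ← map_add, he, aeval_six, hf.six hθ.add hx]

/-- invariant subgroups whose abelianization has type `e` -/
def Typ (f : G →* G) (e : ℤ[X]) (S : Subgroup G) : Prop :=
  Inv f S ∧ ∀ s ∈ S, pw f (e - 6) s ∈ ⁅S, S⁆

/-- the largest invariant subgroup of `X` whose abelianization has type `e` -/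
def gn (f : G →* G) (e : ℤ[X]) (X : Subgroup G) : Subgroup G := sSup {S | S ≤ X ∧ Typ f e S}

theorem gn_le (e : ℤ[X]) (X : Subgroup G) : gn f e X ≤ X := sSup_le fun _ h => h.1

theorem le_gn {e : ℤ[X]} {X S : Subgroup G} (h : S ≤ X) (hS : Typ f e S) : S ≤ gn f e X :=
  le_sSup ⟨h, hS⟩

theorem gn_mono (e : ℤ[X]) {X Y : Subgroup G} (h : X ≤ Y) : gn f e X ≤ gn f e Y :=
  sSup_le fun _ hS => le_gn (hS.1.trans h) hS.2

theorem typ_gn (e : ℤ[X]) (X : Subgroup G) : Typ f e (gn f e X) := by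
  have h1 : Inv f (gn f e X) := by
    have : gn f e X ≤ (gn f e X).comap f :=
      sSup_le fun S hS x hx => le_gn hS.1 hS.2 (hS.2.1 x hx)
    exact fun x hx => this hx
  obtain ⟨W, -, hW, -⟩ := exists_tp h1 (h1.commutator h1) le_rfl (e - 6)
  have h2 : gn f e X ≤ W := sSup_le fun S hS x hx => (hW x).2 ⟨le_gn hS.1 hS.2 hx,
    Subgroup.commutator_mono (le_gn hS.1 hS.2) (le_gn hS.1 hS.2) (hS.2.2 x hx)⟩
  exact ⟨h1, fun s hs => ((hW s).1 (h2 hs)).2⟩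

variable [Finite G]

/-- elements of type `e` in a section are covered -/
theorem Act6.cover (hf : Act6 f E v) {e : ℤ[X]} (he : Ty e) {P Q : Subgroup G} (hP : Inv f P)
    (hQ : Inv f Q) (h : ⁅P, P⁆ ≤ Q) {x : G} (hx : x ∈ P) (hp : pw f (e - 6) x ∈ Q) :
    ∃ s ∈ gn f e P, x⁻¹ * s ∈ Q := by
  obtain ⟨S, ⟨hSP, hS, s, hs, hxs⟩, hmin⟩ := exists_minimal_of_wellFoundedLT
    (fun S : Subgroup G => S ≤ P ∧ Inv f S ∧ ∃ s ∈ S, x⁻¹ * s ∈ Q)
    ⟨P, le_rfl, hP, x, hx, by simp⟩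
  obtain ⟨W, hWi, hW, -⟩ := exists_tp hS (hS.commutator hS) le_rfl (e - 6)
  have hWS : W ≤ S := fun y hy => ((hW y).1 hy).1
  have h1 : pw f e s ^ v ∈ W := (hW _).2 ⟨S.pow_mem (pw_mem hS e hs) v,
    hf.sa he hS (hS.commutator hS) le_rfl hs v⟩
  have h2 : x⁻¹ * pw f e s ^ v ∈ Q := by
    have := Q.mul_mem hxs (hf.sb hP hQ h (hSP hs) (pw_congr hP hQ h hx (hSP hs) hxs hp))
    rwa [mul_assoc, mul_inv_cancel_left] at this
  have h3 : S ≤ W := hmin ⟨hWS.trans hSP, hWi, _, h1, h2⟩ hWS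
  exact ⟨s, le_gn hSP ⟨hS, fun y hy => ((hW y).1 (h3 hy)).2⟩ hs, hxs⟩

variable [Group.IsNilpotent G]

theorem Act6.decomp (hf : Act6 f E v) {e₁ e₂ e₃ : ℤ[X]} (h1 : Ty e₁) (h2 : Ty e₂) (h3 : Ty e₃)
    (he : e₁ + e₂ + e₃ = 6) {X : Subgroup G} (hX : Inv f X) :
    X ≤ gn f e₁ X ⊔ gn f e₂ X ⊔ gn f e₃ X := by
  refine le_of_le_sup_commutator (sup_le (sup_le (gn_le _ _) (gn_le _ _)) (gn_le _ _))
    fun x hx => ?_
  have hc := hX.commutator hX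
  have k := fun e (he : Ty e) => hf.cover he hX hc le_rfl (X.pow_mem (pw_mem hX e hx) v)
    (hf.sa he hX hc le_rfl hx v)
  obtain ⟨a, ha, ha'⟩ := k _ h1
  obtain ⟨b, hb, hb'⟩ := k _ h2
  obtain ⟨c, hc', hc''⟩ := k _ h3
  have h4 := hf.sd he hX hc le_rfl hx (gn_le _ _ ha) (gn_le _ _ hb) (gn_le _ _ hc') ha' hb' hc''
  have : x = (a * b * c) * (x⁻¹ * (a * b * c))⁻¹ := by group
  rw [this]
  refine Subgroup.mul_mem _ (Subgroup.mem_sup_left ?_)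
    (Subgroup.mem_sup_right (Subgroup.inv_mem _ h4))
  exact Subgroup.mul_mem _ (Subgroup.mem_sup_left (Subgroup.mul_mem _ (Subgroup.mem_sup_left ha)
    (Subgroup.mem_sup_right hb))) (Subgroup.mem_sup_right hc')

/-- the group elimination lemma -/
theorem Act6.elim (hf : Act6 f E v) {e : ℤ[X]} (he : Ty e) {Γ : ℕ → Subgroup G} (hΓ : NS Γ)
    (hi : ∀ i, Inv f (Γ i)) {n : ℕ} (hn : Γ n = ⊥) {K : Subgroup G} (hK : Inv f K) (c : ℕ)
    (h : ∀ j, c ≤ j → ∀ x ∈ Γ j, pw f (e - 6) x ∈ Γ (j + 1) →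
      ∃ k ∈ K, k ∈ Γ j ∧ x⁻¹ * k ∈ Γ (j + 1)) : gn f e (Γ c) ≤ K := by
  set T := gn f e (Γ c) with hT
  have hTt : Typ f e T := typ_gn e _
  have key : ∀ r, T ⊓ Γ (c + r) ≤ (T ⊓ K) ⊔ ⁅T, T⁆ := by
    refine desc_ind n (fun r hr => ?_) fun r ih x hx => ?_
    · have : Γ (c + r) ≤ ⊥ := hn ▸ hΓ.anti (by omega)
      exact (inf_le_right.trans this).trans bot_le
    have hc : ⁅Γ (c + r), Γ (c + r)⁆ ≤ Γ (c + r + 1) := (hΓ.comm _ _).trans (hΓ.anti (by omega))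
    have hx1 : pw f e x ^ v ∈ T ⊓ Γ (c + r) :=
      Subgroup.pow_mem _ (pw_mem (hTt.1.inf (hi _)) e hx) v
    have h1 : x⁻¹ * pw f e x ^ v ∈ ⁅T, T⁆ :=
      hf.sb hTt.1 (hTt.1.commutator hTt.1) le_rfl hx.1 (hTt.2 x hx.1)
    have h2 := hf.sa he (hi _) (hi _) hc hx.2 v
    obtain ⟨k, hk, hk', hxk⟩ := h (c + r) (by omega) _ hx1.2 h2
    obtain ⟨s, hs, hks⟩ := hf.cover he (hK.inf (hi (c + r))) (hi _)
      ((Subgroup.commutator_mono inf_le_right inf_le_right).trans hc) ⟨hk, hk'⟩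
      (pw_congr (hi _) (hi _) hc hx1.2 hk' hxk h2)
    have hsT : s ∈ T := gn_mono e (inf_le_right.trans (hΓ.anti (by omega))) hs
    have h3 : (pw f e x ^ v)⁻¹ * s ∈ T ⊓ Γ (c + (r + 1)) := by
      refine ⟨T.mul_mem (T.inv_mem hx1.1) hsT, ?_⟩
      have := Subgroup.mul_mem _ hxk hks
      rwa [mul_assoc, mul_inv_cancel_left] at this
    have : x = s * ((pw f e x ^ v)⁻¹ * s)⁻¹ * (x⁻¹ * pw f e x ^ v)⁻¹ := by group
    rw [this]
    exact Subgroup.mul_mem _ (Subgroup.mul_mem _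
      (Subgroup.mem_sup_left ⟨hsT, (gn_le e _ hs).1⟩) (Subgroup.inv_mem _ (ih h3)))
      (Subgroup.mem_sup_right (Subgroup.inv_mem _ h1))
  have h1 : T ≤ T ⊓ K :=
    le_of_le_sup_commutator inf_le_left ((le_inf le_rfl (gn_le e _)).trans (key 0))
  exact h1.trans inf_le_right

end Pool.Agent.Lib.MP_95ba65_al.Six
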