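import Mathlib
import Pool.Agent.Lib.MP_95ba65_al.LargeKre
import Pool.Agent.Lib.MP_95ba65_al.SixLie
import Pool.Agent.Lib.MP_95ba65_al.SixTyp

/-!
Finite nilpotent groups with a fixed-point-free automorphism of order six.
-/

set_option autoImplicit false

namespace Pool.Agent.Lib.MP_95ba65_al.Six

open Finset Polynomial Pool.Agent.Lib.MP_95ba65_al.Large
open scoped commutatorElement

/-- the type of the label three -/
noncomputable def eA : ℤ[X] := 2 + 2 * X ^ 2 + 2 * X ^ 4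
/-- the type of the labels two and four -/
noncomputable def eB : ℤ[X] := 3 + 3 * X ^ 3
/-- the type of the labels one and five -/
noncomputable def eU : ℤ[X] := 1 - 2 * X ^ 2 - 3 * X ^ 3 - 2 * X ^ 4

theorem ty_A : Ty eA := ⟨4 * X ^ 3 - 4 * X ^ 2 + 8 * X - 8, by unfold eA N6; ring⟩
theorem ty_B : Ty eB := ⟨9 * X - 9, by unfold eB N6; ring⟩
theorem ty_U : Ty eU := ⟨4 * X ^ 3 + 8 * X ^ 2 + 5 * X - 5, by unfold eU N6; ring⟩
theorem sum_e : eU + eB + eA = 6 := by unfold eU eB eA; ring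

section Scal

variable {R : Type} [CommRing R]

/-- values of an idempotent polynomial at the roots of unity -/
def Lab (ψ : AddChar (ZMod 6) R) (e : ℤ[X]) (a b : ZMod 6) : Prop :=
  ∀ t, t ≠ 0 → aeval (ψ t) e = if t = a ∨ t = b then 6 else 0

theorem exists_scal {E v : ℕ} (h : v * 6 ≡ 1 [MOD E]) :
    ∃ (R : Type) (_ : CommRing R) (ψ : AddChar (ZMod 6) R) (l : R →+ ZMod E),
      l 1 = 1 ∧ Ctx ψ ∧ Lab ψ eA 3 3 ∧ Lab ψ eB 2 4 ∧ Lab ψ eU 1 5 := by
  let R := QuadraticAlgebra (ZMod E) (-1) 1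
  obtain ⟨w, hw⟩ : ∃ w : R, w ^ 2 = w - 1 := ⟨QuadraticAlgebra.omega, by
    rw [pow_two, QuadraticAlgebra.omega_mul_omega_eq_add]
    simp only [neg_smul, one_smul]
    abel⟩
  have h3 : w ^ 3 = -1 := by linear_combination (w + 1) * hw
  have h6 : w ^ 6 = 1 := by linear_combination (w ^ 3 - 1) * h3
  let ψ : AddChar (ZMod 6) R := AddChar.zmodChar 6 h6
  have p0 : ψ 0 = 1 := AddChar.map_zero_eq_one ψ
  have p1 : ψ 1 = w := (AddChar.zmodChar_apply' h6 1).trans (pow_one w)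
  have p2 : ψ 2 = w - 1 := (AddChar.zmodChar_apply' h6 2).trans hw
  have p3 : ψ 3 = -1 := (AddChar.zmodChar_apply' h6 3).trans h3
  have p4 : ψ 4 = -w := (AddChar.zmodChar_apply' h6 4).trans (by linear_combination w * h3)
  have p5 : ψ 5 = 1 - w :=
    (AddChar.zmodChar_apply' h6 5).trans (by linear_combination w ^ 2 * h3 - hw)
  have cs : ∀ t : ZMod 6, t ≠ 0 → t = 1 ∨ t = 2 ∨ t = 3 ∨ t = 4 ∨ t = 5 := by decide
  have hsum : ∀ g : ZMod 6 → R, ∑ i, g i = g 0 + g 1 + g 2 + g 3 + g 4 + g 5 :=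
    fun g => Fin.sum_univ_six g
  refine ⟨R, inferInstance, ψ, AddMonoidHom.mk' QuadraticAlgebra.re fun a b => rfl, rfl,
    ⟨fun t ht => ?_, ?_⟩, fun t ht => ?_, fun t ht => ?_, fun t ht => ?_⟩
  · have e : ∀ i : ZMod 6, ψ (i * t) = ψ t ^ i.val := by
      intro i
      rw [← AddChar.map_nsmul_eq_pow, nsmul_eq_mul, ZMod.natCast_zmod_val]
    simp only [e]
    rw [hsum]
    change ψ t ^ 0 + ψ t ^ 1 + ψ t ^ 2 + ψ t ^ 3 + ψ t ^ 4 + ψ t ^ 5 = 0
    rcases cs t ht with rfl | rfl | rfl | rfl | rfl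
    · rw [p1]; linear_combination (w ^ 3 + 2 * w ^ 2 + 2 * w + 1) * hw
    · rw [p2]; linear_combination (w ^ 3 - 3 * w ^ 2 + 3 * w) * hw
    · rw [p3]; ring
    · rw [p4]; linear_combination (1 - w ^ 3) * hw
    · rw [p5]; linear_combination (-w ^ 3 + 5 * w ^ 2 - 9 * w + 6) * hw
  · have h1 : ((v * 6 : ℕ) : ZMod E) = ((1 : ℕ) : ZMod E) :=
      (ZMod.natCast_eq_natCast_iff _ _ _).2 h
    have h2 := congrArg (algebraMap (ZMod E) R) h1
    rw [map_natCast, map_natCast, Nat.cast_mul, Nat.cast_one] at h2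
    exact IsUnit.of_mul_eq_one_right _ h2
  · simp only [eA, map_add, map_mul, map_pow, aeval_X, map_ofNat]
    rcases cs t ht with rfl | rfl | rfl | rfl | rfl
    · rw [p1, if_neg (by decide)]; linear_combination (2 * w ^ 2 + 2 * w + 2) * hw
    · rw [p2, if_neg (by decide)]; linear_combination (2 * w ^ 2 - 6 * w + 6) * hw
    · rw [p3, if_pos (by decide)]; ring
    · rw [p4, if_neg (by decide)]; linear_combination (2 * w ^ 2 + 2 * w + 2) * hw
    · rw [p5, if_neg (by decide)]; linear_combination (2 * w ^ 2 - 6 * w + 6) * hw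
  · simp only [eB, map_add, map_mul, map_pow, aeval_X, map_ofNat]
    rcases cs t ht with rfl | rfl | rfl | rfl | rfl
    · rw [p1, if_neg (by decide)]; linear_combination 3 * h3
    · rw [p2, if_pos (by decide)]; linear_combination (3 * w - 6) * hw
    · rw [p3, if_neg (by decide)]; ring
    · rw [p4, if_pos (by decide)]; linear_combination (-3) * h3
    · rw [p5, if_neg (by decide)]; linear_combination (6 - 3 * w) * hw
  · simp only [eU, map_sub, map_mul, map_pow, aeval_X, map_ofNat, map_one]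
    rcases cs t ht with rfl | rfl | rfl | rfl | rfl
    · rw [p1, if_pos (by decide)]; linear_combination (-2 * w ^ 2 - 5 * w - 5) * hw
    · rw [p2, if_neg (by decide)]; linear_combination (-2 * w ^ 2 + 3 * w) * hw
    · rw [p3, if_neg (by decide)]; ring
    · rw [p4, if_neg (by decide)]; linear_combination (-2 * w ^ 2 + w + 1) * hw
    · rw [p5, if_pos (by decide)]; linear_combination (-2 * w ^ 2 + 9 * w - 12) * hw

variable {V : Type} [AddCommGroup V] [Module R V] {ψ : AddChar (ZMod 6) R} {F : Module.End R V}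

theorem pj_aeval (hF : F ^ 6 = 1) (t : ZMod 6) (p : ℤ[X]) (x : V) :
    pj ψ F t (aeval F p • x) = aeval (ψ t) p • pj ψ F t x := by
  induction p using Polynomial.induction_on' with
  | add p q hp hq => rw [map_add, add_smul, map_add, hp, hq, map_add, add_smul]
  | monomial n a =>
    have : ∀ (n : ℕ) (x : V), pj ψ F t ((F ^ n) x) = ψ t ^ n • pj ψ F t x := by
      intro n
      induction n with
      | zero => intro x; simp
      | succ n ih =>
        intro x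
        rw [pow_succ, Module.End.mul_apply, ih, pj_apply_map hF, smul_smul, pow_succ]
    rw [aeval_monomial, aeval_monomial, mul_smul, mul_smul, eq_intCast, eq_intCast,
      Int.cast_smul_eq_zsmul, Int.cast_smul_eq_zsmul, map_zsmul, Module.End.smul_def, this]

end Scal

variable {G : Type} [Group G] {f : G →* G} {E v : ℕ}

/-- the graded Lie algebra with its second grading by eigenvalues -/
structure Sit (f : G →* G) (Γ : ℕ → Subgroup G) {R V : Type} [CommRing R] [LieRing V]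
    [LieAlgebra R V] (κ : ℕ → G → V) (F : Module.End R V) (P : ZMod 6 → Submodule R V)
    (π : ZMod 6 → V →ₗ[R] V) : Prop where
  pkg : LPkg f Γ κ F
  grad : Grad P π
  unit : IsUnit (6 : R)
  inv : ∀ S : Submodule R V, (∀ x ∈ S, F x ∈ S) → Gr π S
  labA : ∀ x : V, aeval F (eA - 6) • x = 0 ↔ x ∈ P 3
  labB : ∀ x : V, aeval F (eB - 6) • x = 0 ↔ x ∈ P 2 ⊔ P 4
  labU : ∀ x : V, aeval F (eU - 6) • x = 0 ↔ x ∈ P 1 ⊔ P 5

theorem Act6.exists_sit (hf : Act6 f E v) {Γ : ℕ → Subgroup G} (hΓ : NS Γ)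
    (hi : ∀ i, Inv f (Γ i)) :
    ∃ (R V : Type) (_ : CommRing R) (_ : LieRing V) (_ : LieAlgebra R V) (κ : ℕ → G → V)
      (F : Module.End R V) (P : ZMod 6 → Submodule R V) (π : ZMod 6 → V →ₗ[R] V),
      Sit f Γ κ F P π := by
  obtain ⟨R, _, ψ, l, hl, hψ, hA, hB, hU⟩ := exists_scal hf.inv
  obtain ⟨V, _, _, κ, F, L⟩ := exists_lpkg l hl hf.expo f hΓ hi
  have h6 : IsUnit (6 : R) := by exact_mod_cast hψ.unit
  have hext : ∀ S T : V →ₗ[R] V, (∀ i, ∀ a ∈ Γ i, S (κ i a) = T (κ i a)) → S = T := by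
    intro S T h
    refine LinearMap.ext_on L.span ?_
    rintro _ ⟨i, a, -, ha, rfl⟩
    exact h i a ha
  have hN : aeval F N6 = 0 := hext _ _ fun i a ha =>
    hf.n6 (hi i) (L.add i) (τ := F) (L.map i) ha
  have hF : F ^ 6 = 1 := by
    have : (X ^ 6 : ℤ[X]) = (X - 1) * N6 + 1 := by unfold N6; ring
    have h := congrArg (aeval F) this
    rwa [map_pow, aeval_X, map_add, map_mul, hN, mul_zero, zero_add, map_one] at h
  have hbr : ∀ x y, F ⁅x, y⁆ = ⁅F x, F y⁆ := by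
    intro x y
    have h1 : ∀ i, ∀ a ∈ Γ i, F.comp (lm R (κ i a)) = (lm R (F (κ i a))).comp F :=
      fun i a ha => hext _ _ fun j b hb => by
        change F ⁅_, _⁆ = ⁅F _, F _⁆
        rw [L.br i j a ha b hb, L.map _ _ (hΓ.mem le_rfl ha hb), L.map i a ha, L.map j b hb,
          L.br i j _ (hi i a ha) _ (hi j b hb), map_commutatorElement]
    have h2 : F.comp (rm R y) = (rm R (F y)).comp F :=
      hext _ _ fun i a ha => LinearMap.congr_fun (h1 i a ha) y
    exact LinearMap.congr_fun h2 x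
  let P : ZMod 6 → Submodule R V := fun t => LinearMap.ker (F - ψ t • 1)
  have hP : ∀ t x, x ∈ P t ↔ F x = ψ t • x := by
    intro t x
    simp only [P, LinearMap.mem_ker, LinearMap.sub_apply, LinearMap.smul_apply,
      Module.End.one_apply, sub_eq_zero]
  have six0 : ∀ x : V, (6 : R) • x = 0 → x = 0 := fun x hx => (h6.smul_eq_zero).1 hx
  have heig : ∀ t, ∀ y ∈ P t, ∀ p : ℤ[X], aeval F p • y = aeval (ψ t) p • y := by
    intro t y hy p
    rw [← hψ.sum_pj F (aeval F p • y)]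
    simp only [pj_aeval hF, hψ.pj_of_eig ((hP _ _).1 hy)]
    rw [Finset.sum_eq_single t (fun s _ hs => by rw [if_neg hs, smul_zero]) (by simp), if_pos rfl]
  have h0 : ∀ x ∈ P 0, x = 0 := by
    intro x hx
    have := heig 0 x hx N6
    rw [hN, zero_smul, AddChar.map_zero_eq_one] at this
    apply six0
    rw [this]
    congr 1
    simp only [N6, map_add, map_pow, aeval_X, map_one]
    ring
  have hm : ∀ t x, pj ψ F t x ∈ P t := fun t x => (hP _ _).2 (pj_eig hF t x)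
  have lab : ∀ e a b, Lab ψ e a b → ∀ x : V, aeval F (e - 6) • x = 0 ↔ x ∈ P a ⊔ P b := by
    intro e a b he x
    constructor
    · intro hx
      rw [← hψ.sum_pj F x]
      refine Submodule.sum_mem _ fun t _ => ?_
      by_cases ht : t = a ∨ t = b
      · rcases ht with rfl | rfl
        · exact Submodule.mem_sup_left (hm _ x)
        · exact Submodule.mem_sup_right (hm _ x)
      by_cases ht0 : t = 0
      · rw [h0 (pj ψ F t x) (ht0 ▸ hm t x)]
        exact Submodule.zero_mem _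
      have := pj_aeval (ψ := ψ) hF t (e - 6) x
      rw [hx, map_zero, map_sub, he t ht0, if_neg ht, map_ofNat, zero_sub, neg_smul, eq_comm,
        neg_eq_zero] at this
      rw [six0 _ this]
      exact Submodule.zero_mem _
    · intro hx
      have k : ∀ t, t = a ∨ t = b → ∀ y ∈ P t, aeval F (e - 6) • y = 0 := by
        intro t ht y hy
        by_cases ht0 : t = 0
        · rw [h0 y (ht0 ▸ hy), smul_zero]
        rw [heig t y hy, map_sub, he t ht0, if_pos ht, map_ofNat, sub_self, zero_smul]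
      obtain ⟨y, hy, z, hz, rfl⟩ := Submodule.mem_sup.1 hx
      rw [smul_add, k a (Or.inl rfl) y hy, k b (Or.inr rfl) z hz, add_zero]
  refine ⟨R, V, inferInstance, inferInstance, inferInstance, κ, F, P, pj ψ F, L,
    ⟨fun i j x y hx hy => ?_, h0, hm, hψ.sum_pj F, fun j x hx => hψ.pj_of_eig ((hP _ _).1 hx)⟩,
    h6, fun S hS t x hx => pj_mem hS t hx, fun x => ?_, lab _ _ _ hB, lab _ _ _ hU⟩
  · rw [hP] at hx hy ⊢
    rw [hbr, hx, hy, smul_lie, lie_smul, smul_smul, AddChar.map_add_eq_mul]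
  · rw [lab _ _ _ hA, sup_idem]

namespace Sit

variable {Γ : ℕ → Subgroup G} {R V : Type} [CommRing R] [LieRing V] [LieAlgebra R V]
  {κ : ℕ → G → V} {F : Module.End R V} {P : ZMod 6 → Submodule R V} {π : ZMod 6 → V →ₗ[R] V}
  (s : Sit f Γ κ F P π) (hΓ : NS Γ) (hi : ∀ i, Inv f (Γ i))

omit [LieAlgebra R V] in
theorem _root_.Pool.Agent.Lib.MP_95ba65_al.Six.sub_mono [Module R V] {H K : Subgroup G}
    (h : H ≤ K) : sub R Γ κ H ≤ sub R Γ κ K :=
  Submodule.span_mono (by rintro _ ⟨i, a, ha, ha', rfl⟩; exact ⟨i, a, h ha, ha', rfl⟩)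

include s

theorem ker {j : ℕ} {x : G} (hx : x ∈ Γ j) (h : κ j x = 0) : x ∈ Γ (j + 1) := by
  obtain ⟨k, hk, -, h⟩ := s.pkg.ext ⊥ j x hx (h ▸ Submodule.zero_mem _)
  rw [Subgroup.mem_bot.1 hk, mul_one] at h
  exact (Subgroup.inv_mem_iff _).1 h

include hi in
theorem typ_iff {j : ℕ} {x : G} (hx : x ∈ Γ j) (p : ℤ[X]) :
    aeval F p • κ j x = 0 ↔ pw f p x ∈ Γ (j + 1) := by
  rw [← pw_aeval (hi j) (s.pkg.add j) (τ := F) (s.pkg.map j) p hx]
  exact ⟨s.ker (pw_mem (hi j) p hx), s.pkg.zero j _⟩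

include hΓ in
theorem bk_sub (H K : Subgroup G) : bk (sub R Γ κ H) (sub R Γ κ K) ≤ sub R Γ κ ⁅H, K⁆ := by
  refine bk_span_le ?_
  rintro _ ⟨i, a, ha, ha', rfl⟩ _ ⟨j, b, hb, hb', rfl⟩
  rw [s.pkg.br i j a ha' b hb']
  exact Submodule.subset_span
    ⟨_, _, Subgroup.commutator_mem_commutator ha hb, hΓ.mem le_rfl ha' hb', rfl⟩

include hΓ in
theorem br_sub {K : Subgroup G} {x y : V} (hx : x ∈ sub R Γ κ K) (hy : y ∈ sub R Γ κ K) :
    ⁅x, y⁆ ∈ sub R Γ κ K :=
  sub_mono (Subgroup.commutator_le_self K) (s.bk_sub hΓ K K (mem_bk hx hy))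

include hΓ hi in
theorem cover [Finite G] (hf : Act6 f E v) {e : ℤ[X]} (he : Ty e) {x : V}
    (hx : aeval F (e - 6) • x = 0) : x ∈ sub R Γ κ (gn f e (Γ 0)) := by
  have h1 : sub R Γ κ ⊤ ≤ (sub R Γ κ (gn f e (Γ 0))).comap (aeval F e : Module.End R V) := by
    refine Submodule.span_le.2 ?_
    rintro _ ⟨i, a, -, ha, rfl⟩
    have hc : ⁅Γ i, Γ i⁆ ≤ Γ (i + 1) := (hΓ.comm _ _).trans (hΓ.anti (by omega))
    have h2 := hf.sa he (hi i) (hi _) hc ha 1
    rw [pow_one] at h2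
    have hb := pw_mem (hi i) e ha
    obtain ⟨t, ht, h3⟩ := hf.cover he (hi i) (hi _) hc hb h2
    have ht' := gn_le e _ ht
    have h4 := s.pkg.zero i _ h3
    rw [s.pkg.add i _ (Subgroup.inv_mem _ hb) _ ht', (s.pkg.add i).inv hb, neg_add_eq_zero,
      pw_aeval (hi i) (s.pkg.add i) (τ := F) (s.pkg.map i) e ha] at h4
    change aeval F e • κ i a ∈ sub R Γ κ (gn f e (Γ 0))
    rw [h4]
    exact Submodule.subset_span ⟨i, t, gn_mono e (hΓ.anti (Nat.zero_le i)) ht, ht', rfl⟩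
  have h2 : aeval F e • x ∈ sub R Γ κ (gn f e (Γ 0)) := h1 (s.pkg.span ▸ trivial)
  rw [map_sub, sub_smul, sub_eq_zero, aeval_six] at hx
  rw [hx, ← Nat.cast_smul_eq_nsmul R] at h2
  obtain ⟨u, hu⟩ := s.unit.exists_left_inv
  have h3 := Submodule.smul_mem _ u h2
  rwa [smul_smul, Nat.cast_ofNat, hu, one_smul] at h3

end Sit

/-- the span of the leading terms in degree `i` -/
def lead (R : Type) [CommRing R] {V : Type} [AddCommGroup V] [Module R V] (κ : ℕ → G → V)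
    (i : ℕ) (H : Subgroup G) : Submodule R V := Submodule.span R (κ i '' H)

namespace Sit

variable {Y : Subgroup G} {R V : Type} [CommRing R] [LieRing V] [LieAlgebra R V]
  {κ : ℕ → G → V} {F : Module.End R V} {P : ZMod 6 → Submodule R V} {π : ZMod 6 → V →ₗ[R] V}
  (s : Sit f Y.lowerCentralSeries κ F P π)
include s

theorem lead_le {i : ℕ} {t : Set G} (ht : Subgroup.closure t ≤ Y.lowerCentralSeries i)
    {U : Submodule R V} (h : ∀ a ∈ t, κ i a ∈ U) : lead R κ i (Subgroup.closure t) ≤ U := by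
  refine Submodule.span_le.2 ?_
  rintro _ ⟨a, ha, rfl⟩
  induction ha using Subgroup.closure_induction with
  | mem x hx => exact h x hx
  | one => rw [(s.pkg.add i).one]; exact U.zero_mem
  | mul x y hx hy h1 h2 =>
    rw [s.pkg.add i x (ht hx) y (ht hy)]
    exact U.add_mem h1 h2
  | inv x hx h1 =>
    rw [(s.pkg.add i).inv (ht hx)]
    exact U.neg_mem h1

theorem lead_succ (i : ℕ) : lead R κ (i + 1) (Y.lowerCentralSeries (i + 1)) ≤
    bk (lead R κ i (Y.lowerCentralSeries i)) (lead R κ 0 (Y.lowerCentralSeries 0)) := by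
  refine s.lead_le le_rfl ?_
  rintro _ ⟨a, ha, b, hb, rfl⟩
  rw [← s.pkg.br i 0 a ha b hb]
  exact mem_bk (Submodule.subset_span ⟨a, ha, rfl⟩) (Submodule.subset_span ⟨b, hb, rfl⟩)

theorem mem_lc {i k : ℕ} (hk : k ≤ i) {a : G} (ha : a ∈ Y.lowerCentralSeries i) :
    κ i a ∈ lc R V k := by
  have : ∀ i, lead R κ i (Y.lowerCentralSeries i) ≤ lc R V i := by
    intro i
    induction i with
    | zero => exact le_top
    | succ i ih => exact (s.lead_succ i).trans (bk_mono ih le_top)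
  exact lc_anti hk (this i (Submodule.subset_span ⟨a, ha, rfl⟩))

theorem lead_typ (hY : Inv f Y) {H : Subgroup G} (hH : H ≤ Y) {p : ℤ[X]}
    (h : ∀ a ∈ H, pw f p a ∈ ⁅Y, Y⁆) : ∀ x ∈ lead R κ 0 H, aeval F p • x = 0 := by
  have : lead R κ 0 H ≤ LinearMap.ker (aeval F p : Module.End R V) := by
    refine Submodule.span_le.2 ?_
    rintro _ ⟨a, ha, rfl⟩
    exact (s.typ_iff (inv_lcs hY) (j := 0) (hH ha) p).2 (h a ha)
  exact fun x hx => this hx

theorem top_le {H T : Subgroup G} (hY : Y = H ⊔ T) :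
    ⊤ ≤ lead R κ 0 H ⊔ lead R κ 0 T ⊔ lc R V 1 := by
  rw [← s.pkg.span]
  refine Submodule.span_le.2 ?_
  rintro _ ⟨i, a, -, ha, rfl⟩
  rcases Nat.eq_zero_or_pos i with rfl | hi
  · refine Submodule.mem_sup_left ?_
    have h1 : Subgroup.closure ((H : Set G) ∪ T) = Y := by
      rw [Subgroup.closure_union, Subgroup.closure_eq, Subgroup.closure_eq, hY]
    refine s.lead_le (i := 0) (t := (H : Set G) ∪ T) h1.le ?_
      (Submodule.subset_span ⟨a, h1 ▸ ha, rfl⟩)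
    rintro b (hb | hb)
    · exact Submodule.mem_sup_left (Submodule.subset_span ⟨b, hb, rfl⟩)
    · exact Submodule.mem_sup_right (Submodule.subset_span ⟨b, hb, rfl⟩)
  · exact Submodule.mem_sup_right (s.mem_lc hi ha)

end Sit

theorem pi_sup {R V : Type*} [CommRing R] [LieRing V] [LieAlgebra R V]
    {P : ZMod 6 → Submodule R V} {π : ZMod 6 → V →ₗ[R] V} (g : Grad P π) {a b t : ZMod 6}
    (ha : t ≠ a) (hb : t ≠ b) {x : V} (hx : x ∈ P a ⊔ P b) : π t x = 0 := by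
  obtain ⟨y, hy, z, hz, rfl⟩ := Submodule.mem_sup.1 hx
  rw [map_add, g.of_mem a y hy, g.of_mem b z hz, if_neg ha, if_neg hb, add_zero]

variable [Finite G] [Group.IsNilpotent G]

omit [Finite G] in
theorem exists_lcs_bot (Y : Subgroup G) : ∃ n, Y.lowerCentralSeries n = ⊥ :=
  (Subgroup.isNilpotent_iff_lowerCentralSeries Y).1 inferInstance

omit [Finite G] in
theorem lcs_stab {Y : Subgroup G} {k : ℕ}
    (h : Y.lowerCentralSeries k ≤ Y.lowerCentralSeries (k + 1)) : Y.lowerCentralSeries k = ⊥ := by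
  obtain ⟨n, hn⟩ := exists_lcs_bot Y
  have : ∀ m, Y.lowerCentralSeries k ≤ Y.lowerCentralSeries (k + m) := by
    intro m
    induction m with
    | zero => exact le_rfl
    | succ m ih => exact h.trans (Subgroup.commutator_mono ih le_rfl)
  exact le_bot_iff.1 ((this n).trans (hn ▸ Y.lowerCentralSeries_antitone (by omega)))

theorem Act6.step1 (hf : Act6 f E v) {Y : Subgroup G} (hY : Inv f Y) :
    ⁅Y, Y⁆ ≤ gn f eU Y ⊔ gn f eB Y := by
  obtain ⟨R, V, _, _, _, κ, F, P, π, s⟩ := hf.exists_sit (ns_lcs Y) (inv_lcs hY)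
  obtain ⟨n, hn⟩ := exists_lcs_bot Y
  have hYY := Subgroup.commutator_le_self Y
  refine (hf.decomp ty_U ty_B ty_A sum_e (hY.commutator hY)).trans
    (sup_le (sup_le_sup (gn_mono _ hYY) (gn_mono _ hYY)) ?_)
  refine hf.elim ty_A (ns_lcs Y) (inv_lcs hY) hn (inv_sup (typ_gn _ _).1 (typ_gn _ _).1) 1
    fun j hj x hx hp => s.pkg.ext _ j x hx ?_
  have hU : ∀ x ∈ P 1 ⊔ P 5, x ∈ sub R Y.lowerCentralSeries κ (gn f eU Y ⊔ gn f eB Y) :=
    fun x hx => sub_mono le_sup_left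
      (s.cover (ns_lcs Y) (inv_lcs hY) hf ty_U ((s.labU x).2 hx))
  have hB : ∀ x ∈ P 2 ⊔ P 4, x ∈ sub R Y.lowerCentralSeries κ (gn f eU Y ⊔ gn f eB Y) :=
    fun x hx => sub_mono le_sup_right
      (s.cover (ns_lcs Y) (inv_lcs hY) hf ty_B ((s.labB x).2 hx))
  exact s.grad.elim3
    (fun x hx y hy => s.br_sub (ns_lcs Y) (hU x (Submodule.mem_sup_left hx))
      (hB y (Submodule.mem_sup_left hy)))
    (fun x hx y hy => s.br_sub (ns_lcs Y) (hU x (Submodule.mem_sup_right hx))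
      (hB y (Submodule.mem_sup_right hy)))
    (s.mem_lc hj hx) ((s.labA _).1 ((s.typ_iff (inv_lcs hY) hx _).2 hp))

theorem Act6.step2 (hf : Act6 f E v) {H T : Subgroup G} (hH : Typ f eU H) (hT : Inv f T)
    (hTB : ∀ t ∈ T, pw f (eB - 6) t ∈ ⁅H ⊔ T, H ⊔ T⁆) :
    Der^[3] (H ⊔ T) ≤ gn f eU (H ⊔ T) ⊔ ⁅T, gn f eB (H ⊔ T)⁆ := by
  set Y := H ⊔ T with hYd
  have hY : Inv f Y := inv_sup hH.1 hT
  obtain ⟨R, V, _, _, _, κ, F, P, π, s⟩ := hf.exists_sit (ns_lcs Y) (inv_lcs hY)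
  obtain ⟨n, hn⟩ := exists_lcs_bot Y
  have h1 : Der^[3] Y ≤ ⁅Y.lowerCentralSeries 3, Y.lowerCentralSeries 3⁆ :=
    Subgroup.commutator_mono ((ns_lcs Y).comm 1 1) ((ns_lcs Y).comm 1 1)
  refine h1.trans ((hf.step1 (inv_lcs hY 3)).trans (sup_le
    ((gn_mono _ (Y.lowerCentralSeries_le_self 3)).trans le_sup_left) ?_))
  set K := gn f eU Y ⊔ ⁅T, gn f eB Y⁆ with hK
  refine hf.elim ty_B (ns_lcs Y) (inv_lcs hY) hn
    (inv_sup (typ_gn _ _).1 (hT.commutator (typ_gn _ _).1)) 3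
    fun j hj x hx hp => s.pkg.ext _ j x hx ?_
  have g := s.grad
  have hU : ∀ x ∈ P 1 ⊔ P 5, x ∈ sub R Y.lowerCentralSeries κ K :=
    fun x hx => sub_mono le_sup_left
      (s.cover (ns_lcs Y) (inv_lcs hY) hf ty_U ((s.labU x).2 hx))
  have h1K : ∀ x ∈ P 1, x ∈ sub R Y.lowerCentralSeries κ K :=
    fun x hx => hU x (Submodule.mem_sup_left hx)
  have h5K : ∀ x ∈ P 5, x ∈ sub R Y.lowerCentralSeries κ K :=
    fun x hx => hU x (Submodule.mem_sup_right hx)
  have br := fun {x y : V} => s.br_sub (ns_lcs Y) (K := K) (x := x) (y := y)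
  have dec : ∀ t : ZMod 6, t ≠ 1 → t ≠ 5 → ∀ b ∈ P t, ∃ u ∈ lead R κ 0 T,
      π t u ∈ lead R κ 0 T ∧ b - π t u ∈ lc R V 1 := by
    intro t ht1 ht5 b hb
    obtain ⟨c, hc, d, hd, e⟩ := Submodule.mem_sup.1 (s.top_le hYd (Submodule.mem_top (x := b)))
    obtain ⟨h, hh, u, hu, rfl⟩ := Submodule.mem_sup.1 hc
    have hh' : h ∈ P 1 ⊔ P 5 := (s.labU h).1 (s.lead_typ hY le_sup_left (fun a ha =>
      Subgroup.commutator_mono le_sup_left le_sup_left (hH.2 a ha)) h hh)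
    have hinv : ∀ x ∈ lead R κ 0 T, F x ∈ lead R κ 0 T := by
      have : lead R κ 0 T ≤ (lead R κ 0 T).comap F := by
        refine Submodule.span_le.2 ?_
        rintro _ ⟨a, ha, rfl⟩
        change F (κ 0 a) ∈ lead R κ 0 T
        rw [s.pkg.map 0 a (Subgroup.mem_sup_right ha)]
        exact Submodule.subset_span ⟨_, hT a ha, rfl⟩
      exact fun x hx => this hx
    refine ⟨u, hu, s.inv _ hinv t u hu, ?_⟩
    have e2 := congrArg (π t) e
    rw [g.of_mem t b hb, if_pos rfl, map_add, map_add, pi_sup g ht1 ht5 hh', zero_add] at e2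
    rw [← e2, add_sub_cancel_left]
    exact g.gr_lc 1 t d hd
  have h3 : P 3 ≤ lc R V 1 := by
    intro b hb
    obtain ⟨u, hu, -, h⟩ := dec 3 (by decide) (by decide) b hb
    have hu' : u ∈ P 2 ⊔ P 4 := (s.labB u).1 (s.lead_typ hY le_sup_right hTB u hu)
    rwa [pi_sup g (by decide) (by decide) hu', sub_zero] at h
  have h4 : ∀ t : ZMod 6, t ≠ 1 → t ≠ 5 → P t ≤ P 2 ⊔ P 4 → ∀ b ∈ P t, ∃ u ∈ P t,
      b - u ∈ lc R V 1 ∧ ∀ b' ∈ P t, ⁅u, b'⁆ ∈ sub R Y.lowerCentralSeries κ K := by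
    intro t ht1 ht5 ht b hb
    obtain ⟨u, -, hu, h⟩ := dec t ht1 ht5 b hb
    refine ⟨π t u, g.mem t u, h, fun b' hb' => ?_⟩
    have hl : lead R κ 0 T ≤ sub R Y.lowerCentralSeries κ T := Submodule.span_mono (by
      rintro _ ⟨a, ha, rfl⟩
      exact ⟨0, a, ha, Subgroup.mem_sup_right ha, rfl⟩)
    exact sub_mono le_sup_right (s.bk_sub (ns_lcs Y) _ _ (mem_bk (hl hu)
      (s.cover (ns_lcs Y) (inv_lcs hY) hf ty_B ((s.labB b').2 (ht hb')))))
  have hz := s.mem_lc hj hx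
  obtain ⟨y, hy, z, hz', e⟩ := Submodule.mem_sup.1
    ((s.labB _).1 ((s.typ_iff (inv_lcs hY) hx _).2 hp))
  have hy3 : y ∈ lc R V 3 := by
    have := g.gr_lc 3 2 _ hz
    rwa [← e, map_add, g.of_mem 2 y hy, g.of_mem 4 z hz', if_pos rfl, if_neg (by decide),
      add_zero] at this
  have hz3 : z ∈ lc R V 3 := by
    have := g.gr_lc 3 4 _ hz
    rwa [← e, map_add, g.of_mem 2 y hy, g.of_mem 4 z hz', if_pos rfl, if_neg (by decide),
      zero_add] at this
  rw [← e]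
  refine Submodule.add_mem _ ?_ ?_
  · exact g.elim2 (fun a ha b hb => br (h1K a ha) (h1K b hb))
      (fun a ha b hb c hc d hd => br (br (br (h5K a ha) (h5K b hb)) (h5K c hc)) (h5K d hd))
      h3 (h4 4 (by decide) (by decide) le_sup_right) hy3 hy
  · exact g.neg.elim2 (fun a ha b hb => br (h5K a ha) (h5K b hb))
      (fun a ha b hb c hc d hd => br (br (br (h1K a ha) (h1K b hb)) (h1K c hc)) (h1K d hd))
      h3 (h4 2 (by decide) (by decide) le_sup_left) hz3 hz'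

omit [Finite G] in
theorem Act6.classB (hf : Act6 f E v) {Y : Subgroup G} (hY : Typ f eB Y) :
    ⁅⁅Y, Y⁆, Y⁆ = ⊥ ∧ ∀ t ∈ ⁅Y, Y⁆, pw f (eB - 6) t = 1 := by
  obtain ⟨R, V, _, _, _, κ, F, P, π, s⟩ := hf.exists_sit (ns_lcs Y) (inv_lcs hY.1)
  have h0 : lead R κ 0 (Y.lowerCentralSeries 0) ≤ P 2 ⊔ P 4 :=
    fun x hx => (s.labB x).1 (s.lead_typ hY.1 le_rfl hY.2 x hx)
  let C : Submodule R V := (P 2 ⊔ P 4) ⊓ ⨅ w ∈ P 2 ⊔ P 4, LinearMap.ker (rm R w)
  have hC : ∀ x, x ∈ C ↔ x ∈ P 2 ⊔ P 4 ∧ ∀ w ∈ P 2 ⊔ P 4, ⁅x, w⁆ = 0 := by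
    intro x
    simp only [C, Submodule.mem_inf, Submodule.mem_iInf, LinearMap.mem_ker]
    rfl
  have h1 : lead R κ 1 (Y.lowerCentralSeries 1) ≤ C :=
    (s.lead_succ 0).trans (bk_le fun x hx y hy => (hC _).2 (s.grad.even_br (h0 hx) (h0 hy)))
  have h2 : lead R κ 2 (Y.lowerCentralSeries 2) ≤ ⊥ :=
    (s.lead_succ 1).trans (bk_le fun x hx y hy => ((hC _).1 (h1 hx)).2 y (h0 hy))
  have h3 : Y.lowerCentralSeries 2 = ⊥ :=
    lcs_stab fun x hx => s.ker hx (h2 (Submodule.subset_span ⟨x, hx, rfl⟩))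
  refine ⟨h3, fun t ht => ?_⟩
  have := (s.typ_iff (inv_lcs hY.1) (j := 1) ht _).1
    ((s.labB _).2 ((hC _).1 (h1 (Submodule.subset_span ⟨t, ht, rfl⟩))).1)
  rwa [h3, Subgroup.mem_bot] at this

omit [Finite G] in
theorem Act6.classU (hf : Act6 f E v) {Y : Subgroup G} (hY : Typ f eU Y) :
    Y.lowerCentralSeries 5 = ⊥ := by
  obtain ⟨R, V, _, _, _, κ, F, P, π, s⟩ := hf.exists_sit (ns_lcs Y) (inv_lcs hY.1)
  have h0 : lead R κ 0 (Y.lowerCentralSeries 0) ≤ P 1 ⊔ P 5 :=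
    fun x hx => (s.labU x).1 (s.lead_typ hY.1 le_rfl hY.2 x hx)
  have h5 := s.grad.unit_nil (E := fun i => lead R κ i (Y.lowerCentralSeries i)) h0 s.lead_succ
  exact lcs_stab fun x hx => s.ker hx (h5 (Submodule.subset_span ⟨x, hx, rfl⟩))

theorem Act6.main (hf : Act6 f E v) : derivedSeries G 10 = ⊥ := by
  set H := gn f eU ⊤ with hH
  set B := gn f eB ⊤ with hB
  have tH : Typ f eU H := typ_gn _ _
  have tB : Typ f eB B := typ_gn _ _
  obtain ⟨c1, c2⟩ := hf.classB tB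
  have h1 : Der^[1] ⊤ ≤ H ⊔ B := hf.step1 (inv_top f)
  have h2 : Der^[3] (H ⊔ B) ≤ H ⊔ ⁅B, B⁆ :=
    (hf.step2 tH tB.1 fun t ht =>
      Subgroup.commutator_mono le_sup_right le_sup_right (tB.2 t ht)).trans
      (sup_le_sup (gn_mono _ le_top) (Subgroup.commutator_mono le_rfl (gn_mono _ le_top)))
  have h3 : Der^[3] (H ⊔ ⁅B, B⁆) ≤ H :=
    (hf.step2 tH (tB.1.commutator tB.1) fun t ht => c2 t ht ▸ Subgroup.one_mem _).trans
      (sup_le (gn_mono _ le_top)
        ((Subgroup.commutator_mono le_rfl (gn_mono _ le_top)).trans (c1.le.trans bot_le)))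
  have h4 : Der^[3] H ≤ ⊥ := by
    have a1 : Der^[3] H ≤ ⁅H.lowerCentralSeries 3, H.lowerCentralSeries 3⁆ :=
      Subgroup.commutator_mono ((ns_lcs H).comm 1 1) ((ns_lcs H).comm 1 1)
    exact a1.trans (((ns_lcs H).comm 3 3).trans
      ((H.lowerCentralSeries_antitone (by omega)).trans (hf.classU tH).le))
  rw [derivedSeries_eq, eq_bot_iff]
  change Der^[3 + (3 + (3 + 1))] ⊤ ≤ ⊥
  rw [Function.iterate_add_apply, Function.iterate_add_apply, Function.iterate_add_apply]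
  exact (Der_iter_mono 3 ((Der_iter_mono 3 ((Der_iter_mono 3 h1).trans h2)).trans h3)).trans h4

end Pool.Agent.Lib.MP_95ba65_al.Six
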